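import Pool.Agent.H859.SC.N352PJIdx
import Pool.Graph.R_pool_sql_team_seeded_63374d34.N874.JM.Fld
import Pool.Agent.H859.SC.N874JMAbs

/-!
# The 2-Selmer group over the extension: the fields

Project JM (helper874).
-/

set_option autoImplicit false
set_option linter.all false

open Polynomial IsDedekindDomain
open Pool.Agent.N352.PJ
open Pool.Agent.N874.PP (nm Ov Ev Sq1 U0 S_CLS S_LIN cl cl_add_aux exists_below below_unique)
open Pool.Agent.N874.PM (Gen SplitMod top_up)
open scoped Classical IntermediateField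

namespace Pool.Agent.H859.N874.JM
open Pool.Agent.N874.JM Pool.Agent.H859.PJ
section mid

variable {k K L M Ω : Type} [Field k] [Finite k] [Field K] [Field L] [Field M]
  [Field Ω]
  [Algebra k[X] K] [IsFractionRing k[X] K]
  [Algebra K L] [Algebra k[X] L] [IsScalarTower k[X] K L]
  [Algebra K M] [Algebra k[X] M] [IsScalarTower k[X] K M]
  [Algebra L Ω] [Algebra M Ω] [Algebra K Ω] [IsScalarTower K L Ω] [IsScalarTower K M Ω]
  [Algebra k[X] Ω] [IsScalarTower k[X] L Ω] [IsScalarTower k[X] M Ω]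
  [FiniteDimensional K L] [Algebra.IsSeparable K L] [FiniteDimensional K M] [IsGalois K M]
  [FiniteDimensional K Ω] [Algebra.IsSeparable K Ω] (R : Type)
  [CommRing R] [IsDedekindDomain R] [Algebra R M] [IsFractionRing R M] [Algebra k[X] R]
  [IsScalarTower k[X] R M] [IsIntegralClosure R k[X] M]

theorem selF_mid (H : PartsA) {g : ℕ} {f : k[X][X]} {θ : L} {N : ℕ} {r : k[X]}
    {S T : Finset k[X]}
    {s A : k[X] → k[X][X]} (h2 : (2 : k) ≠ 0) (hg : 1 ≤ g) (hc : IsGen g K f θ)
    (hr : GoodRA g r) (hS : GoodSA g S s)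
    (hF : FamTA g N r S s T A f) (hnb : ¬ LBadA g N S s f) (hT : GoodTA g T A)
    {γ : M} {m : k[X][X]} {δ : k[X]} (hG : Gen K γ m δ)
    (hθ : M⟮algebraMap L Ω θ⟯ = ⊤) (hsp : ∀ Q ∈ S, SplitMod Q m)
    (hδ : ∀ P : k[X], P.Monic → Irreducible P → P ∣ δ → P ∈ T) (hdis : Disjoint S T)
    {n : ℕ} (hM : Module.finrank K M = 2 ^ n) (hΩ : Module.finrank M Ω = 2 * g + 1) :
    ∃ J ⊆ S, ∀ h : M[X], aeval (algebraMap k[X] Ω (∏ Q ∈ J, Q) * algebraMap L Ω θ) h ≠ 0 →
      IsSquare (Algebra.norm M (aeval (algebraMap k[X] Ω (∏ Q ∈ J, Q) * algebraMap L Ω θ) h)) →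
      (∀ w : HeightOneSpectrum R, LocF (w.adicCompletion M)
        ((f.scaleRoots (∏ Q ∈ J, Q)).map (algebraMap k[X] M)) h) →
      IsSquare (aeval (algebraMap k[X] Ω (∏ Q ∈ J, Q) * algebraMap L Ω θ) h) := by
  haveI : IsScalarTower k[X] K Ω := by
    refine IsScalarTower.of_algebraMap_eq fun x => ?_
    rw [IsScalarTower.algebraMap_apply k[X] M Ω, IsScalarTower.algebraMap_apply k[X] K M,
      ← IsScalarTower.algebraMap_apply K M Ω]
  haveI : IsDedekindDomain (integralClosure k[X] L) := integralClosure.isDedekindDomain k[X] K L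
  haveI : IsFractionRing (integralClosure k[X] L) L :=
    integralClosure.isFractionRing_of_finite_extension K L
  haveI : Module.Finite k[X] (integralClosure k[X] L) := IsIntegralClosure.finite k[X] K L _
  haveI : Module.Finite k[X] R := IsIntegralClosure.finite k[X] K M R
  haveI : IsDedekindDomain (integralClosure k[X] Ω) := integralClosure.isDedekindDomain k[X] K Ω
  haveI : IsFractionRing (integralClosure k[X] Ω) Ω :=
    integralClosure.isFractionRing_of_finite_extension K Ω
  haveI : Module.Finite k[X] (integralClosure k[X] Ω) := IsIntegralClosure.finite k[X] K Ω _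
  have hG' : Gen L (algebraMap M Ω γ) m δ := by
    refine ⟨top_up (K := K) hG.top hθ, hG.monic, ?_, hG.ne, hG.comb⟩
    rw [aeval_algebraMap_apply, hG.root, map_zero]
  exact selF_abs (integralClosure k[X] L) (integralClosure k[X] Ω)
    R H h2 hg hc hr hS hF hnb hT hG hG' hsp hδ hdis hM hΩ

end mid

/-- The theorem on the Selmer group over `M`. -/
theorem selF (H : PartsA) {k : Type} [Field k] [Finite k] (K M : Type) [Field K]
    [Algebra k[X] K] [IsFractionRing k[X] K] [Field M] [Algebra K M] [Algebra k[X] M]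
    [IsScalarTower k[X] K M] [FiniteDimensional K M] [IsGalois K M] (R : Type)
    [CommRing R] [IsDedekindDomain R] [Algebra R M] [IsFractionRing R M] [Algebra k[X] R]
    [IsScalarTower k[X] R M] [IsIntegralClosure R k[X] M] {n : ℕ}
    (hM : Module.finrank K M = 2 ^ n) {g : ℕ} {f : k[X][X]} {N : ℕ} {r : k[X]}
    {S T : Finset k[X]} {s A : k[X] → k[X][X]} (h2 : (2 : k) ≠ 0) (hg : 1 ≤ g)
    (hr : GoodRA g r) (hS : GoodSA g S s)
    (hF : FamTA g N r S s T A f) (hnb : ¬ LBadA g N S s f) (hT : GoodTA g T A)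
    {γ : M} {m : k[X][X]} {δ : k[X]} (hG : Gen K γ m δ) (hsp : ∀ Q ∈ S, SplitMod Q m)
    (hδ : ∀ P : k[X], P.Monic → Irreducible P → P ∣ δ → P ∈ T) (hdis : Disjoint S T) :
    ∃ J ⊆ S, SelF R ((f.scaleRoots (∏ Q ∈ J, Q)).map (algebraMap k[X] M)) := by
  have hm := hF.fam.ht.mon
  have hd := hF.fam.ht.deg
  have hI := fun D hD => H.irk g k K f N r D hF.fam.ht hr hF.fam.inf hD
  haveI hfact : Fact (Irreducible (FK K f)) := ⟨(hI 1 one_ne_zero).1⟩
  have hsep : (FK K f).Separable := ((hI 1 one_ne_zero).2.2 hF.fam.sq.ne_zero).1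
  have hc := isGen_adjoinRoot (K := K) hm hd
  have hmK : (FK K f).Monic := hm.map _
  have hdK : (FK K f).natDegree = 2 * g + 1 := by rw [FK, hm.natDegree_map, hd]
  haveI : FiniteDimensional K (AdjoinRoot (FK K f)) := hmK.finite_adjoinRoot
  haveI : Algebra.IsSeparable K (AdjoinRoot (FK K f)) := sep_adjoinRoot hsep
  have hmM : (FK M f).Monic := hm.map _
  have hdM : (FK M f).natDegree = 2 * g + 1 := by rw [FK, hm.natDegree_map, hd]
  have hFmap : FK M f = (FK K f).map (algebraMap K M) := by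
    rw [FK, FK, Polynomial.map_map, ← IsScalarTower.algebraMap_eq k[X] K M]
  have hirrM : Irreducible (FK M f) := by
    rw [hFmap]
    exact irr_up hM hfact.out hmK (by rw [hdK]; exact odd_two_mul_add_one g)
  have hirrD : ∀ D : k[X], D ≠ 0 → Irreducible ((f.scaleRoots D).map (algebraMap k[X] M)) := by
    intro D hD
    have h1 : (f.scaleRoots D).Monic := (monic_scaleRoots_iff D).2 hm
    have h3 : ((f.scaleRoots D).map (algebraMap k[X] K)).natDegree = 2 * g + 1 := by
      rw [h1.natDegree_map, natDegree_scaleRoots, hd]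
    have h4 := irr_up hM (hI D hD).2.1 (h1.map _) (by rw [h3]; exact odd_two_mul_add_one g)
    rwa [Polynomial.map_map, ← IsScalarTower.algebraMap_eq k[X] K M] at h4
  obtain ⟨Ω, instF, instA, t, ht, hrk, htop, hfin, hmin⟩ := exists_field hirrM hmM
  rw [hdM] at hrk
  letI : Algebra K Ω := ((algebraMap M Ω).comp (algebraMap K M)).toAlgebra
  haveI : IsScalarTower K M Ω := IsScalarTower.of_algebraMap_eq fun x => rfl
  letI : Algebra k[X] Ω := ((algebraMap M Ω).comp (algebraMap k[X] M)).toAlgebra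
  haveI : IsScalarTower k[X] M Ω := IsScalarTower.of_algebraMap_eq fun x => rfl
  have ht' : (FK K f).eval₂ (algebraMap K Ω) t = 0 := by
    rw [hFmap, aeval_def, eval₂_map] at ht
    exact ht
  letI : Algebra (AdjoinRoot (FK K f)) Ω := (AdjoinRoot.lift (algebraMap K Ω) t ht').toAlgebra
  have hL : ∀ x : AdjoinRoot (FK K f), algebraMap (AdjoinRoot (FK K f)) Ω x =
      AdjoinRoot.lift (algebraMap K Ω) t ht' x := fun x => rfl
  haveI : IsScalarTower K (AdjoinRoot (FK K f)) Ω := by
    refine IsScalarTower.of_algebraMap_eq fun x => ?_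
    rw [hL, AdjoinRoot.algebraMap_eq, AdjoinRoot.lift_of]
  haveI : IsScalarTower k[X] (AdjoinRoot (FK K f)) Ω := by
    refine IsScalarTower.of_algebraMap_eq fun x => ?_
    rw [IsScalarTower.algebraMap_apply k[X] K (AdjoinRoot (FK K f)),
      ← IsScalarTower.algebraMap_apply K (AdjoinRoot (FK K f)) Ω,
      IsScalarTower.algebraMap_apply k[X] M Ω, IsScalarTower.algebraMap_apply k[X] K M,
      ← IsScalarTower.algebraMap_apply K M Ω]
  haveI : FiniteDimensional K Ω := FiniteDimensional.trans K M Ω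
  haveI : Algebra.IsSeparable M Ω := by
    have hs : (FK M f).Separable := by
      rw [hFmap]
      exact hsep.map
    have hsep' : IsSeparable M t := by
      unfold IsSeparable
      rw [hmin]
      exact hs
    haveI := (IntermediateField.isSeparable_adjoin_simple_iff_isSeparable M Ω).2 hsep'
    rw [htop] at this
    exact AlgEquiv.Algebra.isSeparable (IntermediateField.topEquiv (F := M) (E := Ω))
  haveI : Algebra.IsSeparable K Ω := Algebra.IsSeparable.trans K M Ω
  have hroot : algebraMap (AdjoinRoot (FK K f)) Ω (AdjoinRoot.root (FK K f)) = t := by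
    rw [hL, AdjoinRoot.lift_root]
  obtain ⟨J, hJ, hsel⟩ := selF_mid (K := K) (L := AdjoinRoot (FK K f)) (Ω := Ω) R H h2 hg hc hr hS
    hF hnb hT hG (by rw [hroot]; exact htop) hsp hδ hdis hM hrk
  rw [hroot] at hsel
  refine ⟨J, hJ, ?_⟩
  have hD0 : (∏ Q ∈ J, Q) ≠ 0 := by
    rw [Finset.prod_ne_zero_iff]
    exact fun Q hQ => (hS Q (hJ hQ)).2.1.ne_zero
  generalize (∏ Q ∈ J, Q) = D at hD0 hsel ⊢
  intro h hcop hnorm hloc
  set F' : M[X] := (f.scaleRoots D).map (algebraMap k[X] M) with hF'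
  haveI hfact' : Fact (Irreducible F') := ⟨hirrD D hD0⟩
  set Θ : Ω := algebraMap k[X] Ω D * t with hΘ
  have hrootD : aeval Θ F' = 0 := by
    rw [hF', aeval_map_algebraMap]
    have h1 := scaleRoots_eval₂_mul (p := f) (algebraMap k[X] Ω) t D
    have h3 : eval₂ (algebraMap k[X] Ω) t f = 0 := by
      rw [FK, aeval_map_algebraMap, aeval_def] at ht
      exact ht
    rw [h3, mul_zero] at h1
    rw [aeval_def]
    exact h1
  have hmF' : F'.Monic := ((monic_scaleRoots_iff D).2 hm).map _
  let φ : AdjoinRoot F' →ₐ[M] Ω := AdjoinRoot.liftAlgHom F' (Algebra.ofId M _) Θ hrootD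
  have hφmk : ∀ p : M[X], φ (AdjoinRoot.mk F' p) = aeval Θ p := by
    intro p
    have h1 := AdjoinRoot.liftAlgHom_mk F' (Algebra.ofId M Ω) Θ hrootD p
    rw [Algebra.toRingHom_ofId, ← Polynomial.aeval_def] at h1
    exact h1
  have hφinj : Function.Injective φ := φ.toRingHom.injective
  haveI : FiniteDimensional M (AdjoinRoot F') := hmF'.finite_adjoinRoot
  have hrk' : Module.finrank M (AdjoinRoot F') = Module.finrank M Ω := by
    rw [hrk, (AdjoinRoot.powerBasis hmF'.ne_zero).finrank, AdjoinRoot.powerBasis_dim, hF',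
      ((monic_scaleRoots_iff D).2 hm).natDegree_map, natDegree_scaleRoots, hd]
  have hφsurj : Function.Surjective φ :=
    (LinearMap.injective_iff_surjective_of_finrank_eq_finrank (f := φ.toLinearMap) hrk').1 hφinj
  let e : AdjoinRoot F' ≃ₐ[M] Ω := AlgEquiv.ofBijective φ ⟨hφinj, hφsurj⟩
  have hemk : ∀ p : M[X], e (AdjoinRoot.mk F' p) = aeval Θ p := hφmk
  have hne : aeval Θ h ≠ 0 := by
    intro h0
    obtain ⟨u, v, huv⟩ := hcop
    have := congrArg (aeval Θ) huv
    rw [map_add, map_mul, map_mul, hrootD, h0, mul_zero, mul_zero, add_zero, map_one] at this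
    exact zero_ne_one this
  have hnorm' : IsSquare (Algebra.norm M (aeval Θ h)) := by
    rw [← hemk, Algebra.norm_eq_of_algEquiv]
    exact hnorm
  obtain ⟨y, hy⟩ := hsel h hne hnorm' hloc
  obtain ⟨z, rfl⟩ := hφsurj y
  obtain ⟨s', rfl⟩ := AdjoinRoot.mk_surjective z
  refine ⟨s', ?_⟩
  rw [← AdjoinRoot.mk_eq_zero]
  apply hφinj
  rw [map_zero, hφmk, map_sub, map_pow, sub_eq_zero]
  rw [hφmk] at hy
  rw [pow_two]
  exact hy

end Pool.Agent.H859.N874.JM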