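import Pool.Agent.H859.SC.N352PJIdx
import Pool.Graph.R_pool_sql_team_seeded_63374d34.N874.JM.Stm

/-!
# A positive proportion of all odd hyperelliptic Jacobians over a Galois 2-extension, in every odd
# characteristic: statements, after `N874/JM/Stm.lean` of helper874
-/

set_option autoImplicit false
set_option linter.all false

open Polynomial IsDedekindDomain
open Pool.Agent.N352.PJ
open Pool.Agent.N874.PP (nm Ov Ev Sq1 U0)
open Pool.Agent.N874.PM (Lies)
open scoped Classical IntermediateField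

namespace Pool.Agent.H859.PJ

/-- The primes in `T` and the polynomials `A P` which are irreducible modulo `P`. -/
def GoodTA (g : ℕ) {k : Type} [Field k] (T : Finset k[X]) (A : k[X] → k[X][X]) : Prop :=
  ∀ P ∈ T, P.Monic ∧ Irreducible P ∧ (A P).Monic ∧ (A P).natDegree = 2 * g + 1 ∧
    True ∧ Irreducible ((A P).map (Ideal.Quotient.mk (Ideal.span {P})))

/-- The family with the additional conditions at the primes in `T`. -/
structure FamTA (g : ℕ) {k : Type} [Field k] (N : ℕ) (r : k[X]) (S : Finset k[X])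
    (h : k[X] → k[X][X]) (T : Finset k[X]) (A : k[X] → k[X][X]) (f : k[X][X]) : Prop where
  fam : FamA g N r S h f
  con : ∀ P ∈ T, Cg P f (A P)

/-- Many polynomials in the family (the constant does not depend on `S`). -/
def S_FAMTA : Prop := ∀ (g : ℕ) (k : Type) [Field k] [Finite k], 1 ≤ g →
  (2 : k) ≠ 0 → ∀ r : k[X], GoodRA g r →
  ∀ (T : Finset k[X]) (A : k[X] → k[X][X]), GoodTA g T A →
  ∃ c : ℝ, 0 < c ∧ ∀ (S : Finset k[X]) (h : k[X] → k[X][X]), GoodSA g S h → Disjoint S T →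
    ∃ N₀ : ℕ, ∀ N ≥ N₀,
    c * (Nat.card k : ℝ) ^ (2 * N * ddA g) ≤ ((∏ Q ∈ S, nm Q ^ (2 * g + 1) : ℕ) : ℝ) *
      ({f : k[X][X] | FamTA g N r S h T A f}.ncard : ℝ)

/-- Existence of the residues. -/
def S_TCHA : Prop := ∀ (g : ℕ) (k : Type) [Field k] [Finite k], 1 ≤ g →
  ∀ T : Finset k[X], (∀ P ∈ T, P.Monic ∧ Irreducible P) →
  (∃ A : k[X] → k[X][X], GoodTA g T A) ∧ ∃ h : k[X] → k[X][X], GoodSA g T h

/-- Existence of the reduction at infinity. -/
def S_GRA : Prop := ∀ (g : ℕ) (k : Type) [Field k] [Finite k], 1 ≤ g → ∃ r : k[X], GoodRA g r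

end Pool.Agent.H859.PJ
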