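import Pool.Agent.H859.SC.N352PJIdx
import Pool.Graph.R_pool_sql_team_seeded_63374d34.N622.PJ.Rec
import Pool.Graph.R_pool_sql_team_seeded_63374d34.N622.PJ.RecE

/-!
# Project PJ (helper352), part REC: the reciprocity law

By helper622.
-/

set_option autoImplicit false
set_option linter.all false

open Polynomial IsDedekindDomain Matrix WithZero
open scoped Classical

namespace Pool.Agent.H859.N622.PJ
open Pool.Agent.N622.PJ Pool.Agent.H859.PJ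
open Pool.Agent.N874.PP (Ov Ev Sq1 U0)
open Pool.Agent.N352.PJ

attribute [local instance] algF

/-- the dimension of the product of the residue fields -/
theorem finrank_prod {k O : Type} [Field k] [Finite k] [CommRing O] [IsDedekindDomain O]
    [Algebra k[X] O] (g : ℕ) (S₁ : Finset k[X]) (𝔮 : k[X] → HeightOneSpectrum O)
    (hm : ∀ Q ∈ S₁, Q.Monic)
    (h : ∀ Q ∈ S₁, Nat.card (O ⧸ (𝔮 Q).asIdeal) = Nat.card k ^ (2 * g * Q.natDegree)) :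
    (∀ i : S₁, Finite (FF (𝔮 i))) ∧
    Module.finrank k (∀ i : S₁, FF (𝔮 i)) = 2 * (g * (∏ Q ∈ S₁, Q).natDegree) := by
  have hcard : ∀ i : S₁, Nat.card (FF (𝔮 i)) = Nat.card k ^ (2 * g * (i : k[X]).natDegree) :=
    fun i => h i i.2
  have hk : 1 < Nat.card k := Finite.one_lt_card
  have hfin : ∀ i : S₁, Finite (FF (𝔮 i)) := fun i =>
    Nat.finite_of_card_ne_zero (by rw [hcard]; positivity)
  refine ⟨hfin, ?_⟩
  have h1 : Nat.card (∀ i : S₁, FF (𝔮 i)) = Nat.card k ^ (2 * (g * (∏ Q ∈ S₁, Q).natDegree)) := by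
    rw [Nat.card_pi]
    simp_rw [hcard]
    rw [Finset.prod_pow_eq_pow_sum, natDegree_prod_of_monic _ _ hm, Finset.mul_sum, Finset.mul_sum]
    congr 1
    rw [← Finset.sum_coe_sort S₁ (fun Q : k[X] => 2 * (g * Q.natDegree))]
    refine Finset.sum_congr rfl fun i _ => ?_
    ring
  haveI : Module.Finite k (∀ i : S₁, FF (𝔮 i)) := Module.Finite.of_finite
  have h2 : Nat.card (∀ i : S₁, FF (𝔮 i)) = Nat.card k ^ Module.finrank k (∀ i : S₁, FF (𝔮 i)) :=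
    Module.natCard_eq_pow_finrank
  rw [h1] at h2
  exact (Nat.pow_right_injective hk h2).symm

/-- the class of `κ θ` -/
theorem class_iff {k L O : Type} [Field k] [Field L] [Algebra k[X] L] [CommRing O]
    [IsDedekindDomain O] [Algebra O L] [IsFractionRing O L] [Algebra k[X] O]
    [IsScalarTower k[X] O L] [IsIntegralClosure O k[X] L] {θ : L}
    {S₁ : Finset k[X]} {𝔮 𝔭 : k[X] → HeightOneSpectrum O} (D : Dat θ S₁ 𝔮 𝔭) {α β : L}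
    (hα : α ≠ 0) (hβ0 : β ≠ 0)
    (hβ : ∀ Q ∈ S₁, (𝔮 Q).valuation L β ^ 2 = (𝔮 Q).valuation L α * exp (1 : ℤ)) {κ t : O}
    (ht : algebraMap O L t = θ)
    (hκ : ∀ Q ∈ S₁, (𝔮 Q).valuation L
      (algebraMap O L κ - algebraMap k[X] L (∏ Q ∈ S₁, Q) * β ^ 2 / α) < 1) {Q : k[X]} (hQ : Q ∈ S₁)
    (hc : ∀ c : k[X], ¬ Q ∣ c → Sq1 (𝔮 Q) (algebraMap k[X] L c)) :
    κ ∉ (𝔮 Q).asIdeal ∧
    (IsSquare (red (𝔮 Q) κ * red (𝔮 Q) t) ↔ Sq1 (𝔮 Q) (α * (algebraMap k[X] L Q * θ))) := by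
  have hk1 : (𝔮 Q).valuation L (algebraMap k[X] L (∏ Q ∈ S₁, Q) * β ^ 2 / α) = 1 := by
    rw [map_div₀, map_mul, map_pow, hβ Q hQ, D.valP hQ (D.ovq Q hQ),
      div_eq_one_iff_eq (val_ne _ hα), mul_left_comm, ← exp_add]
    simp
  set u := algebraMap k[X] L (∏ Q ∈ S₁, Q) * β ^ 2 / α with hu
  have hk2 : (𝔮 Q).valuation L (algebraMap O L κ) = 1 := eq_of_approx hk1 (hκ Q hQ)
  have hu0 : u ≠ 0 := by
    intro h0
    rw [h0, map_zero] at hk1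
    exact zero_ne_one hk1
  have hκm : κ ∉ (𝔮 Q).asIdeal := by
    rw [mem_iff_val (L := L), hk2]
    exact lt_irrefl _
  refine ⟨hκm, ?_⟩
  have htm : t ∉ (𝔮 Q).asIdeal := D.t_notMem ht hQ
  have hmul : κ * t ∉ (𝔮 Q).asIdeal := fun h => ((𝔮 Q).isPrime.mem_or_mem h).elim hκm htm
  rw [← map_mul]
  refine (isSquare_iff (L := L) hmul).trans ?_
  rw [map_mul, ht]
  -- `κ = u * (κ / u)`
  have hκ0 : algebraMap O L κ ≠ 0 := by
    intro h0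
    rw [h0, map_zero] at hk2
    exact zero_ne_one hk2
  have hr : Sq1 (𝔮 Q) (algebraMap O L κ / u) := by
    rw [sq1_iff]
    refine ⟨1, one_ne_zero, ?_⟩
    have e : algebraMap O L κ / u / 1 ^ 2 - 1 = (algebraMap O L κ - u) / u := by
      field_simp
    rw [e, map_div₀, hk1, div_one]
    exact hκ Q hQ
  have e1 : algebraMap O L κ * θ = (u * θ) * (algebraMap O L κ / u) := by
    field_simp
  rw [e1, sq1_mul_iff (div_ne_zero hκ0 hu0) hr]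
  have hP : (∏ Q ∈ S₁, Q) = Q * ∏ Q ∈ S₁.erase Q, Q := (Finset.mul_prod_erase _ _ hQ).symm
  have hnd : ¬ Q ∣ ∏ Q ∈ S₁.erase Q, Q := by
    intro h
    obtain ⟨Q', hQ', hd⟩ := (D.irr Q hQ).prime.exists_mem_finset_dvd h
    have hQ'1 := Finset.mem_of_mem_erase hQ'
    exact Finset.ne_of_mem_erase hQ' (Polynomial.eq_of_monic_of_associated (D.mon Q hQ)
      (D.mon Q' hQ'1) ((D.irr Q hQ).associated_of_dvd (D.irr Q' hQ'1) hd)).symm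
  have hc1 := hc _ hnd
  have hc0 : algebraMap k[X] L (∏ Q ∈ S₁.erase Q, Q) ≠ 0 := by
    intro h0
    apply hnd
    rw [D.inj (h0.trans (map_zero _).symm)]
    exact dvd_zero _
  have e2 : u * θ = (α * (algebraMap k[X] L Q * θ)) * (β / α) ^ 2 *
      algebraMap k[X] L (∏ Q ∈ S₁.erase Q, Q) := by
    rw [hu, hP, map_mul]
    field_simp
  rw [e2, sq1_mul_iff hc0 hc1, sq1_mul_sq (div_ne_zero hβ0 hα)]

/-- **The reciprocity law.** -/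
theorem recp (h0 : S_INT) (h1 : S_EXQA) (h2 : S_CSQA) (h3 : S_PRY) (h4 : S_GLA) : S_RECA := by
  intro g k K L O _ _ _ _ _ _ _ _ _ _ _ _ _ _ _ _ f θ N r S h hg h2k hG hr hS hF 𝔮 h𝔮 α hα hsqn hev
  have hsq := hF.sq
  have hinj : Function.Injective (algebraMap k[X] L) := by
    rw [IsScalarTower.algebraMap_eq k[X] K L]
    exact (algebraMap K L).injective.comp (IsFractionRing.injective k[X] K)
  -- the other primes
  have hex : ∀ Q : k[X], ∃ 𝔓₁ : HeightOneSpectrum O, Q ∈ S → (Ov Q 𝔓₁ ∧ 𝔓₁.valuation L θ < 1 ∧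
      𝔓₁.valuation L (algebraMap k[X] L Q) = exp (-1 : ℤ) ∧
      (𝔮 Q).valuation L (algebraMap k[X] L Q) = exp (-1 : ℤ) ∧
      ∀ 𝔓 : HeightOneSpectrum O, Ov Q 𝔓 → 𝔓 = 𝔮 Q ∨ 𝔓 = 𝔓₁) := by
    intro Q
    by_cases hQ : Q ∈ S
    · obtain ⟨𝔓₁, 𝔮', o1, o2, v1, v2, w1, w2, hall⟩ :=
        h1 g k K L O f θ S h hg hG hsq hS Q hQ (hF.con Q hQ)
      have e1 : 𝔮 Q = 𝔮' := by
        rcases hall (𝔮 Q) (h𝔮 Q hQ).1 with h5 | h5
        · exfalso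
          have h6 := (h𝔮 Q hQ).2
          rw [h5] at h6
          exact absurd h6 v1.ne
        · exact h5
      refine ⟨𝔓₁, fun _ => ⟨o1, v1, w1, by rw [e1]; exact w2, fun 𝔓 h5 => ?_⟩⟩
      rcases hall 𝔓 h5 with h6 | h6
      · exact Or.inr h6
      · exact Or.inl (by rw [e1]; exact h6)
    · exact ⟨𝔮 Q, fun h5 => absurd h5 hQ⟩
  choose 𝔭 h𝔭 using hex
  set S₁ := S.filter fun Q => ¬ Ev (𝔮 Q) α with hS₁
  have hsub : S₁ ⊆ S := Finset.filter_subset _ _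
  have D : Dat θ S₁ 𝔮 𝔭 :=
    { inj := hinj
      mon := fun Q hQ => (hS Q (hsub hQ)).1
      irr := fun Q hQ => (hS Q (hsub hQ)).2.1
      ovq := fun Q hQ => (h𝔮 Q (hsub hQ)).1
      ovp := fun Q hQ => (h𝔭 Q (hsub hQ)).1
      tq := fun Q hQ => (h𝔮 Q (hsub hQ)).2
      tp := fun Q hQ => (h𝔭 Q (hsub hQ)).2.1
      vq := fun Q hQ => (h𝔭 Q (hsub hQ)).2.2.2.1
      vp := fun Q hQ => (h𝔭 Q (hsub hQ)).2.2.1
      two := fun Q hQ => (h𝔭 Q (hsub hQ)).2.2.2.2 }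
  have hfil : (S.filter fun Q => ¬ Ev (𝔮 Q) α ∧ ¬ Sq1 (𝔮 Q) (α * (algebraMap k[X] L Q * θ))) =
      S₁.filter fun Q => ¬ Sq1 (𝔮 Q) (α * (algebraMap k[X] L Q * θ)) := by
    rw [hS₁, Finset.filter_filter]
  rw [hfil]
  by_cases hne : S₁.Nonempty
  swap
  · rw [Finset.not_nonempty_iff_eq_empty] at hne
    rw [hne]
    simp
  have hodd : ∀ Q ∈ S₁, ¬ Ev (𝔮 Q) α := fun Q hQ => (Finset.mem_filter.1 hQ).2
  have hev' : ∀ 𝔓 : HeightOneSpectrum O, 𝔓 ∉ S₁.image 𝔮 → Ev 𝔓 α := by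
    intro 𝔓 h5
    by_contra h6
    have h7 : ¬ ∀ Q ∈ S, 𝔓 ≠ 𝔮 Q := fun h8 => h6 (hev 𝔓 h8)
    push Not at h7
    obtain ⟨Q, hQ, rfl⟩ := h7
    exact h5 (Finset.mem_image_of_mem 𝔮 (Finset.mem_filter.2 ⟨hQ, h6⟩))
  obtain ⟨x, hx1, hx2, hx3⟩ := h4 g k K L O f θ N r S h hg hG hr hS hF 𝔮 h𝔮 α hα hsqn S₁ hsub hne
    hodd hev'
  obtain ⟨β, hβ0, hβ⟩ := D.exists_beta hα hodd
  obtain ⟨η, hη⟩ := D.exists_eta
  obtain ⟨t, ht⟩ := theta_ex (O := O) hG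
  have hvb : ∀ Q, 0 < (𝔮 Q).valuation L β := fun Q => zero_lt_iff.2 (val_ne _ hβ0)
  -- approximations
  obtain ⟨κ, hκ⟩ : ∃ κ : O, ∀ Q ∈ S₁, (𝔮 Q).valuation L
      (algebraMap O L κ - algebraMap k[X] L (∏ Q ∈ S₁, Q) * β ^ 2 / α) < 1 := by
    obtain ⟨κ, h5⟩ := crtL (S₁.image 𝔮) (algebraMap k[X] L (∏ Q ∈ S₁, Q) * β ^ 2 / α) (by
      intro 𝔓 h6
      obtain ⟨Q, hQ, rfl⟩ := Finset.mem_image.1 h6
      apply le_of_eq
      rw [map_div₀, map_mul, map_pow, hβ Q hQ, D.valP hQ (D.ovq Q hQ),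
        div_eq_one_iff_eq (val_ne _ hα), mul_left_comm, ← exp_add]
      simp)
    exact ⟨κ, fun Q hQ => h5 _ (Finset.mem_image_of_mem 𝔮 hQ)⟩
  have hζe : ∀ a, ∃ ζ : O, ∀ Q ∈ S₁, (𝔮 Q).valuation L (algebraMap O L ζ - x a / β) < 1 := by
    intro a
    obtain ⟨ζ, h5⟩ := crtL (S₁.image 𝔮) (x a / β) (by
      intro 𝔓 h6
      obtain ⟨Q, hQ, rfl⟩ := Finset.mem_image.1 h6
      rw [map_div₀, div_le_one₀ (hvb Q)]
      apply le_of_sq_le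
      rw [hβ Q hQ]
      have h7 := hx1 a (𝔮 Q)
      rwa [if_pos h6] at h7)
    exact ⟨ζ, fun Q hQ => h5 _ (Finset.mem_image_of_mem 𝔮 hQ)⟩
  choose ζ hζ using hζe
  obtain ⟨hfin, hrank⟩ := finrank_prod g S₁ 𝔮 D.mon fun Q hQ =>
    (h2 g k K L O f θ S h hg hG hsq hS Q (hsub hQ) (hF.con Q (hsub hQ)) (𝔮 Q) (D.ovq Q hQ)
      (D.tq Q hQ)).2
  have hcl := fun (Q : k[X]) (hQ : Q ∈ S₁) => class_iff D hα hβ0 hβ ht hκ hQ
    (h2 g k K L O f θ S h hg hG hsq hS Q (hsub hQ) (hF.con Q (hsub hQ)) (𝔮 Q) (D.ovq Q hQ)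
      (D.tq Q hQ)).1
  have key := h3 k S₁ (fun i : S₁ => FF (𝔮 i)) (sL h0 hG hsq D hη) (redA S₁ 𝔮 κ) (redA S₁ 𝔮 t)
    (g * (∏ Q ∈ S₁, Q).natDegree) (fun a => redA S₁ 𝔮 (ζ a))
    (fun a => redA S₁ 𝔮 (yO (k := k) g (∏ Q ∈ S₁, Q).natDegree t a)) h2k
    (fun i h5 => (hcl i i.2).1 ((red_zero _ _).1 h5))
    (fun i h5 => D.t_notMem ht i.2 ((red_zero _ _).1 h5)) hrank
    (sL_nondeg h0 hG hsq D hη)
    (first_ind D hα hβ0 hβ hx1 hζ hx3)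
    (second_ind h0 hG hsq D ht)
    (fun a b => first_iso h0 hG hsq D hη hα hβ0 hβ hκ (hx1 a) (hx1 b) (hζ a) (hζ b) (hx2 a b))
    (fun a b => second_iso h0 hG hsq D hη ht _ a b)
  have hcard : (Finset.univ.filter fun i : S₁ => ¬ IsSquare (redA S₁ 𝔮 κ i * redA S₁ 𝔮 t i)).card =
      (S₁.filter fun Q => ¬ Sq1 (𝔮 Q) (α * (algebraMap k[X] L Q * θ))).card := by
    rw [← Finset.card_map (Function.Embedding.subtype fun Q => Q ∈ S₁)]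
    congr 1
    ext Q
    simp only [Finset.mem_map, Finset.mem_filter, Finset.mem_univ, true_and]
    constructor
    · rintro ⟨⟨Q', hQ'⟩, h5, rfl⟩
      exact ⟨hQ', fun h6 => h5 ((hcl Q' hQ').2.2 h6)⟩
    · rintro ⟨hQ, h5⟩
      exact ⟨⟨Q, hQ⟩, fun h6 => h5 ((hcl Q hQ).2.1 h6), rfl⟩
  rw [← hcard]
  exact key

end Pool.Agent.H859.N622.PJ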