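import Pool.Graph.R_pool_sql_team_seeded_63374d34.N352.PJ.Def

/-!
# A positive proportion of all odd hyperelliptic Jacobians over `k(t)` in every odd characteristic:
# definitions and statements

After `N352/PJ/Def.lean` of helper352. The new point is that `f` is an arbitrary monic polynomial of
degree `2 g + 1`, not only one without term of degree `2 g`, so that the characteristic may divide
`2 g + 1` or be smaller. The letter `A` at the end of a name distinguishes the new version.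
The theorems `S_..` are the parts.
-/

set_option autoImplicit false
set_option linter.all false

open Polynomial IsDedekindDomain Matrix
open scoped Classical

namespace Pool.Agent.H859.PJ

open Pool.Agent.N874.PP (nm)
open Pool.Agent.N352.PJ

section fam

variable {k : Type} [Field k] (g : ℕ)

/-- The set `S` of primes and the polynomials `h Q` of degree `2 g` which are irreducible modulo
`Q`. -/
def GoodSA (S : Finset k[X]) (h : k[X] → k[X][X]) : Prop :=
  ∀ Q ∈ S, Q.Monic ∧ Irreducible Q ∧ (h Q).Monic ∧ (h Q).natDegree = 2 * g ∧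
    True ∧ Irreducible ((h Q).map (Ideal.Quotient.mk (Ideal.span {Q})))

/-- All monic polynomials of degree `2 g + 1` of height at most `M`. -/
structure HtA (M : ℕ) (f : k[X][X]) : Prop where
  mon : f.Monic
  deg : f.natDegree = 2 * g + 1
  ht : ∀ j ≤ 2 * g, (f.coeff j).natDegree ≤ M * (2 * g + 1 - j)

/-- The family: height at most `2 N`, prescribed irreducible reduction `r` at infinity, reduction
`x * h Q` at the `Q` in `S`, squarefree discriminant. -/
structure FamA (N : ℕ) (r : k[X]) (S : Finset k[X]) (h : k[X] → k[X][X]) (f : k[X][X]) : Prop where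
  ht : HtA g (2 * N) f
  inf : ∀ j ≤ 2 * g, (f.coeff j).coeff (2 * N * (2 * g + 1 - j)) = r.coeff j
  con : ∀ Q ∈ S, Cg Q f (X * h Q)
  sq : Squarefree (dsc g f)

/-- `r` is a possible reduction at infinity. -/
def GoodRA (r : k[X]) : Prop := r.Monic ∧ Irreducible r ∧ r.natDegree = 2 * g + 1 ∧ True

/-- The tuples over which we count. -/
structure XsetA (N : ℕ) (w : Fin (2 * g + 1) → ℤ) (S : Finset k[X]) (h : k[X] → k[X][X])
    (B : Mt g k[X]) : Prop where
  symm : B.IsSymm
  box : ∀ i j, B i j = 0 ∨ ((B i j).natDegree : ℤ) ≤ 2 * N + w i + w j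
  con : ∀ Q ∈ S, Cg Q (chp B) (X * h Q)
  dist : ∀ Q ∈ S, DistMod Q B

/-- The polynomial `f` is bad: it is irreducible and comes from a tuple. -/
def LBadA (N : ℕ) (S : Finset k[X]) (h : k[X] → k[X][X]) (f : k[X][X]) : Prop :=
  Irreducible f ∧ ∃ w, Typ g w ∧ Reg g N w ∧ ∃ B : Mt g k[X], XsetA g N w S h B ∧ chp B = f

end fam

/-! ### Counting -/

/-- The dimension of the space of symmetric matrices: `q ^ ((2 N + 1) * ddA g)` is
the number of tuples. -/
def ddA (g : ℕ) : ℕ := 2 * g ^ 2 + 3 * g + 1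

/-- The exponent in the trivial bound for the number of tuples. -/
def eeA (g N : ℕ) (w : Fin (2 * g + 1) → ℤ) : ℕ :=
  ∑ p ∈ (Finset.univ : Finset (Fin (2 * g + 1) × Fin (2 * g + 1))).filter
    (fun p => p.1 ≤ p.2), (2 * N + 1 + w p.1 + w p.2).toNat

/-- The number of tuples in a large box. -/
def S_BOXA : Prop := ∀ (g : ℕ) (k : Type) [Field k] [Finite k], 1 ≤ g → (2 : k) ≠ 0 →
  ∀ (S : Finset k[X]) (h : k[X] → k[X][X]), GoodSA g S h → ∀ (N : ℕ) (w : Fin (2 * g + 1) → ℤ),
  Typ g w → ((∏ Q ∈ S, Q).natDegree : ℤ) ≤ 2 * N + 2 * w 0 →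
  2 ^ S.card * (∏ Q ∈ S, nm Q ^ (2 * g + 1)) * {B : Mt g k[X] | XsetA g N w S h B}.ncard ≤
    Nat.card k ^ ((2 * N + 1) * ddA g)

/-- The trivial bound. -/
def S_BOX0A : Prop := ∀ (g : ℕ) (k : Type) [Field k] [Finite k], (2 : k) ≠ 0 →
  ∀ (S : Finset k[X]) (h : k[X] → k[X][X]) (N : ℕ) (w : Fin (2 * g + 1) → ℤ), Typ g w →
  {B : Mt g k[X] | XsetA g N w S h B}.Finite ∧
  {B : Mt g k[X] | XsetA g N w S h B}.ncard ≤ Nat.card k ^ eeA g N w

/-- Every irreducible `f` comes from at least `q ^ uu` tuples (unipotent matrices). -/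
def S_ORBA : Prop := ∀ (g : ℕ) (k : Type) [Field k] [Finite k], (2 : k) ≠ 0 →
  ∀ (S : Finset k[X]) (h : k[X] → k[X][X]) (N : ℕ) (w : Fin (2 * g + 1) → ℤ), Typ g w →
  {f : k[X][X] | Irreducible f ∧ ∃ B : Mt g k[X], XsetA g N w S h B ∧ chp B = f}.ncard *
    Nat.card k ^ uu g w ≤ {B : Mt g k[X] | XsetA g N w S h B}.ncard

/-- The exponents. -/
def S_EXPA : Prop := ∀ (g N : ℕ) (w : Fin (2 * g + 1) → ℤ), Typ g w → Reg g N w →
  (eeA g N w : ℤ) + g ^ 2 +
      ∑ i ∈ Finset.univ.filter (fun i : Fin (2 * g + 1) => (i : ℕ) < g), min (- w i) N ≤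
    (2 * N + 1) * ddA g + uu g w

/-- Few bad `f`. -/
def S_BADA : Prop := ∀ (g : ℕ) (k : Type) [Field k] [Finite k], 1 ≤ g → (2 : k) ≠ 0 →
  ∀ (S : Finset k[X]) (h : k[X] → k[X][X]), GoodSA g S h → ∃ N₀ : ℕ, ∀ N ≥ N₀,
  {f : k[X][X] | LBadA g N S h f}.Finite ∧
  2 ^ S.card * (∏ Q ∈ S, nm Q ^ (2 * g + 1)) * {f : k[X][X] | LBadA g N S h f}.ncard ≤
    2 ^ (g + 1) * Nat.card k ^ ((2 * N + 1) * ddA g)

end Pool.Agent.H859.PJ
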