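import Pool.Graph.R_pool_sql_team_seeded_63374d34.N352.PJ.Lat
import Pool.Agent.H859.SC.N352PJDef

/-!
# Statements of the parts, after `N352/PJ/Lat.lean` of helper352
-/

set_option autoImplicit false
set_option linter.all false

open Polynomial IsDedekindDomain Matrix WithZero
open scoped Classical

namespace Pool.Agent.H859.PJ

open Pool.Agent.N352.PJ
open Pool.Agent.N874.PP (Ov Ev Sq1 U0)

/-- Local squares give a distinguished vector modulo `Q`. -/
def S_TVA : Prop := ∀ (g : ℕ) (k K L O : Type) [Field k] [Finite k] [Field K] [Algebra k[X] K]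
  [IsFractionRing k[X] K]
  [Field L] [Algebra K L] [Algebra k[X] L] [IsScalarTower k[X] K L] [CommRing O]
  [IsDedekindDomain O] [Algebra O L] [IsFractionRing O L] [Algebra k[X] O]
  [IsScalarTower k[X] O L] [IsIntegralClosure O k[X] L] (f : k[X][X]) (θ : L)
  (S : Finset k[X]) (h : k[X] → k[X][X]), 1 ≤ g →
  IsGen g K f θ → Squarefree (dsc g f) → GoodSA g S h →
  ∀ (α : L) (e : Fin (2 * g + 1) → L), α ≠ 0 → SDn g k K e α → ∀ Q ∈ S, Cg Q f (X * h Q) →
    (∀ 𝔓 : HeightOneSpectrum O, Ov Q 𝔓 → Sq1 𝔓 α) → TV g Q θ e α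

/-- The weight is multiplicative: the place at infinity is inert. -/
def S_WTA : Prop := ∀ (g : ℕ) (k L : Type) [Field k] [Field L] [Algebra k[X] L] (K : Type) [Field K]
  [Algebra K L] [Algebra k[X] K] [IsFractionRing k[X] K] [IsScalarTower k[X] K L]
  (f : k[X][X]) (θ : L) (N : ℕ) (r : k[X]), IsGen g K f θ → HtA g (2 * N) f → GoodRA g r →
  (∀ j ≤ 2 * g, (f.coeff j).coeff (2 * N * (2 * g + 1 - j)) = r.coeff j) →
  ∀ (x y : L) (u v w : Fin (2 * g + 1) → k[X]), x ≠ 0 → y ≠ 0 → Crd g θ u x → Crd g θ v y →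
    Crd g θ w (x * y) → wtn (fun i => 2 * N * (i : ℕ)) w =
      wtn (fun i => 2 * N * (i : ℕ)) u + wtn (fun i => 2 * N * (i : ℕ)) v

/-- The degree of the norm. -/
def S_NWA : Prop := ∀ (g : ℕ) (k L : Type) [Field k] [Field L] [Algebra k[X] L] (K : Type) [Field K]
  [Algebra K L] [Algebra k[X] K] [IsFractionRing k[X] K] [IsScalarTower k[X] K L]
  (f : k[X][X]) (θ : L) (N : ℕ) (r : k[X]), IsGen g K f θ → HtA g (2 * N) f → GoodRA g r →
  (∀ j ≤ 2 * g, (f.coeff j).coeff (2 * N * (2 * g + 1 - j)) = r.coeff j) →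
  ∀ (x : L) (u : Fin (2 * g + 1) → k[X]) (n : k[X]), x ≠ 0 → Crd g θ u x →
    algebraMap k[X] K n = Algebra.norm K x →
    n.natDegree = (2 * g + 1) * wtn (fun i => 2 * N * (i : ℕ)) u

/-- From the lattice to the tuple. -/
def S_LBA : Prop := ∀ (g : ℕ) (k K L : Type) [Field k] [Finite k] [Field K] [Algebra k[X] K]
  [IsFractionRing k[X] K] [Field L] [Algebra K L] [Algebra k[X] L] [IsScalarTower k[X] K L]
  (f : k[X][X]) (θ : L) (N : ℕ) (S : Finset k[X]) (h : k[X] → k[X][X]) (r : k[X]), 1 ≤ g →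
  (2 : k) ≠ 0 → IsGen g K f θ → GoodRA g r → GoodSA g S h →
  FamA g N r S h f → ∀ (α : L) (e : Fin (2 * g + 1) → L), α ≠ 0 → IsSquare (Algebra.norm K α) →
  ¬ IsSquare α → SDn g k K e α → (∀ Q ∈ S, TV g Q θ e α) → LBadA g N S h f

end Pool.Agent.H859.PJ
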