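import Pool.Graph.R_pool_sql_team_seeded_63374d34.N352.PJ.Loc
import Pool.Agent.H859.SC.N352PJLat

/-!
# Statements of the parts, after `N352/PJ/Loc.lean` of helper352
-/

set_option autoImplicit false
set_option linter.all false

open Polynomial IsDedekindDomain Matrix WithZero
open scoped Classical

namespace Pool.Agent.H859.PJ

open Pool.Agent.N352.PJ
open Pool.Agent.N874.PP (Ov Ev Sq1 U0)

/-- The two primes over `Q`. -/
def S_EXQA : Prop := ∀ (g : ℕ) (k K L O : Type) [Field k] [Finite k] [Field K] [Algebra k[X] K]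
  [IsFractionRing k[X] K]
  [Field L] [Algebra K L] [Algebra k[X] L] [IsScalarTower k[X] K L] [CommRing O]
  [IsDedekindDomain O] [Algebra O L] [IsFractionRing O L] [Algebra k[X] O]
  [IsScalarTower k[X] O L] [IsIntegralClosure O k[X] L] (f : k[X][X]) (θ : L)
  (S : Finset k[X]) (h : k[X] → k[X][X]), 1 ≤ g →
  IsGen g K f θ → Squarefree (dsc g f) → GoodSA g S h → ∀ Q ∈ S, Cg Q f (X * h Q) →
  ∃ 𝔓₁ 𝔮 : HeightOneSpectrum O, Ov Q 𝔓₁ ∧ Ov Q 𝔮 ∧ 𝔓₁.valuation L θ < 1 ∧ 𝔮.valuation L θ = 1 ∧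
    𝔓₁.valuation L (algebraMap k[X] L Q) = exp (-1 : ℤ) ∧
    𝔮.valuation L (algebraMap k[X] L Q) = exp (-1 : ℤ) ∧
    ∀ 𝔓 : HeightOneSpectrum O, Ov Q 𝔓 → 𝔓 = 𝔓₁ ∨ 𝔓 = 𝔮

/-- Polynomials in `t` are squares at the big prime over `Q` (its degree over `k[t] / Q` is
even); the degree of the residue field over `k`. -/
def S_CSQA : Prop := ∀ (g : ℕ) (k K L O : Type) [Field k] [Finite k] [Field K] [Algebra k[X] K]
  [IsFractionRing k[X] K]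
  [Field L] [Algebra K L] [Algebra k[X] L] [IsScalarTower k[X] K L] [CommRing O]
  [IsDedekindDomain O] [Algebra O L] [IsFractionRing O L] [Algebra k[X] O]
  [IsScalarTower k[X] O L] [IsIntegralClosure O k[X] L] (f : k[X][X]) (θ : L)
  (S : Finset k[X]) (h : k[X] → k[X][X]), 1 ≤ g →
  IsGen g K f θ → Squarefree (dsc g f) → GoodSA g S h → ∀ Q ∈ S, Cg Q f (X * h Q) →
  ∀ 𝔮 : HeightOneSpectrum O, Ov Q 𝔮 → 𝔮.valuation L θ = 1 →
    (∀ c : k[X], ¬ Q ∣ c → Sq1 𝔮 (algebraMap k[X] L c)) ∧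
    Nat.card (O ⧸ 𝔮.asIdeal) = Nat.card k ^ (2 * g * Q.natDegree)

/-- The parity at the prime of degree one over `Q` from the norm (the other prime over `Q` has
degree `2 g`). -/
def S_PARQA : Prop := ∀ (g : ℕ) (k K L O : Type) [Field k] [Finite k] [Field K] [Algebra k[X] K]
  [IsFractionRing k[X] K]
  [Field L] [Algebra K L] [Algebra k[X] L] [IsScalarTower k[X] K L] [CommRing O]
  [IsDedekindDomain O] [Algebra O L] [IsFractionRing O L] [Algebra k[X] O]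
  [IsScalarTower k[X] O L] [IsIntegralClosure O k[X] L] (f : k[X][X]) (θ : L)
  (S : Finset k[X]) (h : k[X] → k[X][X]), 1 ≤ g →
  IsGen g K f θ → Squarefree (dsc g f) → GoodSA g S h → ∀ Q ∈ S, Cg Q f (X * h Q) →
  ∀ x : L, x ≠ 0 → IsSquare (Algebra.norm K x) →
    ∀ 𝔓 : HeightOneSpectrum O, Ov Q 𝔓 → 𝔓.valuation L θ < 1 → Ev 𝔓 x

/-- The square class at the prime of degree one over `Q` from the norm. -/
def S_NSA : Prop := ∀ (g : ℕ) (k K L O : Type) [Field k] [Finite k] [Field K] [Algebra k[X] K]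
  [IsFractionRing k[X] K]
  [Field L] [Algebra K L] [Algebra k[X] L] [IsScalarTower k[X] K L] [CommRing O]
  [IsDedekindDomain O] [Algebra O L] [IsFractionRing O L] [Algebra k[X] O]
  [IsScalarTower k[X] O L] [IsIntegralClosure O k[X] L] (f : k[X][X]) (θ : L)
  (S : Finset k[X]) (h : k[X] → k[X][X]), 1 ≤ g → (2 : k) ≠ 0 →
  IsGen g K f θ → Squarefree (dsc g f) → GoodSA g S h → ∀ Q ∈ S, Cg Q f (X * h Q) →
  ∀ x : L, x ≠ 0 → IsSquare (Algebra.norm K x) →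
    (∀ 𝔓 : HeightOneSpectrum O, Ov Q 𝔓 → 𝔓.valuation L θ < 1 → Ev 𝔓 x) →
    (∀ 𝔓 : HeightOneSpectrum O, Ov Q 𝔓 → 𝔓.valuation L θ = 1 → Sq1 𝔓 x) →
    ∀ 𝔓 : HeightOneSpectrum O, Ov Q 𝔓 → Sq1 𝔓 x

/-- The global Lagrangian. -/
def S_GLA : Prop := ∀ (g : ℕ) (k K L O : Type) [Field k] [Finite k] [Field K] [Algebra k[X] K]
  [IsFractionRing k[X] K]
  [Field L] [Algebra K L] [Algebra k[X] L] [IsScalarTower k[X] K L] [CommRing O]
  [IsDedekindDomain O] [Algebra O L] [IsFractionRing O L] [Algebra k[X] O]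
  [IsScalarTower k[X] O L] [IsIntegralClosure O k[X] L] (f : k[X][X]) (θ : L) (N : ℕ) (r : k[X])
  (S : Finset k[X]) (h : k[X] → k[X][X]), 1 ≤ g →
  ∀ hG : IsGen g K f θ, GoodRA g r → GoodSA g S h → FamA g N r S h f →
  ∀ 𝔮 : k[X] → HeightOneSpectrum O, (∀ Q ∈ S, Ov Q (𝔮 Q) ∧ (𝔮 Q).valuation L θ = 1) →
  ∀ α : L, α ≠ 0 → IsSquare (Algebra.norm K α) → ∀ S₁ ⊆ S, S₁.Nonempty →
    (∀ Q ∈ S₁, ¬ Ev (𝔮 Q) α) →
    (∀ 𝔓 : HeightOneSpectrum O, 𝔓 ∉ S₁.image 𝔮 → Ev 𝔓 α) →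
    ∃ x : Fin (g * (∏ Q ∈ S₁, Q).natDegree) → L,
      (∀ a, ∀ 𝔓 : HeightOneSpectrum O, 𝔓.valuation L (x a) ^ 2 ≤
        𝔓.valuation L α * (if 𝔓 ∈ S₁.image 𝔮 then exp (1 : ℤ) else 1)) ∧
      (∀ a b, ∃ y : k[X], hG.top (algebraMap k[X] L (∏ Q ∈ S₁, Q) * (x a * x b) / α) =
        algebraMap k[X] K y ∧ res (∏ Q ∈ S₁, Q) y = 0) ∧
      ∀ c : Fin (g * (∏ Q ∈ S₁, Q).natDegree) → k,
        (∀ 𝔓 : HeightOneSpectrum O,
          𝔓.valuation L (∑ a, algebraMap k[X] L (C (c a)) * x a) ^ 2 ≤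
            𝔓.valuation L α * (if 𝔓 ∈ S₁.image 𝔮 then exp (-1 : ℤ) else 1)) → c = 0

/-- The reciprocity law. -/
def S_RECA : Prop := ∀ (g : ℕ) (k K L O : Type) [Field k] [Finite k] [Field K] [Algebra k[X] K]
  [IsFractionRing k[X] K]
  [Field L] [Algebra K L] [Algebra k[X] L] [IsScalarTower k[X] K L] [CommRing O]
  [IsDedekindDomain O] [Algebra O L] [IsFractionRing O L] [Algebra k[X] O]
  [IsScalarTower k[X] O L] [IsIntegralClosure O k[X] L] (f : k[X][X]) (θ : L) (N : ℕ) (r : k[X])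
  (S : Finset k[X]) (h : k[X] → k[X][X]), 1 ≤ g → (2 : k) ≠ 0 →
  IsGen g K f θ → GoodRA g r → GoodSA g S h → FamA g N r S h f →
  ∀ 𝔮 : k[X] → HeightOneSpectrum O, (∀ Q ∈ S, Ov Q (𝔮 Q) ∧ (𝔮 Q).valuation L θ = 1) →
  ∀ α : L, α ≠ 0 → IsSquare (Algebra.norm K α) →
    (∀ 𝔓 : HeightOneSpectrum O, (∀ Q ∈ S, 𝔓 ≠ 𝔮 Q) → Ev 𝔓 α) →
    Even (S.filter fun Q => ¬ Ev (𝔮 Q) α ∧ ¬ Sq1 (𝔮 Q) (α * (algebraMap k[X] L Q * θ))).card

end Pool.Agent.H859.PJ
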