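import Pool.Agent.H859.SC.N352PJIdx
import Pool.Graph.R_pool_sql_team_seeded_63374d34.N134.PJ.Irk
import Pool.Agent.H859.SC.N352PJIdx

/-!
# PJ/IRK: the polynomials of the family are irreducible over `k(t)`
-/

set_option autoImplicit false
set_option linter.all false

open Polynomial
open scoped Classical

namespace Pool.Agent.H859.N134.PJ
open Pool.Agent.N134.PJ Pool.Agent.H859.PJ
open Pool.Agent.N352.PJ

section

variable {k : Type} [Field k] (M : ℕ)

/-- `t ↦ s`, `x ↦ x s ^ M`; the variable `s` is the outer one -/
noncomputable def Psi : k[X][X] →+* k[X][X] :=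
  eval₂RingHom (mapRingHom C) (C X * X ^ M)

lemma Psi_mono (j : ℕ) (c : k[X]) :
    Psi M (monomial j c) = c.map C * C (X ^ j) * X ^ (M * j) := by
  unfold Psi
  rw [coe_eval₂RingHom, eval₂_monomial, coe_mapRingHom, mul_pow, ← C_pow, ← pow_mul, mul_assoc]

lemma Psi_coeff (f : k[X][X]) (m i : ℕ) :
    ((Psi M f).coeff m).coeff i = if M * i ≤ m then (f.coeff i).coeff (m - M * i) else 0 := by
  induction f using Polynomial.induction_on' with
  | add p q hp hq =>
    rw [map_add, coeff_add, coeff_add, hp, hq, coeff_add, coeff_add]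
    split_ifs
    · rfl
    · rw [add_zero]
  | monomial j c =>
    rw [Psi_mono, coeff_mul_X_pow', coeff_monomial]
    by_cases hij : j = i
    · subst hij
      rw [if_pos rfl]
      split_ifs with h
      · rw [coeff_mul_C, coeff_map, coeff_C_mul, coeff_X_pow, if_pos rfl, mul_one]
      · rw [coeff_zero]
    · rw [if_neg hij, coeff_zero, ite_self]
      split_ifs with h
      · rw [coeff_mul_C, coeff_map, coeff_C_mul, coeff_X_pow, if_neg (Ne.symm hij), mul_zero]
      · rw [coeff_zero]

lemma Psi_monic {p : k[X][X]} (hp : p.Monic) :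
    ((Psi M p).coeff (M * p.natDegree)).coeff p.natDegree = 1 := by
  rw [Psi_coeff, if_pos le_rfl, Nat.sub_self]
  have : p.coeff p.natDegree = 1 := hp
  rw [this, coeff_one_zero]

lemma Psi_ge {p : k[X][X]} (hp : p.Monic) : M * p.natDegree ≤ (Psi M p).natDegree := by
  apply le_natDegree_of_ne_zero
  intro h
  have := Psi_monic M hp
  rw [h, coeff_zero] at this
  exact zero_ne_one this

/-- irreducibility from the leading form -/
theorem irr {n : ℕ} {f : k[X][X]} {r : k[X]} (hf : f.Monic) (hn : f.natDegree = n)
    (hd : ∀ j < n, (f.coeff j).natDegree ≤ M * (n - j)) (hr : r.Monic) (hrn : r.natDegree = n)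
    (hir : Irreducible r) (hc : ∀ j < n, (f.coeff j).coeff (M * (n - j)) = r.coeff j) :
    Irreducible f := by
  have hsub : ∀ i ≤ n, M * n - M * i = M * (n - i) := fun i _ => (Nat.mul_sub M n i).symm
  have h1 : (Psi M f).natDegree ≤ M * n := by
    rw [natDegree_le_iff_coeff_eq_zero]
    intro m hm
    ext i
    rw [Psi_coeff, coeff_zero]
    split_ifs with h
    · rcases lt_trichotomy i n with hi | hi | hi
      · apply coeff_eq_zero_of_natDegree_lt
        refine (hd i hi).trans_lt ?_
        rw [← hsub i hi.le]
        have h0 := Nat.mul_le_mul_left M hi.le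
        omega
      · subst hi
        have : f.coeff i = 1 := by rw [← hn]; exact hf
        rw [this, coeff_one, if_neg]
        omega
      · rw [coeff_eq_zero_of_natDegree_lt (by omega : f.natDegree < i), coeff_zero]
    · rfl
  have h2 : (Psi M f).coeff (M * n) = r := by
    ext i
    rw [Psi_coeff]
    rcases lt_trichotomy i n with hi | hi | hi
    · rw [if_pos (Nat.mul_le_mul_left M hi.le), hsub i hi.le, hc i hi]
    · subst hi
      rw [if_pos le_rfl, Nat.sub_self]
      have h3 : f.coeff i = 1 := by rw [← hn]; exact hf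
      have h4 : r.coeff i = 1 := by rw [← hrn]; exact hr
      rw [h3, h4, coeff_one_zero]
    · rw [coeff_eq_zero_of_natDegree_lt (by omega : f.natDegree < i), coeff_zero, ite_self,
        coeff_eq_zero_of_natDegree_lt (by omega : r.natDegree < i)]
  have h3 : (Psi M f).natDegree = M * n := by
    apply le_antisymm h1
    apply le_natDegree_of_ne_zero
    rw [h2]
    exact hir.ne_zero
  have hn0 : 0 < n := by
    rw [← hrn]
    exact hir.natDegree_pos
  rw [hf.irreducible_iff_natDegree]
  refine ⟨?_, ?_⟩
  · rintro rfl
    rw [natDegree_one] at hn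
    omega
  · intro p q hp hq hpq
    have hp0 := Psi_ge M hp
    have hq0 := Psi_ge M hq
    have hP : Psi M p ≠ 0 := by
      intro h
      have := Psi_monic M hp
      rw [h, coeff_zero, coeff_zero] at this
      exact zero_ne_one this
    have hQ : Psi M q ≠ 0 := by
      intro h
      have := Psi_monic M hq
      rw [h, coeff_zero, coeff_zero] at this
      exact zero_ne_one this
    have hmul : Psi M f = Psi M p * Psi M q := by rw [← hpq, map_mul]
    have hdeg : (Psi M p).natDegree + (Psi M q).natDegree = M * n := by
      rw [← natDegree_mul hP hQ, ← hmul, h3]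
    have hnn : p.natDegree + q.natDegree = n := by
      rw [← natDegree_mul hp.ne_zero hq.ne_zero, hpq, hn]
    have hMn : M * p.natDegree + M * q.natDegree = M * n := by rw [← Nat.mul_add, hnn]
    have hp1 : (Psi M p).natDegree = M * p.natDegree := by omega
    have hq1 : (Psi M q).natDegree = M * q.natDegree := by omega
    have hlc : r = (Psi M p).leadingCoeff * (Psi M q).leadingCoeff := by
      rw [← leadingCoeff_mul, ← hmul, leadingCoeff, h3, h2]
    rcases hir.isUnit_or_isUnit hlc with h | h
    · left
      have k1 := Psi_monic M hp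
      have k2 := natDegree_eq_zero_of_isUnit h
      rw [leadingCoeff, hp1] at k2
      by_contra hne
      rw [coeff_eq_zero_of_natDegree_lt (by omega)] at k1
      exact zero_ne_one k1
    · right
      have k1 := Psi_monic M hq
      have k2 := natDegree_eq_zero_of_isUnit h
      rw [leadingCoeff, hq1] at k2
      by_contra hne
      rw [coeff_eq_zero_of_natDegree_lt (by omega)] at k1
      exact zero_ne_one k1

end

section

variable {K : Type} [Field K]

lemma irr_scale {p : K[X]} (hp : Irreducible p) {u : K} (hu : u ≠ 0) :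
    Irreducible (p.scaleRoots u) := by
  refine ⟨?_, ?_⟩
  · intro h
    apply hp.not_isUnit
    have h1 := natDegree_eq_zero_of_isUnit h
    rw [natDegree_scaleRoots] at h1
    exact absurd h1 hp.natDegree_pos.ne'
  · intro a b hab
    have h1 : p = a.scaleRoots u⁻¹ * b.scaleRoots u⁻¹ := by
      rw [← mul_scaleRoots_of_noZeroDivisors, ← hab, ← scaleRoots_mul, mul_inv_cancel₀ hu,
        scaleRoots_one]
    have hne : a * b ≠ 0 := by
      intro h
      have : p = 0 := by
        rw [h1, ← mul_scaleRoots_of_noZeroDivisors, h, zero_scaleRoots]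
      exact hp.ne_zero this
    have key : ∀ c : K[X], c ≠ 0 → IsUnit (c.scaleRoots u⁻¹) → IsUnit c := by
      intro c hc h
      have h2 := natDegree_eq_zero_of_isUnit h
      rw [natDegree_scaleRoots] at h2
      rw [isUnit_iff_degree_eq_zero, degree_eq_natDegree hc, h2]
      rfl
    rcases hp.isUnit_or_isUnit h1 with h | h
    · exact Or.inl (key a (left_ne_zero_of_mul hne) h)
    · exact Or.inr (key b (right_ne_zero_of_mul hne) h)

lemma der_scale {p : K[X]} (hp : derivative p ≠ 0) {u : K} (hu : u ≠ 0) :
    derivative (p.scaleRoots u) ≠ 0 := by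
  intro h
  apply hp
  ext i
  have h1 := congrArg (fun q => q.coeff i) h
  simp only [coeff_derivative, coeff_scaleRoots, coeff_zero] at h1 ⊢
  have h2 : u ^ (p.natDegree - (i + 1)) ≠ 0 := pow_ne_zero _ hu
  have h3 : u ^ (p.natDegree - (i + 1)) * (p.coeff (i + 1) * ((i : K) + 1)) = 0 := by
    linear_combination h1
  rcases mul_eq_zero.1 h3 with h4 | h4
  · exact absurd h4 h2
  · exact h4

end

/-- PJ/IRK -/
theorem irk : S_IRKA := by
  intro g k K _ _ _ _ f N r D hf hr hc hD
  have hinj : Function.Injective (algebraMap k[X] K) := IsFractionRing.injective _ _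
  have h1 : Irreducible f := by
    refine irr (2 * N) (n := 2 * g + 1) hf.mon hf.deg (fun j hj => hf.ht j (by omega)) hr.1
      hr.2.2.1 hr.2.1 (fun j hj => hc j (by omega))
  have h2 : Irreducible (f.map (algebraMap k[X] K)) :=
    (hf.mon.irreducible_iff_irreducible_map_fraction_map (K := K)).1 h1
  have hD' : algebraMap k[X] K D ≠ 0 := (map_ne_zero_iff _ hinj).2 hD
  have hsc : (f.scaleRoots D).map (algebraMap k[X] K) =
      (f.map (algebraMap k[X] K)).scaleRoots (algebraMap k[X] K D) := by
    apply map_scaleRoots
    have : f.leadingCoeff = 1 := hf.mon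
    rw [this, map_one]
    exact one_ne_zero
  have h3 : Irreducible ((f.scaleRoots D).map (algebraMap k[X] K)) := by
    rw [hsc]
    exact irr_scale h2 hD'
  refine ⟨h2, h3, fun hdsc => ?_⟩
  have hder : derivative (f.map (algebraMap k[X] K)) ≠ 0 := by
    rw [derivative_map]
    intro h
    apply hdsc
    have h4 : derivative f = 0 := by
      rwa [Polynomial.map_eq_zero_iff hinj] at h
    unfold dsc
    rw [h4, resultant_zero_right, zero_pow (by omega), zero_mul]
  refine ⟨?_, ?_⟩
  · rw [separable_iff_derivative_ne_zero h2]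
    exact hder
  · rw [separable_iff_derivative_ne_zero h3, hsc]
    exact der_scale hder hD'

end Pool.Agent.H859.N134.PJ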