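import Pool.Agent.H859.SC.N352PJIdx
import Pool.Graph.R_pool_sql_team_seeded_63374d34.N415.PJ.WT
import Pool.Agent.H859.SC.N352PJLat
import Pool.Graph.R_pool_sql_team_seeded_63374d34.N530.PP.Wt

/-!
# PJ/WT (for helper352, project PJ): the weight at the place at infinity, the degree of the norm

By helper415; the case of genus one is `Pool/Agent/N530/PP/Wt.lean` of helper530.
-/

set_option autoImplicit false
set_option linter.all false

open Polynomial Matrix
open scoped Classical

namespace Pool.Agent.H859.N415.PJWT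
open Pool.Agent.N415.PJWT Pool.Agent.H859.PJ
open Pool.Agent.N352.PJ
open Pool.Agent.N530.PP (Lc)

/-! ### leading coefficients with weights -/

section lc

variable {k : Type} [Field k]

lemma lc_zero (d n : ℕ) : Lc (0 : k[X]) d n 0 := ⟨Or.inl rfl, by simp⟩

lemma lc_one : Lc (1 : k[X]) 0 0 1 := ⟨Or.inr (by simp), by simp⟩

lemma lc_int (z : ℤ) : Lc ((z : ℤ) : k[X]) 0 0 (z : k) := by
  refine ⟨Or.inr (by simp), ?_⟩
  rw [if_pos (Nat.zero_le 0), Nat.sub_zero, ← Polynomial.C_eq_intCast, coeff_C_zero]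

lemma lc_sum {ι : Type} (s : Finset ι) (p : ι → k[X]) (c : ι → k) (d n : ℕ)
    (h : ∀ i ∈ s, Lc (p i) d n (c i)) : Lc (∑ i ∈ s, p i) d n (∑ i ∈ s, c i) := by
  induction s using Finset.induction_on with
  | empty => simpa using lc_zero d n
  | insert a s ha ih =>
    rw [Finset.sum_insert ha, Finset.sum_insert ha]
    exact (h a (Finset.mem_insert_self a s)).add
      (ih fun i hi => h i (Finset.mem_insert_of_mem hi))

lemma lc_prod {ι : Type} (s : Finset ι) (p : ι → k[X]) (c : ι → k) (d n : ι → ℕ)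
    (h : ∀ i ∈ s, Lc (p i) (d i) (n i) (c i)) :
    Lc (∏ i ∈ s, p i) (∑ i ∈ s, d i) (∑ i ∈ s, n i) (∏ i ∈ s, c i) := by
  induction s using Finset.induction_on with
  | empty => simpa using lc_one
  | insert a s ha ih =>
    rw [Finset.prod_insert ha, Finset.prod_insert ha, Finset.sum_insert ha, Finset.sum_insert ha]
    exact (h a (Finset.mem_insert_self a s)).mul
      (ih fun i hi => h i (Finset.mem_insert_of_mem hi))

variable {m : ℕ}

/-- the leading coefficients at the weight `n` -/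
noncomputable def ld (d : Fin m → ℕ) (v : Fin m → k[X]) (n : ℕ) : Fin m → k :=
  fun j => if d j ≤ n then (v j).coeff (n - d j) else 0

lemma lc_of_wt {d : Fin m → ℕ} {v : Fin m → k[X]} {n : ℕ} (h : wtn d v ≤ n) (j : Fin m) :
    Lc (v j) (d j) n (ld d v n j) := by
  refine ⟨?_, rfl⟩
  by_cases h0 : v j = 0
  · exact Or.inl h0
  · refine Or.inr (le_trans ?_ h)
    have h1 := Finset.le_sup (f := fun j => if v j = 0 then 0 else (v j).natDegree + d j)
      (Finset.mem_univ j)
    simp only [h0, if_false] at h1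
    exact h1

lemma lc_ne {d : Fin m → ℕ} {v : Fin m → k[X]} (h : v ≠ 0) : ld d v (wtn d v) ≠ 0 := by
  have key : ∀ j, v j ≠ 0 → (v j).natDegree + d j = wtn d v →
      ld d v (wtn d v) j ≠ 0 := by
    intro j h1 h2
    unfold ld
    rw [if_pos (by omega), ← h2, Nat.add_sub_cancel]
    exact leadingCoeff_ne_zero.2 h1
  obtain ⟨i, hi⟩ : ∃ i, v i ≠ 0 := by
    by_contra hne
    push Not at hne
    exact h (funext hne)
  obtain ⟨j, -, hj⟩ := Finset.exists_mem_eq_sup Finset.univ ⟨i, Finset.mem_univ i⟩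
    (fun j => if v j = 0 then 0 else (v j).natDegree + d j)
  have hj' : wtn d v = if v j = 0 then 0 else (v j).natDegree + d j := hj
  intro hz
  by_cases h0 : v j = 0
  · rw [if_pos h0] at hj'
    refine key i hi ?_ (congrFun hz i)
    have h1 := Finset.le_sup (f := fun j => if v j = 0 then 0 else (v j).natDegree + d j)
      (Finset.mem_univ i)
    simp only [hi, if_false] at h1
    have h2 : (v i).natDegree + d i ≤ wtn d v := h1
    omega
  · rw [if_neg h0] at hj'
    exact key j h0 hj'.symm (congrFun hz j)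

lemma wt_eq {d : Fin m → ℕ} {v : Fin m → k[X]} {n : ℕ} {c : Fin m → k}
    (h : ∀ j, Lc (v j) (d j) n (c j)) (hc : c ≠ 0) : wtn d v = n := by
  apply le_antisymm
  · refine Finset.sup_le fun j _ => ?_
    by_cases h0 : v j = 0
    · simp [h0]
    · simp only [h0, if_false]
      exact (h j).1.resolve_left h0
  · obtain ⟨j, hj⟩ : ∃ j, c j ≠ 0 := by
      by_contra hne
      push Not at hne
      exact hc (funext hne)
    have h1 := (h j).2
    by_cases h2 : d j ≤ n
    · rw [if_pos h2] at h1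
      rw [← h1] at hj
      have h3 := le_natDegree_of_ne_zero hj
      have h4 : v j ≠ 0 := by
        intro h5
        rw [h5, coeff_zero] at hj
        exact hj rfl
      have h5 := Finset.le_sup (f := fun j => if v j = 0 then 0 else (v j).natDegree + d j)
        (Finset.mem_univ j)
      simp only [h4, if_false] at h5
      have h6 : (v j).natDegree + d j ≤ wtn d v := h5
      omega
    · rw [if_neg h2] at h1
      exact absurd h1.symm hj

end lc

/-! ### the product and the norm in coordinates -/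

section coord

variable {R : Type} [CommRing R] {m : ℕ}

/-- multiplication by `θ`, `θ ^ (m + 1) + ∑ c j θ ^ j = 0` -/
def st (c u : Fin (m + 1) → R) : Fin (m + 1) → R :=
  fun j => (Fin.cons 0 (fun i : Fin m => u i.castSucc) : Fin (m + 1) → R) j -
    c j * u (Fin.last m)

/-- the rows of the matrix of the multiplication by `∑ u j θ ^ j` -/
def rw' (c u : Fin (m + 1) → R) : ℕ → Fin (m + 1) → R
  | 0 => u
  | i + 1 => st c (rw' c u i)

/-- the matrix of the multiplication by `∑ u j θ ^ j` -/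
def MM (c u : Fin (m + 1) → R) : Matrix (Fin (m + 1)) (Fin (m + 1)) R :=
  Matrix.of fun i j => rw' c u (i : ℕ) j

lemma st_map {S : Type} [CommRing S] (f : R →+* S) (c u : Fin (m + 1) → R) (j : Fin (m + 1)) :
    f (st c u j) = st (fun i => f (c i)) (fun i => f (u i)) j := by
  unfold st
  rw [map_sub, map_mul]
  congr 1
  refine Fin.cases ?_ (fun i => ?_) j
  · simp
  · simp

lemma rw_map {S : Type} [CommRing S] (f : R →+* S) (c u : Fin (m + 1) → R) (i : ℕ)
    (j : Fin (m + 1)) : f (rw' c u i j) = rw' (fun i => f (c i)) (fun i => f (u i)) i j := by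
  induction i generalizing j with
  | zero => rfl
  | succ i ih =>
    show f (st c (rw' c u i) j) = st _ (rw' _ _ i) j
    rw [st_map]
    congr 1
    funext l
    exact ih l

lemma MM_map {S : Type} [CommRing S] (f : R →+* S) (c u : Fin (m + 1) → R) :
    (MM c u).map f = MM (fun i => f (c i)) (fun i => f (u i)) := by
  ext i j
  exact rw_map f c u i j

lemma st_mul {c : Fin (m + 1) → R} {θ : R} (h : θ ^ (m + 1) + ∑ j, c j * θ ^ (j : ℕ) = 0)
    (u : Fin (m + 1) → R) :
    (∑ j, u j * θ ^ (j : ℕ)) * θ = ∑ j, st c u j * θ ^ (j : ℕ) := by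
  unfold st
  simp only [sub_mul, Finset.sum_sub_distrib]
  rw [Fin.sum_univ_succ (fun j => (Fin.cons 0 (fun i : Fin m => u i.castSucc) :
    Fin (m + 1) → R) j * θ ^ (j : ℕ))]
  simp only [Fin.cons_zero, zero_mul, zero_add, Fin.cons_succ, Fin.val_succ]
  have h1 : ∑ j, c j * u (Fin.last m) * θ ^ (j : ℕ) =
      u (Fin.last m) * ∑ j, c j * θ ^ (j : ℕ) := by
    rw [Finset.mul_sum]
    exact Finset.sum_congr rfl fun j _ => by ring
  rw [h1, Fin.sum_univ_castSucc]
  simp only [Fin.val_castSucc, Fin.val_last]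
  rw [add_mul, Finset.sum_mul]
  have h2 : ∀ i : Fin m, u i.castSucc * θ ^ (i : ℕ) * θ = u i.castSucc * θ ^ ((i : ℕ) + 1) :=
    fun i => by ring
  rw [Finset.sum_congr rfl fun i _ => h2 i]
  linear_combination u (Fin.last m) * h

lemma rw_mul {c : Fin (m + 1) → R} {θ : R} (h : θ ^ (m + 1) + ∑ j, c j * θ ^ (j : ℕ) = 0)
    (u : Fin (m + 1) → R) (i : ℕ) :
    (∑ j, u j * θ ^ (j : ℕ)) * θ ^ i = ∑ j, rw' c u i j * θ ^ (j : ℕ) := by
  induction i with
  | zero => rw [pow_zero, mul_one]; rfl
  | succ i ih =>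
    rw [pow_succ, ← mul_assoc, ih, st_mul h]
    rfl

/-- the product -/
lemma mul_crd {c : Fin (m + 1) → R} {θ : R} (h : θ ^ (m + 1) + ∑ j, c j * θ ^ (j : ℕ) = 0)
    (u v : Fin (m + 1) → R) :
    (∑ j, u j * θ ^ (j : ℕ)) * (∑ j, v j * θ ^ (j : ℕ)) =
      ∑ j, (v ᵥ* MM c u) j * θ ^ (j : ℕ) := by
  rw [Finset.mul_sum]
  have h1 : ∀ i : Fin (m + 1), (∑ j, u j * θ ^ (j : ℕ)) * (v i * θ ^ (i : ℕ)) =
      ∑ j, v i * rw' c u i j * θ ^ (j : ℕ) := by
    intro i
    have h2 := rw_mul h u (i : ℕ)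
    calc (∑ j, u j * θ ^ (j : ℕ)) * (v i * θ ^ (i : ℕ))
        = v i * ((∑ j, u j * θ ^ (j : ℕ)) * θ ^ (i : ℕ)) := by ring
      _ = _ := by
        rw [h2, Finset.mul_sum]
        exact Finset.sum_congr rfl fun j _ => by ring
  rw [Finset.sum_congr rfl fun i _ => h1 i, Finset.sum_comm]
  refine Finset.sum_congr rfl fun j _ => ?_
  rw [← Finset.sum_mul]
  rfl

lemma root_fin {S : Type} [CommRing S] (φ : R →+* S) {F : R[X]} (hF : F.Monic)
    (hd : F.natDegree = m + 1) {θ : S} (h : eval₂ φ θ F = 0) :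
    θ ^ (m + 1) + ∑ j : Fin (m + 1), φ (F.coeff j) * θ ^ (j : ℕ) = 0 := by
  rw [eval₂_eq_sum_range, hd, Finset.sum_range_succ, Finset.sum_range] at h
  have h1 : F.coeff (m + 1) = 1 := by
    rw [← hd]; exact hF
  rw [h1, map_one, one_mul] at h
  rw [add_comm]
  exact h

end coord

section field

variable {k : Type} [Field k] {m : ℕ}

/-- no zero divisors -/
lemma no_zero {r : k[X]} (hr : Irreducible r) (hm : r.Monic) (hd : r.natDegree = m + 1)
    {U V : Fin (m + 1) → k} (h : V ᵥ* MM (fun j => r.coeff j) U = 0) : U = 0 ∨ V = 0 := by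
  have : Fact (Irreducible r) := ⟨hr⟩
  have hroot := root_fin (AdjoinRoot.of r) hm hd (AdjoinRoot.eval₂_root r)
  -- the value
  have hval : ∀ W : Fin (m + 1) → k,
      ∑ j, AdjoinRoot.of r (W j) * AdjoinRoot.root r ^ (j : ℕ) = 0 → W = 0 := by
    intro W hW
    have h1 : AdjoinRoot.mk r (∑ j, C (W j) * X ^ (j : ℕ)) = 0 := by
      rw [map_sum]
      simp only [map_mul, map_pow, AdjoinRoot.mk_X, AdjoinRoot.mk_C]
      exact hW
    rw [AdjoinRoot.mk_eq_zero] at h1
    have h2 : (∑ j, C (W j) * X ^ (j : ℕ) : k[X]) = 0 := by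
      refine eq_zero_of_dvd_of_natDegree_lt h1 ?_
      rw [hd]
      refine Nat.lt_succ_of_le ?_
      refine natDegree_sum_le_of_forall_le _ _ fun j _ => ?_
      exact (natDegree_C_mul_X_pow_le _ _).trans (Nat.lt_succ_iff.1 j.2)
    funext i
    have h3 := congrArg (fun p : k[X] => p.coeff (i : ℕ)) h2
    simp only [finset_sum_coeff, coeff_C_mul_X_pow, coeff_zero] at h3
    rw [Finset.sum_eq_single i] at h3
    · rw [if_pos rfl] at h3
      exact h3
    · intro j _ hj
      rw [if_neg]
      intro h4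
      exact hj (Fin.ext h4.symm)
    · intro h4
      exact absurd (Finset.mem_univ i) h4
  have h1 := mul_crd hroot (fun i => AdjoinRoot.of r (U i)) (fun i => AdjoinRoot.of r (V i))
  have h2 : ∀ j, ((fun i => AdjoinRoot.of r (V i)) ᵥ*
      MM (fun j : Fin (m + 1) => AdjoinRoot.of r (r.coeff j))
        (fun i => AdjoinRoot.of r (U i))) j = 0 := by
    intro j
    have h3 := congrFun h j
    rw [← MM_map (AdjoinRoot.of r) (fun j : Fin (m + 1) => r.coeff j) U]
    have h4 := RingHom.map_vecMul (AdjoinRoot.of r) (MM (fun j : Fin (m + 1) => r.coeff j) U) V j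
    rw [h3] at h4
    rw [Pi.zero_apply, map_zero] at h4
    exact h4.symm
  simp only [h2, zero_mul, Finset.sum_const_zero] at h1
  rcases mul_eq_zero.1 h1 with h3 | h3
  · exact Or.inl (hval U h3)
  · exact Or.inr (hval V h3)

lemma det_ne {r : k[X]} (hr : Irreducible r) (hm : r.Monic) (hd : r.natDegree = m + 1)
    {U : Fin (m + 1) → k} (hU : U ≠ 0) : (MM (fun j => r.coeff j) U).det ≠ 0 := by
  intro h
  obtain ⟨V, hV, hV'⟩ := Matrix.exists_vecMul_eq_zero_iff.2 h
  rcases no_zero hr hm hd hV' with h1 | h1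
  · exact hU h1
  · exact hV h1

/-- the rows -/
lemma rows {c : Fin (m + 1) → k[X]} {c' : Fin (m + 1) → k} {N n : ℕ}
    (hc : ∀ j, Lc (c j) 0 (N * (m + 1 - j)) (c' j)) {u : Fin (m + 1) → k[X]}
    {U : Fin (m + 1) → k} (hu : ∀ j, Lc (u j) (N * (j : ℕ)) n (U j)) (i : ℕ)
    (j : Fin (m + 1)) : Lc (rw' c u i j) (N * (j : ℕ)) (n + N * i) (rw' c' U i j) := by
  induction i generalizing j with
  | zero => exact (hu j).cast (by ring)
  | succ i ih =>
    show Lc (st c (rw' c u i) j) _ _ (st c' (rw' c' U i) j)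
    unfold st
    refine Lc.sub ?_ ?_
    · revert j
      refine Fin.cases ?_ fun j => ?_
      · rw [Fin.cons_zero, Fin.cons_zero]
        exact lc_zero _ _
      · rw [Fin.cons_succ, Fin.cons_succ]
        refine (ih j.castSucc).cast ?_
        rw [Fin.val_castSucc, Fin.val_succ]
        ring
    · refine ((hc j).mul (ih (Fin.last m))).cast ?_
      rw [Fin.val_last]
      have h1 : (j : ℕ) + (m + 1 - j) = m + 1 := by
        have := j.2
        omega
      have h2 : N * (j : ℕ) + N * (m + 1 - j) = N * (m + 1) := by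
        rw [← mul_add, h1]
      linear_combination -h2

end field

section gen

variable {g : ℕ} {k L : Type} [Field k] [Field L] [Algebra k[X] L] {K : Type} [Field K]
  [Algebra K L] [Algebra k[X] K] [IsFractionRing k[X] K] [IsScalarTower k[X] K L]
  {f : k[X][X]} {θ : L}

lemma crd_sum (h : IsGen g K f θ) (v : Fin (2 * g + 1) → k[X]) :
    ∑ i, algebraMap k[X] L (v i) * θ ^ (i : ℕ) =
      ∑ i, algebraMap k[X] K (v i) • h.basis i := by
  refine Finset.sum_congr rfl fun i _ => ?_
  rw [h.basis_apply, Algebra.smul_def, ← IsScalarTower.algebraMap_apply]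

lemma crd_unique (h : IsGen g K f θ) {v w : Fin (2 * g + 1) → k[X]} {x : L} (hv : Crd g θ v x)
    (hw : Crd g θ w x) : v = w := by
  have hv' : x = _ := hv
  have hw' : x = _ := hw
  rw [crd_sum h] at hv' hw'
  funext i
  have h1 := h.basis.repr_sum_self (fun i => algebraMap k[X] K (v i))
  have h2 := h.basis.repr_sum_self (fun i => algebraMap k[X] K (w i))
  have h3 : (fun i => algebraMap k[X] K (v i)) = fun i => algebraMap k[X] K (w i) := by
    rw [← h1, ← h2, ← hv', ← hw']
  exact IsFractionRing.injective k[X] K (congrFun h3 i)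

lemma crd_mul (h : IsGen g K f θ) {u v : Fin (2 * g + 1) → k[X]} {x y : L} (hu : Crd g θ u x)
    (hv : Crd g θ v y) :
    Crd g θ (v ᵥ* MM (fun j : Fin (2 * g + 1) => f.coeff j) u) (x * y) := by
  have hu' : x = _ := hu
  have hv' : y = _ := hv
  have hroot := root_fin (m := 2 * g) (algebraMap k[X] L) h.mon h.deg h.root
  have h1 := mul_crd hroot (fun i => algebraMap k[X] L (u i)) (fun i => algebraMap k[X] L (v i))
  have h2 : ∀ j, ((fun i => algebraMap k[X] L (v i)) ᵥ*
      MM (fun j : Fin (2 * g + 1) => algebraMap k[X] L (f.coeff j))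
        (fun i => algebraMap k[X] L (u i))) j =
      algebraMap k[X] L ((v ᵥ* MM (fun j : Fin (2 * g + 1) => f.coeff j) u) j) := by
    intro j
    rw [← MM_map (algebraMap k[X] L) (fun j : Fin (2 * g + 1) => f.coeff j) u,
      RingHom.map_vecMul]
    rfl
  simp only [h2] at h1
  unfold Crd
  rw [hu', hv']
  exact h1

/-- the leading coefficients of the coefficients of `f` -/
lemma lead_f {N : ℕ} {r : k[X]} (hf : HtA g (2 * N) f)
    (hr : ∀ j ≤ 2 * g, (f.coeff j).coeff (2 * N * (2 * g + 1 - j)) = r.coeff j)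
    (j : Fin (2 * g + 1)) :
    Lc (f.coeff j) 0 (2 * N * (2 * g + 1 - j)) (r.coeff j) := by
  have hj : (j : ℕ) ≤ 2 * g := Nat.lt_succ_iff.1 j.2
  refine ⟨Or.inr ?_, ?_⟩
  · have := hf.ht j hj
    omega
  · rw [if_pos (Nat.zero_le _), Nat.sub_zero]
    exact hr j hj

end gen

/-- PJ-WT -/
theorem wt : S_WTA := by
  intro g k L _ _ _ K _ _ _ _ _ f θ N r h hf hr hfr x y u v w hx hy hu hv hw
  have hu0 : u ≠ 0 := by
    rintro rfl
    apply hx
    have h1 : x = _ := hu
    rw [h1]
    simp
  have hv0 : v ≠ 0 := by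
    rintro rfl
    apply hy
    have h1 : y = _ := hv
    rw [h1]
    simp
  have hwe : w = v ᵥ* MM (fun j : Fin (2 * g + 1) => f.coeff j) u :=
    crd_unique h hw (crd_mul h hu hv)
  set d : Fin (2 * g + 1) → ℕ := fun i => 2 * N * (i : ℕ) with hd
  have hUc := fun j => lc_of_wt (d := d) (v := u) le_rfl j
  have hVc := fun j => lc_of_wt (d := d) (v := v) le_rfl j
  have hU0 := lc_ne (d := d) hu0
  have hV0 := lc_ne (d := d) hv0
  have hE := rows (N := 2 * N) (lead_f hf hfr) hUc
  refine wt_eq (c := ld d v (wtn d v) ᵥ*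
    MM (fun j : Fin (2 * g + 1) => r.coeff j) (ld d u (wtn d u))) ?_ ?_
  · intro j
    rw [hwe]
    show Lc (∑ i, v i * rw' (fun j : Fin (2 * g + 1) => f.coeff j) u (i : ℕ) j) (d j)
      (wtn d u + wtn d v) (∑ i, ld d v (wtn d v) i *
        rw' (fun j : Fin (2 * g + 1) => r.coeff j) (ld d u (wtn d u)) (i : ℕ) j)
    refine lc_sum _ _ _ _ _ fun i _ => ?_
    refine ((hVc i).mul (hE (i : ℕ) j)).cast ?_
    show d i + 2 * N * (j : ℕ) + (wtn d u + wtn d v) =
      d j + (wtn d v + (wtn d u + 2 * N * (i : ℕ)))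
    have h1 : d i = 2 * N * (i : ℕ) := rfl
    have h2 : d j = 2 * N * (j : ℕ) := rfl
    rw [h1, h2]
    ring
  · intro h1
    rcases no_zero hr.2.1 hr.1 hr.2.2.1 h1 with h2 | h2
    · exact hU0 h2
    · exact hV0 h2

/-- the degree of the norm -/
theorem nw : S_NWA := by
  intro g k L _ _ _ K _ _ _ _ _ f θ N r h hf hr hfr x u n hx hu hn
  have hu0 : u ≠ 0 := by
    rintro rfl
    apply hx
    have h1 : x = _ := hu
    rw [h1]
    simp
  -- the norm
  have hdet : n = (MM (fun j : Fin (2 * g + 1) => f.coeff j) u).det := by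
    apply IsFractionRing.injective k[X] K
    rw [hn, Algebra.norm_eq_matrix_det h.basis]
    have h1 : Algebra.leftMulMatrix h.basis x =
        ((MM (fun j : Fin (2 * g + 1) => f.coeff j) u).map (algebraMap k[X] K))ᵀ := by
      ext i j
      rw [Algebra.leftMulMatrix_eq_repr_mul]
      have hv : Crd g θ (fun i => if i = j then 1 else 0 : Fin (2 * g + 1) → k[X])
          (h.basis j) := by
        unfold Crd
        refine Eq.trans ?_
          (crd_sum h (fun i => if i = j then 1 else 0 : Fin (2 * g + 1) → k[X])).symm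
        rw [Finset.sum_eq_single j]
        · simp
        · intro i _ hij
          simp [hij]
        · intro h1
          exact absurd (Finset.mem_univ j) h1
      have h2 : x * h.basis j = _ := crd_mul h hu hv
      rw [crd_sum h] at h2
      rw [h2, h.basis.repr_sum_self]
      rw [Matrix.transpose_apply, Matrix.map_apply]
      congr 1
      rw [Matrix.vecMul, dotProduct, Finset.sum_eq_single j]
      · simp
      · intro l _ hl
        simp [hl]
      · intro h1
        exact absurd (Finset.mem_univ j) h1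
    rw [h1, Matrix.det_transpose]
    exact ((algebraMap k[X] K).map_det _).symm
  set d : Fin (2 * g + 1) → ℕ := fun i => 2 * N * (i : ℕ) with hd
  have hUc := fun j => lc_of_wt (d := d) (v := u) le_rfl j
  have hU0 := lc_ne (d := d) hu0
  have hE := rows (N := 2 * N) (lead_f hf hfr) hUc
  obtain ⟨m, hm⟩ : ∃ m, m = wtn d u := ⟨_, rfl⟩
  rw [← hm] at hE hU0 ⊢
  have hL : Lc (MM (fun j : Fin (2 * g + 1) => f.coeff j) u).det 0 ((2 * g + 1) * m)
      (MM (fun j : Fin (2 * g + 1) => r.coeff j) (ld d u m)).det := by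
    rw [Matrix.det_apply', Matrix.det_apply']
    refine lc_sum _ _ _ _ _ fun σ _ => ?_
    have h1 := (lc_int (k := k) (Equiv.Perm.sign σ : ℤ)).mul
      (lc_prod Finset.univ (fun i => MM (fun j : Fin (2 * g + 1) => f.coeff j) u (σ i) i)
      (fun i => MM (fun j : Fin (2 * g + 1) => r.coeff j) (ld d u m) (σ i) i)
      (fun i => 2 * N * (i : ℕ)) (fun i => m + 2 * N * (σ i : ℕ))
      (fun i _ => hE (σ i : ℕ) i))
    refine h1.cast ?_
    have h2 : ∑ i : Fin (2 * g + 1), (m + 2 * N * (σ i : ℕ)) =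
        (2 * g + 1) * m + ∑ i : Fin (2 * g + 1), 2 * N * (i : ℕ) := by
      rw [Finset.sum_add_distrib, Finset.sum_const, Finset.card_univ, Fintype.card_fin,
        smul_eq_mul, Equiv.sum_comp σ (fun i : Fin (2 * g + 1) => 2 * N * (i : ℕ))]
    rw [h2]
    ring
  rw [hdet]
  have h1 := det_ne hr.2.1 hr.1 hr.2.2.1 hU0
  obtain ⟨h2, h3⟩ := hL
  rw [if_pos (Nat.zero_le _), Nat.sub_zero] at h3
  apply le_antisymm
  · rcases h2 with h2 | h2
    · rw [h2, natDegree_zero]
      exact Nat.zero_le _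
    · omega
  · apply le_natDegree_of_ne_zero
    rw [h3]
    exact h1

end Pool.Agent.H859.N415.PJWT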