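import Pool.Agent.H859.SC.N352PJIdx
import Pool.Graph.R_pool_sql_team_seeded_63374d34.N227.PJ.Par
import Pool.Agent.H859.SC.N352PJLoc
import Pool.Graph.R_pool_sql_team_seeded_63374d34.N862.PP.Ns
import Pool.Agent.H859.SC.N227PJLB

/-!
# Project PJ, parts PAR and PARQ (helper227): parities from the norm

The general lemmas on relative norms are due to helper862 (project PP).
-/

set_option autoImplicit false
set_option linter.all false

open Polynomial IsDedekindDomain WithZero UniqueFactorizationMonoid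
open scoped Classical

namespace Pool.Agent.H859.N227.PJ
open Pool.Agent.N227.PJ Pool.Agent.H859.PJ
open Pool.Agent.N352.PJ
open Pool.Agent.N874.PP (Ov Ev Sq1 U0)
open Pool.Agent.N862.PP (algL_inj algO_inj isInt ov_iff val_eq ev_iff_count ev_mul_sq cn cn_sum
  cn_zero cn_one not_ev_of_exp)

section bas

variable {k K L O : Type} [Field k] [Field K] [Algebra k[X] K] [IsFractionRing k[X] K]
  [Field L] [Algebra K L] [Algebra k[X] L] [IsScalarTower k[X] K L] [CommRing O]
  [IsDedekindDomain O] [Algebra O L] [IsFractionRing O L] [Algebra k[X] O]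
  [IsScalarTower k[X] O L] [IsIntegralClosure O k[X] L] {g : ℕ} {f : k[X][X]} {θ : L}

theorem exists_t (h : IsGen g K f θ) : ∃ t : O, algebraMap O L t = θ :=
  (IsIntegralClosure.isIntegral_iff (R := k[X]) (A := O)).mp (theta_int h)

theorem sum_t {t : O} (ht : algebraMap O L t = θ) (v : Fin (2 * g + 1) → k[X]) :
    algebraMap O L (∑ i, v i • t ^ (i : ℕ)) = ∑ i, algebraMap k[X] L (v i) * θ ^ (i : ℕ) := by
  rw [map_sum]
  refine Finset.sum_congr rfl fun i _ => ?_
  rw [Algebra.smul_def, map_mul, map_pow, ht, ← IsScalarTower.algebraMap_apply k[X] O L]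

/-- the basis -/
theorem exists_bas (h : IsGen g K f θ)
    (hI : ∀ x : L, IsIntegral k[X] x ↔ ∃ v : Fin (2 * g + 1) → k[X], Crd g θ v x)
    {t : O} (ht : algebraMap O L t = θ) :
    ∃ b : Module.Basis (Fin (2 * g + 1)) k[X] O, ∀ i, b i = t ^ (i : ℕ) := by
  have hli : LinearIndependent k[X] (fun i : Fin (2 * g + 1) => t ^ (i : ℕ)) := by
    rw [Fintype.linearIndependent_iff]
    intro v hv i
    have h1 := sum_t ht v
    rw [hv, map_zero] at h1
    have h2 : Crd g θ v (0 : L) := h1
    have h3 := crd_co h h2 i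
    rw [map_zero] at h3
    exact (map_eq_zero_iff _ (inj (k := k) (K := K))).1 h3.symm
  have hsp : ⊤ ≤ Submodule.span k[X] (Set.range fun i : Fin (2 * g + 1) => t ^ (i : ℕ)) := by
    intro x _
    obtain ⟨v, hv⟩ := (hI _).1 (isInt (L := L) x)
    have h1 : x = ∑ i, v i • t ^ (i : ℕ) := by
      apply IsFractionRing.injective O L
      rw [sum_t ht]
      exact hv
    rw [h1]
    exact Submodule.sum_mem _ fun i _ => Submodule.smul_mem _ _ (Submodule.subset_span ⟨i, rfl⟩)
  exact ⟨Module.Basis.mk hli hsp, fun i => by rw [Module.Basis.mk_apply]⟩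

theorem fd (h : IsGen g K f θ) : FiniteDimensional K L :=
  Module.finite_of_finrank_pos (by rw [h.rank]; omega)

theorem norm_alg (h : IsGen g K f θ) (b : Module.Basis (Fin (2 * g + 1)) k[X] O) (y : O) :
    algebraMap k[X] K (Algebra.norm k[X] y) = Algebra.norm K (algebraMap O L y) := by
  have hfree : Module.Free k[X] O := Module.Free.of_basis b
  have hfin : Module.Finite k[X] O := Module.Finite.of_basis b
  have hfd := fd h
  rw [← Algebra.algebraMap_intNorm (A := k[X]) (B := O) (L := L), Algebra.intNorm_eq_norm]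

/-- the characteristic polynomial of `θ` -/
theorem minp (h : IsGen g K f θ) : minpoly K θ = f.map (algebraMap k[X] K) := by
  let pb : PowerBasis K L := ⟨θ, 2 * g + 1, h.basis, fun i => h.basis_apply i⟩
  have hint : IsIntegral K θ := pb.isIntegral_gen
  have h0 : aeval θ (f.map (algebraMap k[X] K)) = 0 := by
    rw [aeval_map_algebraMap]
    exact h.root
  exact (minpoly.eq_of_irreducible_of_monic (irrK h) h0 (h.mon.map _)).symm

theorem norm_lin (h : IsGen g K f θ) (c : k[X]) :
    Algebra.norm K (algebraMap k[X] L c - θ) = algebraMap k[X] K (f.eval c) := by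
  let pb : PowerBasis K L := ⟨θ, 2 * g + 1, h.basis, fun i => h.basis_apply i⟩
  have h1 : (Algebra.leftMulMatrix h.basis θ).charpoly = f.map (algebraMap k[X] K) :=
    (charpoly_leftMulMatrix pb).trans (minp h)
  have h2 := congrArg (Polynomial.eval (algebraMap k[X] K c)) h1
  rw [Matrix.eval_charpoly] at h2
  have h3 : (f.map (algebraMap k[X] K)).eval (algebraMap k[X] K c) =
      algebraMap k[X] K (f.eval c) := Polynomial.eval_map_apply (algebraMap k[X] K) c
  rw [h3] at h2
  rw [← h2, Algebra.norm_eq_matrix_det h.basis, map_sub]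
  congr 2
  rw [IsScalarTower.algebraMap_apply k[X] K L, AlgHom.commutes]
  rfl

theorem sqf_root (h : IsGen g K f θ)
    (hI : ∀ x : L, IsIntegral k[X] x ↔ ∃ v : Fin (2 * g + 1) → k[X], Crd g θ v x)
    {t : O} (ht : algebraMap O L t = θ) {P : k[X]} (hP : Irreducible P) (c : k[X]) :
    ∃ c', P ∣ c' - c ∧ ¬ P ^ 2 ∣ f.eval c' := by
  by_contra hno
  push Not at hno
  obtain ⟨e, he⟩ := hno c (by simp)
  obtain ⟨e', he'⟩ := hno (c + P) (by simp)
  set q := f /ₘ (X - C c) with hq
  have hfq : f = C (f.eval c) + (X - C c) * q := by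
    have := modByMonic_add_div f (X - C c)
    rw [modByMonic_X_sub_C_eq_C_eval] at this
    exact this.symm
  set q2 := q /ₘ (X - C (c + P)) with hq2
  have hqq : q = C (q.eval (c + P)) + (X - C (c + P)) * q2 := by
    have := modByMonic_add_div q (X - C (c + P))
    rw [modByMonic_X_sub_C_eq_C_eval] at this
    exact this.symm
  have h1 : q.eval (c + P) = P * (e' - e) := by
    have h2 := congrArg (Polynomial.eval (c + P)) hfq
    simp only [eval_add, eval_C, eval_mul, eval_sub, eval_X] at h2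
    rw [he, he'] at h2
    refine mul_left_cancel₀ hP.ne_zero ?_
    linear_combination -h2
  have hdeg : f.natDegree = 2 * g + 1 := h.deg
  have hqd : q.natDegree = 2 * g := by
    rw [hq, natDegree_divByMonic f (monic_X_sub_C c), hdeg, natDegree_X_sub_C]
    omega
  have hqm : q.coeff (2 * g) = 1 := by
    have h2 : q.leadingCoeff = f.leadingCoeff := by
      refine leadingCoeff_divByMonic_of_monic (monic_X_sub_C c) ?_
      rw [degree_X_sub_C, degree_eq_natDegree h.mon.ne_zero, hdeg]
      exact_mod_cast (by omega : 1 ≤ 2 * g + 1)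
    rw [h.mon.leadingCoeff] at h2
    rw [← hqd]
    exact h2
  have hPL : algebraMap k[X] L P ≠ 0 := fun h0 =>
    hP.ne_zero (algL_inj (K := K) (by rw [h0, map_zero]))
  -- the values at `θ`
  have hroot : aeval θ f = 0 := h.root
  have e1 : algebraMap k[X] L (P ^ 2 * e) + (θ - algebraMap k[X] L c) * aeval θ q = 0 := by
    rw [← hroot]
    conv_rhs => rw [hfq]
    rw [he]
    simp only [map_add, map_mul, map_sub, aeval_C, aeval_X]
  have e2 : aeval θ q = algebraMap k[X] L (P * (e' - e)) +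
      (θ - algebraMap k[X] L (c + P)) * aeval θ q2 := by
    conv_lhs => rw [hqq]
    rw [h1]
    simp only [map_add, map_mul, map_sub, aeval_C, aeval_X]
  have hA : ∃ A : O, algebraMap O L A = aeval θ q2 := by
    refine ⟨aeval t q2, ?_⟩
    rw [← ht, aeval_algebraMap_apply]
  obtain ⟨A, hA⟩ := hA
  obtain ⟨y, hy⟩ : ∃ y : L, aeval θ q = algebraMap k[X] L P * y :=
    ⟨aeval θ q / algebraMap k[X] L P, by field_simp⟩
  have hyint : IsIntegral O y := by
    refine ⟨X ^ 2 + C (A - algebraMap k[X] O (e' - e)) * X + C (algebraMap k[X] O e * A), ?_, ?_⟩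
    · monicity!
    · simp only [eval₂_add, eval₂_mul, eval₂_pow, eval₂_sub, eval₂_X, eval₂_C, map_sub, map_mul, hA,
        ← IsScalarTower.algebraMap_apply k[X] O L]
      rw [hy] at e1 e2
      simp only [map_mul, map_sub, map_add, map_pow] at e1 e2
      set p := algebraMap k[X] L P
      set θc := algebraMap k[X] L c
      set εe := algebraMap k[X] L e
      set εe' := algebraMap k[X] L e'
      set B := aeval θ q2
      have e3 : (θ - θc) * y = - (p * εe) := by
        refine mul_left_cancel₀ hPL ?_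
        linear_combination e1
      refine mul_left_cancel₀ hPL ?_
      linear_combination y * e2 + B * e3
  obtain ⟨y', hy'⟩ := IsIntegrallyClosed.isIntegral_iff.mp hyint
  obtain ⟨v, hv⟩ := (hI _).1 (isInt (L := L) y')
  rw [hy'] at hv
  have hcq : Crd g θ (fun i : Fin (2 * g + 1) => q.coeff i) (aeval θ q) := by
    unfold Crd
    rw [aeval_eq_sum_range' (n := 2 * g + 1) (by omega), Finset.sum_range]
    refine Finset.sum_congr rfl fun i _ => ?_
    rw [Algebra.smul_def]
  have h3 := crd_co h hcq (Fin.last (2 * g))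
  rw [hy, smul_alg (K := K), map_smul, crd_co h hv, smul_eq_mul, ← map_mul] at h3
  have h4 := inj (k := k) (K := K) h3
  simp only [Fin.val_last, hqm] at h4
  exact hP.not_isUnit (IsUnit.of_mul_eq_one _ h4)

/-- primes of degree one -/
theorem cn_deg_one [Module.Finite k[X] O] [Module.IsTorsionFree k[X] O] (h : IsGen g K f θ)
    (hI : ∀ x : L, IsIntegral k[X] x ↔ ∃ v : Fin (2 * g + 1) → k[X], Crd g θ v x)
    {P : k[X]} (hP : Irreducible P) {𝔓 : HeightOneSpectrum O}
    (hov : Ov P 𝔓) {t : O} (ht : algebraMap O L t = θ) {c : k[X]}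
    (hc : t - algebraMap k[X] O c ∈ 𝔓.asIdeal) :
    cn k[X] (Ideal.span {P}) 𝔓.asIdeal = 1 := by
  have hfd := fd h
  have hpp : (Ideal.span {P} : Ideal k[X]).IsPrime :=
    (Ideal.span_singleton_prime hP.ne_zero).mpr hP.prime
  have hpb : (Ideal.span {P} : Ideal k[X]) ≠ ⊥ := by
    rw [Ne, Ideal.span_singleton_eq_bot]
    exact hP.ne_zero
  obtain ⟨c', ⟨d, hd⟩, hc'⟩ := sqf_root (K := K) h hI ht hP c
  refine cn_one hpp hpb 𝔓.isPrime ?_ (z := algebraMap k[X] O c' - t) ?_ ?_
  · ext x
    rw [Ideal.mem_comap, ov_iff hP hov, Ideal.mem_span_singleton]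
  · have h1 : algebraMap k[X] O c' - t = algebraMap k[X] O d * algebraMap k[X] O P -
        (t - algebraMap k[X] O c) := by
      have hd' : c' = c + P * d := by linear_combination hd
      rw [hd', map_add, map_mul]
      ring
    rw [h1]
    exact 𝔓.asIdeal.sub_mem (𝔓.asIdeal.mul_mem_left _ hov) hc
  · have h1 : Algebra.intNorm k[X] O (algebraMap k[X] O c' - t) = f.eval c' := by
      apply inj (k := k) (K := K)
      rw [Algebra.algebraMap_intNorm (L := L), map_sub, ht,
        ← IsScalarTower.algebraMap_apply k[X] O L, norm_lin h]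
    rw [h1, Ideal.span_singleton_pow, Ideal.mem_span_singleton]
    exact hc'

/-- Parity. -/
theorem parity [Module.Finite k[X] O] [Module.IsTorsionFree k[X] O] (h : IsGen g K f θ)
    {P : k[X]} (hP : Irreducible P) (𝔓₀ : HeightOneSpectrum O) (hov : Ov P 𝔓₀)
    (hodd : Odd (cn k[X] (Ideal.span {P}) 𝔓₀.asIdeal)) {x : L} (hx : x ≠ 0)
    (hsq : IsSquare (Algebra.norm K x))
    (hoth : ∀ 𝔓 : HeightOneSpectrum O, Ov P 𝔓 → 𝔓 ≠ 𝔓₀ → Ev 𝔓 x ∨
      Even (cn k[X] (Ideal.span {P}) 𝔓.asIdeal)) : Ev 𝔓₀ x := by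
  have hfd := fd h
  obtain ⟨z₁, w, hw, rfl⟩ := IsFractionRing.div_surjective (A := O) x
  have hw0 : w ≠ 0 := nonZeroDivisors.ne_zero hw
  have hwL : algebraMap O L w ≠ 0 := by
    simpa using hw0
  -- `z = z₁ w`
  have hz0 : z₁ * w ≠ 0 := by
    rintro h0
    rcases mul_eq_zero.mp h0 with rfl | h0
    · simp at hx
    · exact hw0 h0
  have hxz : algebraMap O L z₁ / algebraMap O L w * algebraMap O L w ^ 2 =
      algebraMap O L (z₁ * w) := by
    rw [map_mul]
    field_simp
  have hev : ∀ 𝔓 : HeightOneSpectrum O, Ev 𝔓 (algebraMap O L z₁ / algebraMap O L w) ↔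
      Even ((normalizedFactors (Ideal.span {z₁ * w})).count 𝔓.asIdeal) := by
    intro 𝔓
    rw [← ev_mul_sq 𝔓 hwL, hxz, ev_iff_count 𝔓 hz0]
  have hpp : (Ideal.span {P} : Ideal k[X]).IsPrime :=
    (Ideal.span_singleton_prime hP.ne_zero).mpr hP.prime
  have hpb : (Ideal.span {P} : Ideal k[X]) ≠ ⊥ := by
    rw [Ne, Ideal.span_singleton_eq_bot]
    exact hP.ne_zero
  -- the norm is a square
  have hnsq : ∃ m : k[X], Algebra.intNorm k[X] O (z₁ * w) = m * m := by
    have h1 : IsSquare (algebraMap k[X] K (Algebra.intNorm k[X] O (z₁ * w))) := by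
      rw [Algebra.algebraMap_intNorm (L := L), ← hxz, map_mul, map_pow]
      exact hsq.mul (IsSquare.sq _)
    obtain ⟨r, hr⟩ := h1
    have hint : IsIntegral k[X] r := by
      refine IsIntegral.of_pow (n := 2) (by norm_num) ?_
      rw [sq, ← hr]
      exact isIntegral_algebraMap
    obtain ⟨m, rfl⟩ := IsIntegrallyClosed.isIntegral_iff.mp hint
    exact ⟨m, IsFractionRing.injective k[X] K (by rw [hr, map_mul])⟩
  obtain ⟨m, hm⟩ := hnsq
  have hzI : (Ideal.span {z₁ * w} : Ideal O) ≠ ⊥ := by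
    rw [Ne, Ideal.span_singleton_eq_bot]
    exact hz0
  have hm0 : m ≠ 0 := by
    rintro rfl
    have := (Algebra.intNorm_eq_zero (A := k[X]) (B := O)).mp (hm.trans (mul_zero _))
    exact hz0 this
  have heven : Even (cn k[X] (Ideal.span {P}) (Ideal.span {z₁ * w} : Ideal O)) := by
    unfold cn
    rw [Ideal.relNorm_singleton, hm, ← Ideal.span_singleton_mul_span_singleton,
      normalizedFactors_mul, Multiset.count_add]
    · exact ⟨_, rfl⟩
    · simpa using hm0
    · simpa using hm0
  rw [cn_sum _ hzI] at heven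
  rw [hev]
  by_cases hmem : 𝔓₀.asIdeal ∈ (normalizedFactors (Ideal.span {z₁ * w} : Ideal O)).toFinset
  · rw [← Finset.add_sum_erase _ _ hmem] at heven
    have hrest : Even (∑ J ∈ (normalizedFactors (Ideal.span {z₁ * w} : Ideal O)).toFinset.erase
        𝔓₀.asIdeal, (normalizedFactors (Ideal.span {z₁ * w} : Ideal O)).count J *
          cn k[X] (Ideal.span {P}) J) := by
      apply Finset.even_sum
      intro J hJ
      rw [Finset.mem_erase, Multiset.mem_toFinset] at hJ
      obtain ⟨hJ1, hJ2⟩ := hJ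
      have hJp := prime_of_normalized_factor J hJ2
      have hJ3 : J.IsPrime := Ideal.isPrime_of_prime hJp
      by_cases hJP : (Ideal.span {P} : Ideal k[X]) ≤ J.comap (algebraMap k[X] O)
      · let 𝔓 : HeightOneSpectrum O := ⟨J, hJ3, hJp.ne_zero⟩
        have hov' : Ov P 𝔓 := hJP (Ideal.mem_span_singleton_self P)
        have hne : 𝔓 ≠ 𝔓₀ := fun h0 => hJ1 (by rw [← h0])
        rcases hoth 𝔓 hov' hne with h1 | h1
        · exact ((hev 𝔓).mp h1).mul_right _
        · exact h1.mul_left _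
      · rw [cn_zero hpp hpb hJ3 hJp.ne_zero hJP, mul_zero]
        exact ⟨0, rfl⟩
    have h1 := (Nat.even_add.mp heven).mpr hrest
    rcases Nat.even_mul.mp h1 with h2 | h2
    · exact h2
    · exact absurd h2 (Nat.not_even_iff_odd.mpr hodd)
  · rw [Multiset.mem_toFinset] at hmem
    rw [Multiset.count_eq_zero_of_notMem hmem]
    exact ⟨0, rfl⟩

end bas

/-- **PAR.** -/
theorem par (hInt : S_INT) : S_PAR := by
  intro g k K L O _ _ _ _ _ _ _ _ _ _ _ _ _ _ _ f θ h hsq P hP 𝔓₀ c hov hθ x hx hnx hoth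
  have hI := hInt g k K L f θ h hsq
  obtain ⟨t, ht⟩ := exists_t (O := O) h
  obtain ⟨b, hb⟩ := exists_bas h hI ht
  have hfin : Module.Finite k[X] O := Module.Finite.of_basis b
  have htf : Module.IsTorsionFree k[X] O := Pool.Agent.N862.PP.tf_O (K := K) (L := L)
  have hc : t - algebraMap k[X] O c ∈ 𝔓₀.asIdeal := by
    rw [← 𝔓₀.valuation_lt_one_iff_mem (K := L)]
    change 𝔓₀.valuation L (algebraMap O L (t - algebraMap k[X] O c)) < 1
    rw [map_sub, ht, ← IsScalarTower.algebraMap_apply k[X] O L]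
    exact hθ
  have h1 := cn_deg_one h hI hP hov ht hc
  exact parity h hP 𝔓₀ hov (by rw [h1]; exact odd_one) hx hnx
    fun 𝔓 ho hne => Or.inl (hoth 𝔓 ho hne)

/-- **PARQ.** -/
theorem parq (hInt : S_INT) (hE : S_EXQA) : S_PARQA := by
  intro g k K L O _ _ _ _ _ _ _ _ _ _ _ _ _ _ _ _ f θ S hh hg h hsq hS Q hQS hCg x hx hnx 𝔓 hov hθ
  have hI := hInt g k K L f θ h hsq
  have hQ : Irreducible Q := (hS Q hQS).2.1
  obtain ⟨t, ht⟩ := exists_t (O := O) h
  obtain ⟨b, hb⟩ := exists_bas h hI ht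
  have hfin : Module.Finite k[X] O := Module.Finite.of_basis b
  have hfree : Module.Free k[X] O := Module.Free.of_basis b
  have htf : Module.IsTorsionFree k[X] O := Pool.Agent.N862.PP.tf_O (K := K) (L := L)
  obtain ⟨𝔓₁, 𝔮, ov1, ov2, hv1, hv2, hQ1, hQ2, hall⟩ := hE g k K L O f θ S hh hg h hsq hS Q hQS hCg
  have h𝔓 : 𝔓 = 𝔓₁ := by
    rcases hall 𝔓 hov with h' | h'
    · exact h'
    · rw [h', hv2] at hθ
      exact absurd hθ (lt_irrefl _)
  have hne : 𝔓₁ ≠ 𝔮 := by
    intro h0
    rw [h0, hv2] at hv1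
    exact absurd hv1 (lt_irrefl _)
  have ht1 : t ∈ 𝔓₁.asIdeal := by
    rw [← 𝔓₁.valuation_lt_one_iff_mem (K := L)]
    change 𝔓₁.valuation L (algebraMap O L t) < 1
    rw [ht]
    exact hv1
  have hc1 : cn k[X] (Ideal.span {Q}) 𝔓₁.asIdeal = 1 :=
    cn_deg_one (c := 0) h hI hQ ov1 ht (by rw [map_zero, sub_zero]; exact ht1)
  have hQ0 : algebraMap k[X] O Q ≠ 0 := by
    intro h0
    exact hQ.ne_zero (algO_inj (K := K) (L := L) (by rw [h0, map_zero]))
  have hcnt : ∀ 𝔓' : HeightOneSpectrum O, 𝔓'.valuation L (algebraMap k[X] L Q) = exp (-1 : ℤ) →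
      (normalizedFactors (Ideal.span {algebraMap k[X] O Q})).count 𝔓'.asIdeal = 1 := by
    intro 𝔓' h'
    have h1 := val_eq (L := L) 𝔓' hQ0
    rw [← IsScalarTower.algebraMap_apply k[X] O L, h', exp_inj] at h1
    omega
  have hn : cn k[X] (Ideal.span {Q}) (Ideal.span {algebraMap k[X] O Q} : Ideal O) = 2 * g + 1 := by
    have hn1 : Algebra.intNorm k[X] O (algebraMap k[X] O Q) = Q ^ (2 * g + 1) := by
      rw [Algebra.intNorm_eq_norm, Algebra.norm_algebraMap_of_basis b, Fintype.card_fin]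
    have hirr : Irreducible (Ideal.span {Q} : Ideal k[X]) :=
      (Ideal.prime_of_isPrime (by simpa using hQ.ne_zero)
        ((Ideal.span_singleton_prime hQ.ne_zero).mpr hQ.prime)).irreducible
    unfold cn
    rw [Ideal.relNorm_singleton, hn1, ← Ideal.span_singleton_pow, normalizedFactors_pow,
      Multiset.count_nsmul, normalizedFactors_irreducible hirr, normalize_eq,
      Multiset.count_singleton_self, mul_one]
  have hQI : (Ideal.span {algebraMap k[X] O Q} : Ideal O) ≠ ⊥ := by
    rw [Ne, Ideal.span_singleton_eq_bot]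
    exact hQ0
  have hset : (normalizedFactors (Ideal.span {algebraMap k[X] O Q} : Ideal O)).toFinset =
      {𝔓₁.asIdeal, 𝔮.asIdeal} := by
    ext J
    simp only [Multiset.mem_toFinset, Finset.mem_insert, Finset.mem_singleton]
    constructor
    · intro hJ
      have hJp := prime_of_normalized_factor J hJ
      have hJ3 : J.IsPrime := Ideal.isPrime_of_prime hJp
      let 𝔓' : HeightOneSpectrum O := ⟨J, hJ3, hJp.ne_zero⟩
      have hov' : Ov Q 𝔓' := by
        have h1 := dvd_of_mem_normalizedFactors hJ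
        rw [Ideal.dvd_iff_le, Ideal.span_singleton_le_iff_mem] at h1
        exact h1
      rcases hall 𝔓' hov' with h' | h'
      · left
        rw [← h']
      · right
        rw [← h']
    · rintro (rfl | rfl)
      · rw [← Multiset.one_le_count_iff_mem, hcnt 𝔓₁ hQ1]
      · rw [← Multiset.one_le_count_iff_mem, hcnt 𝔮 hQ2]
  have hc2 : cn k[X] (Ideal.span {Q}) 𝔮.asIdeal = 2 * g := by
    rw [cn_sum _ hQI, hset, Finset.sum_pair (fun h0 => hne (HeightOneSpectrum.ext h0)),
      hcnt 𝔓₁ hQ1, hcnt 𝔮 hQ2, hc1] at hn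
    omega
  rw [h𝔓]
  refine parity h hQ 𝔓₁ ov1 (by rw [hc1]; exact odd_one) hx hnx fun 𝔓' ho hne' => Or.inr ?_
  rcases hall 𝔓' ho with h' | h'
  · exact absurd h' hne'
  · rw [h', hc2]
    exact even_two_mul g

end Pool.Agent.H859.N227.PJ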