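import Pool.Agent.H859.SC.N352PJIdx
import Pool.Graph.R_pool_sql_team_seeded_63374d34.N227.PJ.Ns
import Pool.Agent.H859.SC.N227PJPar

/-!
# Project PJ, part NS (helper227): the square class at the prime of degree one from the norm

Some steps are taken from the files of helper862 (project PP).
-/

set_option autoImplicit false
set_option linter.all false

open Polynomial IsDedekindDomain WithZero UniqueFactorizationMonoid
open scoped Classical

namespace Pool.Agent.H859.N227.PJ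
open Pool.Agent.N227.PJ Pool.Agent.H859.PJ
open Pool.Agent.N352.PJ
open Pool.Agent.N874.PP (Ov Ev Sq1 U0)
open Pool.Agent.N862.PP (algL_inj algO_inj isInt ov_iff val_eq ev_iff_count ev_mul_sq cn cn_sum
  cn_zero cn_one not_ev_of_exp exists_two sq1_mul_sq)

section ns

variable {k K L O : Type} [Field k] [Field K] [Algebra k[X] K] [IsFractionRing k[X] K]
  [Field L] [Algebra K L] [Algebra k[X] L] [IsScalarTower k[X] K L] [CommRing O]
  [IsDedekindDomain O] [Algebra O L] [IsFractionRing O L] [Algebra k[X] O]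
  [IsScalarTower k[X] O L] [IsIntegralClosure O k[X] L] {g : ℕ} {f : k[X][X]} {θ : L}

/-- a common denominator -/
theorem exists_den (h : IsGen g K f θ) {t : O} (ht : algebraMap O L t = θ) (x : L) :
    ∃ (d : k[X]) (z : O), d ≠ 0 ∧ algebraMap k[X] L d * x = algebraMap O L z := by
  obtain ⟨⟨c, hc⟩, hint⟩ := IsLocalization.exist_integer_multiples (nonZeroDivisors k[X])
    (Finset.univ : Finset (Fin (2 * g + 1))) (fun i => co h i x)
  have hint' : ∀ i, ∃ q : k[X], algebraMap k[X] K q = algebraMap k[X] K c * co h i x := by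
    intro i
    obtain ⟨q, hq⟩ := hint i (Finset.mem_univ i)
    exact ⟨q, by rw [hq, Algebra.smul_def]⟩
  choose q hq using hint'
  refine ⟨c, ∑ i, q i • t ^ (i : ℕ), nonZeroDivisors.ne_zero hc, ?_⟩
  rw [sum_t ht]
  have h1 : Crd g θ q (algebraMap k[X] L c * x) := by
    refine crd_of_co h fun i => ?_
    rw [smul_alg (K := K), map_smul, smul_eq_mul, hq]
  exact h1

/-- integrality at the primes over `Q` -/
theorem exists_den_Q (h : IsGen g K f θ) {t : O} (ht : algebraMap O L t = θ) {Q : k[X]}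
    (hQ : Irreducible Q) (x : L)
    (hx : ∀ 𝔓 : HeightOneSpectrum O, Ov Q 𝔓 → 𝔓.valuation L x ≤ 1) :
    ∃ (c : k[X]) (z : O), ¬ Q ∣ c ∧ algebraMap k[X] L c * x = algebraMap O L z := by
  obtain ⟨d, z, hd, hz⟩ := exists_den (K := K) (O := O) h ht x
  obtain ⟨c, hdc, hc⟩ :=
    (FiniteMultiplicity.of_not_isUnit hQ.not_isUnit hd).exists_eq_pow_mul_and_not_dvd
  have hint : ∀ 𝔓 : HeightOneSpectrum O, 𝔓.valuation L (algebraMap k[X] L c * x) ≤ 1 := by
    intro 𝔓
    by_cases hov : Ov Q 𝔓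
    · rw [map_mul, IsScalarTower.algebraMap_apply k[X] O L]
      exact mul_le_one' (𝔓.valuation_le_one _) (hx 𝔓 hov)
    · have h1 : 𝔓.valuation L (algebraMap k[X] L Q) = 1 := by
        rw [IsScalarTower.algebraMap_apply k[X] O L]
        exact 𝔓.valuation_eq_one_iff_notMem.mpr hov
      have h2 : algebraMap k[X] L Q ^ (multiplicity Q d) * (algebraMap k[X] L c * x) =
          algebraMap O L z := by
        rw [← hz]
        conv_rhs => rw [hdc]
        rw [map_mul, map_pow]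
        ring
      have h3 : 𝔓.valuation L (algebraMap O L z) ≤ 1 := 𝔓.valuation_le_one _
      rw [← h2, map_mul, map_pow, h1, one_pow, one_mul] at h3
      exact h3
  obtain ⟨z', hz'⟩ := HeightOneSpectrum.mem_integers_of_valuation_le_one L _ hint
  exact ⟨c, z', hc, hz'.symm⟩

include K in
/-- the intersection of the two primes -/
theorem mem_both {Q : k[X]} (hQ : Irreducible Q) {𝔓 𝔮 : HeightOneSpectrum O}
    (hv1 : 𝔓.valuation L (algebraMap k[X] L Q) = exp (-1 : ℤ))
    (hv2 : 𝔮.valuation L (algebraMap k[X] L Q) = exp (-1 : ℤ))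
    (hall : ∀ 𝔓' : HeightOneSpectrum O, Ov Q 𝔓' → 𝔓' = 𝔓 ∨ 𝔓' = 𝔮) {w : O}
    (h1 : w ∈ 𝔓.asIdeal) (h2 : w ∈ 𝔮.asIdeal) : ∃ w' : O, w = Q • w' := by
  have hQL : algebraMap k[X] L Q ≠ 0 := fun h0 =>
    hQ.ne_zero (algL_inj (K := K) (by rw [h0, map_zero]))
  have hle : ∀ 𝔓' : HeightOneSpectrum O, w ∈ 𝔓'.asIdeal →
      𝔓'.valuation L (algebraMap O L w) ≤ exp (-1 : ℤ) := by
    intro 𝔓' hw
    rw [HeightOneSpectrum.valuation_of_algebraMap]
    have := (𝔓'.intValuation_le_pow_iff_mem w 1).mpr (by rw [pow_one]; exact hw)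
    simpa using this
  have hint : ∀ 𝔓' : HeightOneSpectrum O,
      𝔓'.valuation L (algebraMap O L w / algebraMap k[X] L Q) ≤ 1 := by
    intro 𝔓'
    by_cases hov : Ov Q 𝔓'
    · rcases hall 𝔓' hov with rfl | rfl
      · rw [map_div₀, hv1]
        exact div_le_one_of_le₀ (hle _ h1) zero_le'
      · rw [map_div₀, hv2]
        exact div_le_one_of_le₀ (hle _ h2) zero_le'
    · have h3 : 𝔓'.valuation L (algebraMap k[X] L Q) = 1 := by
        rw [IsScalarTower.algebraMap_apply k[X] O L]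
        exact 𝔓'.valuation_eq_one_iff_notMem.mpr hov
      rw [map_div₀, h3, div_one]
      exact 𝔓'.valuation_le_one _
  obtain ⟨w', hw'⟩ := HeightOneSpectrum.mem_integers_of_valuation_le_one L _ hint
  refine ⟨w', ?_⟩
  apply IsFractionRing.injective O L
  have h3 : algebraMap O L w' = algebraMap O L w / algebraMap k[X] L Q := hw'
  rw [Algebra.smul_def, map_mul, ← IsScalarTower.algebraMap_apply k[X] O L, h3]
  field_simp

/-- norms modulo `Q` -/
theorem norm_congr {n : ℕ} (b : Module.Basis (Fin n) k[X] O) {Q : k[X]} {a a' w : O}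
    (h : a = a' + Q • w) : Ideal.Quotient.mk (Ideal.span {Q}) (Algebra.norm k[X] a) =
      Ideal.Quotient.mk (Ideal.span {Q}) (Algebra.norm k[X] a') := by
  rw [Algebra.norm_eq_matrix_det b, Algebra.norm_eq_matrix_det b, RingHom.map_det,
    RingHom.map_det]
  congr 1
  ext i j
  have hQ : Ideal.Quotient.mk (Ideal.span {Q}) Q = 0 :=
    Ideal.Quotient.eq_zero_iff_mem.2 (Ideal.mem_span_singleton_self Q)
  rw [RingHom.mapMatrix_apply, RingHom.mapMatrix_apply, Matrix.map_apply, Matrix.map_apply, h,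
    map_add, map_smul, Matrix.add_apply, Matrix.smul_apply, smul_eq_mul, map_add, map_mul, hQ,
    zero_mul, add_zero]

/-- The integral case. -/
theorem ns_int (h : IsGen g K f θ) {Q : k[X]} (hQ : Irreducible Q) {t : O}
    (b : Module.Basis (Fin (2 * g + 1)) k[X] O) (hb : ∀ i, b i = t ^ (i : ℕ))
    {𝔓 𝔮 : HeightOneSpectrum O} (hne : 𝔓 ≠ 𝔮) (ov1 : Ov Q 𝔓) (ht : t ∈ 𝔓.asIdeal)
    (hv1 : 𝔓.valuation L (algebraMap k[X] L Q) = exp (-1 : ℤ))
    (hv2 : 𝔮.valuation L (algebraMap k[X] L Q) = exp (-1 : ℤ))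
    (hall : ∀ 𝔓' : HeightOneSpectrum O, Ov Q 𝔓' → 𝔓' = 𝔓 ∨ 𝔓' = 𝔮)
    {y : O} (hy1 : y ∉ 𝔓.asIdeal) (hy2 : y ∉ 𝔮.asIdeal)
    (hn : IsSquare (Algebra.norm K (algebraMap O L y)))
    (hs : Sq1 𝔮 (algebraMap O L y)) : Sq1 𝔓 (algebraMap O L y) := by
  have hvy1 : 𝔓.valuation L (algebraMap O L y) = 1 := 𝔓.valuation_eq_one_iff_notMem.mpr hy1
  have hvy2 : 𝔮.valuation L (algebraMap O L y) = 1 := 𝔮.valuation_eq_one_iff_notMem.mpr hy2
  -- the norm
  obtain ⟨r, hr⟩ := hn
  rw [← norm_alg h b] at hr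
  have hint : IsIntegral k[X] r := by
    refine IsIntegral.of_pow (n := 2) (by norm_num) ?_
    rw [sq, ← hr]
    exact isIntegral_algebraMap
  obtain ⟨m, rfl⟩ := IsIntegrallyClosed.isIntegral_iff.mp hint
  rw [← map_mul] at hr
  have hm := IsFractionRing.injective k[X] K hr
  -- the square root at `𝔮`
  obtain ⟨s, hs⟩ := hs
  rw [hvy2] at hs
  have hs1 : 𝔮.valuation L s ≤ 1 := by
    by_contra hgt
    push Not at hgt
    have h3 : 𝔮.valuation L (algebraMap O L y) < 𝔮.valuation L (s ^ 2) := by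
      rw [hvy2, map_pow]
      exact one_lt_pow' hgt (by norm_num)
    have h4 : 𝔮.valuation L (algebraMap O L y - s ^ 2) = 𝔮.valuation L (s ^ 2) := by
      rw [Valuation.map_sub_swap]
      exact Valuation.map_sub_eq_of_lt_left _ h3
    rw [h4] at hs
    exact absurd (hvy2 ▸ h3) (not_lt.mpr hs.le)
  obtain ⟨z, hz⟩ := 𝔮.exists_valuation_sub_lt_of_integer hs1 1
  rw [Units.val_one] at hz
  have hyz : y - z ^ 2 ∈ 𝔮.asIdeal := by
    rw [← 𝔮.valuation_lt_one_iff_mem (K := L)]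
    change 𝔮.valuation L (algebraMap O L (y - z ^ 2)) < 1
    have e : algebraMap O L (y - z ^ 2) = (algebraMap O L y - s ^ 2) -
        (algebraMap O L z - s) * (algebraMap O L z + s) := by
      rw [map_sub, map_pow]
      ring
    rw [e]
    refine Valuation.map_sub_lt _ hs ?_
    rw [map_mul]
    have h5 : 𝔮.valuation L (algebraMap O L z + s) ≤ 1 :=
      Valuation.map_add_le _ (𝔮.valuation_le_one _) hs1
    calc 𝔮.valuation L (algebraMap O L z - s) * 𝔮.valuation L (algebraMap O L z + s)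
        ≤ 𝔮.valuation L (algebraMap O L z - s) * 1 := mul_le_mul_right h5 _
      _ = 𝔮.valuation L (algebraMap O L z - s) := mul_one _
      _ < 1 := hz
  -- the idempotents
  have hcop : IsCoprime 𝔓.asIdeal 𝔮.asIdeal := by
    rw [Ideal.isCoprime_iff_sup_eq]
    exact 𝔓.isMaximal.coprime_of_ne 𝔮.isMaximal fun h => hne (HeightOneSpectrum.ext h)
  obtain ⟨i, hi, j, hj, hij⟩ := Ideal.isCoprime_iff_exists.mp hcop
  -- constant coordinates
  have hrep : ∀ x : O, x - algebraMap k[X] O (b.repr x 0) ∈ 𝔓.asIdeal := by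
    intro x
    have h1 : x - algebraMap k[X] O (b.repr x 0) =
        ∑ l ∈ Finset.univ.erase (0 : Fin (2 * g + 1)), b.repr x l • b l := by
      have h2 := b.sum_repr x
      rw [← Finset.add_sum_erase _ _ (Finset.mem_univ (0 : Fin (2 * g + 1)))] at h2
      have h3 : algebraMap k[X] O (b.repr x 0) = b.repr x 0 • b 0 := by
        rw [Algebra.smul_def, hb]
        simp
      rw [h3]
      exact sub_eq_of_eq_add' h2.symm
    rw [h1]
    refine Ideal.sum_mem _ fun l hl => ?_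
    rw [Algebra.smul_def, hb]
    refine Ideal.mul_mem_left _ _ ?_
    have hl0 : (l : ℕ) ≠ 0 := fun h0 => (Finset.mem_erase.1 hl).1 (Fin.ext (by simpa using h0))
    exact Ideal.pow_mem_of_mem _ ht _ (Nat.pos_of_ne_zero hl0)
  obtain ⟨c, hc⟩ : ∃ c, c = b.repr y 0 := ⟨_, rfl⟩
  have hyc : y - algebraMap k[X] O c ∈ 𝔓.asIdeal := by
    rw [hc]
    exact hrep y
  obtain ⟨S, hS⟩ : ∃ S : O, S = z * i + j := ⟨_, rfl⟩
  have hSz : S - z ∈ 𝔮.asIdeal := by
    have e : S - z = (1 - z) * j := by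
      rw [hS]
      linear_combination z * hij
    rw [e]
    exact Ideal.mul_mem_left _ _ hj
  have hS1 : S - 1 ∈ 𝔓.asIdeal := by
    have e : S - 1 = (z - 1) * i := by
      rw [hS]
      linear_combination hij
    rw [e]
    exact Ideal.mul_mem_left _ _ hi
  obtain ⟨e', he'⟩ : ∃ e' : O, e' = 1 + algebraMap k[X] O (c - 1) * j := ⟨_, rfl⟩
  have hboth := fun {w : O} => mem_both (K := K) hQ hv1 hv2 hall (w := w)
  obtain ⟨w', hw'⟩ := hboth (w := y - S ^ 2 * e') (by
    have e : y - S ^ 2 * e' = (y - algebraMap k[X] O c) - (S + 1) * (S - 1) * e' +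
        algebraMap k[X] O (c - 1) * i := by
      rw [he', map_sub, map_one]
      linear_combination (algebraMap k[X] O c - 1) * (-1) * hij
    rw [e]
    exact Ideal.add_mem _ (Ideal.sub_mem _ hyc (Ideal.mul_mem_right _ _
      (Ideal.mul_mem_left _ _ hS1))) (Ideal.mul_mem_left _ _ hi)) (by
    have e : y - S ^ 2 * e' = (y - z ^ 2) - (S + z) * (S - z) -
        S ^ 2 * algebraMap k[X] O (c - 1) * j := by
      rw [he']
      ring
    rw [e]
    exact Ideal.sub_mem _ (Ideal.sub_mem _ hyz (Ideal.mul_mem_left _ _ hSz))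
      (Ideal.mul_mem_left _ _ hj))
  -- the inverse of `S`
  have hS2 : S ∉ 𝔮.asIdeal := by
    intro h0
    apply hy2
    have e : y = (y - z ^ 2) + z * (S - (S - z)) := by ring
    rw [e]
    exact Ideal.add_mem _ hyz (Ideal.mul_mem_left _ _ (Ideal.sub_mem _ h0 hSz))
  obtain ⟨r2, i2, hi2, hr2⟩ := 𝔮.isMaximal.exists_inv hS2
  obtain ⟨w2, hw2⟩ := hboth (w := S * (j + r2 * i) - 1) (by
    have e : S * (j + r2 * i) - 1 = (S - 1) * j + (S * r2 - 1) * i := by
      linear_combination hij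
    rw [e]
    exact Ideal.add_mem _ (Ideal.mul_mem_right _ _ hS1) (Ideal.mul_mem_left _ _ hi)) (by
    have e : S * (j + r2 * i) - 1 = (S - S * r2) * j - i2 := by
      linear_combination (S * r2) * hij + hr2
    rw [e]
    exact Ideal.sub_mem _ (Ideal.mul_mem_left _ _ hj) hi2)
  obtain ⟨S', hS'⟩ : ∃ S' : O, S' = j + r2 * i := ⟨_, rfl⟩
  rw [← hS'] at hw2
  -- the norm of `e'`
  have hjt : ∀ l : Fin (2 * g + 1), l ≠ 0 → ∃ w : O, j * b l = Q • w := by
    intro l hl
    refine hboth ?_ (Ideal.mul_mem_right _ _ hj)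
    rw [hb]
    have hl0 : (l : ℕ) ≠ 0 := fun h0 => hl (Fin.ext (by simpa using h0))
    exact Ideal.mul_mem_left _ _ (Ideal.pow_mem_of_mem _ ht _ (Nat.pos_of_ne_zero hl0))
  set π := Ideal.Quotient.mk (Ideal.span {Q} : Ideal k[X]) with hπ
  have hπQ : π Q = 0 := Ideal.Quotient.eq_zero_iff_mem.2 (Ideal.mem_span_singleton_self Q)
  have hj0 : π (b.repr j 0) = 1 := by
    have h1 : algebraMap k[X] O (b.repr j 0 - 1) ∈ 𝔓.asIdeal := by
      have e : algebraMap k[X] O (b.repr j 0 - 1) = - i - (j - algebraMap k[X] O (b.repr j 0)) := by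
        rw [map_sub, map_one]
        linear_combination hij
      rw [e]
      exact Ideal.sub_mem _ (Ideal.neg_mem_iff _ |>.2 hi) (hrep j)
    rw [ov_iff hQ ov1] at h1
    have h2 : π (b.repr j 0 - 1) = 0 :=
      Ideal.Quotient.eq_zero_iff_mem.2 (Ideal.mem_span_singleton.2 h1)
    rw [map_sub, map_one, sub_eq_zero] at h2
    exact h2
  have hne' : π (Algebra.norm k[X] e') = π c := by
    rw [Algebra.norm_eq_matrix_det b, RingHom.map_det]
    have hent : ∀ l l' : Fin (2 * g + 1), π (Algebra.leftMulMatrix b e' l l') =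
        (if l = l' then 1 else 0) + π (c - 1) * π (b.repr (j * b l') l) := by
      intro l l'
      rw [Algebra.leftMulMatrix_eq_repr_mul]
      have e : e' * b l' = b l' + (c - 1) • (j * b l') := by
        rw [he', Algebra.smul_def]
        ring
      rw [e, map_add, map_smul, Finsupp.add_apply, Finsupp.smul_apply, smul_eq_mul, map_add,
        map_mul, Module.Basis.repr_self, Finsupp.single_apply]
      congr 1
      by_cases hl : l = l'
      · rw [if_pos hl, if_pos hl.symm, map_one]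
      · rw [if_neg hl, if_neg (fun h' => hl h'.symm), map_zero]
    have hent' : ∀ l l' : Fin (2 * g + 1), l' ≠ 0 → π (Algebra.leftMulMatrix b e' l l') =
        if l = l' then 1 else 0 := by
      intro l l' hl'
      obtain ⟨w, hw⟩ := hjt l' hl'
      rw [hent, hw, map_smul, Finsupp.smul_apply, smul_eq_mul, map_mul π Q, hπQ, zero_mul,
        mul_zero, add_zero]
    rw [Matrix.det_of_lowerTriangular]
    · rw [Finset.prod_eq_single (0 : Fin (2 * g + 1))]
      · rw [RingHom.mapMatrix_apply, Matrix.map_apply, hent, if_pos rfl]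
        have e : b 0 = 1 := by
          rw [hb]
          simp
        rw [e, mul_one, hj0, map_sub, map_one]
        ring
      · intro l _ hl
        rw [RingHom.mapMatrix_apply, Matrix.map_apply, hent' l l hl, if_pos rfl]
      · intro h0
        exact absurd (Finset.mem_univ _) h0
    · intro l l' hll
      have hlt : l < l' := OrderDual.toDual_lt_toDual.1 hll
      rw [RingHom.mapMatrix_apply, Matrix.map_apply, hent' l l' (by
        intro h0
        rw [h0] at hlt
        exact absurd hlt (Fin.not_lt_zero l)), if_neg hlt.ne]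
  -- assembly
  have n1 : π (Algebra.norm k[X] y) = π (Algebra.norm k[X] S) ^ 2 * π (Algebra.norm k[X] e') := by
    rw [norm_congr b (Q := Q) (a' := S ^ 2 * e') (w := w') (by rw [← hw']; ring), map_mul, map_pow,
      map_mul, map_pow]
  have n2 : π (Algebra.norm k[X] S) * π (Algebra.norm k[X] S') = 1 := by
    rw [← map_mul, ← map_mul, norm_congr b (Q := Q) (a' := 1) (w := w2) (by rw [← hw2]; ring),
      map_one, map_one]
  have n3 : π (c - (Algebra.norm k[X] S' * m) ^ 2) = 0 := by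
    rw [hne', hm, map_mul] at n1
    rw [map_sub, map_pow, map_mul, sub_eq_zero]
    have e : π c = (π (Algebra.norm k[X] S) * π (Algebra.norm k[X] S')) ^ 2 * π c := by
      rw [n2]
      ring
    rw [e]
    linear_combination (-(π (Algebra.norm k[X] S')) ^ 2) * n1
  have n4 : Q ∣ c - (Algebra.norm k[X] S' * m) ^ 2 :=
    Ideal.mem_span_singleton.1 (Ideal.Quotient.eq_zero_iff_mem.1 n3)
  refine ⟨algebraMap k[X] L (Algebra.norm k[X] S' * m), ?_⟩
  rw [hvy1, ← map_pow, IsScalarTower.algebraMap_apply k[X] O L, ← map_sub]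
  refine (𝔓.valuation_lt_one_iff_mem (K := L) _).mpr ?_
  have e8 : y - algebraMap k[X] O ((Algebra.norm k[X] S' * m) ^ 2) = (y - algebraMap k[X] O c) +
      algebraMap k[X] O (c - (Algebra.norm k[X] S' * m) ^ 2) := by
    rw [map_sub]
    ring
  rw [e8]
  exact Ideal.add_mem _ hyc ((ov_iff hQ ov1 _).2 n4)

end ns

/-- **NS.** -/
theorem ns (hInt : S_INT) (hE : S_EXQA) : S_NSA := by
  intro g k K L O _ _ _ _ _ _ _ _ _ _ _ _ _ _ _ _ f θ S hh hg hk2 h hsq hS Q hQS hCg x hx hnx hev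
    hs1 𝔓 hov
  have hI := hInt g k K L f θ h hsq
  have hQ : Irreducible Q := (hS Q hQS).2.1
  obtain ⟨t, ht⟩ := exists_t (O := O) h
  obtain ⟨b, hb⟩ := exists_bas h hI ht
  obtain ⟨𝔓₁, 𝔮, ov1, ov2, hv1, hv2, hQ1, hQ2, hall⟩ := hE g k K L O f θ S hh hg h hsq hS Q hQS hCg
  rcases hall 𝔓 hov with h𝔓 | h𝔓
  swap
  · rw [h𝔓]
    exact hs1 𝔮 ov2 hv2
  rw [h𝔓]
  have hne : 𝔓₁ ≠ 𝔮 := by
    intro h0
    rw [h0, hv2] at hv1
    exact absurd hv1 (lt_irrefl _)
  have ht1 : t ∈ 𝔓₁.asIdeal := by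
    rw [← 𝔓₁.valuation_lt_one_iff_mem (K := L)]
    change 𝔓₁.valuation L (algebraMap O L t) < 1
    rw [ht]
    exact hv1
  have hsq2 : Sq1 𝔮 x := hs1 𝔮 ov2 hv2
  obtain ⟨y1, hy1⟩ := hev 𝔓₁ ov1 hv1
  -- `Sq1` implies `Ev`
  obtain ⟨s, hs⟩ := hsq2
  have hvs : 𝔮.valuation L x = 𝔮.valuation L s ^ 2 := by
    have h3 : 𝔮.valuation L (x - (x - s ^ 2)) = 𝔮.valuation L x :=
      Valuation.map_sub_eq_of_lt_left _ hs
    rw [sub_sub_cancel, map_pow] at h3
    exact h3.symm
  have hvx1 : 𝔓₁.valuation L x ≠ 0 := (Valuation.ne_zero_iff _).mpr hx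
  have hvx2 : 𝔮.valuation L x ≠ 0 := (Valuation.ne_zero_iff _).mpr hx
  have hy10 : 𝔓₁.valuation L y1 ≠ 0 := by
    intro h0
    rw [h0] at hy1
    exact hvx1 (by rw [hy1]; simp)
  have hs0 : 𝔮.valuation L s ≠ 0 := by
    intro h0
    rw [h0] at hvs
    exact hvx2 (by rw [hvs]; simp)
  obtain ⟨β, hβ0, hβ1, hβ2⟩ := exists_two (L := L) hne (log (𝔓₁.valuation L y1))
    (log (𝔮.valuation L s))
  rw [exp_log hy10] at hβ1
  rw [exp_log hs0] at hβ2
  -- `x / β ^ 2` is a unit at both primes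
  have hu1 : 𝔓₁.valuation L (x / β ^ 2) = 1 := by
    rw [map_div₀, map_pow, hβ1, ← hy1, div_self hvx1]
  have hu2 : 𝔮.valuation L (x / β ^ 2) = 1 := by
    rw [map_div₀, map_pow, hβ2, ← hvs, div_self hvx2]
  obtain ⟨c, z, hc, hz⟩ := exists_den_Q (O := O) h ht hQ (x / β ^ 2) (by
    intro 𝔓' hov'
    rcases hall 𝔓' hov' with h' | h'
    · rw [h', hu1]
    · rw [h', hu2])
  have hc0 : algebraMap k[X] L c ≠ 0 := by
    intro h0
    have : c = 0 := algL_inj (K := K) (by rw [h0, map_zero])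
    exact hc (by rw [this]; exact dvd_zero Q)
  have hvc : ∀ 𝔓 : HeightOneSpectrum O, Ov Q 𝔓 → 𝔓.valuation L (algebraMap k[X] L c) = 1 := by
    intro 𝔓' hov'
    rw [IsScalarTower.algebraMap_apply k[X] O L]
    refine 𝔓'.valuation_eq_one_iff_notMem.mpr ?_
    rw [ov_iff hQ hov']
    exact hc
  -- `y = c ^ 2 x / β ^ 2`
  have hy : algebraMap O L (algebraMap k[X] O c * z) = x * (algebraMap k[X] L c / β) ^ 2 := by
    rw [map_mul, ← hz, ← IsScalarTower.algebraMap_apply k[X] O L]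
    field_simp
  have hcβ : algebraMap k[X] L c / β ≠ 0 := div_ne_zero hc0 hβ0
  rw [← sq1_mul_sq hcβ, ← hy]
  refine ns_int h hQ b hb hne ov1 ht1 hQ1 hQ2 hall ?_ ?_ ?_ ?_
  · rw [← 𝔓₁.valuation_eq_one_iff_notMem (K := L), hy, map_mul, map_pow, map_div₀, hvc 𝔓₁ ov1,
      hβ1, hy1, div_pow, one_pow, mul_one_div, div_self (pow_ne_zero 2 hy10)]
  · rw [← 𝔮.valuation_eq_one_iff_notMem (K := L), hy, map_mul, map_pow, map_div₀, hvc 𝔮 ov2,
      hβ2, hvs, div_pow, one_pow, mul_one_div, div_self (pow_ne_zero 2 hs0)]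
  · rw [hy, map_mul, map_pow]
    exact hnx.mul (IsSquare.sq _)
  · rw [hy, sq1_mul_sq hcβ]
    exact ⟨s, hs⟩

end Pool.Agent.H859.N227.PJ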