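import Pool.Agent.H859.SC.N352PJIdx
import Pool.Graph.R_pool_sql_team_seeded_63374d34.N227.PJ.Idx
import Pool.Agent.H859.SC.N352PJIdx
import Pool.Graph.R_pool_sql_team_seeded_63374d34.N262.PJ.Chi
import Pool.Graph.R_pool_sql_team_seeded_63374d34.N765.PP.Base
import Pool.Agent.H859.SC.N227PJNs

/-!
# Project PJ, part IDX (helper227): the Gram determinant of a lattice given by valuations

The determinant is computed locally at every prime of `k[X]`, with a local generator of the lattice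
(weak approximation). The lemmas `weak`, `fin_over`, `loc_int` are due to helper765, the determinant
of the form to helper262.
-/

set_option autoImplicit false
set_option linter.all false

open Polynomial IsDedekindDomain WithZero UniqueFactorizationMonoid
open scoped Classical

namespace Pool.Agent.H859.N227.PJ
open Pool.Agent.N227.PJ Pool.Agent.H859.PJ
open Pool.Agent.N352.PJ
open Pool.Agent.N874.PP (Ov Ev Sq1 U0)
open Pool.Agent.N862.PP (algL_inj algO_inj isInt ov_iff ev_iff_count ev_mul_sq cn cn_sum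
  cn_zero cn_one not_ev_of_exp)
open Pool.Agent.N765.PP (weak fin_over loc_int val_lt val_le)

section loc

variable {k K L O : Type} [Field k] [Field K] [Algebra k[X] K] [IsFractionRing k[X] K]
  [Field L] [Algebra K L] [Algebra k[X] L] [IsScalarTower k[X] K L] [CommRing O]
  [IsDedekindDomain O] [Algebra O L] [IsFractionRing O L] [Algebra k[X] O]
  [IsScalarTower k[X] O L] [IsIntegralClosure O k[X] L] {g : ℕ} {f : k[X][X]} {θ : L}

include K in
/-- the norm of an element which is a unit over `R` -/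
theorem norm_unit (b : Module.Basis (Fin (2 * g + 1)) k[X] O) {R : k[X]} (hR : Irreducible R)
    {ζ : O} (hζ : ζ ≠ 0)
    (hv : ∀ 𝔓 : HeightOneSpectrum O, Ov R 𝔓 → 𝔓.valuation L (algebraMap O L ζ) = 1) :
    ¬ R ∣ Algebra.norm k[X] ζ := by
  intro hd
  have hζL : algebraMap O L ζ ≠ 0 := by simpa using hζ
  obtain ⟨s, hs, hsi⟩ := loc_int (K := K) (O := O) hR (algebraMap O L ζ)⁻¹
    (fun 𝔓 h𝔓 => by rw [map_inv₀, hv 𝔓 h𝔓, inv_one])
  obtain ⟨ζ', hζ'⟩ := (IsIntegralClosure.isIntegral_iff (A := O) (R := k[X]) (B := L)).1 hsi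
  have h1 : ζ * ζ' = algebraMap k[X] O s := by
    apply IsFractionRing.injective O L
    rw [map_mul, hζ', ← IsScalarTower.algebraMap_apply k[X] O L]
    field_simp
  have h2 := congrArg (Algebra.norm k[X]) h1
  rw [map_mul, Algebra.norm_algebraMap_of_basis b] at h2
  have h3 : R ∣ s ^ Fintype.card (Fin (2 * g + 1)) := by
    rw [← h2]
    exact hd.mul_right _
  exact hs (hR.prime.dvd_of_dvd_pow h3)

/-- local membership -/
theorem loc_mem (h : IsGen g K f θ) {e : Fin (2 * g + 1) → L} (hli : LinearIndependent K e)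
    {y : HeightOneSpectrum O → L}
    (hlat : ∀ x : L, (∃ ξ : Fin (2 * g + 1) → k[X], x = ∑ i, algebraMap k[X] L (ξ i) * e i) ↔
      ∀ 𝔓 : HeightOneSpectrum O, 𝔓.valuation L x ≤ 𝔓.valuation L (y 𝔓))
    {R : k[X]} (hR : Irreducible R) (x : L)
    (hx : ∀ 𝔓 : HeightOneSpectrum O, Ov R 𝔓 → 𝔓.valuation L x ≤ 𝔓.valuation L (y 𝔓)) :
    ∃ (s : k[X]) (ξ : Fin (2 * g + 1) → k[X]), ¬ R ∣ s ∧
      algebraMap k[X] L s * x = ∑ i, algebraMap k[X] L (ξ i) * e i := by
  have hfd := fd h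
  let B := basisOfLinearIndependentOfCardEqFinrank hli (by rw [h.rank, Fintype.card_fin])
  have hB : ∀ i, B i = e i := fun i => by
    rw [coe_basisOfLinearIndependentOfCardEqFinrank]
  obtain ⟨⟨d, hd⟩, hint⟩ := IsLocalization.exist_integer_multiples (nonZeroDivisors k[X])
    (Finset.univ : Finset (Fin (2 * g + 1))) (fun i => B.repr x i)
  have hint' : ∀ i, ∃ q : k[X], algebraMap k[X] K q = algebraMap k[X] K d * B.repr x i := by
    intro i
    obtain ⟨q, hq⟩ := hint i (Finset.mem_univ i)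
    exact ⟨q, by rw [hq, Algebra.smul_def]⟩
  choose q hq using hint'
  have hd0 : d ≠ 0 := nonZeroDivisors.ne_zero hd
  have hdx : algebraMap k[X] L d * x = ∑ i, algebraMap k[X] L (q i) * e i := by
    conv_lhs => rw [← B.sum_repr x]
    rw [Finset.mul_sum]
    refine Finset.sum_congr rfl fun i _ => ?_
    rw [smul_alg (K := K), smul_alg (K := K), hB, smul_smul, hq]
  obtain ⟨s, hds, hs⟩ :=
    (FiniteMultiplicity.of_not_isUnit hR.not_isUnit hd0).exists_eq_pow_mul_and_not_dvd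
  have hsx : ∀ 𝔓 : HeightOneSpectrum O,
      𝔓.valuation L (algebraMap k[X] L s * x) ≤ 𝔓.valuation L (y 𝔓) := by
    intro 𝔓
    by_cases hov : Ov R 𝔓
    · rw [map_mul]
      exact (mul_le_of_le_one_left' (val_le 𝔓 s)).trans (hx 𝔓 hov)
    · have h1 : 𝔓.valuation L (algebraMap k[X] L R) = 1 := by
        rw [IsScalarTower.algebraMap_apply k[X] O L]
        exact 𝔓.valuation_eq_one_iff_notMem.mpr hov
      have h2 := (hlat _).1 ⟨q, hdx⟩ 𝔓
      have h3 : algebraMap k[X] L d * x = algebraMap k[X] L R ^ (multiplicity R d) *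
          (algebraMap k[X] L s * x) := by
        conv_lhs => rw [hds]
        rw [map_mul, map_pow]
        ring
      rw [h3, map_mul, map_pow, h1, one_pow, one_mul] at h2
      exact h2
  obtain ⟨ξ, hξ⟩ := (hlat _).2 hsx
  exact ⟨s, ξ, hs, hξ⟩

theorem cm_mul_det (h : IsGen g K f θ) (d : L) :
    (cm h (fun i : Fin (2 * g + 1) => d * θ ^ (i : ℕ))).det = Algebra.norm K d := by
  rw [Algebra.norm_eq_matrix_det h.basis, ← Matrix.det_transpose]
  congr 1
  ext i j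
  rw [Matrix.transpose_apply, Algebra.leftMulMatrix_eq_repr_mul, h.basis_apply]
  rfl

/-- The determinant at one prime. -/
theorem loc_main (hDet : S_DET) (h : IsGen g K f θ)
    (hI : ∀ x : L, IsIntegral k[X] x ↔ ∃ v : Fin (2 * g + 1) → k[X], Crd g θ v x)
    (b : Module.Basis (Fin (2 * g + 1)) k[X] O)
    {e : Fin (2 * g + 1) → L} (hli : LinearIndependent K e)
    {y : HeightOneSpectrum O → L} (hy0 : ∀ 𝔓, y 𝔓 ≠ 0)
    (hlat : ∀ x : L, (∃ ξ : Fin (2 * g + 1) → k[X], x = ∑ i, algebraMap k[X] L (ξ i) * e i) ↔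
      ∀ 𝔓 : HeightOneSpectrum O, 𝔓.valuation L x ≤ 𝔓.valuation L (y 𝔓))
    {α : L} (hα : α ≠ 0) {P : k[X]} (hP0 : P ≠ 0) {G : Mt g k[X]}
    (hG : ∀ i j, algebraMap k[X] K (G i j) = h.top (algebraMap k[X] L P * (e i * e j) / α))
    {R : k[X]} (hR : Irreducible R)
    (hz : ∀ 𝔓 : HeightOneSpectrum O, Ov R 𝔓 →
      𝔓.valuation L (algebraMap k[X] L P) * 𝔓.valuation L (y 𝔓) ^ 2 ≤ 𝔓.valuation L α) :
    ∃ (s a : k[X]) (ζ : O), ¬ R ∣ s ∧ ¬ R ∣ a ∧ ζ ≠ 0 ∧
      (∀ 𝔓 : HeightOneSpectrum O, Ov R 𝔓 → 𝔓.valuation L (algebraMap O L ζ) * 𝔓.valuation L α =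
        𝔓.valuation L (algebraMap k[X] L P) * 𝔓.valuation L (y 𝔓) ^ 2) ∧
      s * G.det = a * Algebra.norm k[X] ζ := by
  have hfin := fin_over (K := K) (L := L) (O := O) hR.ne_zero
  have hPL : algebraMap k[X] L P ≠ 0 := fun h0 =>
    hP0 (algL_inj (K := K) (by rw [h0, map_zero]))
  obtain ⟨d, hd0, hdv'⟩ := weak (L := L) hfin.toFinset y (fun 𝔓 _ => hy0 𝔓)
  have hdv : ∀ 𝔓 : HeightOneSpectrum O, Ov R 𝔓 → 𝔓.valuation L d = 𝔓.valuation L (y 𝔓) :=
    fun 𝔓 h𝔓 => hdv' 𝔓 (by simpa using h𝔓)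
  have hvα : ∀ 𝔓 : HeightOneSpectrum O, 𝔓.valuation L α ≠ 0 := fun 𝔓 =>
    (Valuation.ne_zero_iff _).2 hα
  -- `ζ`
  obtain ⟨z, hzdef⟩ : ∃ z : L, z = algebraMap k[X] L P * d ^ 2 / α := ⟨_, rfl⟩
  have hz0 : z ≠ 0 := by
    rw [hzdef]
    exact div_ne_zero (mul_ne_zero hPL (pow_ne_zero 2 hd0)) hα
  have hvz : ∀ 𝔓 : HeightOneSpectrum O, Ov R 𝔓 → 𝔓.valuation L z * 𝔓.valuation L α =
      𝔓.valuation L (algebraMap k[X] L P) * 𝔓.valuation L (y 𝔓) ^ 2 := by
    intro 𝔓 h𝔓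
    rw [hzdef, map_div₀, map_mul, map_pow, hdv 𝔓 h𝔓, div_mul_cancel₀ _ (hvα 𝔓)]
  obtain ⟨s₃, hs₃, hs₃i⟩ := loc_int (K := K) (O := O) hR z (fun 𝔓 h𝔓 => by
    have h1 := hvz 𝔓 h𝔓
    have h2 := hz 𝔓 h𝔓
    rw [← h1] at h2
    exact (mul_le_iff_le_one_left (zero_lt_iff.2 (hvα 𝔓))).1 h2)
  obtain ⟨ζ, hζ⟩ := (IsIntegralClosure.isIntegral_iff (A := O) (R := k[X]) (B := L)).1 hs₃i
  have hinj0 : ∀ c : k[X], ¬ R ∣ c → algebraMap k[X] L c ≠ 0 := by
    intro c hc h0
    have : c = 0 := algL_inj (K := K) (by rw [h0, map_zero])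
    exact hc (by rw [this]; exact dvd_zero R)
  have hζ0 : ζ ≠ 0 := by
    rintro rfl
    rw [map_zero] at hζ
    exact mul_ne_zero (hinj0 s₃ hs₃) hz0 hζ.symm
  -- the matrix `a`
  have hei : ∀ i, ∀ 𝔓 : HeightOneSpectrum O, 𝔓.valuation L (e i) ≤ 𝔓.valuation L (y 𝔓) := by
    intro i
    refine (hlat _).1 ⟨fun j => if j = i then 1 else 0, ?_⟩
    rw [Finset.sum_eq_single i]
    · simp
    · intro j _ hj
      simp [hj]
    · intro h0
      exact absurd (Finset.mem_univ _) h0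
  have hA : ∀ i, ∃ s : k[X], ¬ R ∣ s ∧ ∃ v : Fin (2 * g + 1) → k[X],
      Crd g θ v (algebraMap k[X] L s * (e i / d)) := by
    intro i
    obtain ⟨s, hs, hsi⟩ := loc_int (K := K) (O := O) hR (e i / d) (fun 𝔓 h𝔓 => by
      rw [map_div₀, hdv 𝔓 h𝔓]
      exact div_le_one_of_le₀ (hei i 𝔓) zero_le')
    exact ⟨s, hs, (hI _).1 hsi⟩
  choose s₁ hs₁ a ha using hA
  -- the matrix `b`
  have hθi : IsIntegral k[X] θ := theta_int h
  have hB : ∀ i : Fin (2 * g + 1), ∃ (s : k[X]) (ξ : Fin (2 * g + 1) → k[X]), ¬ R ∣ s ∧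
      algebraMap k[X] L s * (d * θ ^ (i : ℕ)) = ∑ j, algebraMap k[X] L (ξ j) * e j := by
    intro i
    refine loc_mem h hli hlat hR _ fun 𝔓 h𝔓 => ?_
    rw [map_mul, hdv 𝔓 h𝔓]
    exact mul_le_of_le_one_right' (Pool.Agent.N765.PP.int_le 𝔓 (hθi.pow _))
  choose s₂ c hs₂ hc using hB
  obtain ⟨A, hAdef⟩ : ∃ A : Mt g K, A = cm h (fun i => e i / d) := ⟨_, rfl⟩
  obtain ⟨C, hCdef⟩ : ∃ C : Mt g K, C = cm h (fun i : Fin (2 * g + 1) => d * θ ^ (i : ℕ)) :=
    ⟨_, rfl⟩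
  have hCdet : C.det = Algebra.norm K d := by
    rw [hCdef]
    exact cm_mul_det h d
  have hC0 : C.det ≠ 0 := by
    rw [hCdet]
    exact norm_ne hd0
  have hcm : cm h e = A * C := by
    have h1 : e = actK A (fun i : Fin (2 * g + 1) => d * θ ^ (i : ℕ)) := by
      funext i
      unfold actK
      have h2 := ext_co h (e i / d)
      have h3 : e i = d * (e i / d) := by field_simp
      conv_lhs => rw [h3, h2]
      rw [Finset.mul_sum]
      refine Finset.sum_congr rfl fun j _ => ?_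
      rw [Algebra.smul_def, hAdef]
      unfold cm
      ring
    conv_lhs => rw [h1]
    rw [cm_actK, hCdef]
  have hadet : algebraMap k[X] K (Matrix.det (Matrix.of a : Mt g k[X])) =
      (∏ i, algebraMap k[X] K (s₁ i)) * A.det := by
    rw [← am_det, ← Matrix.det_mul_column]
    congr 1
    ext i j
    rw [am_apply, Matrix.of_apply, Matrix.of_apply, hAdef]
    unfold cm
    rw [← crd_co h (ha i) j, smul_alg (K := K), map_smul, smul_eq_mul]
  have hbdet : (∏ i, algebraMap k[X] K (s₂ i)) =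
      algebraMap k[X] K (Matrix.det (Matrix.of c : Mt g k[X])) * A.det := by
    refine mul_right_cancel₀ hC0 ?_
    rw [← Matrix.det_mul_column, ← am_det, mul_assoc, ← Matrix.det_mul, ← hcm, ← Matrix.det_mul,
      ← cm_actK]
    congr 1
    ext i j
    rw [Matrix.of_apply, hCdef]
    unfold cm actK
    have h1 := congrArg (co h j) (hc i)
    rw [smul_alg (K := K), map_smul, smul_eq_mul] at h1
    rw [h1]
    congr 1
    refine Finset.sum_congr rfl fun l _ => ?_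
    rw [am_apply, Matrix.of_apply, ← smul_alg]
  have hnd : ∀ s : Fin (2 * g + 1) → k[X], (∀ i, ¬ R ∣ s i) → ¬ R ∣ ∏ i, s i := by
    intro s hs hd
    obtain ⟨i, _, hi⟩ := hR.prime.exists_mem_finset_dvd hd
    exact hs i hi
  have hra : ¬ R ∣ Matrix.det (Matrix.of a : Mt g k[X]) := by
    intro hd
    have h1 : Matrix.det (Matrix.of a : Mt g k[X]) * Matrix.det (Matrix.of c : Mt g k[X]) =
        (∏ i, s₁ i) * ∏ i, s₂ i := by
      apply inj (k := k) (K := K)
      rw [map_mul, map_mul, hadet, map_prod, map_prod, hbdet]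
      ring
    have h2 : R ∣ (∏ i, s₁ i) * ∏ i, s₂ i := by
      rw [← h1]
      exact hd.mul_right _
    rcases hR.prime.dvd_or_dvd h2 with h3 | h3
    · exact hnd s₁ hs₁ h3
    · exact hnd s₂ hs₂ h3
  -- the determinant of `G`
  have hGdet : algebraMap k[X] K G.det = (-1) ^ g * A.det ^ 2 * Algebra.norm K z := by
    have hα' : α / algebraMap k[X] L P ≠ 0 := div_ne_zero hα hPL
    have h1 := hDet g k K L f θ h (α / algebraMap k[X] L P) (cm h e) hα'
    have h2 : (Matrix.of fun i j => h.top ((∑ a, algebraMap K L (cm h e i a) * θ ^ (a : ℕ)) *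
        (∑ a, algebraMap K L (cm h e j a) * θ ^ (a : ℕ)) / (α / algebraMap k[X] L P)) : Mt g K) =
        am K G := by
      ext i j
      rw [Matrix.of_apply, am_apply, hG]
      have h3 : ∀ i, ∑ a, algebraMap K L (cm h e i a) * θ ^ (a : ℕ) = e i := fun i =>
        (ext_co h (e i)).symm
      rw [h3, h3]
      congr 1
      field_simp
    rw [h2, am_det, hcm, Matrix.det_mul, hCdet] at h1
    rw [h1]
    have h4 : z = d * d / (α / algebraMap k[X] L P) := by
      rw [hzdef]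
      field_simp
    have h5 : Algebra.norm K z * Algebra.norm K (α / algebraMap k[X] L P) =
        Algebra.norm K d * Algebra.norm K d := by
      rw [← map_mul, ← map_mul, h4, div_mul_cancel₀ _ hα']
    have h6 : Algebra.norm K (α / algebraMap k[X] L P) ≠ 0 := norm_ne hα'
    rw [div_eq_iff h6]
    linear_combination (-((-1 : K) ^ g * A.det ^ 2)) * h5
  have hnz : algebraMap k[X] K (Algebra.norm k[X] ζ) =
      algebraMap k[X] K s₃ ^ (2 * g + 1) * Algebra.norm K z := by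
    rw [norm_alg h b, hζ, map_mul, IsScalarTower.algebraMap_apply k[X] K L,
      Algebra.norm_algebraMap, h.rank]
  refine ⟨s₃ ^ (2 * g + 1) * (∏ i, s₁ i) ^ 2, (-1) ^ g * Matrix.det (Matrix.of a : Mt g k[X]) ^ 2,
    ζ, ?_, ?_, hζ0, ?_, ?_⟩
  · intro hd
    rcases hR.prime.dvd_or_dvd hd with h3 | h3
    · exact hs₃ (hR.prime.dvd_of_dvd_pow h3)
    · exact hnd s₁ hs₁ (hR.prime.dvd_of_dvd_pow h3)
  · intro hd
    rcases hR.prime.dvd_or_dvd hd with h3 | h3
    · have h4 := hR.prime.dvd_of_dvd_pow h3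
      exact hR.not_isUnit (isUnit_of_dvd_unit h4 isUnit_one.neg)
    · exact hra (hR.prime.dvd_of_dvd_pow h3)
  · intro 𝔓 h𝔓
    rw [hζ, map_mul, Pool.Agent.N765.PP.val_eq hR h𝔓 hs₃, one_mul, hvz 𝔓 h𝔓]
  · apply inj (k := k) (K := K)
    rw [map_mul, map_mul, map_mul, map_mul, hGdet, hnz, map_pow, map_pow, map_pow, map_pow,
      map_prod, hadet, map_neg, map_one]
    ring

/-- the norm of an element at the prime of degree one -/
theorem norm_one [Module.Finite k[X] O] [Module.IsTorsionFree k[X] O] (h : IsGen g K f θ)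
    {Q : k[X]} (hQ : Irreducible Q) {𝔓₁ 𝔮 : HeightOneSpectrum O} (ov1 : Ov Q 𝔓₁)
    (hall : ∀ 𝔓 : HeightOneSpectrum O, Ov Q 𝔓 → 𝔓 = 𝔓₁ ∨ 𝔓 = 𝔮)
    (hc1 : cn k[X] (Ideal.span {Q}) 𝔓₁.asIdeal = 1) {ζ : O} (hζ : ζ ≠ 0)
    (h1 : 𝔓₁.valuation L (algebraMap O L ζ) = exp (-1 : ℤ))
    (h2 : 𝔮.valuation L (algebraMap O L ζ) = 1) :
    Q ∣ Algebra.intNorm k[X] O ζ ∧ ¬ Q * Q ∣ Algebra.intNorm k[X] O ζ := by
  have hfd := fd h
  have hζI : (Ideal.span {ζ} : Ideal O) ≠ ⊥ := by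
    rw [Ne, Ideal.span_singleton_eq_bot]
    exact hζ
  have hpp : (Ideal.span {Q} : Ideal k[X]).IsPrime :=
    (Ideal.span_singleton_prime hQ.ne_zero).mpr hQ.prime
  have hpb : (Ideal.span {Q} : Ideal k[X]) ≠ ⊥ := by
    rw [Ne, Ideal.span_singleton_eq_bot]
    exact hQ.ne_zero
  have hcount : (normalizedFactors (Ideal.span {ζ})).count 𝔓₁.asIdeal = 1 := by
    have := Pool.Agent.N862.PP.val_eq (L := L) 𝔓₁ hζ
    rw [h1, exp_inj] at this
    omega
  have hcount2 : (normalizedFactors (Ideal.span {ζ})).count 𝔮.asIdeal = 0 := by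
    have := Pool.Agent.N862.PP.val_eq (L := L) 𝔮 hζ
    rw [h2, ← exp_zero, exp_inj] at this
    omega
  have hcn : cn k[X] (Ideal.span {Q}) (Ideal.span {ζ} : Ideal O) = 1 := by
    rw [cn_sum _ hζI, Finset.sum_eq_single 𝔓₁.asIdeal]
    · rw [hcount, hc1]
    · intro J hJ hJ1
      rw [Multiset.mem_toFinset] at hJ
      have hJp := prime_of_normalized_factor J hJ
      have hJ3 : J.IsPrime := Ideal.isPrime_of_prime hJp
      by_cases hJP : (Ideal.span {Q} : Ideal k[X]) ≤ J.comap (algebraMap k[X] O)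
      · let 𝔓 : HeightOneSpectrum O := ⟨J, hJ3, hJp.ne_zero⟩
        have hov' : Ov Q 𝔓 := hJP (Ideal.mem_span_singleton_self Q)
        rcases hall 𝔓 hov' with h' | h'
        · exact absurd (by rw [← h']) hJ1
        · have h3 : J = 𝔮.asIdeal := by rw [← h']
          rw [h3, hcount2, zero_mul]
      · rw [cn_zero hpp hpb hJ3 hJp.ne_zero hJP, mul_zero]
    · intro hm
      rw [Multiset.mem_toFinset] at hm
      rw [Multiset.count_eq_zero_of_notMem hm, zero_mul]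
  unfold cn at hcn
  rw [Ideal.relNorm_singleton] at hcn
  have hirr : Irreducible (Ideal.span {Q} : Ideal k[X]) :=
    (Ideal.prime_of_isPrime hpb hpp).irreducible
  constructor
  · have hm : (Ideal.span {Q} : Ideal k[X]) ∈ normalizedFactors
        (Ideal.span {Algebra.intNorm k[X] O ζ} : Ideal k[X]) := by
      rw [← Multiset.one_le_count_iff_mem, hcn]
    have h3 := dvd_of_mem_normalizedFactors hm
    rw [Ideal.dvd_iff_le, Ideal.span_singleton_le_span_singleton] at h3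
    exact h3
  · rintro ⟨w, hw⟩
    have hν : Algebra.intNorm k[X] O ζ ≠ 0 := fun h0 =>
      hζ (Algebra.intNorm_eq_zero.1 h0)
    have hw0 : w ≠ 0 := by
      rintro rfl
      rw [mul_zero] at hw
      exact hν hw
    rw [hw, ← Ideal.span_singleton_mul_span_singleton, ← Ideal.span_singleton_mul_span_singleton,
      normalizedFactors_mul (mul_ne_zero hpb hpb) (by simpa using hw0),
      normalizedFactors_mul hpb hpb, Multiset.count_add, Multiset.count_add,
      normalizedFactors_irreducible hirr, normalize_eq, Multiset.count_singleton_self] at hcn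
    omega

end loc

/-- **IDX.** -/
theorem idx (hInt : S_INT) (hE : S_EXQA) : S_IDXA := by
  intro g k K L O _ _ _ _ _ _ _ _ _ _ _ _ _ _ _ _ f θ S hh hg h hsq hS hCg 𝔮 h𝔮 α hα S₁ hS₁ hnev
    hev e hli hlat
  have hI := hInt g k K L f θ h hsq
  obtain ⟨t, ht⟩ := exists_t (O := O) h
  obtain ⟨b, hb⟩ := exists_bas h hI ht
  have hfin : Module.Finite k[X] O := Module.Finite.of_basis b
  have hfree : Module.Free k[X] O := Module.Free.of_basis b
  have htf : Module.IsTorsionFree k[X] O := Pool.Agent.N862.PP.tf_O (K := K) (L := L)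
  have hfd := fd h
  obtain ⟨P, hP⟩ : ∃ P : k[X], P = ∏ Q ∈ S₁, Q := ⟨_, rfl⟩
  have hQirr : ∀ Q ∈ S₁, Irreducible Q := fun Q hQ => (hS Q (hS₁ hQ)).2.1
  have hQmon : ∀ Q ∈ S₁, Q.Monic := fun Q hQ => (hS Q (hS₁ hQ)).1
  have hP0 : P ≠ 0 := by
    rw [hP]
    exact Finset.prod_ne_zero_iff.2 fun Q hQ => (hQirr Q hQ).ne_zero
  have hPL : algebraMap k[X] L P ≠ 0 := fun h0 =>
    hP0 (algL_inj (K := K) (by rw [h0, map_zero]))
  -- square roots of the bounds
  obtain ⟨cc, hcc⟩ : ∃ cc : HeightOneSpectrum O → ℤᵐ⁰, ∀ 𝔓,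
      cc 𝔓 = if 𝔓 ∈ S₁.image 𝔮 then exp (1 : ℤ) else 1 := ⟨_, fun _ => rfl⟩
  have hex : ∀ 𝔓 : HeightOneSpectrum O, ∃ y : L, y ≠ 0 ∧
      𝔓.valuation L α * cc 𝔓 = 𝔓.valuation L y ^ 2 := by
    intro 𝔓
    have hvα : 𝔓.valuation L α ≠ 0 := (Valuation.ne_zero_iff _).2 hα
    rw [hcc]
    by_cases hm : 𝔓 ∈ S₁.image 𝔮
    · rw [if_pos hm]
      obtain ⟨Q, hQ, rfl⟩ := Finset.mem_image.1 hm
      have h1 := hnev Q hQ
      obtain ⟨n, hn⟩ : ∃ n : ℤ, (𝔮 Q).valuation L α = exp n :=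
        ⟨log ((𝔮 Q).valuation L α), (exp_log hvα).symm⟩
      rw [not_ev_of_exp hn, Int.not_even_iff_odd] at h1
      obtain ⟨m, hm⟩ := h1
      obtain ⟨y, hy⟩ := (𝔮 Q).valuation_surjective L (exp (m + 1))
      refine ⟨y, ?_, ?_⟩
      · rintro rfl
        rw [map_zero] at hy
        exact exp_ne_zero hy.symm
      · rw [hn, hy, ← exp_add, ← exp_nsmul, exp_inj, hm]
        simp
        ring
    · rw [if_neg hm, mul_one]
      obtain ⟨y, hy⟩ := hev 𝔓 hm
      refine ⟨y, ?_, hy⟩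
      rintro rfl
      rw [map_zero, zero_pow two_ne_zero] at hy
      exact hvα hy
  choose y hy0 hy using hex
  have hlat' : ∀ x : L, (∃ ξ : Fin (2 * g + 1) → k[X], x = ∑ i, algebraMap k[X] L (ξ i) * e i) ↔
      ∀ 𝔓 : HeightOneSpectrum O, 𝔓.valuation L x ≤ 𝔓.valuation L (y 𝔓) := by
    intro x
    rw [hlat x]
    refine forall_congr' fun 𝔓 => ?_
    rw [← hcc, hy 𝔓, pow_le_pow_iff_left₀ zero_le' zero_le' two_ne_zero]
  -- the primes over `Q`
  have hcop : ∀ Q ∈ S₁, ∀ Q' ∈ S₁, Q' ≠ Q → ¬ Q ∣ Q' := by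
    intro Q hQ Q' hQ' hne hd
    exact hne (eq_of_monic_of_associated (hQmon Q hQ) (hQmon Q' hQ')
      ((hQirr Q hQ).associated_of_dvd (hQirr Q' hQ') hd)).symm
  have hvP : ∀ Q ∈ S₁, ∀ 𝔓 : HeightOneSpectrum O, Ov Q 𝔓 →
      𝔓.valuation L (algebraMap k[X] L P) = 𝔓.valuation L (algebraMap k[X] L Q) := by
    intro Q hQ 𝔓 hov
    rw [hP, ← Finset.mul_prod_erase _ _ hQ, map_mul, map_mul, map_prod, map_prod]
    rw [Finset.prod_eq_one, mul_one]
    intro Q' hQ'
    rw [Finset.mem_erase] at hQ'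
    exact Pool.Agent.N765.PP.val_eq (hQirr Q hQ) hov (hcop Q hQ Q' hQ'.2 hQ'.1)
  have hcc1 : ∀ 𝔓 : HeightOneSpectrum O, 𝔓 ∉ S₁.image 𝔮 → cc 𝔓 = 1 := by
    intro 𝔓 hm
    rw [hcc, if_neg hm]
  have hprod_le : ∀ 𝔓 : HeightOneSpectrum O, 𝔓.valuation L (algebraMap k[X] L P) * cc 𝔓 ≤ 1 := by
    intro 𝔓
    by_cases hm : 𝔓 ∈ S₁.image 𝔮
    · obtain ⟨Q, hQ, rfl⟩ := Finset.mem_image.1 hm
      obtain ⟨𝔓₁, 𝔮', ov1, ov2, hv1, hv2, hQ1, hQ2, hall⟩ :=
        hE g k K L O f θ S hh hg h hsq hS Q (hS₁ hQ) (hCg Q (hS₁ hQ))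
      have hq' : (𝔮 Q).valuation L (algebraMap k[X] L Q) = exp (-1 : ℤ) := by
        rcases hall (𝔮 Q) (h𝔮 Q (hS₁ hQ)).1 with h' | h'
        · rw [h']
          exact hQ1
        · rw [h']
          exact hQ2
      rw [hvP Q hQ (𝔮 Q) (h𝔮 Q (hS₁ hQ)).1, hcc, if_pos hm, hq', ← exp_add]
      simp
    · rw [hcc1 𝔓 hm, mul_one]
      exact val_le 𝔓 P
  have hbound : ∀ 𝔓 : HeightOneSpectrum O,
      𝔓.valuation L (algebraMap k[X] L P) * 𝔓.valuation L (y 𝔓) ^ 2 ≤ 𝔓.valuation L α := by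
    intro 𝔓
    rw [← hy 𝔓]
    calc 𝔓.valuation L (algebraMap k[X] L P) * (𝔓.valuation L α * cc 𝔓)
        = 𝔓.valuation L α * (𝔓.valuation L (algebraMap k[X] L P) * cc 𝔓) := by
          rw [mul_left_comm]
      _ ≤ 𝔓.valuation L α * 1 := mul_le_mul_right (hprod_le 𝔓) _
      _ = 𝔓.valuation L α := mul_one _
  -- the matrix `G`
  have hei : ∀ i, ∀ 𝔓 : HeightOneSpectrum O, 𝔓.valuation L (e i) ≤ 𝔓.valuation L (y 𝔓) := by
    intro i
    refine (hlat' _).1 ⟨fun j => if j = i then 1 else 0, ?_⟩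
    rw [Finset.sum_eq_single i]
    · simp
    · intro j _ hj
      simp [hj]
    · intro h0
      exact absurd (Finset.mem_univ _) h0
  have hGint : ∀ i j, IsIntegral k[X] (algebraMap k[X] L P * (e i * e j) / α) := by
    intro i j
    have hv : ∀ 𝔓 : HeightOneSpectrum O,
        𝔓.valuation L (algebraMap k[X] L P * (e i * e j) / α) ≤ 1 := by
      intro 𝔓
      have hvα : 𝔓.valuation L α ≠ 0 := (Valuation.ne_zero_iff _).2 hα
      rw [map_div₀, map_mul, map_mul]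
      refine div_le_one_of_le₀ ?_ zero_le'
      refine le_trans ?_ (hbound 𝔓)
      rw [pow_two]
      exact mul_le_mul_right (mul_le_mul' (hei i 𝔓) (hei j 𝔓)) _
    obtain ⟨w, hw⟩ := HeightOneSpectrum.mem_integers_of_valuation_le_one L _ hv
    rw [← hw]
    exact isInt w
  choose V hV using fun i j => (hI _).1 (hGint i j)
  obtain ⟨G, hGdef⟩ : ∃ G : Mt g k[X], ∀ i j, G i j = V i j (Fin.last (2 * g)) :=
    ⟨fun i j => V i j (Fin.last (2 * g)), fun _ _ => rfl⟩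
  have hG : ∀ i j, algebraMap k[X] K (G i j) = h.top (algebraMap k[X] L P * (e i * e j) / α) := by
    intro i j
    rw [hGdef, top_eq, crd_co h (hV i j)]
  have hloc := fun {R : k[X]} (hR : Irreducible R) =>
    loc_main Pool.Agent.N262.PJ.det h hI b hli hy0 hlat' hα hP0 hG hR
      (fun 𝔓 _ => hbound 𝔓)
  have hintN : ∀ ζ : O, Algebra.intNorm k[X] O ζ = Algebra.norm k[X] ζ := fun ζ => by
    rw [Algebra.intNorm_eq_norm]
  -- at the primes of `S₁`
  have hatQ : ∀ Q ∈ S₁, Q ∣ G.det ∧ ¬ Q * Q ∣ G.det := by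
    intro Q hQ
    have hQi := hQirr Q hQ
    obtain ⟨𝔓₁, 𝔮', ov1, ov2, hv1, hv2, hQ1, hQ2, hall⟩ :=
      hE g k K L O f θ S hh hg h hsq hS Q (hS₁ hQ) (hCg Q (hS₁ hQ))
    have hqq : 𝔮 Q = 𝔮' := by
      rcases hall (𝔮 Q) (h𝔮 Q (hS₁ hQ)).1 with h' | h'
      · have h1 := (h𝔮 Q (hS₁ hQ)).2
        rw [h'] at h1
        rw [h1] at hv1
        exact absurd hv1 (lt_irrefl _)
      · exact h'
    obtain ⟨s, a, ζ, hs, ha, hζ, hvζ, hdet⟩ := hloc hQi
    have ht1 : t ∈ 𝔓₁.asIdeal := by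
      rw [← 𝔓₁.valuation_lt_one_iff_mem (K := L)]
      change 𝔓₁.valuation L (algebraMap O L t) < 1
      rw [ht]
      exact hv1
    have hc1 : cn k[X] (Ideal.span {Q}) 𝔓₁.asIdeal = 1 :=
      cn_deg_one (c := 0) h hI hQi ov1 ht (by rw [map_zero, sub_zero]; exact ht1)
    have hn1 : 𝔓₁ ∉ S₁.image 𝔮 := by
      intro hm
      obtain ⟨Q', hQ', hq'⟩ := Finset.mem_image.1 hm
      have h1 := (h𝔮 Q' (hS₁ hQ')).2
      rw [hq'] at h1
      rw [h1] at hv1
      exact absurd hv1 (lt_irrefl _)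
    have hvz : ∀ 𝔓 : HeightOneSpectrum O, Ov Q 𝔓 → 𝔓.valuation L (algebraMap O L ζ) =
        𝔓.valuation L (algebraMap k[X] L Q) * cc 𝔓 := by
      intro 𝔓 hov
      have hvα : 𝔓.valuation L α ≠ 0 := (Valuation.ne_zero_iff _).2 hα
      have h1 := hvζ 𝔓 hov
      rw [← hy 𝔓, hvP Q hQ 𝔓 hov] at h1
      refine mul_right_cancel₀ hvα ?_
      rw [h1]
      ac_rfl
    obtain ⟨hd1, hd2⟩ := norm_one h hQi ov1 hall hc1 hζ
      (by rw [hvz 𝔓₁ ov1, hcc1 𝔓₁ hn1, mul_one, hQ1])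
      (by
        rw [hvz 𝔮' ov2, hQ2, hcc, if_pos (by rw [← hqq]; exact Finset.mem_image_of_mem _ hQ),
          ← exp_add]
        simp)
    rw [hintN] at hd1 hd2
    constructor
    · have h1 : Q ∣ s * G.det := by
        rw [hdet]
        exact hd1.mul_left _
      exact (hQi.prime.dvd_or_dvd h1).resolve_left hs
    · intro h1
      apply hd2
      have h2 : Q * Q ∣ a * Algebra.norm k[X] ζ := by
        rw [← hdet]
        exact h1.mul_left _
      have h3 : IsCoprime (Q * Q) a := by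
        have := (hQi.coprime_iff_not_dvd).2 ha
        exact this.mul_left this
      exact h3.dvd_of_dvd_mul_left h2
  have hPd : P ∣ G.det := by
    rw [hP]
    refine Finset.prod_dvd_of_coprime ?_ fun Q hQ => (hatQ Q hQ).1
    intro Q hQ Q' hQ' hne
    exact ((hQirr Q hQ).coprime_iff_not_dvd).2 (hcop Q hQ Q' hQ' hne.symm)
  obtain ⟨W, hW⟩ := hPd
  have hWu : IsUnit W := by
    by_contra hnu
    have hW0 : W ≠ 0 := by
      rintro rfl
      rw [mul_zero] at hW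
      have h1 := (hloc (R := X) irreducible_X)
      obtain ⟨s, a, ζ, hs, ha, hζ, hvζ, hdet⟩ := h1
      rw [hW, mul_zero] at hdet
      have ha0 : a ≠ 0 := fun h0 => ha (by rw [h0]; exact dvd_zero _)
      have h2 : Algebra.norm k[X] ζ = 0 := (mul_eq_zero.1 hdet.symm).resolve_left ha0
      rw [← hintN] at h2
      exact hζ (Algebra.intNorm_eq_zero.1 h2)
    obtain ⟨R, hR, hRW⟩ := WfDvdMonoid.exists_irreducible_factor hnu hW0
    by_cases hex : ∃ Q ∈ S₁, R ∣ Q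
    · obtain ⟨Q, hQ, hRQ⟩ := hex
      have h1 : Q ∣ W := ((hR.associated_of_dvd (hQirr Q hQ) hRQ).dvd').trans hRW
      apply (hatQ Q hQ).2
      rw [hW]
      refine mul_dvd_mul ?_ h1
      rw [hP]
      exact Finset.dvd_prod_of_mem _ hQ
    · push Not at hex
      obtain ⟨s, a, ζ, hs, ha, hζ, hvζ, hdet⟩ := hloc hR
      have hRP : ¬ R ∣ P := by
        intro h1
        rw [hP] at h1
        obtain ⟨Q, hQ, hRQ⟩ := hR.prime.exists_mem_finset_dvd h1
        exact hex Q hQ hRQ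
      have hn : ¬ R ∣ Algebra.norm k[X] ζ := by
        refine norm_unit (K := K) (L := L) b hR hζ fun 𝔓 hov => ?_
        have hvα : 𝔓.valuation L α ≠ 0 := (Valuation.ne_zero_iff _).2 hα
        have hni : 𝔓 ∉ S₁.image 𝔮 := by
          intro hm
          obtain ⟨Q, hQ, hq⟩ := Finset.mem_image.1 hm
          have h1 := (h𝔮 Q (hS₁ hQ)).1
          rw [hq] at h1
          exact hex Q hQ ((ov_iff hR hov Q).1 h1)
        have h1 := hvζ 𝔓 hov
        rw [← hy 𝔓, hcc1 𝔓 hni, mul_one, Pool.Agent.N765.PP.val_eq hR hov hRP, one_mul] at h1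
        exact mul_right_cancel₀ hvα (by rw [h1, one_mul])
      have h1 : R ∣ a * Algebra.norm k[X] ζ := by
        rw [← hdet, hW]
        exact (hRW.mul_left _).mul_left _
      rcases hR.prime.dvd_or_dvd h1 with h2 | h2
      · exact ha h2
      · exact hn h2
  have hG0 : G.det ≠ 0 := by
    rw [hW]
    exact mul_ne_zero hP0 hWu.ne_zero
  refine ⟨G, hG0, ?_, ?_⟩
  · rw [hW, natDegree_mul hP0 hWu.ne_zero, natDegree_eq_zero_of_isUnit hWu, add_zero, hP]
  · intro i j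
    rw [hG, hP]

end Pool.Agent.H859.N227.PJ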