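import Pool.Agent.H859.SC.N352PJIdx
import Pool.Graph.R_pool_sql_team_seeded_63374d34.N401.PJ.Exp

/-!
# The exponents, from `N401/PJ/Exp.lean` of helper401
-/

set_option autoImplicit false
set_option linter.all false

open Finset
open scoped Classical

namespace Pool.Agent.H859.N401.PJ
open Pool.Agent.N401.PJ Pool.Agent.H859.PJ
open Pool.Agent.N352.PJ

theorem ee_eq {g N : ℕ} {w : Fin (2 * g + 1) → ℤ} (hw : Typ g w) :
    eeA g N w = ee g N w + (2 * N + 1) := by
  set md : Fin (2 * g + 1) := ⟨g, by omega⟩ with hmd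
  have hrev : Fin.rev md = md := by
    apply Fin.ext
    rw [Fin.val_rev]
    show 2 * g + 1 - (g + 1) = g
    omega
  have hw0 : w md = 0 := by
    have h := hw.anti md
    rw [hrev] at h
    omega
  unfold eeA ee
  have h1 : (Finset.univ : Finset (Fin (2 * g + 1) × Fin (2 * g + 1))).filter
      (fun p => p.1 ≤ p.2) = insert (md, md)
      ((Finset.univ : Finset (Fin (2 * g + 1) × Fin (2 * g + 1))).filter
        (fun p => p.1 ≤ p.2 ∧ ¬ ((p.1 : ℕ) = g ∧ (p.2 : ℕ) = g))) := by
    ext ⟨a, b⟩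
    simp only [mem_filter, mem_univ, true_and, mem_insert, Prod.mk.injEq]
    constructor
    · intro h
      by_cases h2 : (a : ℕ) = g ∧ (b : ℕ) = g
      · exact Or.inl ⟨Fin.ext h2.1, Fin.ext h2.2⟩
      · exact Or.inr ⟨h, h2⟩
    · rintro (⟨rfl, rfl⟩ | h)
      · exact le_rfl
      · exact h.1
  rw [h1, Finset.sum_insert, add_comm]
  · congr 1
    show (2 * (N : ℤ) + 1 + w md + w md).toNat = 2 * N + 1
    rw [hw0]
    omega
  · rw [mem_filter]
    rintro ⟨-, -, h⟩
    exact h ⟨rfl, rfl⟩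

theorem exp_ineq : S_EXPA := by
  intro g N w hw hr
  have h := Pool.Agent.N401.PJ.exp_ineq g N w hw hr
  rw [ee_eq hw]
  unfold ddA
  unfold dd at h
  push_cast at h ⊢
  linarith

end Pool.Agent.H859.N401.PJ
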