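import Pool.Agent.H859.SC.N352PJIdx
import Pool.Graph.R_pool_sql_team_seeded_63374d34.N415.PJ.BOX
import Pool.Agent.H859.SC.N352PJDef
import Pool.Graph.R_pool_sql_team_seeded_63374d34.N160.PP.BOX

/-!
# PJ/BOX (for helper352, project PJ): boxes of tuples of polynomials with congruence conditions

By helper415; the case of genus one is `Pool/Agent/N160/PP/BOX.lean` of helper160.
-/

set_option autoImplicit false
set_option linter.all false

open Polynomial Matrix
open scoped Classical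

namespace Pool.Agent.H859.N415.PJBOX
open Pool.Agent.N415.PJBOX Pool.Agent.H859.PJ
open Pool.Agent.N874.PP (nm)
open Pool.Agent.N352.PJ
open Pool.Agent.N160.PP (card_degreeLT mem_degreeLT' finite_adj card_adj crt_inj)

/-! ### The free entries -/

/-- the pairs `i ≤ j` -/
def PP (g : ℕ) : Finset (Fin (2 * g + 1) × Fin (2 * g + 1)) :=
  (Finset.univ : Finset (Fin (2 * g + 1) × Fin (2 * g + 1))).filter (fun p => p.1 ≤ p.2)

lemma card_PP (g : ℕ) : (PP g).card = ddA g := by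
  set A := (Finset.univ : Finset (Fin (2 * g + 1) × Fin (2 * g + 1))).filter
    (fun p => p.1 ≤ p.2) with hA
  set A' := (Finset.univ : Finset (Fin (2 * g + 1) × Fin (2 * g + 1))).filter
    (fun p => p.2 ≤ p.1) with hA'
  have h1 : A.card = A'.card := by
    refine Finset.card_bij (fun p _ => (p.2, p.1)) ?_ ?_ ?_
    · intro p hp
      rw [hA, Finset.mem_filter] at hp
      rw [hA', Finset.mem_filter]
      exact ⟨Finset.mem_univ _, hp.2⟩
    · intro p _ p' _ h
      rw [Prod.mk.injEq] at h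
      exact Prod.ext h.2 h.1
    · intro p hp
      rw [hA', Finset.mem_filter] at hp
      refine ⟨(p.2, p.1), ?_, rfl⟩
      rw [hA, Finset.mem_filter]
      exact ⟨Finset.mem_univ _, hp.2⟩
  have h2 : A ∪ A' = Finset.univ := by
    ext p
    simp only [hA, hA', Finset.mem_union, Finset.mem_filter, Finset.mem_univ, true_and, iff_true]
    exact le_total _ _
  have h3 : A ∩ A' = (Finset.univ : Finset (Fin (2 * g + 1))).image (fun i => (i, i)) := by
    ext p
    simp only [hA, hA', Finset.mem_inter, Finset.mem_filter, Finset.mem_univ, true_and,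
      Finset.mem_image]
    constructor
    · rintro ⟨ha, hb⟩
      exact ⟨p.1, Prod.ext rfl (le_antisymm ha hb)⟩
    · rintro ⟨i, rfl⟩
      exact ⟨le_rfl, le_rfl⟩
  have h4 := Finset.card_union_add_card_inter A A'
  rw [h2, h3, Finset.card_image_of_injective _ (fun i j h => (Prod.mk.inj h).1), Finset.card_univ,
    Finset.card_univ, Fintype.card_prod, Fintype.card_fin, ← h1] at h4
  have h7 : A.card + A.card = 2 * (2 * g ^ 2 + 3 * g + 1) := by
    rw [← h4]; ring
  show A.card = _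
  unfold ddA
  omega

lemma sum_PP {g : ℕ} {w : Fin (2 * g + 1) → ℤ} (hw : Typ g w) :
    ∑ p ∈ PP g, (w p.1 + w p.2) = 0 := by
  have h1 : ∑ p ∈ PP g, (w p.1 + w p.2) = ∑ p ∈ PP g, -(w p.1 + w p.2) := by
    refine Finset.sum_bij (fun p _ => (Fin.rev p.2, Fin.rev p.1)) ?_ ?_ ?_ ?_
    · intro p hp
      simp only [PP, Finset.mem_filter, Finset.mem_univ, true_and, Fin.rev_le_rev] at hp ⊢
      exact hp
    · intro p _ p' _ h
      rw [Prod.mk.injEq] at h
      exact Prod.ext (Fin.rev_injective h.2) (Fin.rev_injective h.1)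
    · intro p hp
      refine ⟨(Fin.rev p.2, Fin.rev p.1), ?_, ?_⟩
      · simp only [PP, Finset.mem_filter, Finset.mem_univ, true_and, Fin.rev_le_rev] at hp ⊢
        exact hp
      · simp
    · intro p _
      rw [hw.anti, hw.anti]
      ring
  rw [Finset.sum_neg_distrib] at h1
  omega

/-- a symmetric matrix is determined by the free entries -/
lemma mat_ext {g : ℕ} {R : Type} [CommRing R] {B B' : Mt g R} (h1 : B.IsSymm) (h1' : B'.IsSymm)
    (h : ∀ p ∈ PP g, B p.1 p.2 = B' p.1 p.2) : B = B' := by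
  ext i j
  rcases le_total i j with hle | hle
  · exact h (i, j) (by
      rw [PP, Finset.mem_filter]
      exact ⟨Finset.mem_univ _, hle⟩)
  · rw [← h1.apply, ← h1'.apply]
    exact h (j, i) (by
      rw [PP, Finset.mem_filter]
      exact ⟨Finset.mem_univ _, hle⟩)

/-! ### The trivial bound -/

theorem box0 : S_BOX0A := by
  intro g k _ _ h2 S h N w hw
  set T := ∀ p : {p // p ∈ PP g}, degreeLT k (2 * N + 1 + w p.1.1 + w p.1.2).toNat with hT
  let Φ : {B : Mt g k[X] | XsetA g N w S h B} → T := fun B p => ⟨B.1 p.1.1 p.1.2, by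
    rcases B.2.box p.1.1 p.1.2 with h1 | h1
    · rw [h1]; exact Submodule.zero_mem _
    · exact mem_degreeLT' (by omega)⟩
  have hΦ : Function.Injective Φ := by
    rintro ⟨B, hB⟩ ⟨B', hB'⟩ h
    apply Subtype.ext
    refine mat_ext hB.symm hB'.symm fun p hp => ?_
    exact congrArg (fun t : T => ((t ⟨p, hp⟩ : degreeLT k _) : k[X])) h
  have hfin : Finite {B : Mt g k[X] | XsetA g N w S h B} := Finite.of_injective Φ hΦ
  refine ⟨Set.toFinite _, ?_⟩
  have h1 := Nat.card_le_card_of_injective Φ hΦ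
  rw [Nat.card_coe_set_eq] at h1
  refine h1.trans (le_of_eq ?_)
  rw [hT, Nat.card_pi]
  simp only [card_degreeLT]
  rw [Finset.prod_pow_eq_pow_sum]
  congr 1
  rw [Finset.sum_coe_sort (PP g) (fun p => (2 * N + 1 + w p.1 + w p.2).toNat)]
  unfold eeA PP
  rfl

/-! ### Reduction -/

section red

variable {g : ℕ} {R R' : Type} [CommRing R] [CommRing R'] (φ : R →+* R')

lemma Jm_map : (Jm g R).map φ = Jm g R' := by
  ext i j
  simp only [Jm, Matrix.map_apply, Matrix.of_apply]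
  split <;> simp

lemma chp_map (B : Mt g R) : chp (B.map φ) = (chp B).map φ := by
  unfold chp
  rw [← Matrix.charpoly_map, Matrix.map_mul, Jm_map]

lemma form_map (B : Mt g R) (m : ℕ) (ξ : Fin (2 * g + 1) → R) :
    form (B.map φ) m (φ ∘ ξ) = φ (form B m ξ) := by
  unfold form
  rw [RingHom.map_dotProduct]
  congr 1
  rw [← Jm_map φ, ← Matrix.map_mul, ← Matrix.map_pow, ← Matrix.map_mul]
  funext i
  rw [Function.comp_apply, RingHom.map_mulVec]

lemma form_smul (B : Mt g R) (m : ℕ) (c : R) (ξ : Fin (2 * g + 1) → R) :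
    form B m (c • ξ) = c ^ 2 * form B m ξ := by
  unfold form
  rw [Matrix.mulVec_smul, smul_dotProduct, dotProduct_smul, smul_eq_mul, smul_eq_mul]
  ring

end red

section prime

variable {k : Type} [Field k] [Finite k] {g : ℕ}

/-- The good tuples modulo `Q`. -/
abbrev GQ (g : ℕ) (h : k[X] → k[X][X]) (Q : k[X]) : Type :=
  {B : Mt g (AdjoinRoot Q) // B.IsSymm ∧ chp B = X * (h Q).map (AdjoinRoot.mk Q) ∧ Dist B}

lemma card_GQ (hCQ : S_CQ) (hg : 1 ≤ g) (h2 : (2 : k) ≠ 0) (h : k[X] → k[X][X]) {Q : k[X]}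
    (hQ : Irreducible Q) (hm : (h Q).Monic) (hd : (h Q).natDegree = 2 * g)
    (hi : Irreducible ((h Q).map (Ideal.Quotient.mk (Ideal.span {Q})))) :
    2 * Nat.card (GQ g h Q) ≤ nm Q ^ (g * (2 * g + 1)) := by
  haveI : Fact (Irreducible Q) := ⟨hQ⟩
  haveI := finite_adj hQ
  have h2' : (2 : AdjoinRoot Q) ≠ 0 := by
    have h1 : (2 : AdjoinRoot Q) = AdjoinRoot.of Q 2 := (map_ofNat (AdjoinRoot.of Q) 2).symm
    rw [h1]
    exact fun h0 => h2 ((map_eq_zero _).1 h0)
  have h1 := hCQ g (AdjoinRoot Q) hg h2' ((h Q).map (AdjoinRoot.mk Q)) (hm.map _) hi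
    (by rw [hm.natDegree_map, hd])
  rw [card_adj hQ] at h1
  exact h1

lemma dist_map {Q : k[X]} (hQ : Irreducible Q) {B : Mt g k[X]} (h : DistMod Q B) :
    Dist (B.map (AdjoinRoot.mk Q)) := by
  haveI : Fact (Irreducible Q) := ⟨hQ⟩
  obtain ⟨ξ, s, hs, hm⟩ := h
  have hs' : AdjoinRoot.mk Q s ≠ 0 := by
    intro h0
    exact hs (AdjoinRoot.mk_eq_zero.1 h0)
  refine ⟨(AdjoinRoot.mk Q s)⁻¹ • (AdjoinRoot.mk Q ∘ ξ), fun m hm' => ?_⟩
  rw [form_smul, form_map]
  have h1 := AdjoinRoot.mk_eq_zero.2 (hm m hm')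
  rw [map_sub, sub_eq_zero] at h1
  rw [h1]
  by_cases h2 : m = 2 * g
  · rw [if_pos h2, if_pos h2, map_pow, ← mul_pow, inv_mul_cancel₀ hs', one_pow]
  · rw [if_neg h2, if_neg h2, map_zero, mul_zero]

end prime

/-! ### The bound with congruences -/

section main

variable {k : Type} [Field k] [Finite k]

lemma div_mem' {M : k[X]} (hM : M.Monic) {f : k[X]} {d : ℕ} (hd : M.natDegree < d)
    (hf : f.natDegree < d) : f /ₘ M ∈ degreeLT k (d - M.natDegree) := by
  apply mem_degreeLT'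
  rw [natDegree_divByMonic f hM]
  omega

theorem box (hCQ : S_CQ) : S_BOXA := by
  intro g k _ _ hg h2 S h hS N w hw hdeg
  set M : k[X] := ∏ Q ∈ S, Q with hM
  have hMm : M.Monic := monic_prod_of_monic _ _ fun Q hQ => (hS Q hQ).1
  set D : ℕ := M.natDegree with hD
  have hw0 : ∀ i, w 0 ≤ w i := fun i => hw.mono (Fin.zero_le i)
  have hw00 : w 0 ≤ 0 := by
    have h1 := hw.anti 0
    have h2 := hw0 (Fin.rev 0)
    omega
  set m : Fin (2 * g + 1) × Fin (2 * g + 1) → ℕ := fun p => (2 * N + 1 + w p.1 + w p.2).toNat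
    with hm
  have hmD : ∀ p, D < m p := by
    intro p
    have h1 := hw0 p.1
    have h2 := hw0 p.2
    show D < (2 * N + 1 + w p.1 + w p.2).toNat
    omega
  set T := (∀ Q : {Q // Q ∈ S}, GQ g h Q.1) × (∀ p : {p // p ∈ PP g}, degreeLT k (m p.1 - D))
    with hT
  have hbox : ∀ B : Mt g k[X], XsetA g N w S h B → ∀ p, (B p.1 p.2).natDegree < m p := by
    intro B hB p
    rcases hB.box p.1 p.2 with h1 | h1
    · rw [h1, natDegree_zero]; exact (Nat.zero_le _).trans_lt (hmD p)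
    · show _ < (2 * N + 1 + w p.1 + w p.2).toNat
      omega
  have keyQ : ∀ B : {B : Mt g k[X] | XsetA g N w S h B}, ∀ Q : {Q // Q ∈ S},
      (B.1.map (AdjoinRoot.mk Q.1)).IsSymm ∧
      chp (B.1.map (AdjoinRoot.mk Q.1)) = X * (h Q.1).map (AdjoinRoot.mk Q.1) ∧
      Dist (B.1.map (AdjoinRoot.mk Q.1)) := by
    rintro ⟨B, hB⟩ ⟨Q, hQ⟩
    refine ⟨hB.symm.map _, ?_, dist_map (hS Q hQ).2.1 (hB.dist Q hQ)⟩
    show chp (B.map (AdjoinRoot.mk Q)) = X * (h Q).map (AdjoinRoot.mk Q)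
    rw [chp_map]
    have h1 : (X : (AdjoinRoot Q)[X]) * (h Q).map (AdjoinRoot.mk Q) =
        (X * h Q).map (AdjoinRoot.mk Q) := by
      rw [Polynomial.map_mul, map_X]
    rw [h1]
    ext j
    rw [coeff_map, coeff_map, ← sub_eq_zero, ← map_sub, AdjoinRoot.mk_eq_zero]
    exact hB.con Q hQ j
  let Φ : {B : Mt g k[X] | XsetA g N w S h B} → T := fun B =>
    (fun Q => ⟨B.1.map (AdjoinRoot.mk Q.1), keyQ B Q⟩,
      fun p => ⟨B.1 p.1.1 p.1.2 /ₘ M, div_mem' hMm (hmD _) (hbox B.1 B.2 p.1)⟩)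
  have hΦ : Function.Injective Φ := by
    rintro ⟨B, hB⟩ ⟨B', hB'⟩ heq
    have hQ : ∀ Q ∈ S, B.map (AdjoinRoot.mk Q) = B'.map (AdjoinRoot.mk Q) := by
      intro Q hQ
      exact congrArg (fun t : T => (t.1 ⟨Q, hQ⟩).1) heq
    have hS' : ∀ Q ∈ S, Q.Monic ∧ Irreducible Q := fun Q hQ => ⟨(hS Q hQ).1, (hS Q hQ).2.1⟩
    apply Subtype.ext
    refine mat_ext hB.symm hB'.symm fun p hp => ?_
    refine crt_inj hS' (fun Q hQ' => ?_) ?_
    · exact congrFun (congrFun (hQ Q hQ') p.1) p.2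
    · exact congrArg (fun t : T => ((t.2 ⟨p, hp⟩ : degreeLT k _) : k[X])) heq
  haveI : ∀ Q : {Q // Q ∈ S}, Finite (GQ g h Q.1) := fun Q => by
    haveI := finite_adj (hS Q.1 Q.2).2.1
    infer_instance
  have h1 := Nat.card_le_card_of_injective Φ hΦ
  rw [Nat.card_coe_set_eq] at h1
  have hexp : ∑ p ∈ PP g, (m p - D) = (2 * N + 1 - D) * ddA g := by
    have e1 : ∀ p, ((m p - D : ℕ) : ℤ) = ((2 * N + 1 - D : ℕ) : ℤ) + (w p.1 + w p.2) := by
      intro p
      have h1 := hw0 p.1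
      have h2 := hw0 p.2
      show (((2 * N + 1 + w p.1 + w p.2).toNat - D : ℕ) : ℤ) = _
      omega
    have e2 : ((∑ p ∈ PP g, (m p - D) : ℕ) : ℤ) = (((2 * N + 1 - D) * ddA g : ℕ) : ℤ) := by
      rw [Nat.cast_sum, Finset.sum_congr rfl fun p _ => e1 p, Finset.sum_add_distrib, sum_PP hw,
        Finset.sum_const, card_PP, nsmul_eq_mul, add_zero, Nat.cast_mul, mul_comm]
    exact_mod_cast e2
  have hcard : Nat.card T = (∏ Q ∈ S, Nat.card (GQ g h Q)) *
      Nat.card k ^ ((2 * N + 1 - D) * ddA g) := by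
    rw [hT, Nat.card_prod, Nat.card_pi, Nat.card_pi,
      Finset.prod_coe_sort S (fun Q => Nat.card (GQ g h Q))]
    simp only [card_degreeLT]
    rw [Finset.prod_pow_eq_pow_sum, Finset.sum_coe_sort (PP g) (fun p => m p - D), hexp]
  rw [hcard] at h1
  have h3 : 2 ^ S.card * ∏ Q ∈ S, Nat.card (GQ g h Q) ≤ ∏ Q ∈ S, nm Q ^ (g * (2 * g + 1)) := by
    rw [← Finset.prod_const, ← Finset.prod_mul_distrib]
    exact Finset.prod_le_prod' fun Q hQ => card_GQ hCQ hg h2 h (hS Q hQ).2.1 (hS Q hQ).2.2.1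
      (hS Q hQ).2.2.2.1 (hS Q hQ).2.2.2.2.2
  have h4 : ∏ Q ∈ S, nm Q = Nat.card k ^ D := by
    unfold nm
    rw [Finset.prod_pow_eq_pow_sum, hD, hM, natDegree_prod_of_monic _ _ fun Q hQ => (hS Q hQ).1]
  calc 2 ^ S.card * (∏ Q ∈ S, nm Q ^ (2 * g + 1)) * {B : Mt g k[X] | XsetA g N w S h B}.ncard
      ≤ 2 ^ S.card * (∏ Q ∈ S, nm Q ^ (2 * g + 1)) *
        ((∏ Q ∈ S, Nat.card (GQ g h Q)) * Nat.card k ^ ((2 * N + 1 - D) * ddA g)) :=
        Nat.mul_le_mul_left _ h1
    _ = (2 ^ S.card * ∏ Q ∈ S, Nat.card (GQ g h Q)) * ((∏ Q ∈ S, nm Q ^ (2 * g + 1)) *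
        Nat.card k ^ ((2 * N + 1 - D) * ddA g)) := by ring
    _ ≤ (∏ Q ∈ S, nm Q ^ (g * (2 * g + 1))) * ((∏ Q ∈ S, nm Q ^ (2 * g + 1)) *
        Nat.card k ^ ((2 * N + 1 - D) * ddA g)) := Nat.mul_le_mul_right _ h3
    _ = Nat.card k ^ ((2 * N + 1) * ddA g) := by
        rw [Finset.prod_pow, Finset.prod_pow, h4, ← pow_mul, ← pow_mul, ← pow_add, ← pow_add]
        congr 1
        have h5 : D * (g * (2 * g + 1)) + D * (2 * g + 1) = D * ddA g := by unfold ddA; ring
        rw [← add_assoc, h5, ← add_mul]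
        congr 1
        omega

end main

end Pool.Agent.H859.N415.PJBOX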