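import Pool.Agent.H859.SC.N352PJIdx
import Pool.Graph.R_pool_sql_team_seeded_63374d34.N50.PJ.Orb
import Pool.Agent.H859.SC.N352PJDef

/-!
# PJ/ORB: orbits of the unipotent group (written by helper50)
-/

set_option autoImplicit false
set_option linter.unusedSectionVars false

open Polynomial Matrix
open scoped Classical

namespace Pool.Agent.H859.N50.PJ
open Pool.Agent.N50.PJ Pool.Agent.H859.PJ
open Pool.Agent.N352.PJ hiding S_ORB

/-! ### The matrix `J` -/

section count

variable {g : ℕ} {k : Type} [Field k]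

theorem fin_X [Finite k] (S : Finset k[X]) (h : k[X] → k[X][X]) (N : ℕ)
    (w : Fin (2 * g + 1) → ℤ) : {B : Mt g k[X] | XsetA g N w S h B}.Finite := by
  have h1 : {B : Fin (2 * g + 1) → Fin (2 * g + 1) → k[X] | ∀ i,
      B i ∈ {b : Fin (2 * g + 1) → k[X] | ∀ j, b j ∈
        {p : k[X] | p.natDegree ≤ (2 * N + w i + w j).toNat}}}.Finite :=
    Set.Finite.pi' fun i => Set.Finite.pi' fun j => fin_nd _
  refine h1.subset ?_
  intro B hB i j
  rcases hB.box i j with h | h
  · show (B i j).natDegree ≤ _
    rw [h, natDegree_zero]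
    exact Nat.zero_le _
  · show (B i j).natDegree ≤ _
    omega

theorem X_act {S : Finset k[X]} {h : k[X] → k[X][X]} {N : ℕ} {w : Fin (2 * g + 1) → ℤ}
    {B A : Mt g k[X]} (hB : XsetA g N w S h B) (hA : Lie w A) :
    XsetA g N w S h (cay A * B * (cay A)ᵀ) where
  symm := symm_act hB.symm
  box := by
    have h1 : Bd (fun i => 2 * N + w i) w B := fun i j => hB.box i j
    have h2 : Bd (fun i => 2 * N + w i) (fun i => - w i) (cay A) → True := fun _ => trivial
    have h3 : Bd w (fun i => 2 * N - w i) (cay A) → True := fun _ => trivial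
    intro i j
    have hb := hA.cay_bd
    have h4 : Bd w (fun i => - w i) (cay A) := hb
    have h5 : Bd (fun i => - w i) w (cay A)ᵀ := hb.transpose
    have h6 : Bd w (fun j => 2 * N + w j) (cay A * B) :=
      h4.mul (z := w) (t := fun j => 2 * N + w j) (fun i j => by
        rcases hB.box i j with h | h
        · exact Or.inl h
        · right
          show ((B i j).natDegree : ℤ) ≤ w i + (2 * N + w j)
          omega) (fun i => by ring)
    have h7 := sum_bd Finset.univ (fun a => (cay A * B) i a * (cay A)ᵀ a j) (2 * N + w i + w j)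
      (by
        intro a _
        rcases mul_bd' (h6 i a) (h5 a j) with h | h
        · exact Or.inl h
        · right
          refine h.trans (le_of_eq ?_)
          ring)
    rw [Matrix.mul_apply]
    exact h7
  con := fun Q hQ => by rw [chp_act hA.orth]; exact hB.con Q hQ
  dist := fun Q hQ => dist_act hA.orth (hB.dist Q hQ)

end count

/-- PJ/ORB -/
theorem orb : S_ORBA := by
  intro g k _ _ h2 S h N w hw
  have h20 : (2 : k[X]) ≠ 0 := by
    intro h
    apply h2
    have h9 := congrArg (fun q : k[X] => q.coeff 0) h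
    simpa using h9
  have hfin : Finite {B : Mt g k[X] | XsetA g N w S h B} := (fin_X S h N w).to_subtype
  rw [← card_par (k := k) w, ← Nat.card_coe_set_eq, ← Nat.card_prod, ← Nat.card_coe_set_eq]
  have hch : ∀ f : {f : k[X][X] | Irreducible f ∧ ∃ B : Mt g k[X], XsetA g N w S h B ∧
      chp B = f}, ∃ B : Mt g k[X], XsetA g N w S h B ∧ chp B = f.1 := fun f => f.2.2
  choose B hB1 hB2 using hch
  refine Nat.card_le_card_of_injective (fun z => (⟨cay (mat z.2) * B z.1 * (cay (mat z.2))ᵀ,
    X_act (hB1 z.1) (mat_lie hw z.2)⟩ : {B : Mt g k[X] | XsetA g N w S h B})) ?_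
  rintro ⟨f, c⟩ ⟨f', c'⟩ he
  have h5 : cay (mat c) * B f * (cay (mat c))ᵀ = cay (mat c') * B f' * (cay (mat c'))ᵀ :=
    congrArg Subtype.val he
  have h6 : f = f' := by
    apply Subtype.ext
    rw [← hB2 f, ← hB2 f', ← chp_act (mat_lie hw c).orth (B f),
      ← chp_act (mat_lie hw c').orth (B f'), h5]
  subst h6
  have h7 := free h20 (by rw [hB2 f]; exact f.2.1) (mat_lie hw c) (mat_lie hw c') h5
  rw [mat_inj h7]

end Pool.Agent.H859.N50.PJ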