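import Pool.Agent.H859.SC.N874JMStm
import Pool.Graph.R_pool_sql_team_seeded_63374d34.N738.PJ.Exs

/-!
# Choice of residues (after `N738/PJ/Exs.lean` of helper738 and `N615/JM/Tch.lean` of helper615)
-/

set_option autoImplicit false

open Polynomial

namespace Pool.Agent.H859.Tch

open Pool.Agent.N352.PJ Pool.Agent.H859.PJ Pool.Agent.N738.PJ

/-- the polynomial for one prime, of degree `n` -/
theorem exists_hn (n : ℕ) (k : Type) [Field k] [Finite k] (hn : 1 ≤ n)
    (Q : k[X]) (hm : Q.Monic) (hi : Irreducible Q) : ∃ h : k[X][X], h.Monic ∧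
      h.natDegree = n ∧ Irreducible (h.map (Ideal.Quotient.mk (Ideal.span {Q}))) := by
  classical
  have hmax : (Ideal.span {Q}).IsMaximal := PrincipalIdealRing.isMaximal_of_irreducible hi
  let _ : Field (k[X] ⧸ Ideal.span {Q}) := Ideal.Quotient.field _
  have h1 : Module.Finite k (AdjoinRoot Q) := hm.finite_adjoinRoot
  have h2 : Finite (AdjoinRoot Q) := Module.finite_of_finite k
  have hfin : Finite (k[X] ⧸ Ideal.span {Q}) := h2
  set φ := Ideal.Quotient.mk (Ideal.span {Q}) with hφ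
  obtain ⟨r, hr1, hr2, hr3⟩ := exists_irr (k[X] ⧸ Ideal.span {Q}) n hn
  have hsur : ∀ y : k[X] ⧸ Ideal.span {Q}, ∃ x, φ x = y := Ideal.Quotient.mk_surjective
  choose s hs using hsur
  set P : k[X][X] := ∑ i ∈ Finset.range n, C (s (r.coeff i)) * X ^ i with hP
  have hPd : P.degree < (n : WithBot ℕ) := by
    rw [hP]
    refine lt_of_le_of_lt (degree_sum_le _ _) ?_
    rw [Finset.sup_lt_iff (WithBot.bot_lt_coe _)]
    intro i hi
    refine lt_of_le_of_lt (degree_C_mul_X_pow_le _ _) ?_
    exact_mod_cast Finset.mem_range.mp hi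
  have hnd : (X ^ n + P).natDegree = n := by
    rw [natDegree_add_eq_left_of_degree_lt (by rw [degree_X_pow]; exact hPd), natDegree_X_pow]
  refine ⟨X ^ n + P, monic_X_pow_add hPd, hnd, ?_⟩
  have hmap : (X ^ n + P).map φ = r := by
    conv_rhs => rw [hr1.as_sum, hr3]
    rw [Polynomial.map_add, Polynomial.map_pow, map_X, hP, Polynomial.map_sum]
    congr 1
    refine Finset.sum_congr rfl fun i _ => ?_
    rw [Polynomial.map_mul, map_C, Polynomial.map_pow, map_X, hs]
  rw [hmap]
  exact hr2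

/-- **JM/TCH.** -/
theorem tch : S_TCHA := by
  intro g k _ _ hg T hT
  classical
  constructor
  · refine ⟨fun Q => if h : Q.Monic ∧ Irreducible Q then
      (exists_hn (2 * g + 1) k (by omega) Q h.1 h.2).choose else 0, fun Q hQ => ?_⟩
    have h := hT Q hQ
    have h3 := (exists_hn (2 * g + 1) k (by omega) Q h.1 h.2).choose_spec
    beta_reduce
    rw [dif_pos h]
    exact ⟨h.1, h.2, h3.1, h3.2.1, trivial, h3.2.2⟩
  · refine ⟨fun Q => if h : Q.Monic ∧ Irreducible Q then
      (exists_hn (2 * g) k (by omega) Q h.1 h.2).choose else 0, fun Q hQ => ?_⟩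
    have h := hT Q hQ
    have h3 := (exists_hn (2 * g) k (by omega) Q h.1 h.2).choose_spec
    beta_reduce
    rw [dif_pos h]
    exact ⟨h.1, h.2, h3.1, h3.2.1, trivial, h3.2.2⟩

theorem gr : S_GRA := by
  intro g k _ _ hg
  obtain ⟨r, h1, h2, h3⟩ := exists_irr k (2 * g + 1) (by omega)
  exact ⟨r, h1, h2, h3, trivial⟩

end Pool.Agent.H859.Tch
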