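import Pool.Agent.H859.SC.N352PJIdx
import Pool.Graph.R_pool_sql_team_seeded_63374d34.N765.PJ.Exq
import Pool.Graph.R_pool_sql_team_seeded_63374d34.N765.PJ.Base

/-!
# The two primes over `Q` (project PJ of helper352)

By helper765.
-/

set_option autoImplicit false
set_option linter.all false

open Polynomial IsDedekindDomain WithZero
open scoped Classical

namespace Pool.Agent.H859.N765.PJ
open Pool.Agent.N765.PJ Pool.Agent.H859.PJ
open Pool.Agent.N352.PJ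
open Pool.Agent.N874.PP (Ov Ev Sq1 U0)

theorem field_adj {k : Type} [Field k] {Q : k[X]} (hQ : Irreducible Q)
    {m : (k[X] ⧸ Ideal.span {Q})[X]} (hm : Irreducible m) : IsField (AdjoinRoot m) := by
  have hmax : (Ideal.span {Q} : Ideal k[X]).IsMaximal :=
    PrincipalIdealRing.isMaximal_of_irreducible hQ
  let i1 : Field (k[X] ⧸ Ideal.span {Q}) := Ideal.Quotient.field _
  have i2 : Fact (Irreducible m) := ⟨hm⟩
  exact (inferInstance : Field (AdjoinRoot m)).toIsField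

theorem card_adj {k : Type} [Field k] [Finite k] {Q : k[X]} (hQ : Irreducible Q)
    {m : (k[X] ⧸ Ideal.span {Q})[X]} (hm : Irreducible m) :
    Nat.card (AdjoinRoot m) = Nat.card (k[X] ⧸ Ideal.span {Q}) ^ m.natDegree ∧
    Nat.card (k[X] ⧸ Ideal.span {Q}) = Nat.card k ^ Q.natDegree ∧
    Finite (k[X] ⧸ Ideal.span {Q}) ∧ Finite (AdjoinRoot m) := by
  have hmax : (Ideal.span {Q} : Ideal k[X]).IsMaximal :=
    PrincipalIdealRing.isMaximal_of_irreducible hQ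
  let i1 : Field (k[X] ⧸ Ideal.span {Q}) := Ideal.Quotient.field _
  have hd1 : Module.finrank k (k[X] ⧸ Ideal.span {Q}) = Q.natDegree :=
    finrank_quotient_span_eq_natDegree
  have f1 : Module.Finite k (k[X] ⧸ Ideal.span {Q}) :=
    Module.finite_of_finrank_pos (by rw [hd1]; exact hQ.natDegree_pos)
  have hd2 : Module.finrank (k[X] ⧸ Ideal.span {Q})
      ((k[X] ⧸ Ideal.span {Q})[X] ⧸ Ideal.span {m}) = m.natDegree :=
    finrank_quotient_span_eq_natDegree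
  have f2 : Module.Finite (k[X] ⧸ Ideal.span {Q})
      ((k[X] ⧸ Ideal.span {Q})[X] ⧸ Ideal.span {m}) :=
    Module.finite_of_finrank_pos (by rw [hd2]; exact hm.natDegree_pos)
  have f3 : Finite (k[X] ⧸ Ideal.span {Q}) := Module.finite_of_finite k
  refine ⟨?_, ?_, f3, ?_⟩
  · have := Module.natCard_eq_pow_finrank (K := k[X] ⧸ Ideal.span {Q})
      (V := (k[X] ⧸ Ideal.span {Q})[X] ⧸ Ideal.span {m})
    rw [hd2] at this
    exact this
  · have := Module.natCard_eq_pow_finrank (K := k) (V := k[X] ⧸ Ideal.span {Q})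
    rw [hd1] at this
    exact this
  · exact Module.finite_of_finite (k[X] ⧸ Ideal.span {Q})
      (M := (k[X] ⧸ Ideal.span {Q})[X] ⧸ Ideal.span {m})

/-- elements of a subfield are squares in an extension of even degree -/
theorem sq_even {F E : Type} [Field F] [Field E] [Finite F] [Finite E] (i : F →+* E) {g : ℕ}
    (hc : Nat.card E = Nat.card F ^ (2 * g)) (a : F) (ha : a ≠ 0) : IsSquare (i a) := by
  have : Fintype F := Fintype.ofFinite F
  have : Fintype E := Fintype.ofFinite E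
  rw [Nat.card_eq_fintype_card, Nat.card_eq_fintype_card] at hc
  by_cases hch : ringChar E = 2
  · exact FiniteField.isSquare_of_char_two hch _
  · rw [FiniteField.isSquare_iff hch ((map_ne_zero i).2 ha)]
    have hodd : Odd (Fintype.card E) := Nat.odd_iff.2 (FiniteField.odd_card_of_char_ne_two hch)
    have h1 : a ^ (Fintype.card F - 1) = 1 := FiniteField.pow_card_sub_one_eq_one a ha
    have hq : 1 < Fintype.card F := Fintype.one_lt_card
    obtain ⟨q, hqd⟩ : ∃ q, Fintype.card F = q := ⟨_, rfl⟩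
    rw [hqd] at h1 hc hq
    have hqo : g ≠ 0 → Odd q := by
      intro hg
      rw [hc] at hodd
      exact (Nat.odd_pow_iff (by omega)).1 hodd
    have h2 : (q - 1) ∣ Fintype.card E / 2 := by
      rw [hc]
      by_cases hg : g = 0
      · subst hg
        simp
      · obtain ⟨r, hr⟩ := hqo hg
        obtain ⟨M, hM⟩ : (q ^ 2 - 1) ∣ (q ^ 2) ^ g - 1 := by
          simpa using Nat.sub_dvd_pow_sub_pow (q ^ 2) 1 g
        refine ⟨(r + 1) * M, ?_⟩
        rw [pow_mul]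
        have h3 : 1 ≤ (q ^ 2) ^ g := Nat.one_le_pow _ _ (by positivity)
        have h4 : q ^ 2 - 1 = 2 * ((q - 1) * (r + 1)) := by
          subst hr
          have : (2 * r + 1) ^ 2 = 2 * (2 * r * (r + 1)) + 1 := by ring
          rw [this]
          simp
        have h5 : (q ^ 2) ^ g = 2 * ((q - 1) * ((r + 1) * M)) + 1 := by
          have : (q ^ 2) ^ g = ((q ^ 2) ^ g - 1) + 1 := by omega
          rw [this, hM, h4]
          ring
        rw [h5]
        omega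
    obtain ⟨c, hcc⟩ := h2
    rw [hcc, ← map_pow, pow_mul, h1, one_pow, map_one]

section main

variable {k K L O : Type} [Field k] [Field K] [Algebra k[X] K] [IsFractionRing k[X] K]
  [Field L] [Algebra K L] [Algebra k[X] L] [IsScalarTower k[X] K L] [CommRing O]
  [IsDedekindDomain O] [Algebra O L] [IsFractionRing O L] [Algebra k[X] O]
  [IsScalarTower k[X] O L] [IsIntegralClosure O k[X] L] {g : ℕ} {f : k[X][X]} {θ : L}

theorem psi_surj {t : O} {Q : k[X]} {m : (k[X] ⧸ Ideal.span {Q})[X]} {ψ : O →+* AdjoinRoot m}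
    (hψ : ∀ p : k[X][X], ψ (ev t p) = AdjoinRoot.mk m (p.map (rd Q))) :
    Function.Surjective ψ := by
  intro a
  obtain ⟨q, rfl⟩ := AdjoinRoot.mk_surjective a
  obtain ⟨p, rfl⟩ := rd_surj Q q
  exact ⟨_, hψ p⟩

theorem ker_max {t : O} {Q : k[X]} (hQ : Irreducible Q) {m : (k[X] ⧸ Ideal.span {Q})[X]}
    (hm : Irreducible m) {ψ : O →+* AdjoinRoot m}
    (hψ : ∀ p : k[X][X], ψ (ev t p) = AdjoinRoot.mk m (p.map (rd Q))) :
    (RingHom.ker ψ).IsMaximal := by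
  apply Ideal.Quotient.maximal_of_isField
  exact MulEquiv.isField (field_adj hQ hm)
    (RingHom.quotientKerEquivOfSurjective (psi_surj hψ)).toMulEquiv

/-- a prime over `Q` which contains `m(t)` -/
theorem eq_ker (hI : S_INT) (h : IsGen g K f θ) (hsq : Squarefree (dsc g f)) {t : O}
    (ht : algebraMap O L t = θ) {Q : k[X]} (hQ : Irreducible Q) {m : k[X][X]}
    (hm : Irreducible (m.map (rd Q))) {ψ : O →+* AdjoinRoot (m.map (rd Q))}
    (hψ : ∀ p : k[X][X], ψ (ev t p) = AdjoinRoot.mk (m.map (rd Q)) (p.map (rd Q)))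
    {𝔓 : HeightOneSpectrum O} (hov : Ov Q 𝔓) (hmem : ev t m ∈ 𝔓.asIdeal) :
    𝔓.asIdeal = RingHom.ker ψ := by
  symm
  refine (ker_max hQ hm hψ).eq_of_le 𝔓.isPrime.ne_top fun z hz => ?_
  obtain ⟨p, rfl⟩ := ev_surj (K := K) hI h hsq ht z
  rw [RingHom.mem_ker, hψ, AdjoinRoot.mk_eq_zero] at hz
  exact mem_of_dvd hov hmem hz

/-- a prime over `Q` -/
theorem mem_or {t : O} (h : IsGen g K f θ) (ht : algebraMap O L t = θ) {Q : k[X]}
    {hQ' : k[X][X]} (hcg : Cg Q f (X * hQ')) {𝔓 : HeightOneSpectrum O} (hov : Ov Q 𝔓) :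
    t ∈ 𝔓.asIdeal ∨ ev t hQ' ∈ 𝔓.asIdeal := by
  have h1 : ev t (X * hQ') ∈ 𝔓.asIdeal := by
    refine mem_of_dvd (m := f) hov ?_ ?_
    · rw [ev_f h ht]
      exact 𝔓.asIdeal.zero_mem
    · rw [map_eq_of_cg hcg]
  rw [map_mul] at h1
  have h2 : ev (k := k) t X = t := by simp [ev]
  rw [h2] at h1
  exact 𝔓.isPrime.mem_or_mem h1

theorem ev_X (t : O) : ev (k := k) t X = t := by simp [ev]

theorem val_one {𝔓 : HeightOneSpectrum O} {a : O} (ha0 : a ≠ 0) (h1 : a ∈ 𝔓.asIdeal)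
    (h2 : a ∉ 𝔓.asIdeal ^ 2) : 𝔓.valuation L (algebraMap O L a) = exp (-1 : ℤ) := by
  rw [HeightOneSpectrum.valuation_of_algebraMap]
  have h1 : 𝔓.intValuation a ≤ exp (-((1 : ℕ) : ℤ)) :=
    (𝔓.intValuation_le_pow_iff_mem _ 1).mpr (by rw [pow_one]; exact h1)
  have h2 : ¬ 𝔓.intValuation a ≤ exp (-((2 : ℕ) : ℤ)) := fun h =>
    h2 ((𝔓.intValuation_le_pow_iff_mem _ 2).mp h)
  have h3 := 𝔓.intValuation_ne_zero _ ha0
  rw [← exp_log h3] at h1 h2 ⊢
  rw [exp_le_exp] at h1 h2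
  rw [exp_inj]
  push_cast at h1 h2
  omega

end main

/-- the reduction of `h Q` -/
theorem hbar {k : Type} [Field k] {g : ℕ} {S : Finset k[X]} {h : k[X] → k[X][X]}
    (hS : GoodSA g S h) {Q : k[X]} (hQ : Q ∈ S) (hg : 1 ≤ g) :
    ((h Q).map (rd Q)).natDegree = 2 * g ∧ ¬ (h Q).map (rd Q) ∣ X := by
  obtain ⟨h1, h2, h3, h4, h5, h6⟩ := hS Q hQ
  have hmax : (Ideal.span {Q} : Ideal k[X]).IsMaximal :=
    PrincipalIdealRing.isMaximal_of_irreducible h2
  let i1 : Field (k[X] ⧸ Ideal.span {Q}) := Ideal.Quotient.field _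
  have h7 : ((h Q).map (rd Q)).natDegree = 2 * g := by
    rw [h3.natDegree_map, h4]
  refine ⟨h7, fun hd => ?_⟩
  have h8 : ((h Q).map (rd Q)).natDegree ≤ (X : (k[X] ⧸ Ideal.span {Q})[X]).natDegree :=
    natDegree_le_of_dvd hd X_ne_zero
  rw [h7, natDegree_X] at h8
  omega

theorem irrX {k : Type} [Field k] {Q : k[X]} (hQ : Irreducible Q) :
    Irreducible ((X : k[X][X]).map (rd Q)) := by
  have hmax : (Ideal.span {Q} : Ideal k[X]).IsMaximal :=
    PrincipalIdealRing.isMaximal_of_irreducible hQ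
  let i1 : Field (k[X] ⧸ Ideal.span {Q}) := Ideal.Quotient.field _
  rw [Polynomial.map_X]
  exact irreducible_X

/-- **EXQ.** -/
theorem exq (hI : S_INT) : S_EXQA := by
  intro g k K L O _ _ _ _ _ _ _ _ _ _ _ _ _ _ _ _ f θ S h hg hG hsq hS Q hQS hcg
  obtain ⟨hQm, hQ, hm, hdeg, -, hirr⟩ := hS Q hQS
  obtain ⟨hbd, hbX⟩ := hbar hS hQS hg
  obtain ⟨t, ht⟩ := theta_ex O hG
  have hfb : f.map (rd Q) = X * (h Q).map (rd Q) := by
    rw [map_eq_of_cg hcg, Polynomial.map_mul, Polynomial.map_X]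
  have hQ0 : algebraMap k[X] O Q ≠ 0 := by
    intro h0
    exact hQ.ne_zero (injO K L O (by rw [h0, map_zero]))
  obtain ⟨ψ₁, hψ₁⟩ := ex_psi (K := K) hI hG hsq ht Q ((X : k[X][X]).map (rd Q))
    (by rw [hfb, Polynomial.map_X]; exact Dvd.intro _ rfl)
  obtain ⟨ψ₂, hψ₂⟩ := ex_psi (K := K) hI hG hsq ht Q ((h Q).map (rd Q))
    (by rw [hfb]; exact ⟨X, X_mul⟩)
  have hirX := irrX hQ
  have hm1 := ker_max hQ hirX hψ₁
  have hm2 := ker_max hQ hirr hψ₂
  have hrdQ : (C Q : k[X][X]).map (rd Q) = 0 := by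
    rw [Polynomial.map_C]
    have : rd Q Q = 0 := Ideal.Quotient.eq_zero_iff_mem.2 (Ideal.mem_span_singleton_self Q)
    rw [this, C_0]
  have hevC : ev t (C Q) = algebraMap k[X] O Q := by simp [ev]
  have q1 : algebraMap k[X] O Q ∈ RingHom.ker ψ₁ := by
    rw [RingHom.mem_ker, ← hevC, hψ₁, hrdQ, map_zero]
  have q2 : algebraMap k[X] O Q ∈ RingHom.ker ψ₂ := by
    rw [RingHom.mem_ker, ← hevC, hψ₂, hrdQ, map_zero]
  have hb1 : RingHom.ker ψ₁ ≠ ⊥ := fun h0 => hQ0 (by rwa [h0, Ideal.mem_bot] at q1)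
  have hb2 : RingHom.ker ψ₂ ≠ ⊥ := fun h0 => hQ0 (by rwa [h0, Ideal.mem_bot] at q2)
  let 𝔓₁ : HeightOneSpectrum O := ⟨RingHom.ker ψ₁, hm1.isPrime, hb1⟩
  let 𝔮 : HeightOneSpectrum O := ⟨RingHom.ker ψ₂, hm2.isPrime, hb2⟩
  have ov1 : Ov Q 𝔓₁ := q1
  have ov2 : Ov Q 𝔮 := q2
  have ht1 : t ∈ 𝔓₁.asIdeal := by
    show t ∈ RingHom.ker ψ₁
    rw [RingHom.mem_ker, ← ev_X (k := k) t, hψ₁]
    exact AdjoinRoot.mk_eq_zero.2 dvd_rfl
  have ht2 : t ∉ 𝔮.asIdeal := by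
    show t ∉ RingHom.ker ψ₂
    rw [RingHom.mem_ker, ← ev_X (k := k) t, hψ₂, AdjoinRoot.mk_eq_zero, Polynomial.map_X]
    exact hbX
  have hprod : 𝔓₁.asIdeal * 𝔮.asIdeal ≤ Ideal.span {algebraMap k[X] O Q} := by
    rw [Ideal.mul_le]
    intro x hx y hy
    obtain ⟨p, rfl⟩ := ev_surj (K := K) hI hG hsq ht x
    obtain ⟨p', rfl⟩ := ev_surj (K := K) hI hG hsq ht y
    change ev t p ∈ RingHom.ker ψ₁ at hx
    change ev t p' ∈ RingHom.ker ψ₂ at hy
    rw [RingHom.mem_ker, hψ₁, AdjoinRoot.mk_eq_zero, Polynomial.map_X] at hx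
    rw [RingHom.mem_ker, hψ₂, AdjoinRoot.mk_eq_zero] at hy
    rw [← map_mul]
    refine mem_of_dvd (m := f) (Ideal.mem_span_singleton_self _) ?_ ?_
    · rw [ev_f hG ht]
      exact Ideal.zero_mem _
    · rw [hfb, Polynomial.map_mul]
      exact mul_dvd_mul hx hy
  have hvt : 𝔮.valuation L θ = 1 := by
    rw [← ht]
    exact 𝔮.valuation_eq_one_iff_notMem.mpr ht2
  refine ⟨𝔓₁, 𝔮, ov1, ov2, ?_, hvt, ?_, ?_, ?_⟩
  · rw [← ht]
    exact (𝔓₁.valuation_lt_one_iff_mem _).mpr ht1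
  · rw [IsScalarTower.algebraMap_apply k[X] O L]
    refine val_one hQ0 ov1 fun hmem => ?_
    have h1 : 𝔓₁.asIdeal * 𝔮.asIdeal ≤ 𝔓₁.asIdeal ^ 2 :=
      hprod.trans ((Ideal.span_singleton_le_iff_mem _).mpr hmem)
    rw [← Ideal.dvd_iff_le, sq] at h1
    have h2 : 𝔓₁.asIdeal ∣ 𝔮.asIdeal := (mul_dvd_mul_iff_left (a := 𝔓₁.asIdeal) hb1).mp h1
    rw [Ideal.dvd_iff_le] at h2
    have h3 := hm2.eq_of_le 𝔓₁.isPrime.ne_top h2
    apply ht2
    show t ∈ RingHom.ker ψ₂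
    rw [h3]
    exact ht1
  · rw [IsScalarTower.algebraMap_apply k[X] O L]
    refine val_one hQ0 ov2 fun hmem => ?_
    have h1 : 𝔓₁.asIdeal * 𝔮.asIdeal ≤ 𝔮.asIdeal ^ 2 :=
      hprod.trans ((Ideal.span_singleton_le_iff_mem _).mpr hmem)
    rw [← Ideal.dvd_iff_le, sq] at h1
    have h2 : 𝔮.asIdeal ∣ 𝔓₁.asIdeal := (mul_dvd_mul_iff_right (a := 𝔮.asIdeal) hb2).mp h1
    rw [Ideal.dvd_iff_le] at h2
    exact ht2 (h2 ht1)
  · intro 𝔓 hov
    rcases mem_or hG ht hcg hov with hmm | hmm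
    · left
      apply HeightOneSpectrum.ext
      exact eq_ker (K := K) hI hG hsq ht hQ hirX hψ₁ hov (by rw [ev_X]; exact hmm)
    · right
      apply HeightOneSpectrum.ext
      exact eq_ker (K := K) hI hG hsq ht hQ hirr hψ₂ hov hmm

/-- **CSQ.** -/
theorem csq (hI : S_INT) : S_CSQA := by
  intro g k K L O _ _ _ _ _ _ _ _ _ _ _ _ _ _ _ _ f θ S h hg hG hsq hS Q hQS hcg 𝔮 hov hv
  obtain ⟨hQm, hQ, hm, hdeg, -, hirr⟩ := hS Q hQS
  obtain ⟨hbd, hbX⟩ := hbar hS hQS hg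
  obtain ⟨t, ht⟩ := theta_ex O hG
  have hfb : f.map (rd Q) = X * (h Q).map (rd Q) := by
    rw [map_eq_of_cg hcg, Polynomial.map_mul, Polynomial.map_X]
  obtain ⟨ψ, hψ⟩ := ex_psi (K := K) hI hG hsq ht Q ((h Q).map (rd Q))
    (by rw [hfb]; exact ⟨X, X_mul⟩)
  have htn : t ∉ 𝔮.asIdeal := by
    rw [← ht] at hv
    exact 𝔮.valuation_eq_one_iff_notMem.mp hv
  have hker : 𝔮.asIdeal = RingHom.ker ψ :=
    eq_ker (K := K) hI hG hsq ht hQ hirr hψ hov ((mem_or hG ht hcg hov).resolve_left htn)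
  obtain ⟨c1, c2, c3, c4⟩ := card_adj hQ hirr
  have hmax : (Ideal.span {Q} : Ideal k[X]).IsMaximal :=
    PrincipalIdealRing.isMaximal_of_irreducible hQ
  let i1 : Field (k[X] ⧸ Ideal.span {Q}) := Ideal.Quotient.field _
  have i2 : Fact (Irreducible ((h Q).map (rd Q))) := ⟨hirr⟩
  constructor
  · intro c hc
    have hc0 : rd Q c ≠ 0 := fun h0 =>
      hc (Ideal.mem_span_singleton.1 (Ideal.Quotient.eq_zero_iff_mem.1 h0))
    have hsq' : IsSquare (AdjoinRoot.of ((h Q).map (rd Q)) (rd Q c)) :=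
      sq_even (AdjoinRoot.of ((h Q).map (rd Q))) (g := g) (by rw [c1, hbd]) _ hc0
    obtain ⟨a, ha⟩ := hsq'
    obtain ⟨z, rfl⟩ := psi_surj hψ a
    have hev : ev t (C c) = algebraMap k[X] O c := by simp [ev]
    have h1 : ψ (algebraMap k[X] O c - z ^ 2) = 0 := by
      rw [map_sub, map_pow, ← hev, hψ, Polynomial.map_C, AdjoinRoot.mk_C, ha]
      ring
    have h2 : algebraMap k[X] O c - z ^ 2 ∈ 𝔮.asIdeal := by
      rw [hker]; exact h1
    have h3 : algebraMap k[X] O c ∉ 𝔮.asIdeal := fun h4 => hc ((ov_iff hQ hov c).1 h4)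
    refine ⟨algebraMap O L z, ?_⟩
    rw [IsScalarTower.algebraMap_apply k[X] O L, ← map_pow, ← map_sub,
      𝔮.valuation_eq_one_iff_notMem.mpr h3]
    exact (𝔮.valuation_lt_one_iff_mem _).mpr h2
  · rw [hker, Nat.card_congr (RingHom.quotientKerEquivOfSurjective (psi_surj hψ)).toEquiv, c1, c2,
      hbd, ← pow_mul]
    congr 1
    ring

end Pool.Agent.H859.N765.PJ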