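import Pool.Agent.H859.SC.N352PJIdx
import Pool.Graph.R_pool_sql_team_seeded_63374d34.N765.PJ.TV
import Pool.Agent.H859.SC.N765PJExq

/-!
# Local squares give a distinguished vector modulo `Q` (project PJ of helper352)

By helper765, after helper134's `Pool/Agent/N134/PP/TTV.lean`.
-/

set_option autoImplicit false
set_option linter.all false

open Polynomial IsDedekindDomain WithZero
open scoped Classical

namespace Pool.Agent.H859.N765.PJ
open Pool.Agent.N765.PJ Pool.Agent.H859.PJ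
open Pool.Agent.N352.PJ
open Pool.Agent.N874.PP (Ov Ev Sq1 U0)

section main

variable {k K L O : Type} [Field k] [Field K] [Algebra k[X] K] [IsFractionRing k[X] K]
  [Field L] [Algebra K L] [Algebra k[X] L] [IsScalarTower k[X] K L] [CommRing O]
  [IsDedekindDomain O] [Algebra O L] [IsFractionRing O L] [Algebra k[X] O]
  [IsScalarTower k[X] O L] [IsIntegralClosure O k[X] L] {g : ℕ} {f : k[X][X]} {θ : L}

/-- the lattice -/
def InI (g : ℕ) (k : Type) {L : Type} [Field k] [Field L] [Algebra k[X] L]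
    (e : Fin (2 * g + 1) → L) (α y : L) : Prop := ∀ i, IsIntegral k[X] (e i * y / α)

theorem InI.add {e : Fin (2 * g + 1) → L} {α x y : L} (hx : InI g k e α x) (hy : InI g k e α y) :
    InI g k e α (x + y) := fun i => by
  have := (hx i).add (hy i)
  rwa [← add_div, ← mul_add] at this

theorem InI.mul {e : Fin (2 * g + 1) → L} {α x c : L} (hc : IsIntegral k[X] c)
    (hx : InI g k e α x) : InI g k e α (c * x) := fun i => by
  have := hc.mul (hx i)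
  have e1 : c * (e i * x / α) = e i * (c * x) / α := by ring
  rwa [e1] at this

theorem InI.prod {e : Fin (2 * g + 1) → L} {α x y : L} (hSD : SDn g k K e α)
    (hx : InI g k e α x) (hy : InI g k e α y) : IsIntegral k[X] (x * y / α) := by
  obtain ⟨c, hc⟩ := hSD.dual x hx
  have e1 : x * y / α = ∑ j, algebraMap k[X] L (c j) * (e j * y / α) := by
    rw [hc, Finset.sum_mul, Finset.sum_div]
    exact Finset.sum_congr rfl fun j _ => by ring
  rw [e1]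
  exact IsIntegral.sum _ fun j _ => isIntegral_algebraMap.mul (hy j)

/-- an element of the lattice which is good at `𝔓` -/
theorem stepA {e : Fin (2 * g + 1) → L} {α : L} (hα : α ≠ 0) (hSD : SDn g k K e α)
    {𝔓 : HeightOneSpectrum O} (hs : Sq1 𝔓 α) :
    ∃ (y : L) (t u : O), InI g k e α y ∧ t ∉ 𝔓.asIdeal ∧ algebraMap O L u = y * y / α ∧
      u - t ^ 2 ∈ 𝔓.asIdeal := by
  obtain ⟨s, hs⟩ := hs
  have hvα : 𝔓.valuation L α ≠ 0 := (Valuation.ne_zero_iff _).2 hα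
  have hvs : 𝔓.valuation L (s ^ 2) = 𝔓.valuation L α := by
    have h1 : s ^ 2 = α - (α - s ^ 2) := by ring
    rw [h1]
    exact Valuation.map_sub_eq_of_lt_left _ hs
  have hvs' : 𝔓.valuation L (s ^ 2 / α) = 1 := by
    rw [map_div₀, hvs, div_self hvα]
  have hint : ∀ i, 𝔓.valuation L (e i * s / α) ≤ 1 := by
    intro i
    have h1 : 𝔓.valuation L (e i * e i / α) ≤ 1 := by
      obtain ⟨z, hz⟩ := (int_iff (k := k) O _).1 (hSD.int i i)
      rw [← hz]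
      exact 𝔓.valuation_le_one z
    have h2 : 𝔓.valuation L (e i * s / α) ^ 2 ≤ 1 := by
      rw [← map_pow]
      have h3 : (e i * s / α) ^ 2 = (e i * e i / α) * (s ^ 2 / α) := by
        field_simp
      rw [h3, map_mul, hvs', mul_one]
      exact h1
    exact (pow_le_one_iff two_ne_zero).1 h2
  choose n d hnd using fun i => 𝔓.exists_primeCompl_mul_eq_of_integer (e i * s / α) (hint i)
  have hd : ∀ i, ((d i : O) : O) ∉ 𝔓.asIdeal := fun i => (d i).2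
  obtain ⟨t, ht⟩ : ∃ t : O, t = ∏ i, (d i : O) := ⟨_, rfl⟩
  have htn : t ∉ 𝔓.asIdeal := by
    rw [ht]
    intro hmem
    obtain ⟨i, -, hi⟩ := (Ideal.IsPrime.prod_mem_iff (hp := 𝔓.isPrime)).1 hmem
    exact hd i hi
  have hy : InI g k e α (s * algebraMap O L t) := by
    intro i
    have h1 : e i * (s * algebraMap O L t) / α =
        algebraMap O L (n i * ∏ j ∈ Finset.univ.erase i, (d j : O)) := by
      rw [ht, ← Finset.mul_prod_erase _ _ (Finset.mem_univ i), map_mul, map_mul, ← hnd i]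
      ring
    rw [h1]
    exact (int_iff (k := k) O _).2 ⟨_, rfl⟩
  obtain ⟨u, hu⟩ := (int_iff (k := k) O _).1 (hy.prod hSD hy)
  refine ⟨_, t, u, hy, htn, hu, ?_⟩
  apply (𝔓.valuation_lt_one_iff_mem (K := L) _).1
  change 𝔓.valuation L (algebraMap O L (u - t ^ 2)) < 1
  have h1 : algebraMap O L (u - t ^ 2) = - ((algebraMap O L t) ^ 2 * ((α - s ^ 2) / α)) := by
    rw [map_sub, map_pow, hu]
    field_simp
    ring
  rw [h1, Valuation.map_neg, map_mul, map_pow, map_div₀]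
  have h2 : 𝔓.valuation L (α - s ^ 2) / 𝔓.valuation L α < 1 :=
    (div_lt_one₀ (zero_lt_iff.2 hvα)).2 hs
  calc _ ≤ 1 * (𝔓.valuation L (α - s ^ 2) / 𝔓.valuation L α) :=
        mul_le_mul_left (pow_le_one₀ zero_le (𝔓.valuation_le_one t)) _
    _ < 1 := by rw [one_mul]; exact h2

/-- an element of the lattice which is good at `𝔓` and small at `𝔓'` -/
theorem stepB {e : Fin (2 * g + 1) → L} {α : L} (hα : α ≠ 0) (hSD : SDn g k K e α)
    {𝔓 𝔓' : HeightOneSpectrum O} (hs : Sq1 𝔓 α) (hne : ∃ p ∈ 𝔓'.asIdeal, p ∉ 𝔓.asIdeal) :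
    ∃ (x : L) (u : O), InI g k e α x ∧ algebraMap O L u = x * x / α ∧
      u - 1 ∈ 𝔓.asIdeal ∧ u ∈ 𝔓'.asIdeal := by
  obtain ⟨y, t, u, hy, ht, hu, hut⟩ := stepA hα hSD hs
  obtain ⟨p, hp', hp⟩ := hne
  have hmax : 𝔓.asIdeal.IsMaximal := 𝔓.isMaximal
  have htp : t * p ∉ 𝔓.asIdeal := fun h => (𝔓.isPrime.mem_or_mem h).elim ht hp
  obtain ⟨c, i, hi, hci⟩ := hmax.exists_inv htp
  obtain ⟨ε, hε⟩ : ∃ ε, ε = c * p := ⟨_, rfl⟩
  have hεt : ε * t - 1 ∈ 𝔓.asIdeal := by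
    have : ε * t - 1 = -i := by rw [hε, ← hci]; ring
    rw [this]
    exact 𝔓.asIdeal.neg_mem hi
  refine ⟨algebraMap O L ε * y, ε ^ 2 * u, hy.mul ((int_iff (k := k) O _).2 ⟨_, rfl⟩), ?_, ?_, ?_⟩
  · rw [map_mul, map_pow, hu]
    ring
  · have h1 : ε ^ 2 * u - 1 = ε ^ 2 * (u - t ^ 2) + (ε * t + 1) * (ε * t - 1) := by ring
    rw [h1]
    exact 𝔓.asIdeal.add_mem (𝔓.asIdeal.mul_mem_left _ hut) (𝔓.asIdeal.mul_mem_left _ hεt)
  · rw [hε, mul_pow, mul_assoc]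
    refine 𝔓'.asIdeal.mul_mem_left _ (𝔓'.asIdeal.mul_mem_right _ ?_)
    exact Ideal.pow_mem_of_mem _ hp' 2 two_pos

end main

/-- **TV.** -/
theorem tv (hI : S_INT) : S_TVA := by
  intro g k K L O _ _ _ _ _ _ _ _ _ _ _ _ _ _ _ _ f θ S h hg hG hsq hS α e hα hSD Q hQS hcg hSq
  obtain ⟨hQm, hQ, hm, hdeg, -, hirr⟩ := hS Q hQS
  obtain ⟨hbd, hbX⟩ := hbar hS hQS hg
  obtain ⟨𝔓, 𝔮, ov1, ov2, hv1, hv2, -, -, -⟩ :=
    exq hI g k K L O f θ S h hg hG hsq hS Q hQS hcg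
  obtain ⟨t, ht⟩ := theta_ex O hG
  have hfb : f.map (rd Q) = X * (h Q).map (rd Q) := by
    rw [map_eq_of_cg hcg, Polynomial.map_mul, Polynomial.map_X]
  obtain ⟨ψ₁, hψ₁⟩ := ex_psi (K := K) hI hG hsq ht Q ((X : k[X][X]).map (rd Q))
    (by rw [hfb, Polynomial.map_X]; exact Dvd.intro _ rfl)
  obtain ⟨ψ₂, hψ₂⟩ := ex_psi (K := K) hI hG hsq ht Q ((h Q).map (rd Q))
    (by rw [hfb]; exact ⟨X, X_mul⟩)
  have ht1 : t ∈ 𝔓.asIdeal := by
    rw [← ht] at hv1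
    exact (𝔓.valuation_lt_one_iff_mem _).1 hv1
  have ht2 : t ∉ 𝔮.asIdeal := by
    rw [← ht] at hv2
    exact 𝔮.valuation_eq_one_iff_notMem.mp hv2
  have hk1 : 𝔓.asIdeal = RingHom.ker ψ₁ :=
    eq_ker (K := K) hI hG hsq ht hQ (irrX hQ) hψ₁ ov1 (by rw [ev_X]; exact ht1)
  have hk2 : 𝔮.asIdeal = RingHom.ker ψ₂ :=
    eq_ker (K := K) hI hG hsq ht hQ hirr hψ₂ ov2 ((mem_or hG ht hcg ov2).resolve_left ht2)
  have hh2 : ev t (h Q) ∈ 𝔮.asIdeal := (mem_or hG ht hcg ov2).resolve_left ht2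
  have hh1 : ev t (h Q) ∉ 𝔓.asIdeal := by
    rw [hk1]
    intro hmem
    rw [RingHom.mem_ker, hψ₁, AdjoinRoot.mk_eq_zero] at hmem
    have hmax : (Ideal.span {Q} : Ideal k[X]).IsMaximal :=
      PrincipalIdealRing.isMaximal_of_irreducible hQ
    let i1 : Field (k[X] ⧸ Ideal.span {Q}) := Ideal.Quotient.field _
    have hass := (irrX hQ).associated_of_dvd hirr hmem
    apply hbX
    have := hass.symm.dvd
    rwa [Polynomial.map_X] at this
  obtain ⟨x₁, g₁, hx₁, hg₁, hg₁P, hg₁q⟩ := stepB hα hSD (hSq 𝔓 ov1) ⟨_, hh2, hh1⟩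
  obtain ⟨x₂, g₂, hx₂, hg₂, hg₂q, hg₂P⟩ := stepB hα hSD (hSq 𝔮 ov2) ⟨_, ht1, ht2⟩
  obtain ⟨hh, hhh⟩ := (int_iff (k := k) O _).1 (hx₁.prod hSD hx₂)
  have hsqh : hh ^ 2 = g₁ * g₂ := by
    apply IsFractionRing.injective O L
    rw [map_pow, map_mul, hhh, hg₁, hg₂]
    field_simp
  have hhP : hh ∈ 𝔓.asIdeal := by
    apply 𝔓.isPrime.mem_of_pow_mem 2
    rw [hsqh]
    exact 𝔓.asIdeal.mul_mem_left _ hg₂P
  have hhq : hh ∈ 𝔮.asIdeal := by
    apply 𝔮.isPrime.mem_of_pow_mem 2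
    rw [hsqh]
    exact 𝔮.asIdeal.mul_mem_right _ hg₁q
  obtain ⟨ξ, hξ⟩ := hSD.dual _ (hx₁.add hx₂)
  obtain ⟨z, hz⟩ : ∃ z : O, z = g₁ + 2 * hh + g₂ := ⟨_, rfl⟩
  have hzL : algebraMap O L z = (x₁ + x₂) ^ 2 / α := by
    rw [hz]
    simp only [map_add, map_mul, hg₁, hg₂, hhh, map_ofNat]
    ring
  obtain ⟨v, hvz⟩ := (hI g k K L f θ hG hsq _).1 ((int_iff (k := k) O _).2 ⟨z, rfl⟩)
  obtain ⟨p, hp1, hp2, hp3⟩ := crd_poly ht hvz
  have hzP : z - 1 ∈ 𝔓.asIdeal := by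
    have e1 : z - 1 = (g₁ - 1) + 2 * hh + g₂ := by rw [hz]; ring
    rw [e1]
    exact 𝔓.asIdeal.add_mem (𝔓.asIdeal.add_mem hg₁P (𝔓.asIdeal.mul_mem_left _ hhP)) hg₂P
  have hzq : z - 1 ∈ 𝔮.asIdeal := by
    have e1 : z - 1 = g₁ + 2 * hh + (g₂ - 1) := by rw [hz]; ring
    rw [e1]
    exact 𝔮.asIdeal.add_mem (𝔮.asIdeal.add_mem hg₁q (𝔮.asIdeal.mul_mem_left _ hhq)) hg₂q
  have hev1 : ev t (p - 1) = z - 1 := by rw [map_sub, map_one, hp2]
  rw [← hev1, hk1, RingHom.mem_ker, hψ₁, AdjoinRoot.mk_eq_zero, Polynomial.map_X] at hzP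
  rw [← hev1, hk2, RingHom.mem_ker, hψ₂, AdjoinRoot.mk_eq_zero] at hzq
  have hzero : (p - 1).map (rd Q) = 0 := by
    have hmax : (Ideal.span {Q} : Ideal k[X]).IsMaximal :=
      PrincipalIdealRing.isMaximal_of_irreducible hQ
    let i1 : Field (k[X] ⧸ Ideal.span {Q}) := Ideal.Quotient.field _
    have hcop : IsCoprime (X : (k[X] ⧸ Ideal.span {Q})[X]) ((h Q).map (rd Q)) := by
      rw [irreducible_X.coprime_iff_not_dvd]
      intro hd
      exact hbX (irreducible_X.associated_of_dvd hirr hd).symm.dvd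
    have hdvd := hcop.mul_dvd hzP hzq
    by_contra hne
    have hdeg2 := degree_le_of_dvd hdvd hne
    have h1 : (X * (h Q).map (rd Q) : (k[X] ⧸ Ideal.span {Q})[X]).degree =
        ((2 * g + 1 : ℕ) : WithBot ℕ) := by
      rw [degree_mul, degree_X, degree_eq_natDegree hirr.ne_zero, hbd]
      norm_cast
      ring
    rw [h1] at hdeg2
    have h2 : ((p - 1).map (rd Q)).degree < ((2 * g + 1 : ℕ) : WithBot ℕ) := by
      refine (degree_map_le).trans_lt ?_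
      refine (degree_sub_le _ _).trans_lt (max_lt hp1 ?_)
      refine degree_one_le.trans_lt ?_
      exact_mod_cast Nat.succ_pos _
    exact absurd hdeg2 (not_le.2 h2)
  refine ⟨ξ, 1, v, fun hd => hQ.not_isUnit (isUnit_of_dvd_one hd), fun i => ?_, ?_⟩
  · have h1 := coeff_rd hzero i
    rw [coeff_sub, coeff_one, hp3] at h1
    simpa using h1
  · rw [← hξ, ← hzL]
    exact hvz

end Pool.Agent.H859.N765.PJ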