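import Pool.Agent.H859.SC.N352PJIdx
import Pool.Graph.R_pool_sql_team_seeded_63374d34.N874.JM.Par
import Pool.Agent.H859.SC.N874JMFld
import Pool.Graph.R_pool_sql_team_seeded_63374d34.N874.PM.Final0
import Pool.Graph.R_pool_sql_team_seeded_63374d34.N507.JM.Loc2
import Pool.Graph.R_pool_sql_team_seeded_63374d34.N123.JM.Loc1
import Pool.Agent.H859.SC.N615JMTch
import Pool.Graph.R_pool_sql_team_seeded_63374d34.N738.JM.P3
import Pool.Graph.R_pool_sql_team_seeded_63374d34.N301.JM.QS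
import Pool.Graph.R_pool_sql_team_seeded_63374d34.N301.JM.TOW
import Pool.Graph.R_pool_sql_team_seeded_63374d34.N814.JM.Cpl
import Pool.Agent.H859.SC.N270PJBad
import Pool.Graph.R_pool_sql_team_seeded_63374d34.N87.PJ.CQ
import Pool.Graph.R_pool_sql_team_seeded_63374d34.N697.PJ.ON
import Pool.Agent.H859.SC.N415PJBOX
import Pool.Agent.H859.SC.N50PJOrb
import Pool.Agent.H859.SC.N401PJExp
import Pool.Graph.R_pool_sql_team_seeded_63374d34.N769.PJ.Int
import Pool.Graph.R_pool_sql_team_seeded_63374d34.N769.PJ.Eq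
import Pool.Graph.R_pool_sql_team_seeded_63374d34.N588.PJ.SD
import Pool.Agent.H859.SC.N765PJTV
import Pool.Agent.H859.SC.N765PJExq
import Pool.Graph.R_pool_sql_team_seeded_63374d34.N50.PJ.Red
import Pool.Agent.H859.SC.N415PJWT
import Pool.Graph.R_pool_sql_team_seeded_63374d34.N572.PJ.NRM
import Pool.Graph.R_pool_sql_team_seeded_63374d34.N262.PJ.Chi
import Pool.Graph.R_pool_sql_team_seeded_63374d34.N262.PJ.Uni
import Pool.Graph.R_pool_sql_team_seeded_63374d34.N434.PJ.GAPSQ
import Pool.Agent.H859.SC.N227PJLB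
import Pool.Agent.H859.SC.N227PJPar
import Pool.Agent.H859.SC.N227PJNs
import Pool.Graph.R_pool_sql_team_seeded_63374d34.N787.PJ.Ext
import Pool.Graph.R_pool_sql_team_seeded_63374d34.N427.PJ.E1
import Pool.Graph.R_pool_sql_team_seeded_63374d34.N434.PJ.B1
import Pool.Graph.R_pool_sql_team_seeded_63374d34.N195.PJ.E2
import Pool.Graph.R_pool_sql_team_seeded_63374d34.N434.PJ.HP
import Pool.Graph.R_pool_sql_team_seeded_63374d34.N738.PJ.Lat
import Pool.Agent.H859.SC.N227PJIdx
import Pool.Agent.H859.SC.N655PJGl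
import Pool.Agent.H859.SC.N622PJRec
import Pool.Agent.H859.SC.N134PJIrk

/-!
# All the parts of project JM

Project JM (helper874).
-/

set_option autoImplicit false
set_option linter.all false

open Polynomial IsDedekindDomain
open Pool.Agent.N352.PJ

namespace Pool.Agent.H859.N874.JM
open Pool.Agent.N874.JM Pool.Agent.H859.PJ
theorem parts : PartsA := by
  have hINT : S_INT := N769.PJ.int
  have hEXQ : S_EXQA := N765.PJ.exq hINT
  have hCSQ : S_CSQA := N765.PJ.csq hINT
  have hEXT : S_EXT := N787.PJ.ext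
  have hCPL : Pool.Agent.N874.JM.S_CPL := N814.JM.cpl
  have hGL : S_GLA := N655.PJ.gl hINT (N588.PJ.lti hINT) N50.PJ.red N415.PJWT.wt N415.PJWT.nw
    N262.PJ.det (N227.PJ.idx hINT hEXQ) N738.PJ.lat hEXQ
  exact
    { cls := N539.PP.cls
      lin := N498.PP.lin
      exq := hEXQ
      csq := hCSQ
      ns := N227.PJ.ns hINT hEXQ
      par := N227.PJ.par hINT
      parq := N227.PJ.parq hINT hEXQ
      recp := N622.PJ.recp hINT hEXQ hCSQ N434.PJ.pry hGL
      sd := N588.PJ.sd hINT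
      tv := N765.PJ.tv hINT
      lb := N227.PJ.lb hINT N50.PJ.red N415.PJWT.wt N415.PJWT.nw N572.PJ.nrm N262.PJ.chi
        N262.PJ.det (N262.PJ.uni hINT) N434.PJ.gap N434.PJ.sq
      irk := N134.PJ.irk
      ram := ram hINT
      ur := N603.PM.UR.ur
      spd := N169.PM.spd
      sig := N55.PM.sig
      lie := N55.PM.lie
      p3 := N738.JM.p3 hINT
      tow := N301.JM.tow'
      loc1 := N123.JM.loc1 N427.PJ.e1 hEXT hCPL
      loc2 := N507.JM.loc2 (N195.PJ.E2.e2 N434.PJ.b1) N769.PJ.eq hEXT hCPL }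

theorem bad : S_BADA := N270.PJ.bad (N415.PJBOX.box (N87.PJ.cq N697.PJ.on)) N415.PJBOX.box0
  N50.PJ.orb N401.PJ.exp_ineq

end Pool.Agent.H859.N874.JM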