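import Pool.Agent.H859.SC.N352PJIdx

/-!
# Minimal equations and the discriminant
-/

set_option autoImplicit false
set_option linter.all false

open Polynomial IsDedekindDomain
open scoped Classical

namespace Pool.Agent.H859.PJ
open Pool.Agent.N352.PJ

section

variable {k : Type} [Field k]

/-- There are no irreducible `P` and `c` with `P ^ (2 (n - j)) ∣ f(x + c)_j` for all
`j < n = 2 g + 1`. -/
def MiniA (g : ℕ) (f : k[X][X]) : Prop :=
  ∀ P c : k[X], Irreducible P →
    ¬ ∀ j < 2 * g + 1, P ^ (2 * (2 * g + 1 - j)) ∣ (f.comp (X + C c)).coeff j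

theorem der_deg {g : ℕ} {f : k[X][X]} (hd : f.natDegree = 2 * g + 1) :
    (derivative f).natDegree ≤ 2 * g := by
  refine (natDegree_derivative_le f).trans ?_
  rw [hd, Nat.add_sub_cancel]

theorem res_deg {R : Type} [CommRing R] (F G : R[X]) (m n : ℕ) (h : G.natDegree ≤ n)
    (hF : F.coeff m = 1) : resultant F G m n = resultant F G m G.natDegree := by
  obtain ⟨a, ha⟩ := Nat.exists_eq_add_of_le h
  rw [ha, resultant_add_right_deg _ _ _ _ _ le_rfl, hF, one_pow, one_mul]

theorem dsc_eq {g : ℕ} {f : k[X][X]} (hm : f.Monic) (hd : f.natDegree = 2 * g + 1) :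
    dsc g f = resultant f (derivative f) := by
  have h := der_deg hd
  unfold dsc
  rw [res_deg _ _ _ _ h (by rw [← hd]; exact hm), hd]

theorem dsc_taylor {g : ℕ} {f : k[X][X]} (hm : f.Monic) (hd : f.natDegree = 2 * g + 1) (c : k[X]) :
    dsc g (taylor c f) = dsc g f := by
  have hm1 : (taylor c f).Monic := hm.comp_X_add_C c
  have h1 : derivative (taylor c f) = taylor c (derivative f) := by
    simp only [taylor_apply, derivative_comp, derivative_add, derivative_X, derivative_C]
    simp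
  rw [dsc_eq hm hd, dsc_eq hm1 (by rw [natDegree_taylor, hd]),
    ← resultant_taylor f (derivative f) c, h1]

theorem der_scale {g : ℕ} {f : k[X][X]} (hd : f.natDegree = 2 * g + 1) (D : k[X]) :
    derivative (f.scaleRoots D) =
      C (D ^ (2 * g - (derivative f).natDegree)) * (derivative f).scaleRoots D := by
  ext1 j
  rw [coeff_C_mul, coeff_scaleRoots, coeff_derivative, coeff_scaleRoots, coeff_derivative, hd]
  by_cases hj : j ≤ (derivative f).natDegree
  · have h := der_deg hd
    have e : 2 * g + 1 - (j + 1) =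
        (2 * g - (derivative f).natDegree) + ((derivative f).natDegree - j) := by omega
    rw [e, pow_add]
    ring
  · have h0 : (derivative f).coeff j = 0 := coeff_eq_zero_of_natDegree_lt (by omega)
    rw [coeff_derivative] at h0
    have h1 : f.coeff (j + 1) * D ^ (2 * g + 1 - (j + 1)) * ((j : k[X]) + 1) =
        (f.coeff (j + 1) * ((j : k[X]) + 1)) * D ^ (2 * g + 1 - (j + 1)) := by ring
    rw [h1, h0]
    ring

theorem dsc_scale {g : ℕ} {f : k[X][X]} (hm : f.Monic) (hd : f.natDegree = 2 * g + 1) (D : k[X]) :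
    dsc g (f.scaleRoots D) = D ^ ((2 * g + 1) * (2 * g)) * dsc g f := by
  have h := der_deg hd
  unfold dsc
  rw [der_scale hd, resultant_C_mul_right]
  have h1 : resultant (f.scaleRoots D) ((derivative f).scaleRoots D) (2 * g + 1) (2 * g) =
      D ^ ((2 * g + 1) * (derivative f).natDegree) * resultant f (derivative f) (2 * g + 1) (2 * g) := by
    have h2 : (f.scaleRoots D).coeff (2 * g + 1) = 1 := by
      rw [← hd, coeff_scaleRoots_natDegree]; exact hm
    have h3 : f.coeff (2 * g + 1) = 1 := by rw [← hd]; exact hm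
    have h4 := resultant_scaleRoots f (derivative f) D
    rw [natDegree_scaleRoots, hd] at h4
    rw [res_deg _ _ _ _ (by rw [natDegree_scaleRoots]; exact h) h2, res_deg _ _ _ _ h h3, h4]
  rw [h1, ← mul_assoc, ← pow_mul, ← pow_add]
  congr 2
  obtain ⟨a, ha⟩ := Nat.exists_eq_add_of_le h
  rw [ha, Nat.add_sub_cancel_left]
  ring

theorem exists_unscale {n : ℕ} {F : k[X][X]} (hm : F.Monic) (hd : F.natDegree = n) {D : k[X]}
    (h : ∀ j < n, D ^ (n - j) ∣ F.coeff j) :
    ∃ F₂ : k[X][X], F₂.Monic ∧ F₂.natDegree = n ∧ F = F₂.scaleRoots D := by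
  choose! a ha using h
  set P : k[X][X] := ∑ i ∈ Finset.range n, C (a i) * X ^ i with hP
  have hPd : P.degree < (n : WithBot ℕ) := by
    rw [hP]
    refine lt_of_le_of_lt (degree_sum_le _ _) ?_
    rw [Finset.sup_lt_iff (WithBot.bot_lt_coe _)]
    intro i hi
    refine lt_of_le_of_lt (degree_C_mul_X_pow_le _ _) ?_
    exact_mod_cast Finset.mem_range.mp hi
  have hPc : ∀ j < n, P.coeff j = a j := by
    intro j hj
    rw [hP, finset_sum_coeff, Finset.sum_eq_single j]
    · rw [coeff_C_mul_X_pow, if_pos rfl]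
    · intro i _ hi
      rw [coeff_C_mul_X_pow, if_neg hi.symm]
    · intro h
      exact absurd (Finset.mem_range.2 hj) h
  have hnd : (X ^ n + P).natDegree = n := by
    rw [natDegree_add_eq_left_of_degree_lt (by rw [degree_X_pow]; exact hPd), natDegree_X_pow]
  refine ⟨X ^ n + P, monic_X_pow_add hPd, hnd, ?_⟩
  ext1 j
  rw [coeff_scaleRoots, hnd, coeff_add, coeff_X_pow]
  rcases lt_trichotomy j n with hj | hj | hj
  · rw [if_neg hj.ne, zero_add, hPc j hj, ha j hj]
    ring
  · subst hj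
    have h1 : F.coeff j = 1 := by
      have := hm.coeff_natDegree
      rwa [hd] at this
    rw [h1, if_pos rfl, coeff_eq_zero_of_degree_lt hPd]
    simp
  · rw [coeff_eq_zero_of_natDegree_lt (by omega), if_neg hj.ne', coeff_eq_zero_of_degree_lt
      (hPd.trans (by exact_mod_cast hj))]
    simp

theorem mini_scale {g : ℕ} (hg : 1 ≤ g) {f : k[X][X]} (hm : f.Monic)
    (hd : f.natDegree = 2 * g + 1)
    (hs : Squarefree (dsc g f)) {D : k[X]} (hD : Squarefree D) : MiniA g (f.scaleRoots D) := by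
  intro P c hP h
  obtain ⟨D', hD1, hD2⟩ : ∃ D', D ∣ P * D' ∧ ¬ P ∣ D' := by
    by_cases hPD : P ∣ D
    · obtain ⟨D', rfl⟩ := hPD
      refine ⟨D', dvd_rfl, fun h' => hP.not_isUnit (hD P (mul_dvd_mul_left P h'))⟩
    · exact ⟨D, dvd_mul_left _ _, hPD⟩
  have hm1 : (f.scaleRoots D).Monic := (monic_scaleRoots_iff D).2 hm
  have hd1 : (f.scaleRoots D).natDegree = 2 * g + 1 := by rw [natDegree_scaleRoots, hd]
  have hm2 : (taylor c (f.scaleRoots D)).Monic := hm1.comp_X_add_C c
  have hd2 : (taylor c (f.scaleRoots D)).natDegree = 2 * g + 1 := by rw [natDegree_taylor, hd1]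
  obtain ⟨F₂, hm3, hd3, hF⟩ := exists_unscale (D := P ^ 2) hm2 hd2 (fun j hj => by
    rw [← pow_mul]
    exact h j hj)
  have e1 : dsc g (taylor c (f.scaleRoots D)) = D ^ ((2 * g + 1) * (2 * g)) * dsc g f := by
    rw [dsc_taylor hm1 hd1, dsc_scale hm hd]
  have e2 : dsc g (taylor c (f.scaleRoots D)) = (P ^ 2) ^ ((2 * g + 1) * (2 * g)) * dsc g F₂ := by
    rw [hF, dsc_scale hm3 hd3]
  set m := (2 * g + 1) * (2 * g) with hmdef
  have hm0 : 2 ≤ m := by
    rw [hmdef]
    nlinarith
  have h1 : P ^ m * P ^ m ∣ P ^ m * (D' ^ m * dsc g f) := by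
    have h2 : P ^ m * P ^ m ∣ D ^ m * dsc g f := by
      rw [← e1, e2, ← pow_mul, ← pow_add, ← two_mul]
      exact dvd_mul_right _ _
    refine h2.trans ?_
    rw [← mul_assoc, ← mul_pow]
    exact mul_dvd_mul (pow_dvd_pow_of_dvd hD1 m) dvd_rfl
  have h2 : P ^ m ∣ D' ^ m * dsc g f :=
    (mul_dvd_mul_iff_left (pow_ne_zero _ hP.ne_zero)).1 h1
  have hco : IsCoprime (P ^ m) (D' ^ m) := IsCoprime.pow ((hP.coprime_iff_not_dvd).2 hD2)
  have h3 : P ^ m ∣ dsc g f := hco.dvd_of_dvd_mul_left h2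
  have h4 : P * P ∣ dsc g f := by
    rw [← pow_two]
    exact (pow_dvd_pow P hm0).trans h3
  exact hP.not_isUnit (hs P h4)

end

end Pool.Agent.H859.PJ
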