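import Pool.Graph.R_pool_sql_team_seeded_63374d34.N568.PJ.D12
import Pool.Agent.H859.SC.MiniA

/-!
# The discriminant of an arbitrary monic polynomial of degree `2 g + 1` as a polynomial in one of its
coefficients (after `N568/PJ/D12.lean` of helper568)
-/

set_option autoImplicit false
set_option linter.all false

open Polynomial
open scoped Classical

namespace Pool.Agent.H859.DA

open Pool.Agent.N352.PJ
open Pool.Agent.N568.PJ (res_scale deriv_scale deg_of_hom)

section defs

variable {g : ℕ} {R : Type} [CommRing R]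

/-- `x ^ (2 g + 1) + a_(2 g) x ^ (2 g) + ... + a_0` -/
noncomputable def polA (a : Fin (2 * g + 1) → R) : R[X] :=
  X ^ (2 * g + 1) + ∑ j, C (a j) * X ^ (j : ℕ)

/-- The discriminant of `polA a`. -/
noncomputable def disA (a : Fin (2 * g + 1) → R) : R :=
  (polA a).resultant (derivative (polA a)) (2 * g + 1) (2 * g)

/-- The discriminant as a polynomial in `a_i`. -/
noncomputable def DyA (i : ℕ) (a : Fin (2 * g + 1) → R) : R[X] :=
  disA fun j : Fin (2 * g + 1) => if (j : ℕ) = i then X else C (a j)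

/-- The discriminant of `DyA i a`. -/
noncomputable def D2A (i : ℕ) (a : Fin (2 * g + 1) → R) : R :=
  (DyA i a).resultant (derivative (DyA i a)) (2 * g + i) (2 * g + i - 1)

end defs

section maps

variable {g : ℕ} {A B : Type} [CommRing A] [CommRing B]

lemma polA_map (φ : A →+* B) (a : Fin (2 * g + 1) → A) :
    (polA a).map φ = polA (fun j => φ (a j)) := by
  unfold polA
  rw [Polynomial.map_add, Polynomial.map_pow, map_X, Polynomial.map_sum]
  congr 1
  refine Finset.sum_congr rfl fun j _ => ?_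
  rw [Polynomial.map_mul, map_C, Polynomial.map_pow, map_X]

lemma disA_map (φ : A →+* B) (a : Fin (2 * g + 1) → A) : φ (disA a) = disA (fun j => φ (a j)) := by
  unfold disA
  rw [← resultant_map_map, ← derivative_map, polA_map]

lemma DyA_map (i : ℕ) (φ : A →+* B) (a : Fin (2 * g + 1) → A) :
    (DyA i a).map φ = DyA i (fun j => φ (a j)) := by
  unfold DyA
  have h := disA_map (mapRingHom φ) (fun j : Fin (2 * g + 1) => if (j : ℕ) = i then X else C (a j))
  rw [coe_mapRingHom] at h
  rw [h]
  congr 1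
  funext j
  split_ifs
  · exact map_X φ
  · exact map_C φ

lemma D2A_map (i : ℕ) (φ : A →+* B) (a : Fin (2 * g + 1) → A) :
    φ (D2A i a) = D2A i (fun j => φ (a j)) := by
  unfold D2A
  rw [← resultant_map_map, ← derivative_map, DyA_map]

lemma disA_congr {a b : Fin (2 * g + 1) → A} (h : ∀ j, a j = b j) : disA a = disA b := by
  rw [funext h]

lemma DyA_congr {i : ℕ} {a b : Fin (2 * g + 1) → A}
    (h : ∀ j : Fin (2 * g + 1), (j : ℕ) ≠ i → a j = b j) : DyA i a = DyA i b := by
  unfold DyA
  congr 1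
  funext j
  by_cases hj : (j : ℕ) = i
  · rw [if_pos hj, if_pos hj]
  · rw [if_neg hj, if_neg hj, h j hj]

lemma D2A_congr {i : ℕ} {a b : Fin (2 * g + 1) → A}
    (h : ∀ j : Fin (2 * g + 1), (j : ℕ) ≠ i → a j = b j) : D2A i a = D2A i b := by
  unfold D2A
  rw [DyA_congr h]

lemma DyA_eval (i : ℕ) (a : Fin (2 * g + 1) → A) (y : A) :
    (DyA i a).eval y = disA fun j : Fin (2 * g + 1) => if (j : ℕ) = i then y else a j := by
  unfold DyA
  rw [← coe_evalRingHom, disA_map]
  apply disA_congr
  intro j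
  rw [coe_evalRingHom]
  split_ifs
  · rw [eval_X]
  · rw [eval_C]

end maps

section scale

variable {R : Type} [CommRing R] [IsDomain R] {g : ℕ}

omit [IsDomain R] in
lemma polA_scale (a : Fin (2 * g + 1) → R) (t : R) :
    (polA (fun j : Fin (2 * g + 1) => t ^ (2 * g + 1 - (j : ℕ)) * a j)).comp (C t * X) =
      C (t ^ (2 * g + 1)) * polA a := by
  unfold polA
  have hs : (∑ j : Fin (2 * g + 1), C (t ^ (2 * g + 1 - (j : ℕ)) * a j) * X ^ (j : ℕ)).comp
      (C t * X) = ∑ j : Fin (2 * g + 1),
        (C (t ^ (2 * g + 1 - (j : ℕ)) * a j) * X ^ (j : ℕ)).comp (C t * X) :=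
    map_sum (compRingHom (C t * X)) _ _
  rw [add_comp, X_pow_comp, mul_pow, ← C_pow, mul_add, hs, Finset.mul_sum]
  congr 1
  refine Finset.sum_congr rfl fun j _ => ?_
  rw [mul_comp, C_comp, X_pow_comp, mul_pow, ← C_pow]
  have h1 : t ^ (2 * g + 1) = t ^ (2 * g + 1 - (j : ℕ)) * t ^ (j : ℕ) := by
    rw [← pow_add]; congr 1; omega
  rw [h1, C_mul, C_mul]
  ring

lemma disA_hom (a : Fin (2 * g + 1) → R) {t : R} (ht : t ≠ 0) :
    disA (fun j : Fin (2 * g + 1) => t ^ (2 * g + 1 - (j : ℕ)) * a j) =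
      t ^ ((2 * g + 1) * (2 * g)) * disA a := by
  set b : Fin (2 * g + 1) → R := fun j => t ^ (2 * g + 1 - (j : ℕ)) * a j with hb
  have h1 : (polA b).comp (C t * X) = C (t ^ (2 * g + 1)) * polA a := polA_scale a t
  have h2 := deriv_scale h1
  have h3 : resultant ((polA b).comp (C t * X)) (C t * (derivative (polA b)).comp (C t * X))
      (2 * g + 1) (2 * g) = resultant (C (t ^ (2 * g + 1)) * polA a)
        (C (t ^ (2 * g + 1)) * derivative (polA a)) (2 * g + 1) (2 * g) := by
    rw [h1, h2]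
  rw [resultant_C_mul_right, res_scale _ _ _ _ ht, resultant_C_mul_left, resultant_C_mul_right]
    at h3
  have h4 : t ^ (2 * g + 1) * t ^ ((2 * g + 1) * (2 * g)) ≠ 0 :=
    mul_ne_zero (pow_ne_zero _ ht) (pow_ne_zero _ ht)
  apply mul_left_cancel₀ h4
  unfold disA
  rw [mul_assoc, h3]
  have h5 : (t ^ (2 * g + 1)) ^ (2 * g) * (t ^ (2 * g + 1)) ^ (2 * g + 1) =
      t ^ (2 * g + 1) * t ^ ((2 * g + 1) * (2 * g)) * t ^ ((2 * g + 1) * (2 * g)) := by ring
  rw [← mul_assoc, h5]
  ring

end scale

/-- the leading coefficient as a value -/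
lemma deg_DyA (g : ℕ) (R : Type) [CommRing R] [IsDomain R] (a : Fin (2 * g + 1) → R) (i : ℕ)
    (hg : 1 ≤ g) (hi : i ≤ 1) :
    (DyA i a).natDegree ≤ 2 * g + i ∧ (DyA i a).coeff (2 * g + i) =
      disA (fun j : Fin (2 * g + 1) => if (j : ℕ) = i then (1 : R) else 0) := by
  have hev : ∀ {S : Type} [CommRing S] (φ : R[X] →+* S), φ (DyA i a) =
      disA (fun j : Fin (2 * g + 1) => if (j : ℕ) = i then φ X else φ (C (a j))) := by
    intro S _ φ
    unfold DyA
    rw [disA_map]
    apply disA_congr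
    intro j
    split_ifs <;> rfl
  have hexp : (2 * g + 1 - i) * (2 * g + i) = (2 * g + 1) * (2 * g) := by
    rcases Nat.le_one_iff_eq_zero_or_eq_one.1 hi with rfl | rfl
    · rfl
    · rw [Nat.add_sub_cancel]; ring
  obtain ⟨h1, h2⟩ := deg_of_hom (algebraMap R[X] (FractionRing R[X]))
    (IsFractionRing.injective R[X] (FractionRing R[X])) (DyA i a)
    (disA (fun j : Fin (2 * g + 1) => if (j : ℕ) = i then 1 else
      X ^ (2 * g + 1 - (j : ℕ)) * C (a j)))
    (2 * g + 1 - i) (2 * g + i) (by omega) (by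
      set ι := algebraMap R[X] (FractionRing R[X]) with hι
      have hX : ι X ≠ 0 := by
        rw [Ne, map_eq_zero_iff ι (IsFractionRing.injective R[X] (FractionRing R[X]))]
        exact X_ne_zero
      have e1 : eval₂ (ι.comp C) ((ι X)⁻¹ ^ (2 * g + 1 - i)) (DyA i a) =
          disA (fun j : Fin (2 * g + 1) => if (j : ℕ) = i then (ι X)⁻¹ ^ (2 * g + 1 - i) else
            ι (C (a j))) := by
        have := hev (eval₂RingHom (ι.comp C) ((ι X)⁻¹ ^ (2 * g + 1 - i)))
        rw [coe_eval₂RingHom] at this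
        rw [this]
        apply disA_congr
        intro j
        split_ifs
        · rw [eval₂_X]
        · rw [eval₂_C, RingHom.comp_apply]
      rw [e1, hexp, ← disA_hom _ hX, disA_map]
      apply disA_congr
      intro j
      split_ifs with hj
      · rw [hj, map_one, ← mul_pow, mul_inv_cancel₀ hX, one_pow]
      · rw [map_mul, map_pow])
  refine ⟨h1, ?_⟩
  rw [h2, coeff_zero_eq_eval_zero, ← coe_evalRingHom, disA_map]
  apply disA_congr
  intro j
  rw [coe_evalRingHom]
  have hj2 := j.2
  split_ifs with hj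
  · rw [eval_one]
  · rw [eval_mul, eval_pow, eval_X, zero_pow (by omega), zero_mul]

section coeffs

variable {g : ℕ} {R : Type} [CommRing R]

theorem polA_coeff (a : Fin (2 * g + 1) → R) (j : ℕ) :
    (polA a).coeff j = if j = 2 * g + 1 then 1 else if h : j < 2 * g + 1 then a ⟨j, h⟩ else 0 := by
  unfold polA
  rw [coeff_add, coeff_X_pow, finset_sum_coeff]
  have h1 : ∑ i : Fin (2 * g + 1), (C (a i) * X ^ (i : ℕ)).coeff j =
      if h : j < 2 * g + 1 then a ⟨j, h⟩ else 0 := by
    by_cases h : j < 2 * g + 1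
    · rw [dif_pos h, Finset.sum_eq_single ⟨j, h⟩]
      · rw [coeff_C_mul_X_pow, if_pos rfl]
      · intro i _ hi
        rw [coeff_C_mul_X_pow, if_neg]
        intro hj
        exact hi (Fin.ext hj.symm)
      · intro h'; exact absurd (Finset.mem_univ _) h'
    · rw [dif_neg h]
      apply Finset.sum_eq_zero
      intro i _
      rw [coeff_C_mul_X_pow, if_neg]
      have := i.2
      omega
  rw [h1]
  by_cases hj : j = 2 * g + 1
  · rw [if_pos hj, if_pos hj, dif_neg (by omega), add_zero]
  · rw [if_neg hj, if_neg hj, zero_add]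

theorem polA_lt (a : Fin (2 * g + 1) → R) (j : Fin (2 * g + 1)) : (polA a).coeff j = a j := by
  rw [polA_coeff, if_neg (by have := j.2; omega), dif_pos j.2]

theorem polA_inj {a b : Fin (2 * g + 1) → R} (h : polA a = polA b) : a = b := by
  funext j
  rw [← polA_lt a j, ← polA_lt b j, h]

theorem polA_natDegree_le (a : Fin (2 * g + 1) → R) : (polA a).natDegree ≤ 2 * g + 1 := by
  rw [natDegree_le_iff_coeff_eq_zero]
  intro j hj
  rw [polA_coeff, if_neg (by omega), dif_neg (by omega)]

theorem polA_deg [Nontrivial R] (a : Fin (2 * g + 1) → R) : (polA a).natDegree = 2 * g + 1 := by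
  apply natDegree_eq_of_le_of_coeff_ne_zero (polA_natDegree_le a)
  rw [polA_coeff, if_pos rfl]
  exact one_ne_zero

theorem polA_monic [Nontrivial R] (a : Fin (2 * g + 1) → R) : (polA a).Monic := by
  rw [Monic, leadingCoeff, polA_deg, polA_coeff, if_pos rfl]

theorem polA_eq [Nontrivial R] {f : R[X]} (hm : f.Monic) (hd : f.natDegree = 2 * g + 1) :
    polA (fun j : Fin (2 * g + 1) => f.coeff j) = f := by
  ext j
  rw [polA_coeff]
  split_ifs with h1 h2
  · rw [h1, ← hd]; exact hm.coeff_natDegree.symm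
  · rfl
  · rw [coeff_eq_zero_of_natDegree_lt (by omega)]

end coeffs

section fld

variable {g : ℕ} {F : Type} [Field F]

/-- the discriminant of a separable polynomial -/
theorem disA_ne {a : Fin (2 * g + 1) → F} (hs : (polA a).Separable) : disA a ≠ 0 := by
  have hd : (derivative (polA a)).natDegree ≤ 2 * g := by
    refine (natDegree_derivative_le _).trans ?_
    rw [polA_deg]
    omega
  have h2 := resultant_ne_zero (polA a) (derivative (polA a)) hs
  unfold disA
  rw [Pool.Agent.H859.PJ.res_deg _ _ _ _ hd (by rw [polA_coeff, if_pos rfl])]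
  rw [polA_deg] at h2
  exact h2

end fld

end Pool.Agent.H859.DA
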