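import Pool.Agent.H859.SC.DA1

/-!
# The discriminant in one variable: examples in every odd characteristic
-/

set_option autoImplicit false
set_option linter.all false

open Polynomial
open scoped Classical

namespace Pool.Agent.H859.DA

open Pool.Agent.N352.PJ

section gen

variable {g : ℕ} {R : Type} [CommRing R]

theorem polA_of (a : Fin (2 * g + 1) → R) (f : R[X])
    (h : ∀ j : Fin (2 * g + 1), a j = f.coeff j)
    (h1 : f.coeff (2 * g + 1) = 1) (h2 : ∀ j, 2 * g + 1 < j → f.coeff j = 0) : polA a = f := by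
  ext j
  rw [polA_coeff]
  split_ifs with h3 h4
  · rw [h3, h1]
  · exact h ⟨j, h4⟩
  · exact (h2 j (by omega)).symm

theorem disA_zero_one (hg : 1 ≤ g) :
    disA (fun j : Fin (2 * g + 1) => if (j : ℕ) = 0 then (1 : R) else 0) =
      ((2 * g + 1 : ℕ) : R) ^ (2 * g + 1) := by
  have h1 : polA (fun j : Fin (2 * g + 1) => if (j : ℕ) = 0 then (1 : R) else 0) =
      X ^ (2 * g + 1) + 1 := by
    apply polA_of
    · intro j
      have := j.2
      have hj : (j : ℕ) ≠ 2 * g + 1 := by omega
      rw [coeff_add, coeff_X_pow, coeff_one, if_neg hj, zero_add]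
    · rw [coeff_add, coeff_X_pow, coeff_one, if_pos rfl, if_neg (by omega), add_zero]
    · intro j hj
      rw [coeff_add, coeff_X_pow, coeff_one, if_neg (by omega), if_neg (by omega), add_zero]
  have h2 : derivative (X ^ (2 * g + 1) + 1 : R[X]) = C ((2 * g + 1 : ℕ) : R) * X ^ (2 * g) := by
    rw [derivative_add, derivative_one, add_zero, derivative_X_pow, Nat.add_sub_cancel]
  unfold disA
  rw [h1, h2, resultant_C_mul_right, resultant_X_pow_right _ _ _ ?_]
  · rw [mul_comm (2 * g + 1) (2 * g), mul_assoc 2 g, pow_mul (-1 : R)]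
    have h3 : (X ^ (2 * g + 1) + 1 : R[X]).coeff 0 = 1 := by
      simp [coeff_X_pow]
    rw [h3]
    norm_num
  · refine (natDegree_add_le _ _).trans ?_
    simp [natDegree_X_pow_le]

theorem disA_one_one [IsDomain R] (hg : 1 ≤ g) :
    disA (fun j : Fin (2 * g + 1) => if (j : ℕ) = 1 then (1 : R) else 0) =
      ((2 * g : ℕ) : R) ^ (2 * g) := by
  have hf2 : (X ^ (2 * g) + 1 : R[X]).natDegree = 2 * g := by
    have := natDegree_X_pow_add_C (R := R) (n := 2 * g) (r := 1)
    rwa [C_1] at this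
  have h1 : polA (fun j : Fin (2 * g + 1) => if (j : ℕ) = 1 then (1 : R) else 0) =
      X * (X ^ (2 * g) + 1) := by
    have e : (X * (X ^ (2 * g) + 1) : R[X]) = X ^ (2 * g + 1) + X := by ring
    rw [e]
    apply polA_of
    · intro j
      have := j.2
      have hj' : (j : ℕ) ≠ 2 * g + 1 := by omega
      rw [coeff_add, coeff_X_pow, coeff_X, if_neg hj', zero_add]
      by_cases hj : (j : ℕ) = 1
      · rw [if_pos hj, if_pos hj.symm]
      · rw [if_neg hj, if_neg (Ne.symm hj)]
    · rw [coeff_add, coeff_X_pow, coeff_X, if_pos rfl, if_neg (by omega), add_zero]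
    · intro j hj
      rw [coeff_add, coeff_X_pow, coeff_X, if_neg (by omega), if_neg (by omega), add_zero]
  have h2 : derivative (X * (X ^ (2 * g) + 1) : R[X]) =
      C (-((2 * g : ℕ) : R)) + (X ^ (2 * g) + 1) * C ((2 * g + 1 : ℕ) : R) := by
    have e : (X * (X ^ (2 * g) + 1) : R[X]) = X ^ (2 * g + 1) + X := by ring
    rw [e, derivative_add, derivative_X, derivative_X_pow, Nat.add_sub_cancel]
    simp
    ring
  have hd : (C (-((2 * g : ℕ) : R)) + (X ^ (2 * g) + 1) * C ((2 * g + 1 : ℕ) : R)).natDegree ≤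
      2 * g := by
    refine (natDegree_add_le _ _).trans ?_
    rw [natDegree_C, max_le_iff]
    refine ⟨by omega, (natDegree_mul_C_le _ _).trans hf2.le⟩
  unfold disA
  rw [h1, h2]
  have h3 := resultant_mul_left (X : R[X]) (X ^ (2 * g) + 1)
    (C (-((2 * g : ℕ) : R)) + (X ^ (2 * g) + 1) * C ((2 * g + 1 : ℕ) : R)) (2 * g) hd
  rw [natDegree_X, hf2, add_comm 1 (2 * g)] at h3
  rw [h3]
  have h4 : resultant (X : R[X])
      (C (-((2 * g : ℕ) : R)) + (X ^ (2 * g) + 1) * C ((2 * g + 1 : ℕ) : R)) 1 (2 * g) = 1 := by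
    have := resultant_X_sub_C_left
      (C (-((2 * g : ℕ) : R)) + (X ^ (2 * g) + 1) * C ((2 * g + 1 : ℕ) : R)) (2 * g) 0 hd
    rw [C_0, sub_zero] at this
    rw [this]
    have hz : (0 : R) ^ (2 * g) = 0 := zero_pow (by omega)
    simp only [eval_add, eval_C, eval_mul, eval_pow, eval_X, eval_one, hz]
    push_cast
    ring
  rw [h4, one_mul, resultant_add_mul_right _ _ _ _ _ (by rw [natDegree_C]; omega) hf2.le,
    resultant_C_right]
  have h5 : (X ^ (2 * g) + 1 : R[X]).coeff (2 * g) = 1 := by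
    rw [coeff_add, coeff_X_pow, if_pos rfl, coeff_one, if_neg (by omega), add_zero]
  rw [h5, one_pow, one_mul, Even.neg_pow ⟨g, by ring⟩]

end gen

end Pool.Agent.H859.DA
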