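import Pool.Agent.H859.SC.DA2
import Pool.Graph.R_pool_sql_team_seeded_63374d34.N615.JM.FamT

/-!
# The discriminant of the discriminant does not vanish identically: examples
-/

set_option autoImplicit false
set_option linter.all false

open Polynomial
open scoped Classical

namespace Pool.Agent.H859.DA

open Pool.Agent.N352.PJ

section gen

variable {k : Type} [Field k]

theorem res_ne_of {F : k[X]} {m : ℕ} (hd : F.natDegree ≤ m) (hc : F.coeff m ≠ 0)
    (hs : IsCoprime F (derivative F)) : resultant F (derivative F) m (m - 1) ≠ 0 := by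
  have hm : F.natDegree = m := le_antisymm hd (le_natDegree_of_ne_zero hc)
  have h1 : (derivative F).natDegree ≤ m - 1 := by
    rw [← hm]; exact natDegree_derivative_le F
  obtain ⟨a, ha⟩ := Nat.exists_eq_add_of_le h1
  rw [ha, resultant_add_right_deg _ _ _ _ _ le_rfl]
  have h2 := resultant_ne_zero F (derivative F) hs
  rw [hm] at h2
  exact mul_ne_zero (pow_ne_zero _ hc) h2

theorem cop_X {G : k[X]} (h : G.coeff 0 ≠ 0) : IsCoprime G X := by
  rw [isCoprime_comm, irreducible_X.coprime_iff_not_dvd, X_dvd_iff]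
  exact h

/-- the case of characteristic dividing `2 g + 1` -/
theorem exC {g : ℕ} (hg : 1 ≤ g) (h2 : (2 : k) ≠ 0) (hn : ((2 * g + 1 : ℕ) : k) = 0) :
    D2A 1 (fun j : Fin (2 * g + 1) => if (j : ℕ) = 0 then (1 : k) else
      if (j : ℕ) = 2 then 1 else 0) ≠ 0 := by
  set a : Fin (2 * g + 1) → k := fun j => if (j : ℕ) = 0 then (1 : k) else
      if (j : ℕ) = 2 then 1 else 0 with ha
  set F : k[X][X] := X ^ (2 * g + 1) + (X ^ 2 + C X * X + 1) with hF
  have h1 : polA (fun j : Fin (2 * g + 1) => if (j : ℕ) = 1 then (X : k[X]) else C (a j)) = F := by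
    apply polA_of
    · intro j
      have := j.2
      have hj : (j : ℕ) ≠ 2 * g + 1 := by omega
      rw [hF, coeff_add, coeff_X_pow, if_neg hj, zero_add, coeff_add, coeff_add, coeff_X_pow,
        coeff_C_mul, coeff_X, coeff_one]
      simp only [ha]
      by_cases h1 : (j : ℕ) = 1
      · rw [h1]; simp
      · by_cases h0 : (j : ℕ) = 0
        · rw [h0]; simp
        · by_cases h2 : (j : ℕ) = 2
          · rw [h2]; simp
          · rw [if_neg h1, if_neg h0, if_neg h2, if_neg h2, if_neg (Ne.symm h1), if_neg h0]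
            simp
    · rw [hF, coeff_add, coeff_X_pow, if_pos rfl, coeff_add, coeff_add, coeff_X_pow,
        coeff_C_mul, coeff_X, coeff_one, if_neg (by omega), if_neg (by omega), if_neg (by omega)]
      simp
    · intro j hj
      rw [hF, coeff_add, coeff_X_pow, if_neg (by omega), coeff_add, coeff_add, coeff_X_pow,
        coeff_C_mul, coeff_X, coeff_one, if_neg (by omega), if_neg (by omega), if_neg (by omega)]
      simp
  obtain ⟨v, hv⟩ : ∃ v : k, 2 * v = 1 := ⟨2⁻¹, mul_inv_cancel₀ h2⟩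
  have h3 : derivative F = C (C 2) * (X + C (C v * X)) := by
    rw [hF, derivative_add, derivative_X_pow, Nat.add_sub_cancel]
    have e1 : ((2 * g + 1 : ℕ) : k[X][X]) = 0 := by
      have : ((2 * g + 1 : ℕ) : k[X][X]) = C (C ((2 * g + 1 : ℕ) : k)) := by
        rw [map_natCast, map_natCast]
      rw [this, hn, C_0, C_0]
    have e1' : (C ((2 * g + 1 : ℕ) : k[X]) : k[X][X]) = 0 := by
      rw [← e1, map_natCast]
    rw [e1', zero_mul, zero_add]
    have e2 : (C (C 2) : k[X][X]) * C (C v * X) = C X := by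
      rw [← C_mul, ← mul_assoc, ← C_mul, hv, C_1, one_mul]
    rw [mul_add, e2]
    have e3 : (C (C 2) : k[X][X]) = 2 := by rw [map_ofNat, map_ofNat]
    rw [e3]
    simp only [derivative_add, derivative_X_pow, derivative_mul, derivative_C, derivative_X,
      derivative_one]
    simp
    exact map_ofNat C 2
  have h4 : (X + C (C v * X : k[X])).natDegree ≤ 1 := by
    rw [natDegree_X_add_C]
  have h5 : (C (C 2) * (X + C (C v * X : k[X])) : k[X][X]).natDegree ≤ 1 :=
    (natDegree_C_mul_le _ _).trans h4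
  have hFd : F.natDegree ≤ 2 * g + 1 := by rw [← h1]; exact polA_natDegree_le _
  have hFc : F.coeff (2 * g + 1) = 1 := by rw [← h1, polA_coeff, if_pos rfl]
  have hDy : DyA 1 a = X ^ (2 * g + 1) + C (2 ^ (2 * g + 1) * v ^ 2) * X ^ 2 -
      C (2 ^ (2 * g + 1)) := by
    unfold DyA disA
    rw [h1, h3]
    obtain ⟨m, hm⟩ : ∃ m, 2 * g = 1 + m := ⟨2 * g - 1, by omega⟩
    have e0 : resultant F (C (C 2) * (X + C (C v * X))) (2 * g + 1) (2 * g) =
        resultant F (C (C 2) * (X + C (C v * X))) (2 * g + 1) 1 := by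
      have := resultant_add_right_deg F (C (C 2) * (X + C (C v * X : k[X]))) (2 * g + 1) 1 m h5
      rw [hFc, one_pow, one_mul, ← hm] at this
      exact this
    rw [e0, resultant_C_mul_right, resultant_X_add_C_right _ _ _ hFd]
    have e1 : (-1 : k[X]) ^ (2 * g + 1) = -1 := Odd.neg_one_pow ⟨g, rfl⟩
    have e2 : (-(C v * X) : k[X]) ^ (2 * g + 1) = - (C v * X) ^ (2 * g + 1) :=
      Odd.neg_pow ⟨g, rfl⟩ _
    rw [hF, e1]
    simp only [eval_add, eval_pow, eval_X, eval_mul, eval_C, eval_one]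
    rw [e2]
    have e3 : (C 2 : k[X]) ^ (2 * g + 1) * (C v * X) ^ (2 * g + 1) = X ^ (2 * g + 1) := by
      rw [← mul_pow, ← mul_assoc, ← C_mul, hv, C_1, one_mul]
    have e4 : (C v : k[X]) * 2 = 1 := by
      have : (C v : k[X]) * C 2 = 1 := by rw [← C_mul, mul_comm, hv, C_1]
      rwa [map_ofNat] at this
    rw [C_mul, C_pow, C_pow]
    linear_combination e3 - C 2 ^ (2 * g + 1) * C v * X ^ 2 * e4
  have hG : derivative (DyA 1 a) = C (2 ^ (2 * g + 1) * v) * X := by
    rw [hDy, derivative_sub, derivative_add, derivative_C, sub_zero, derivative_X_pow, hn, C_0,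
      zero_mul, zero_add, derivative_C_mul, derivative_X_pow]
    have e : (2 : k) ^ (2 * g + 1) * v ^ 2 * ((2 : ℕ) : k) = 2 ^ (2 * g + 1) * v := by
      push_cast
      linear_combination 2 ^ (2 * g + 1) * v * hv
    rw [← mul_assoc, ← C_mul, e]
    simp
  obtain ⟨hd, hc⟩ := deg_DyA g k a 1 hg le_rfl
  have h2g : ((2 * g : ℕ) : k) ≠ 0 := by
    intro h0
    have : ((2 * g + 1 : ℕ) : k) = ((2 * g : ℕ) : k) + 1 := by push_cast; ring
    rw [hn, h0, zero_add] at this
    exact zero_ne_one this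
  unfold D2A
  apply res_ne_of hd
  · rw [hc, disA_one_one hg]
    exact pow_ne_zero _ h2g
  · rw [hG]
    have hv0 : v ≠ 0 := by
      rintro rfl
      rw [mul_zero] at hv
      exact zero_ne_one hv
    have hu : IsUnit (C (2 ^ (2 * g + 1) * v) : k[X]) :=
      isUnit_C.2 (isUnit_iff_ne_zero.2 (mul_ne_zero (pow_ne_zero _ h2) hv0))
    rw [isCoprime_mul_unit_left_right hu]
    apply cop_X
    rw [hDy, coeff_sub, coeff_add, coeff_X_pow, coeff_C_mul_X_pow, coeff_C_zero, if_neg (by omega),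
      if_neg (by omega), zero_add, zero_sub]
    exact neg_ne_zero.2 (pow_ne_zero _ h2)

/-- the case of characteristic dividing `2 g` -/
theorem exB {g : ℕ} (hg : 1 ≤ g) (h2 : (2 : k) ≠ 0) (hn : ((2 * g : ℕ) : k) = 0) :
    D2A 0 (fun j : Fin (2 * g + 1) => if (j : ℕ) = 2 then (1 : k) else 0) ≠ 0 := by
  set a : Fin (2 * g + 1) → k := fun j => if (j : ℕ) = 2 then (1 : k) else 0 with ha
  set F : k[X][X] := X ^ (2 * g + 1) + (X ^ 2 + C X) with hF
  have h1 : polA (fun j : Fin (2 * g + 1) => if (j : ℕ) = 0 then (X : k[X]) else C (a j)) = F := by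
    apply polA_of
    · intro j
      have := j.2
      have hj : (j : ℕ) ≠ 2 * g + 1 := by omega
      rw [hF, coeff_add, coeff_X_pow, if_neg hj, zero_add, coeff_add, coeff_X_pow,
        coeff_C]
      simp only [ha]
      by_cases h0 : (j : ℕ) = 0
      · rw [h0]; simp
      · by_cases h2 : (j : ℕ) = 2
        · rw [h2]; simp
        · rw [if_neg h0, if_neg h2, if_neg h2, if_neg h0]
          simp
    · rw [hF, coeff_add, coeff_X_pow, if_pos rfl, coeff_add, coeff_X_pow,
        coeff_C, if_neg (by omega), if_neg (by omega)]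
      simp
    · intro j hj
      rw [hF, coeff_add, coeff_X_pow, if_neg (by omega), coeff_add, coeff_X_pow,
        coeff_C, if_neg (by omega), if_neg (by omega)]
      simp
  obtain ⟨v, hv⟩ : ∃ v : k, 2 * v = 1 := ⟨2⁻¹, mul_inv_cancel₀ h2⟩
  have hn1 : ((2 * g + 1 : ℕ) : k) = 1 := by
    rw [Nat.cast_add, hn, zero_add, Nat.cast_one]
  have h3 : derivative F = X ^ (2 * g) + C (C 2) * X := by
    rw [hF, derivative_add, derivative_X_pow, Nat.add_sub_cancel]
    have e1' : (C ((2 * g + 1 : ℕ) : k[X]) : k[X][X]) = 1 := by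
      have : ((2 * g + 1 : ℕ) : k[X]) = C ((2 * g + 1 : ℕ) : k) := by
        rw [map_natCast]
      rw [this, hn1, C_1, C_1]
    have e3 : (C (C 2) : k[X][X]) = 2 := by rw [map_ofNat, map_ofNat]
    rw [e1', one_mul, e3]
    simp
    norm_num
  have hFd : F.natDegree ≤ 2 * g + 1 := by rw [← h1]; exact polA_natDegree_le _
  -- the quadratic polynomial
  set Qd : k[X][X] := C X - X ^ 2 with hQd
  have hQ2 : Qd.natDegree ≤ 2 := by
    rw [hQd]
    refine (natDegree_sub_le _ _).trans ?_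
    rw [natDegree_C, natDegree_X_pow]
    omega
  have hQc : Qd.coeff 2 = -1 := by
    rw [hQd, coeff_sub, coeff_C, coeff_X_pow, if_neg (by omega), if_pos rfl, zero_sub]
  have hder2 : (X ^ (2 * g) + C (C 2) * X : k[X][X]).natDegree ≤ 2 * g := by
    refine (natDegree_add_le _ _).trans ?_
    rw [natDegree_X_pow, max_le_iff]
    refine ⟨le_rfl, (natDegree_C_mul_le _ _).trans ?_⟩
    rw [natDegree_X]; omega
  have hdc : (X ^ (2 * g) + C (C 2) * X : k[X][X]).coeff (2 * g) = 1 := by
    rw [coeff_add, coeff_X_pow, if_pos rfl, coeff_C_mul, coeff_X, if_neg (by omega), mul_zero,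
      add_zero]
  have e1 : F = Qd + (X ^ (2 * g) + C (C 2) * X) * X := by
    rw [hF, hQd]
    have : (C (C 2) : k[X][X]) = 2 := by rw [map_ofNat, map_ofNat]
    rw [this]
    ring
  obtain ⟨q, hq⟩ : (X ^ 2 - C X : k[X][X]) ∣ (X ^ 2) ^ g - (C X) ^ g := sub_dvd_pow_sub_pow _ _ _
  have hmon : (X ^ 2 - C X : k[X][X]).Monic := monic_X_pow_sub_C _ (by norm_num)
  have hmd : (X ^ 2 - C X : k[X][X]).natDegree = 2 := natDegree_X_pow_sub_C
  have hqd : q.natDegree + 2 ≤ 2 * g := by
    by_cases hq0 : q = 0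
    · rw [hq0, natDegree_zero]; omega
    · have h5 := congrArg natDegree hq
      rw [hmon.natDegree_mul' hq0, hmd, ← pow_mul, ← C_pow, natDegree_X_pow_sub_C] at h5
      omega
  have e2 : (X ^ (2 * g) + C (C 2) * X : k[X][X]) = C (C 2) * (X + C (C v * X ^ g)) + Qd * (-q) := by
    have e3 : (C (C 2) : k[X][X]) * C (C v * X ^ g) = C X ^ g := by
      rw [← C_mul, ← mul_assoc, ← C_mul, hv, C_1, one_mul, C_pow]
    rw [mul_add, e3, hQd]
    have e4 : (X : k[X][X]) ^ (2 * g) = (X ^ 2) ^ g := by rw [← pow_mul]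
    rw [e4]
    linear_combination hq
  have hlin : (C (C 2) * (X + C (C v * X ^ g : k[X])) : k[X][X]).natDegree ≤ 1 := by
    refine (natDegree_C_mul_le _ _).trans ?_
    rw [natDegree_X_add_C]
  obtain ⟨s, hs, hDy⟩ : ∃ s : k, s ≠ 0 ∧ DyA 0 a = C s * (X - C (v ^ 2) * X ^ (2 * g)) := by
    unfold DyA disA
    rw [h1, h3]
    have f1 : resultant F (X ^ (2 * g) + C (C 2) * X) (2 * g + 1) (2 * g) =
        resultant Qd (X ^ (2 * g) + C (C 2) * X) (2 * g + 1) (2 * g) := by
      rw [e1]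
      exact resultant_add_mul_left _ _ _ _ _ (by rw [natDegree_X]; omega) hder2
    obtain ⟨m, hm⟩ : ∃ m, 2 * g + 1 = 2 + m := ⟨2 * g - 1, by omega⟩
    have f2 : resultant Qd (X ^ (2 * g) + C (C 2) * X) (2 * g + 1) (2 * g) =
        resultant Qd (X ^ (2 * g) + C (C 2) * X) 2 (2 * g) := by
      rw [hm, resultant_add_left_deg _ _ _ _ _ hQ2, hdc, one_pow, mul_one, mul_assoc 2 g m,
        pow_mul (-1 : k[X]), neg_one_sq, one_pow, one_mul]
    have f3 : resultant Qd (X ^ (2 * g) + C (C 2) * X) 2 (2 * g) =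
        resultant Qd (C (C 2) * (X + C (C v * X ^ g))) 2 (2 * g) := by
      rw [e2]
      exact resultant_add_mul_right _ _ _ _ _ (by rw [natDegree_neg]; exact hqd) hQ2
    obtain ⟨m', hm'⟩ : ∃ m', 2 * g = 1 + m' := ⟨2 * g - 1, by omega⟩
    have f4 : resultant Qd (C (C 2) * (X + C (C v * X ^ g))) 2 (2 * g) =
        (-1) ^ m' * resultant Qd (C (C 2) * (X + C (C v * X ^ g))) 2 1 := by
      rw [hm', resultant_add_right_deg _ _ _ _ _ hlin, hQc]
    rw [f1, f2, f3, f4, resultant_C_mul_right, resultant_X_add_C_right _ _ _ hQ2]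
    refine ⟨(-1) ^ m' * 2 ^ 2, mul_ne_zero (pow_ne_zero _ (neg_ne_zero.2 one_ne_zero))
      (pow_ne_zero _ h2), ?_⟩
    rw [hQd]
    simp only [eval_sub, eval_pow, eval_X, eval_C, neg_sq, one_pow, one_mul, C_mul, C_pow, C_neg,
      C_1]
    rw [pow_mul' X 2 g]
    ring
  have hG : derivative (DyA 0 a) = C s := by
    rw [hDy, derivative_C_mul, derivative_sub, derivative_X, derivative_C_mul, derivative_X_pow, hn,
      C_0, zero_mul, mul_zero, sub_zero, mul_one]
  obtain ⟨hd, hc⟩ := deg_DyA g k a 0 hg (by norm_num)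
  unfold D2A
  apply res_ne_of hd
  · rw [hc, disA_zero_one hg, hn1, one_pow]
    exact one_ne_zero
  · rw [hG]
    obtain ⟨w, hw⟩ := (isUnit_C.2 (isUnit_iff_ne_zero.2 hs) : IsUnit (C s : k[X])).exists_left_inv
    exact ⟨0, w, by rw [zero_mul, zero_add, hw]⟩

/-- the case of characteristic not dividing `2 g (2 g + 1)` -/
theorem exA {g : ℕ} (hg : 1 ≤ g) (hn : ((2 * g + 1 : ℕ) : k) ≠ 0) (hm : ((2 * g : ℕ) : k) ≠ 0) :
    D2A 0 (fun j : Fin (2 * g + 1) => if (j : ℕ) = 1 then (1 : k) else 0) ≠ 0 := by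
  set a : Fin (2 * g + 1) → k := fun j => if (j : ℕ) = 1 then (1 : k) else 0 with ha
  obtain ⟨N, hN⟩ : ∃ N : k, ((2 * g + 1 : ℕ) : k) = N := ⟨_, rfl⟩
  obtain ⟨M, hM⟩ : ∃ M : k, ((2 * g : ℕ) : k) = M := ⟨_, rfl⟩
  have un : N ≠ 0 := by rw [← hN]; exact hn
  have um : M ≠ 0 := by rw [← hM]; exact hm
  have h1 : polA (fun j : Fin (2 * g + 1) => if (j : ℕ) = 0 then (X : k[X]) else C (a j)) =
      pol (fun j : Fin (2 * g) => if (j : ℕ) = 0 then (X : k[X]) else
        C (if (j : ℕ) = 1 then (1 : k) else 0)) := by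
    apply polA_of
    · intro j
      rw [Pool.Agent.N615.JM.pol_coeff]
      have := j.2
      have hj : (j : ℕ) ≠ 2 * g + 1 := by omega
      rw [if_neg hj]
      by_cases h : (j : ℕ) < 2 * g
      · rw [dif_pos h]
      · rw [dif_neg h]
        have h3 : (j : ℕ) ≠ 0 := by omega
        have h4 : (j : ℕ) ≠ 1 := by omega
        simp only [ha, if_neg h3, if_neg h4, C_0]
    · rw [Pool.Agent.N615.JM.pol_coeff, if_pos rfl]
    · intro j hj
      rw [Pool.Agent.N615.JM.pol_coeff, if_neg (by omega), dif_neg (by omega)]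
  have hDy : DyA 0 a = C (N ^ (2 * g + 1)) * X ^ (2 * g) + C (M ^ (2 * g)) := by
    rw [← Pool.Agent.N568.PJ.Dy_one g k hg hN hM un (isUnit_iff_ne_zero.2 um)]
    unfold DyA disA Dy dis
    rw [h1]
  have hG : derivative (DyA 0 a) = C (N ^ (2 * g + 1) * M) * X ^ (2 * g - 1) := by
    rw [hDy, derivative_add, derivative_C, add_zero, derivative_C_mul, derivative_X_pow, hM, C_mul,
      mul_assoc]
  obtain ⟨hd, hc⟩ := deg_DyA g k a 0 hg (by norm_num)
  unfold D2A
  apply res_ne_of hd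
  · rw [hc, disA_zero_one hg]
    exact pow_ne_zero _ hn
  · rw [hG]
    have hu : IsUnit (C (N ^ (2 * g + 1) * M) : k[X]) :=
      isUnit_C.2 (isUnit_iff_ne_zero.2 (mul_ne_zero (pow_ne_zero _ un) um))
    rw [isCoprime_mul_unit_left_right hu]
    apply IsCoprime.pow_right
    apply cop_X
    rw [hDy, coeff_add, coeff_C_mul_X_pow, coeff_C_zero, if_neg (by omega), zero_add]
    exact pow_ne_zero _ um

/-- **The index.** In every characteristic different from two there is an index `i ≤ 1` such that the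
discriminant as a polynomial in `a_i` has a unit as leading coefficient and has a nonzero discriminant
for some values of the other coefficients. -/
theorem exists_index {g : ℕ} (hg : 1 ≤ g) (h2 : (2 : k) ≠ 0) :
    ∃ i : ℕ, i ≤ 1 ∧ disA (fun j : Fin (2 * g + 1) => if (j : ℕ) = i then (1 : k) else 0) ≠ 0 ∧
      ∃ a : Fin (2 * g + 1) → k, D2A i a ≠ 0 := by
  by_cases hn : ((2 * g + 1 : ℕ) : k) = 0
  · refine ⟨1, le_rfl, ?_, _, exC hg h2 hn⟩
    rw [disA_one_one hg]
    apply pow_ne_zero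
    intro h0
    have : ((2 * g + 1 : ℕ) : k) = ((2 * g : ℕ) : k) + 1 := by push_cast; ring
    rw [hn, h0, zero_add] at this
    exact zero_ne_one this
  · refine ⟨0, by norm_num, ?_, ?_⟩
    · rw [disA_zero_one hg]
      exact pow_ne_zero _ hn
    · by_cases hm : ((2 * g : ℕ) : k) = 0
      · exact ⟨_, exB hg h2 hm⟩
      · exact ⟨_, exA hg hn hm⟩

end gen

end Pool.Agent.H859.DA
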