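import Pool.Agent.H859.SC.DA3
import Mathlib.Algebra.MvPolynomial.SchwartzZippel

/-!
# Few zeros of the discriminant of the discriminant (Schwartz, Zippel)
-/

set_option autoImplicit false
set_option linter.all false

open scoped Classical

namespace Pool.Agent.H859.DA

section univ

variable (g i : ℕ) (k : Type) [Field k]

/-- The universal polynomial `D2A`. -/
noncomputable def UU : MvPolynomial (Fin (2 * g + 1)) k := D2A i fun j => MvPolynomial.X j

/-- the constant in the estimates -/
noncomputable def dU : ℕ := ∑ j, (UU g i k).degreeOf j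

variable {g i k}

theorem UU_eval {R : Type} [CommRing R] [Algebra k R] (a : Fin (2 * g + 1) → R) :
    MvPolynomial.eval₂ (algebraMap k R) a (UU g i k) = D2A i a := by
  have h := D2A_map (g := g) i (MvPolynomial.eval₂Hom (algebraMap k R) a)
    (fun j => (MvPolynomial.X j : MvPolynomial (Fin (2 * g + 1)) k))
  unfold UU
  rw [← MvPolynomial.coe_eval₂Hom, h]
  congr 1
  funext j
  rw [MvPolynomial.coe_eval₂Hom, MvPolynomial.eval₂_X]

theorem UU_ne (h : ∃ a : Fin (2 * g + 1) → k, D2A i a ≠ 0) : UU g i k ≠ 0 := by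
  obtain ⟨a, ha⟩ := h
  intro h0
  apply ha
  rw [← UU_eval (k := k) a, h0, MvPolynomial.eval₂_zero]

theorem few {R : Type} [CommRing R] [IsDomain R] [Algebra k R]
    (hex : ∃ a : Fin (2 * g + 1) → k, D2A i a ≠ 0) (S : Fin (2 * g + 1) → Finset R) (B : ℕ)
    (hS : ∀ j, B ≤ (S j).card) :
    ((Fintype.piFinset S).filter fun a => D2A i a = 0).card * B ≤
      dU g i k * (Fintype.piFinset S).card := by
  have hinj : Function.Injective (algebraMap k R) := (algebraMap k R).injective
  rcases Nat.eq_zero_or_pos B with hB | hB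
  · rw [hB, mul_zero]; exact Nat.zero_le _
  set p : MvPolynomial (Fin (2 * g + 1)) R := MvPolynomial.map (algebraMap k R) (UU g i k) with hp
  have hp0 : p ≠ 0 := by
    rw [hp, Ne, map_eq_zero_iff _ (MvPolynomial.map_injective _ hinj)]
    exact UU_ne hex
  have heval : ∀ a : Fin (2 * g + 1) → R, MvPolynomial.eval a p = D2A i a := by
    intro a
    rw [hp, MvPolynomial.eval_map, UU_eval]
  have h1 := MvPolynomial.schwartz_zippel_sum_degreeOf hp0 S
  simp only [heval] at h1
  have hcard : ((Fintype.piFinset S).card : ℚ≥0) = ∏ j, ((S j).card : ℚ≥0) := by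
    rw [Fintype.card_piFinset]
    push_cast
    rfl
  rw [← hcard] at h1
  have hpos : 0 < (Fintype.piFinset S).card := by
    rw [Fintype.card_piFinset]
    exact Finset.prod_pos fun j _ => lt_of_lt_of_le hB (hS j)
  have hposQ : (0 : ℚ≥0) < ((Fintype.piFinset S).card : ℚ≥0) := by exact_mod_cast hpos
  have hBQ : (0 : ℚ≥0) < (B : ℚ≥0) := by exact_mod_cast hB
  have h2 : ∑ j, ((p.degreeOf j : ℚ≥0) / ((S j).card : ℚ≥0)) ≤ (dU g i k : ℚ≥0) / B := by
    have e : (dU g i k : ℚ≥0) / B = ∑ j, ((UU g i k).degreeOf j : ℚ≥0) / B := by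
      unfold dU
      push_cast
      rw [Finset.sum_div]
    rw [e]
    refine Finset.sum_le_sum fun j _ => ?_
    have h3 : (p.degreeOf j : ℚ≥0) ≤ ((UU g i k).degreeOf j : ℚ≥0) := by
      have : p.degreeOf j ≤ (UU g i k).degreeOf j := by
        unfold MvPolynomial.degreeOf
        exact @Multiset.count_le_of_le _ (Classical.decEq _) _ _ _ MvPolynomial.degrees_map_le
      exact_mod_cast this
    have h4 : (B : ℚ≥0) ≤ ((S j).card : ℚ≥0) := by exact_mod_cast hS j
    exact div_le_div₀ (by exact_mod_cast Nat.zero_le _) h3 hBQ h4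
  have h3 := h1.trans h2
  rw [div_le_div_iff₀ hposQ hBQ] at h3
  exact_mod_cast h3

end univ

end Pool.Agent.H859.DA
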