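import Pool.Agent.H859.SC.DA4
import Pool.Graph.R_pool_sql_team_seeded_63374d34.N402.PJ.LD
import Pool.Graph.R_pool_sql_team_seeded_63374d34.N160.PP.BOX

/-!
# Discriminants divisible by the square of a prime (after `N402/PJ/LD.lean` of helper402)
-/

set_option autoImplicit false
set_option linter.all false

open Polynomial
open scoped Classical

namespace Pool.Agent.H859.DA

open Pool.Agent.N402.PJ.LD (dc SS card_SS card_lt fin_lt SS_deg fibP pr pr_zero rootsP no_double)
open Pool.Agent.N874.PP (nm)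

/-- The proportion of discriminants divisible by `P ^ 2`. -/
def S_LDA : Prop := ∀ (g : ℕ) (k : Type) [Field k] [Finite k], 1 ≤ g → (2 : k) ≠ 0 →
  ∃ K : ℕ, ∀ P : k[X], Irreducible P →
  {a : Fin (2 * g + 1) → k[X] | (∀ j, (a j).degree < 2 * P.natDegree) ∧ P ^ 2 ∣ disA a}.ncard *
    nm P ^ 2 ≤ K * nm P ^ (4 * g + 2)

section count

variable {m : ℕ} {k : Type} [Field k] [Finite k] {P : k[X]}

/-- the underlying tuple -/
def coA (a : Fin m → SS P) : Fin m → k[X] := fun j => (a j : k[X])

theorem coA_update (a : Fin m → SS P) (i : Fin m) (y : SS P) (n : ℕ) (hi : (i : ℕ) = n) :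
    coA (Function.update a i y) = fun j : Fin m => if (j : ℕ) = n then (y : k[X]) else coA a j := by
  funext j
  by_cases hj : j = i
  · subst hj
    rw [if_pos hi, coA, Function.update_self]
  · rw [if_neg (by rw [← hi]; exact fun h => hj (Fin.ext h)), coA, Function.update_of_ne hj, coA]

/-- tuples with given residues -/
theorem fib_tuple (hP : P ≠ 0) (b : Fin m → k[X] ⧸ Ideal.span {P}) :
    (Finset.univ.filter fun a : Fin m → SS P => ∀ j, pr P (a j : k[X]) = b j).card ≤ nm P ^ m := by
  choose r hr using fun j => Ideal.Quotient.mk_surjective (I := Ideal.span {P}) (b j)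
  have h1 : (Finset.univ.filter fun a : Fin m → SS P => ∀ j, pr P (a j : k[X]) = b j) ⊆
      Fintype.piFinset fun j => Finset.univ.filter fun y : SS P => P ∣ (y : k[X]) - r j := by
    intro a ha
    rw [Finset.mem_filter] at ha
    rw [Fintype.mem_piFinset]
    intro j
    rw [Finset.mem_filter]
    refine ⟨Finset.mem_univ _, ?_⟩
    rw [← pr_zero, map_sub, sub_eq_zero, ha.2 j, ← hr j]
  refine (Finset.card_le_card h1).trans ?_
  rw [Fintype.card_piFinset]
  refine (Finset.prod_le_prod' fun j _ => fibP hP (r j)).trans ?_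
  rw [Finset.prod_const, Finset.card_univ, Fintype.card_fin]

end count

section zero

variable {g i : ℕ} {k : Type} [Field k] [Finite k] {P : k[X]}

theorem zeros_modP (hex : ∃ a : Fin (2 * g + 1) → k, D2A i a ≠ 0) (hP : Irreducible P) :
    (Finset.univ.filter fun a : Fin (2 * g + 1) → SS P => P ∣ D2A i (coA a)).card * nm P ≤
      dU g i k * nm P ^ (4 * g + 2) := by
  haveI hmax : (Ideal.span {P}).IsMaximal := PrincipalIdealRing.isMaximal_of_irreducible hP
  haveI : IsDomain (k[X] ⧸ Ideal.span {P}) := Ideal.Quotient.isDomain _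
  have hcN : Nat.card (k[X] ⧸ Ideal.span {P}) = nm P := Pool.Agent.N160.PP.card_adj hP
  have hnm : 0 < nm P := by
    rw [nm]
    exact pow_pos Nat.card_pos _
  have hfin : Finite (k[X] ⧸ Ideal.span {P}) := Nat.finite_of_card_ne_zero (by omega)
  letI : Fintype (k[X] ⧸ Ideal.span {P}) := Fintype.ofFinite _
  have hcardF : Fintype.card (k[X] ⧸ Ideal.span {P}) = nm P := by
    rw [← hcN, Nat.card_eq_fintype_card]
  have h1 := few (R := k[X] ⧸ Ideal.span {P}) hex (fun _ => Finset.univ)
    (Fintype.card (k[X] ⧸ Ideal.span {P})) (fun j => le_of_eq Finset.card_univ.symm)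
  rw [Fintype.card_piFinset] at h1
  simp only [Finset.card_univ, Finset.prod_const, Fintype.card_fin, hcardF] at h1
  have h2 := Finset.card_le_mul_card_image_of_maps_to
    (s := Finset.univ.filter fun a : Fin (2 * g + 1) → SS P => P ∣ D2A i (coA a))
    (t := (Fintype.piFinset fun _ : Fin (2 * g + 1) =>
      (Finset.univ : Finset (k[X] ⧸ Ideal.span {P}))).filter fun b => D2A i b = 0)
    (f := fun a j => pr P (a j : k[X])) (by
      intro a ha
      rw [Finset.mem_filter] at ha
      rw [Finset.mem_filter, Fintype.mem_piFinset]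
      refine ⟨fun j => Finset.mem_univ _, ?_⟩
      have h3 := D2A_map i (pr P) (coA a)
      rw [(pr_zero _).2 ha.2] at h3
      exact h3.symm) (nm P ^ (2 * g + 1)) (by
      intro b hb
      refine (Finset.card_le_card ?_).trans (fib_tuple hP.ne_zero b)
      intro a ha
      rw [Finset.mem_filter] at ha ⊢
      exact ⟨Finset.mem_univ _, fun j => congrFun ha.2 j⟩)
  have h3 : nm P ^ (4 * g + 2) = nm P ^ (2 * g + 1) * nm P ^ (2 * g + 1) := by
    rw [← pow_add]; congr 1; ring
  calc _ ≤ (nm P ^ (2 * g + 1) * _) * nm P := Nat.mul_le_mul_right _ h2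
    _ = nm P ^ (2 * g + 1) * (_ * nm P) := by rw [mul_assoc]
    _ ≤ nm P ^ (2 * g + 1) * (dU g i k * nm P ^ (2 * g + 1)) := Nat.mul_le_mul_left _ h1
    _ = _ := by rw [h3]; ring

end zero

/-- **PJ/LD** -/
theorem ldA : S_LDA := by
  intro g k _ _ hg h2
  obtain ⟨i, hi, hlc, hex⟩ := exists_index (k := k) hg h2
  refine ⟨(2 * g + i) * (1 + dU g i k), fun P hP => ?_⟩
  have hig : i < 2 * g + 1 := by omega
  have hM : 0 < nm P := by
    rw [nm]
    exact pow_pos Nat.card_pos _
  -- the number of tuples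
  have hV : (Finset.univ : Finset (Fin (2 * g + 1) → SS P)).card = nm P ^ (4 * g + 2) := by
    rw [Finset.card_univ, Fintype.card_fun, card_SS, Fintype.card_fin, ← pow_mul]
    congr 1
    ring
  have hcst : disA (fun j : Fin (2 * g + 1) => if (j : ℕ) = i then (1 : k[X]) else 0) =
      C (disA (fun j : Fin (2 * g + 1) => if (j : ℕ) = i then (1 : k) else 0)) := by
    have h := disA_map (C : k →+* k[X]) (fun j : Fin (2 * g + 1) =>
      if (j : ℕ) = i then (1 : k) else 0)
    rw [h]
    apply disA_congr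
    intro j
    split_ifs
    · rw [C_1]
    · rw [C_0]
  have hunit : ∀ b : Fin (2 * g + 1) → k[X], IsUnit ((DyA i b).coeff (2 * g + i)) := by
    intro b
    rw [(deg_DyA g k[X] b i hg hi).2, hcst]
    exact isUnit_C.2 (isUnit_iff_ne_zero.2 hlc)
  have hnd : ∀ x : k[X], IsUnit x → ¬ P ∣ x := fun x hx h => hP.not_isUnit (isUnit_of_dvd_unit h hx)
  have hDy : ∀ b : Fin (2 * g + 1) → k[X], (DyA i b).natDegree ≤ 2 * g + i :=
    fun b => (deg_DyA g k[X] b i hg hi).1
  have hDy' : ∀ b : Fin (2 * g + 1) → k[X],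
      (derivative (DyA i b)).natDegree ≤ 2 * g + i - 1 := fun b =>
    (natDegree_derivative_le _).trans (Nat.sub_le_sub_right (hDy b) 1)
  -- the three sets
  have hE := zeros_modP (g := g) (i := i) (P := P) hex hP
  have hA := dc (ι := Fin (2 * g + 1)) (S := SS P) ⟨i, hig⟩
    (fun a => ¬ P ∣ D2A i (coA a) ∧ P ^ 2 ∣ disA (coA a)) (fun _ => True)
    (2 * g + i) (fun _ _ _ => trivial) (by
      intro a _
      have h3 := hDy (coA a)
      by_cases hD : P ∣ D2A i (coA a)
      · rw [Finset.card_eq_zero.2]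
        · exact Nat.zero_le _
        · rw [Finset.filter_eq_empty_iff]
          intro y _ hy
          apply hy.1
          rw [D2A_congr (b := coA a)]
          · exact hD
          · intro j hj
            rw [coA_update a ⟨i, hig⟩ y i rfl]
            simp only [if_neg hj]
      · refine le_trans (Finset.card_le_card ?_) ((rootsP hP _ _ h3 (hnd _ (hunit _))).2
          (no_double h3 (hDy' _) (by omega) hD))
        intro y hy
        rw [Finset.mem_filter] at hy ⊢
        refine ⟨Finset.mem_univ _, ?_⟩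
        rw [DyA_eval, ← coA_update a ⟨i, hig⟩ y i rfl]
        exact hy.2.2)
  have hB := dc (ι := Fin (2 * g + 1)) (S := SS P) ⟨i, hig⟩
    (fun a => P ∣ D2A i (coA a) ∧ P ∣ disA (coA a)) (fun a => P ∣ D2A i (coA a))
    ((2 * g + i) * nm P) (by
      intro a y h
      rw [D2A_congr (b := coA (Function.update a ⟨i, hig⟩ y))]
      · exact h.1
      · intro j hj
        rw [coA_update a ⟨i, hig⟩ y i rfl]
        simp only [if_neg hj]) (by
      intro a _
      have h3 := hDy (coA a)
      refine le_trans (Finset.card_le_card ?_) (rootsP hP _ _ h3 (hnd _ (hunit _))).1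
      intro y hy
      rw [Finset.mem_filter] at hy ⊢
      refine ⟨Finset.mem_univ _, ?_⟩
      rw [DyA_eval, ← coA_update a ⟨i, hig⟩ y i rfl]
      exact hy.2.2)
  rw [card_SS] at hA hB
  rw [Finset.filter_true, hV] at hA
  set e := (Finset.univ.filter fun a : Fin (2 * g + 1) → SS P => P ∣ D2A i (coA a)).card with he
  set α := (Finset.univ.filter fun a : Fin (2 * g + 1) → SS P =>
    ¬ P ∣ D2A i (coA a) ∧ P ^ 2 ∣ disA (coA a)).card with hα
  set β := (Finset.univ.filter fun a : Fin (2 * g + 1) → SS P =>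
    P ∣ D2A i (coA a) ∧ P ∣ disA (coA a)).card with hβ
  have hB2 : β * nm P ^ 2 ≤ (2 * g + i) * dU g i k * nm P ^ (4 * g + 2) := by
    calc β * nm P ^ 2 ≤ (2 * g + i) * nm P * e := hB
      _ = (2 * g + i) * (e * nm P) := by ring
      _ ≤ (2 * g + i) * (dU g i k * nm P ^ (4 * g + 2)) := Nat.mul_le_mul_left _ hE
      _ = _ := by ring
  have hset : {a : Fin (2 * g + 1) → k[X] | (∀ j, (a j).degree < 2 * P.natDegree) ∧
      P ^ 2 ∣ disA a}.ncard ≤ α + β := by
    have h3 : {a : Fin (2 * g + 1) → k[X] | (∀ j, (a j).degree < 2 * P.natDegree) ∧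
        P ^ 2 ∣ disA a} ⊆ coA '' ((Finset.univ.filter fun a : Fin (2 * g + 1) → SS P =>
          P ^ 2 ∣ disA (coA a) : Finset (Fin (2 * g + 1) → SS P)) :
            Set (Fin (2 * g + 1) → SS P)) := by
      rintro a ⟨ha, ha2⟩
      refine ⟨fun j => ⟨a j, mem_degreeLT.2 ?_⟩, ?_, rfl⟩
      · have := ha j
        exact_mod_cast this
      · rw [Finset.mem_coe, Finset.mem_filter]
        exact ⟨Finset.mem_univ _, ha2⟩
    refine (Set.ncard_le_ncard h3 ((Finset.finite_toSet _).image _)).trans ?_
    refine (Set.ncard_image_le (Finset.finite_toSet _)).trans ?_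
    rw [Set.ncard_coe_finset]
    refine (Finset.card_le_card ?_).trans (Finset.card_union_le _ _)
    intro a ha
    rw [Finset.mem_filter] at ha
    rw [Finset.mem_union, Finset.mem_filter, Finset.mem_filter]
    by_cases hD : P ∣ D2A i (coA a)
    · exact Or.inr ⟨Finset.mem_univ _, hD, (dvd_pow_self P two_ne_zero).trans ha.2⟩
    · exact Or.inl ⟨Finset.mem_univ _, hD, ha.2⟩
  calc _ ≤ (α + β) * nm P ^ 2 := Nat.mul_le_mul_right _ hset
    _ = α * nm P ^ 2 + β * nm P ^ 2 := by ring
    _ ≤ (2 * g + i) * nm P ^ (4 * g + 2) + (2 * g + i) * dU g i k * nm P ^ (4 * g + 2) :=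
      Nat.add_le_add hA hB2
    _ = _ := by ring

end Pool.Agent.H859.DA
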