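import Pool.Agent.H859.SC.DA5
import Pool.Graph.R_pool_sql_team_seeded_63374d34.N402.PJ.BX

/-!
# The number of tuples (after `N402/PJ/BX.lean` of helper402)
-/

set_option autoImplicit false
set_option linter.all false

open Polynomial
open scoped Classical

namespace Pool.Agent.H859.DA

open Pool.Agent.N402.PJ (Tc Tc_card)
open Pool.Agent.N874.PP (nm)
open Pool.Agent.H859.PJ (ddA)

/-- The set of coefficients: height `2 N`, given leading coefficients, given residues modulo `W`. -/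
def BxA {k : Type} [Field k] (g N : ℕ) (r : k[X]) (W : k[X]) (A : Fin (2 * g + 1) → k[X]) :
    Set (Fin (2 * g + 1) → k[X]) :=
  {a | ∀ j, (a j).natDegree ≤ 2 * N * (2 * g + 1 - j) ∧
    (a j).coeff (2 * N * (2 * g + 1 - j)) = r.coeff j ∧ W ∣ a j - A j}

/-- The size of `BxA`. -/
def S_BXA : Prop := ∀ (g : ℕ) (k : Type) [Field k] [Finite k] (N : ℕ) (r W : k[X])
  (A : Fin (2 * g + 1) → k[X]), W ≠ 0 → W.natDegree ≤ 2 * N →
  (BxA g N r W A).Finite ∧
    (BxA g N r W A).ncard * nm W ^ (2 * g + 1) = Nat.card k ^ (2 * N * ddA g)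

theorem sum_m (n : ℕ) : 2 * ∑ j ∈ Finset.range n, (n - j) = n * (n + 1) := by
  induction n with
  | zero => rfl
  | succ n ih =>
    rw [Finset.sum_range_succ', Nat.sub_zero]
    have e : ∑ j ∈ Finset.range n, (n + 1 - (j + 1)) = ∑ j ∈ Finset.range n, (n - j) :=
      Finset.sum_congr rfl fun j _ => by omega
    rw [e, mul_add, ih]
    ring

theorem sum_MA (g N : ℕ) : ∑ j : Fin (2 * g + 1), (2 * N * (2 * g + 1 - (j : ℕ))) =
    2 * N * ddA g := by
  rw [← Finset.mul_sum, Fin.sum_univ_eq_sum_range (fun j => 2 * g + 1 - j) (2 * g + 1)]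
  congr 1
  have h := sum_m (2 * g + 1)
  have h2 : 2 * ddA g = (2 * g + 1) * (2 * g + 1 + 1) := by
    unfold ddA
    ring
  omega

/-- **PJ/BX** -/
theorem bxA : S_BXA := by
  intro g k _ _ N r W A hW hd
  have hm : ∀ j : Fin (2 * g + 1), W.natDegree ≤ 2 * N * (2 * g + 1 - (j : ℕ)) := by
    intro j
    have hj := j.2
    calc W.natDegree ≤ 2 * N := hd
      _ = 2 * N * 1 := by ring
      _ ≤ 2 * N * (2 * g + 1 - (j : ℕ)) := Nat.mul_le_mul_left _ (by omega)
  have hB : BxA g N r W A = Set.pi Set.univ fun j : Fin (2 * g + 1) =>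
      Tc W (A j) (2 * N * (2 * g + 1 - (j : ℕ))) (r.coeff j) := by
    ext a
    simp only [BxA, Tc, Set.mem_ofPred_eq, Set.mem_pi, Set.mem_univ, true_implies]
  have hc := fun j : Fin (2 * g + 1) => Tc_card hW (A j) (hm j) (r.coeff j)
  have hfin : (BxA g N r W A).Finite := by
    rw [hB]
    exact Set.Finite.pi fun j => (by have := (hc j).1; exact Set.toFinite _)
  refine ⟨hfin, ?_⟩
  have h1 : (BxA g N r W A).ncard = ∏ j : Fin (2 * g + 1),
      Nat.card k ^ (2 * N * (2 * g + 1 - (j : ℕ)) - W.natDegree) := by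
    rw [← Nat.card_coe_set_eq, hB, Nat.card_congr (Equiv.Set.univPi _), Nat.card_pi]
    exact Finset.prod_congr rfl fun j _ => (hc j).2
  have h2 : nm W ^ (2 * g + 1) = ∏ _j : Fin (2 * g + 1), Nat.card k ^ W.natDegree := by
    rw [Finset.prod_const, Finset.card_univ, Fintype.card_fin]
    rfl
  rw [h1, h2, ← Finset.prod_mul_distrib, ← sum_MA g N, ← Finset.prod_pow_eq_pow_sum]
  refine Finset.prod_congr rfl fun j _ => ?_
  rw [← pow_add, Nat.sub_add_cancel (hm j)]

end Pool.Agent.H859.DA
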