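import Pool.Agent.H859.SC.DA6
import Pool.Graph.R_pool_sql_team_seeded_63374d34.N539.PJ.Lp

/-!
# Few discriminants are divisible by the square of a large prime (after `N539/PJ/Lp.lean` of
# helper539)
-/

set_option autoImplicit false
set_option linter.all false

open Polynomial
open scoped Classical

namespace Pool.Agent.H859.DA

open Pool.Agent.N539.PJ (Bd bd_zero bd_C bd_X bd_one bd_sum bd_det bd_natCast deg_res bd_Ed one_var
  fib_count cls cls_finite cls_ncard Bv)
open Pool.Agent.N874.PP (nm)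

/-- Few discriminants are divisible by the square of a large prime. -/
def S_LPA : Prop := ∀ (g : ℕ) (k : Type) [Field k] [Finite k], 1 ≤ g →
  (2 : k) ≠ 0 → ∀ (r W : k[X]) (A : Fin (2 * g + 1) → k[X]), Squarefree W →
  ∀ ε : ℝ, 0 < ε → ∃ N₀ : ℕ, ∀ N ≥ N₀,
  ({a ∈ BxA g N r W A | ∃ P : k[X], Irreducible P ∧ N / 2 < P.natDegree ∧ ¬ P ∣ W ∧
    P ^ 2 ∣ disA a}.ncard : ℝ) ≤ ε * ((BxA g N r W A).ncard : ℝ)

/-- the degree in `t` of `DyA` -/
theorem bd_DyA {k : Type} [Field k] {g b i : ℕ} (a : Fin (2 * g + 1) → k[X])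
    (h : ∀ j, (a j).natDegree ≤ b) : Bd ((4 * g + 1) * b) (DyA i a) := by
  unfold DyA disA
  generalize hc : (fun j : Fin (2 * g + 1) => if (j : ℕ) = i then (X : k[X][X]) else C (a j)) = c
  have hcb : ∀ j, Bd b (c j) := by
    intro j
    rw [← hc]
    dsimp only
    split_ifs
    · exact bd_X b
    · exact bd_C (h j)
  have hpol : ∀ i, Bd b ((polA c).coeff i) := by
    intro i
    unfold polA
    rw [coeff_add, coeff_X_pow, finset_sum_coeff]
    refine Bd.add ?_ (bd_sum _ _ fun j _ => ?_)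
    · split_ifs
      · exact bd_one b
      · exact bd_zero b
    · rw [coeff_C_mul_X_pow]
      split_ifs
      · exact hcb j
      · exact bd_zero b
  have hder : ∀ i, Bd b ((derivative (polA c)).coeff i) := by
    intro i
    rw [coeff_derivative]
    have e : (((i : ℕ) : k[X][X]) + 1) = ((i + 1 : ℕ) : k[X][X]) := by push_cast; ring
    rw [e]
    have h1 := (hpol (i + 1)).mul (bd_natCast (k := k) 0 (i + 1))
    rwa [add_zero] at h1
  unfold resultant
  have h1 := bd_det (sylvester (polA c) (derivative (polA c)) (2 * g + 1) (2 * g)) (b := b) (by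
    intro i j
    unfold sylvester
    rw [Matrix.of_apply]
    refine Fin.addCases (fun j₁ => ?_) (fun j₁ => ?_) j
    · rw [Fin.addCases_left]
      split_ifs
      · exact hder _
      · exact bd_zero b
    · rw [Fin.addCases_right]
      split_ifs
      · exact hpol _
      · exact bd_zero b)
  refine h1.mono (le_of_eq ?_)
  ring

theorem lpA : S_LPA := by
  intro g k _ _ hg h2 r W A hW ε hε
  obtain ⟨i, hi, hlc, hex⟩ := exists_index (k := k) hg h2
  haveI : CharP k (ringChar k) := ringChar.charP k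
  haveI : Fact (ringChar k).Prime := ⟨CharP.char_is_prime k (ringChar k)⟩
  obtain ⟨p, hp⟩ : ∃ p, p = ringChar k := ⟨_, rfl⟩
  haveI : Fact p.Prime := by rw [hp]; infer_instance
  haveI : CharP k p := by rw [hp]; infer_instance
  have hpp : p.Prime := Fact.out
  have hpg : 3 ≤ p := by
    have h3 := hpp.two_le
    by_contra hcon
    have h4 : p = 2 := by omega
    apply h2
    have h5 : ((p : ℕ) : k) = 0 := CharP.cast_eq_zero k p
    rw [h4] at h5
    exact_mod_cast h5
  have hW0 : W ≠ 0 := hW.ne_zero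
  obtain ⟨μ, hμ⟩ : ∃ μ, μ = W.natDegree := ⟨_, rfl⟩
  have hq2 : 2 ≤ Nat.card k := Finite.one_lt_card
  obtain ⟨q, hq⟩ : ∃ q, q = Nat.card k := ⟨_, rfl⟩
  rw [← hq] at hq2
  obtain ⟨n', hn'⟩ : ∃ n', n' = 2 * g + i := ⟨_, rfl⟩
  obtain ⟨C', hC'⟩ : ∃ C', C' = (n' + n') * ((4 * g + 2) * (2 * (2 * g + 1))) * 3 := ⟨_, rfl⟩
  obtain ⟨K, hK⟩ : ∃ K, K = dU g i k + (C' * n' + n') := ⟨_, rfl⟩
  obtain ⟨n0, hn0⟩ : ∃ n0 : ℕ, (K : ℝ) / ε ≤ n0 := exists_nat_ge _
  refine ⟨2 * (p * n0 + p * μ + μ + 2), fun N hN => ?_⟩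
  obtain ⟨N', hN'⟩ : ∃ N', N' = N / 2 := ⟨_, rfl⟩
  rw [← hN']
  have hN2 : 2 * N' ≤ N := by omega
  have hN3 : N ≤ 3 * N' := by omega
  have hNN : p * n0 + p * μ + μ + 2 ≤ N' := by omega
  have hN1 : 1 ≤ N := by omega
  have hNp : p * n0 ≤ N' := by omega
  have hNμ : p * μ ≤ N' := by omega
  have hNμ' : μ ≤ N' := by omega
  obtain ⟨m, hm⟩ : ∃ m, m = N' / p := ⟨_, rfl⟩
  have hmn : n0 ≤ m := by
    rw [hm, Nat.le_div_iff_mul_le hpp.pos, mul_comm]
    exact hNp
  have hmN : p * m ≤ N' := by rw [hm]; exact Nat.mul_div_le N' p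
  have hmN' : m ≤ N' := by rw [hm]; exact Nat.div_le_self N' p
  -- the sets
  obtain ⟨S, hS⟩ : ∃ S : Fin (2 * g + 1) → Finset k[X], S = fun j : Fin (2 * g + 1) =>
    (cls_finite (2 * N * (2 * g + 1 - (j : ℕ))) (r.coeff j) W (A j)).toFinset := ⟨_, rfl⟩
  have hBx : BxA g N r W A = (Fintype.piFinset S : Set (Fin (2 * g + 1) → k[X])) := by
    ext a
    rw [Finset.mem_coe, Fintype.mem_piFinset, hS]
    simp only [Set.Finite.mem_toFinset]
    rfl
  have hdeg : ∀ a ∈ Fintype.piFinset S, ∀ j : Fin (2 * g + 1),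
      (a j).natDegree ≤ 2 * N * (2 * g + 1 - (j : ℕ)) := by
    intro a ha j
    have h3 := Fintype.mem_piFinset.1 ha j
    rw [hS, Set.Finite.mem_toFinset] at h3
    exact h3.1
  have hdN : ∀ j : Fin (2 * g + 1), 2 * N ≤ 2 * N * (2 * g + 1 - (j : ℕ)) := by
    intro j
    have hj := j.2
    calc 2 * N = 2 * N * 1 := by ring
      _ ≤ _ := Nat.mul_le_mul_left _ (by omega)
  have hScard : ∀ j : Fin (2 * g + 1),
      (S j).card = q ^ (2 * N * (2 * g + 1 - (j : ℕ)) - μ) := by
    intro j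
    have hj := hdN j
    rw [hS]
    simp only
    rw [← Set.ncard_eq_toFinset_card _ (cls_finite _ _ _ _),
      cls_ncard _ _ _ _ hW0 (by rw [← hμ]; omega), hq, hμ]
  -- the coordinate
  obtain ⟨i0, hi0⟩ : ∃ i0 : Fin (2 * g + 1), (i0 : ℕ) = i := ⟨⟨i, by omega⟩, rfl⟩
  have hup0 : ∀ (a : Fin (2 * g + 1) → k[X]) (y : k[X]),
      (fun j : Fin (2 * g + 1) => if (j : ℕ) = i then y else a j) = Function.update a i0 y := by
    intro a y
    funext j
    by_cases hj : j = i0
    · subst hj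
      rw [Function.update_self, if_pos hi0]
    · rw [Function.update_of_ne hj, if_neg]
      intro h
      exact hj (Fin.ext (h.trans hi0.symm))
  have hD2 : ∀ (a : Fin (2 * g + 1) → k[X]) (y : k[X]),
      D2A i (Function.update a i0 y) = D2A i a := by
    intro a y
    apply D2A_congr
    intro j hj
    rw [Function.update_of_ne]
    intro h
    rw [h] at hj
    exact hj hi0
  have hd0 : 2 * N * (2 * g + 1 - (i0 : ℕ)) = 2 * N * (2 * g + 1 - i) := by rw [hi0]
  obtain ⟨d0, hd0'⟩ : ∃ d0, d0 = 2 * N * (2 * g + 1 - i) := ⟨_, rfl⟩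
  have hd4 : 4 * N ≤ d0 := by
    rw [hd0']
    calc 4 * N = 2 * N * 2 := by ring
      _ ≤ _ := Nat.mul_le_mul_left _ (by omega)
  have hdD : d0 ≤ 2 * N * (2 * g + 1) := by
    rw [hd0']
    exact Nat.mul_le_mul_left _ (by omega)
  -- the bad sets
  obtain ⟨B, hB⟩ : ∃ B : Finset (Fin (2 * g + 1) → k[X]), B = (Fintype.piFinset S).filter
    (fun a => ∃ P : k[X], Irreducible P ∧ N' < P.natDegree ∧ ¬ P ∣ W ∧ P ^ 2 ∣ disA a) := ⟨_, rfl⟩
  have hBn : {a ∈ BxA g N r W A | ∃ P : k[X], Irreducible P ∧ N' < P.natDegree ∧ ¬ P ∣ W ∧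
      P ^ 2 ∣ disA a}.ncard = B.card := by
    rw [hBx, hB, ← Set.ncard_coe_finset, Finset.coe_filter]
    rfl
  have hBxn : (BxA g N r W A).ncard = (Fintype.piFinset S).card := by
    rw [hBx, Set.ncard_coe_finset]
  rw [hBn, hBxn]
  obtain ⟨B1, hB1⟩ : ∃ B1 : Finset (Fin (2 * g + 1) → k[X]), B1 = (Fintype.piFinset S).filter
    (fun a => D2A i a = 0) := ⟨_, rfl⟩
  obtain ⟨B2, hB2⟩ : ∃ B2 : Finset (Fin (2 * g + 1) → k[X]), B2 = B.filter
    (fun a => D2A i a ≠ 0) := ⟨_, rfl⟩
  have hBB : B.card ≤ B1.card + B2.card := by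
    refine (Finset.card_le_card (t := B1 ∪ B2) ?_).trans (Finset.card_union_le _ _)
    intro a ha
    rw [Finset.mem_union, hB1, hB2, Finset.mem_filter, Finset.mem_filter]
    by_cases h0 : D2A i a = 0
    · left
      rw [hB, Finset.mem_filter] at ha
      exact ⟨ha.1, h0⟩
    · right
      exact ⟨ha, h0⟩
  -- the sizes
  have hSm : ∀ j, q ^ m ≤ (S j).card := by
    intro j
    rw [hScard j]
    have hj := hdN j
    exact Nat.pow_le_pow_right (by omega) (by omega)
  -- the first set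
  have t1 : B1.card * q ^ m ≤ dU g i k * (Fintype.piFinset S).card := by
    rw [hB1]
    convert few (R := k[X]) hex S (q ^ m) hSm
  -- the second set
  obtain ⟨X', hX'⟩ : ∃ X', X' = (S i0).card * (C' * n') +
    (n' * q ^ (d0 / p + 1)) * q ^ m := ⟨_, rfl⟩
  have hqm : 0 < q ^ m := by positivity
  have hB2s : B2 ⊆ Fintype.piFinset S := by
    rw [hB2, hB]
    exact (Finset.filter_subset _ _).trans (Finset.filter_subset _ _)
  have hcst : disA (fun j : Fin (2 * g + 1) => if (j : ℕ) = i then (1 : k[X]) else 0) =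
      C (disA (fun j : Fin (2 * g + 1) => if (j : ℕ) = i then (1 : k) else 0)) := by
    have h := disA_map (C : k →+* k[X]) (fun j : Fin (2 * g + 1) =>
      if (j : ℕ) = i then (1 : k) else 0)
    rw [h]
    apply disA_congr
    intro j
    split_ifs
    · rw [C_1]
    · rw [C_0]
  have c2 : B2.card * (S i0).card ≤ (X' / q ^ m) * (Fintype.piFinset S).card := by
    refine fib_count S i0 B2 hB2s _ ?_
    intro a ha
    obtain ⟨e1, e2⟩ := deg_DyA g k[X] a i hg hi
    rw [Nat.le_div_iff_mul_le hqm]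
    by_cases h0 : D2A i a = 0
    · have : ((S i0).filter fun y => Function.update a i0 y ∈ B2) = ∅ := by
        rw [Finset.filter_eq_empty_iff]
        intro y _ hy
        rw [hB2, Finset.mem_filter, hD2] at hy
        exact hy.2 h0
      rw [this, Finset.card_empty, zero_mul]
      exact Nat.zero_le _
    · have hunit : IsUnit ((DyA i a).coeff (2 * g + i)) := by
        rw [e2, hcst]
        exact isUnit_C.2 (isUnit_iff_ne_zero.2 hlc)
      have hnd : (DyA i a).natDegree = n' := by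
        rw [hn']
        exact le_antisymm e1 (le_natDegree_of_ne_zero hunit.ne_zero)
      have hlc' : IsUnit (DyA i a).leadingCoeff := by
        rw [leadingCoeff, hnd, hn']
        exact hunit
      have hbd : Bd ((4 * g + 1) * (2 * N * (2 * g + 1))) (DyA i a) := by
        refine bd_DyA a fun j => (hdeg a ha j).trans ?_
        exact Nat.mul_le_mul_left _ (Nat.sub_le _ _)
      have h0' : resultant (DyA i a) (derivative (DyA i a)) n' (n' - 1) ≠ 0 := by
        rw [hn']
        exact h0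
      have hone := one_var p hnd (by omega) hlc' h0' d0 (r.coeff i0) W (A i0) C' N' m (by
          intro δ hδ
          refine (deg_res (hbd.mono (Nat.le_add_right _ _)) (bd_Ed hbd (hδ.trans hdD))).trans ?_
          have e3 : (n' + n') * ((4 * g + 1) * (2 * N * (2 * g + 1)) + 2 * N * (2 * g + 1)) =
              (n' + n') * ((4 * g + 2) * (2 * (2 * g + 1))) * N := by ring
          rw [e3, hC']
          calc (n' + n') * ((4 * g + 2) * (2 * (2 * g + 1))) * N ≤
              (n' + n') * ((4 * g + 2) * (2 * (2 * g + 1))) * (3 * N') :=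
                Nat.mul_le_mul_left _ hN3
            _ = _ := by ring) hmN' (by
          rw [mul_add, ← hμ]
          omega)
      have hSi0 : S i0 = (cls_finite d0 (r.coeff i0) W (A i0)).toFinset := by
        rw [hS, hd0', ← hd0]
      rw [← hSi0, ← hq, ← hX'] at hone
      rw [mul_comm]
      refine le_trans (Nat.mul_le_mul_left _ (Finset.card_le_card ?_)) hone
      intro y hy
      rw [Finset.mem_filter] at hy ⊢
      refine ⟨hy.1, ?_⟩
      have hy2 := hy.2
      rw [hB2, Finset.mem_filter, hB, Finset.mem_filter] at hy2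
      obtain ⟨⟨_, P, hP1, hP2, hP3, hP4⟩, _⟩ := hy2
      refine ⟨P, hP1, hP2, hP3, ?_⟩
      rw [DyA_eval, hup0]
      exact hP4
  -- the sizes
  have hdp : d0 / p ≤ d0 / 3 := Nat.div_le_div_left (by omega) (by norm_num)
  have hS0 : (S i0).card = q ^ (d0 - μ) := by
    rw [hScard i0, hd0, ← hd0']
  have hS0' : q ^ (d0 / p + 1) * q ^ m ≤ (S i0).card := by
    rw [hS0, ← pow_add]
    exact Nat.pow_le_pow_right (by omega) (by omega)
  have hS0p : 0 < (S i0).card := by rw [hS0]; positivity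
  have t2 : B2.card * q ^ m ≤ (C' * n' + n') * (Fintype.piFinset S).card := by
    have e1 : q ^ m * (B2.card * (S i0).card) ≤ X' * (Fintype.piFinset S).card := by
      refine (Nat.mul_le_mul_left _ c2).trans ?_
      rw [← mul_assoc]
      exact Nat.mul_le_mul_right _ (Nat.mul_div_le _ _)
    have e2 : X' ≤ (C' * n' + n') * (S i0).card := by
      rw [hX', mul_assoc n']
      refine (Nat.add_le_add_left (Nat.mul_le_mul_left n' hS0') _).trans (le_of_eq ?_)
      ring
    have e3 : (B2.card * q ^ m) * (S i0).card ≤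
        ((C' * n' + n') * (Fintype.piFinset S).card) * (S i0).card := by
      calc (B2.card * q ^ m) * (S i0).card = q ^ m * (B2.card * (S i0).card) := by ring
        _ ≤ (C' * n' + n') * (S i0).card * (Fintype.piFinset S).card :=
          e1.trans (Nat.mul_le_mul_right _ e2)
        _ = _ := by ring
    exact Nat.le_of_mul_le_mul_right e3 hS0p
  have t3 : B.card * q ^ m ≤ K * (Fintype.piFinset S).card := by
    rw [hK, add_mul]
    refine (Nat.mul_le_mul_right (q ^ m) hBB).trans ?_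
    rw [add_mul]
    exact Nat.add_le_add t1 t2
  have t4 : (K : ℝ) ≤ ε * (q : ℝ) ^ m := by
    rw [div_le_iff₀ hε] at hn0
    have e1 : n0 ≤ q ^ m := by
      have h3 : m < q ^ m := Nat.lt_pow_self (by omega)
      omega
    have e2 : (n0 : ℝ) ≤ (q : ℝ) ^ m := by exact_mod_cast e1
    have e3 := mul_le_mul_of_nonneg_left e2 hε.le
    linarith
  have t5 : (B.card : ℝ) * (q : ℝ) ^ m ≤ K * ((Fintype.piFinset S).card : ℝ) := by
    exact_mod_cast t3
  have hqr : (0 : ℝ) < (q : ℝ) ^ m := by exact_mod_cast hqm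
  have t6 : (B.card : ℝ) * (q : ℝ) ^ m ≤ (ε * ((Fintype.piFinset S).card : ℝ)) * (q : ℝ) ^ m := by
    refine t5.trans ?_
    have h3 := mul_le_mul_of_nonneg_right t4 (Nat.cast_nonneg (Fintype.piFinset S).card : (0 : ℝ) ≤ _)
    linarith
  exact le_of_mul_le_mul_right t6 hqr

end Pool.Agent.H859.DA
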