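import Pool.Agent.H859.SC.DA7
import Pool.Agent.H859.SC.N615JMTch
import Pool.Graph.R_pool_sql_team_seeded_63374d34.N615.JM.FamT

/-!
# The sieve with additional congruences in every odd characteristic (after `N615/JM/FamT.lean` of
# helper615)
-/

set_option autoImplicit false
set_option linter.all false

open Polynomial
open scoped Classical

namespace Pool.Agent.H859.DA

open Pool.Agent.H859.PJ
open Pool.Agent.N352.PJ (Cg dsc)
open Pool.Agent.N874.PP (nm)
open Pool.Agent.N490.PP.Fam (Irr Irr_finite Irr_le exists_monic q_pos lt_finite)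
open Pool.Agent.N615.JM (coprime_of_ne crt2 crtU prod_sqf mem_of_dvd nm_mul nm_pow nm_prod nm_pos
  map_cg geom)

section poly

variable {k : Type} [Field k] {g : ℕ}

/-- congruences modulo `Q` -/
theorem cgA_of {Q : k[X]} {a : Fin (2 * g + 1) → k[X]} {F : k[X][X]} (hm : F.Monic)
    (hd : F.natDegree = 2 * g + 1)
    (h : ∀ j : Fin (2 * g + 1), Q ∣ a j - F.coeff j) : Cg Q (polA a) F := by
  intro j
  rw [← polA_eq hm hd, polA_coeff, polA_coeff]
  split_ifs with h1 h2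
  · rw [sub_self]; exact dvd_zero _
  · exact h ⟨j, h2⟩
  · rw [sub_self]; exact dvd_zero _

/-- the discriminant at the primes where the reduction is separable -/
theorem not_dvdA {Q : k[X]} (hQ : Irreducible Q) {a : Fin (2 * g + 1) → k[X]}
    (hs : ((polA a).map (Ideal.Quotient.mk (Ideal.span {Q}))).Separable) : ¬ Q ∣ disA a := by
  intro hd
  have hmax : (Ideal.span {Q}).IsMaximal := PrincipalIdealRing.isMaximal_of_irreducible hQ
  letI : Field (k[X] ⧸ Ideal.span {Q}) := Ideal.Quotient.field _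
  set φ := Ideal.Quotient.mk (Ideal.span {Q}) with hφ
  rw [polA_map] at hs
  apply disA_ne hs
  rw [← disA_map, hφ, Ideal.Quotient.eq_zero_iff_mem, Ideal.mem_span_singleton]
  exact hd

variable [Finite k]

theorem finq {Q : k[X]} (hQ : Irreducible Q) : Finite (k[X] ⧸ Ideal.span {Q}) :=
  Pool.Agent.N160.PP.finite_adj hQ

/-- the reductions at the primes of `T` -/
theorem sepTA {Q : k[X]} (hQ : Irreducible Q) {F : k[X][X]}
    (hi : Irreducible (F.map (Ideal.Quotient.mk (Ideal.span {Q})))) :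
    (F.map (Ideal.Quotient.mk (Ideal.span {Q}))).Separable := by
  have hmax : (Ideal.span {Q}).IsMaximal := PrincipalIdealRing.isMaximal_of_irreducible hQ
  letI : Field (k[X] ⧸ Ideal.span {Q}) := Ideal.Quotient.field _
  haveI : Finite (k[X] ⧸ Ideal.span {Q}) := finq hQ
  exact PerfectField.separable_of_irreducible hi

/-- the reductions at the primes of `S` -/
theorem sepSA {Q : k[X]} (hQ : Irreducible Q) (hg : 1 ≤ g)
    {h : k[X][X]} (hm : h.Monic) (hd : h.natDegree = 2 * g)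
    (hi : Irreducible (h.map (Ideal.Quotient.mk (Ideal.span {Q})))) :
    ((X * h).map (Ideal.Quotient.mk (Ideal.span {Q}))).Separable := by
  have h0 := sepTA hQ hi
  have hmax : (Ideal.span {Q}).IsMaximal := PrincipalIdealRing.isMaximal_of_irreducible hQ
  letI : Field (k[X] ⧸ Ideal.span {Q}) := Ideal.Quotient.field _
  set φ := Ideal.Quotient.mk (Ideal.span {Q}) with hφ
  have hdm : (h.map φ).natDegree = 2 * g := by rw [hm.natDegree_map, hd]
  rw [Polynomial.map_mul, map_X]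
  apply Separable.mul separable_X h0
  rw [irreducible_X.coprime_iff_not_dvd]
  intro hdv
  have h3 := natDegree_eq_of_degree_eq
    (degree_eq_degree_of_associated (irreducible_X.associated_of_dvd hi hdv))
  rw [natDegree_X, hdm] at h3
  omega

/-- one prime -/
theorem one_primeA {K : ℕ} (hLD : ∀ P : k[X], Irreducible P →
    {a : Fin (2 * g + 1) → k[X] | (∀ j, (a j).degree < 2 * P.natDegree) ∧ P ^ 2 ∣ disA a}.ncard *
      nm P ^ 2 ≤ K * nm P ^ (4 * g + 2)) (hBX : S_BXA)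
    {N : ℕ} {r W P : k[X]} (A : Fin (2 * g + 1) → k[X]) (hW : W ≠ 0) (hP : Irreducible P)
    (hPW : ¬ P ∣ W) (hdeg : W.natDegree + 2 * P.natDegree ≤ 2 * N) :
    {a ∈ BxA g N r W A | P ^ 2 ∣ disA a}.ncard * nm P ^ 2 ≤ K * (BxA g N r W A).ncard := by
  have hP0 : P ≠ 0 := hP.ne_zero
  have hc : IsCoprime W (P ^ 2) :=
    ((hP.coprime_iff_not_dvd.2 hPW).symm).pow_right
  set Rs : Set (Fin (2 * g + 1) → k[X]) :=
    {a | (∀ j, (a j).degree < 2 * P.natDegree) ∧ P ^ 2 ∣ disA a} with hRs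
  have hRfin : Rs.Finite := by
    have h1 : (Set.univ.pi fun _ : Fin (2 * g + 1) =>
        (degreeLT k (2 * P.natDegree) : Set k[X])).Finite :=
      Set.Finite.pi fun _ => lt_finite _
    refine h1.subset fun a ha => ?_
    intro j _
    rw [SetLike.mem_coe, mem_degreeLT]
    exact_mod_cast ha.1 j
  have hex := fun a : Fin (2 * g + 1) → k[X] => crt2 hc A a
  choose c hc1 hc2 using hex
  have hsub : {a ∈ BxA g N r W A | P ^ 2 ∣ disA a} ⊆
      ⋃ b ∈ hRfin.toFinset, BxA g N r (W * P ^ 2) (c b) := by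
    rintro a ⟨ha, hPa⟩
    have hP2 : P ^ 2 ≠ 0 := pow_ne_zero 2 hP0
    have hmod : ∀ j, P ^ 2 ∣ a j - a j % P ^ 2 := fun j =>
      ⟨a j / P ^ 2, by linear_combination -(EuclideanDomain.div_add_mod (a j) (P ^ 2))⟩
    rw [Set.mem_iUnion₂]
    refine ⟨fun j => a j % P ^ 2, ?_, ?_⟩
    · rw [Set.Finite.mem_toFinset]
      refine ⟨fun j => ?_, ?_⟩
      · have h1 : (a j % P ^ 2).degree < (P ^ 2).degree := EuclideanDomain.mod_lt _ hP2
        rw [degree_eq_natDegree hP2, natDegree_pow] at h1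
        exact_mod_cast h1
      · rw [← Ideal.mem_span_singleton, ← Ideal.Quotient.eq_zero_iff_mem, disA_map]
        have h2 : (Ideal.Quotient.mk (Ideal.span {P ^ 2})) (disA a) = 0 :=
          Ideal.Quotient.eq_zero_iff_mem.2 (Ideal.mem_span_singleton.2 hPa)
        rw [disA_map] at h2
        rw [← h2]
        congr 1
        funext j
        exact (Ideal.Quotient.eq.2 (Ideal.mem_span_singleton.2 (hmod j))).symm
    · intro j
      refine ⟨(ha j).1, (ha j).2.1, ?_⟩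
      apply hc.mul_dvd
      · have h1 := dvd_sub (ha j).2.2 (hc1 (fun j => a j % P ^ 2) j)
        rwa [sub_sub_sub_cancel_right] at h1
      · have h1 := dvd_sub (hmod j) (hc2 (fun j => a j % P ^ 2) j)
        rwa [sub_sub_sub_cancel_right] at h1
  have hWP : W * P ^ 2 ≠ 0 := mul_ne_zero hW (pow_ne_zero 2 hP0)
  have hWPd : (W * P ^ 2).natDegree ≤ 2 * N := by
    rw [natDegree_mul hW (pow_ne_zero 2 hP0), natDegree_pow]
    exact hdeg
  have hb := fun b => hBX g k N r (W * P ^ 2) (c b) hWP hWPd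
  have hB0 := (hBX g k N r W A hW (by omega)).2
  have hnm : nm (W * P ^ 2) = nm W * nm P ^ 2 := by
    rw [nm_mul hW (pow_ne_zero 2 hP0), nm_pow]
  have hW' := nm_pos W
  have hP' := nm_pos P
  have hbig : 0 < nm (W * P ^ 2) ^ (2 * g + 1) := pow_pos (nm_pos _) _
  have hfin : (⋃ b ∈ hRfin.toFinset, BxA g N r (W * P ^ 2) (c b)).Finite :=
    Set.Finite.biUnion (Finset.finite_toSet _) fun b _ => (hb b).1
  have h1 : {a ∈ BxA g N r W A | P ^ 2 ∣ disA a}.ncard ≤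
      ∑ b ∈ hRfin.toFinset, (BxA g N r (W * P ^ 2) (c b)).ncard :=
    (Set.ncard_le_ncard hsub hfin).trans (Finset.set_ncard_biUnion_le _ _)
  have h2 : {a ∈ BxA g N r W A | P ^ 2 ∣ disA a}.ncard * nm (W * P ^ 2) ^ (2 * g + 1) ≤
      Rs.ncard * Nat.card k ^ (2 * N * ddA g) := by
    calc _ ≤ (∑ b ∈ hRfin.toFinset, (BxA g N r (W * P ^ 2) (c b)).ncard) *
          nm (W * P ^ 2) ^ (2 * g + 1) := Nat.mul_le_mul_right _ h1
      _ = ∑ b ∈ hRfin.toFinset, Nat.card k ^ (2 * N * ddA g) := by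
          rw [Finset.sum_mul]
          exact Finset.sum_congr rfl fun b _ => (hb b).2
      _ = Rs.ncard * Nat.card k ^ (2 * N * ddA g) := by
          rw [Finset.sum_const, smul_eq_mul, Set.ncard_eq_toFinset_card _ hRfin]
  have h3 := hLD P hP
  rw [← hRs] at h3
  have h4 : ({a ∈ BxA g N r W A | P ^ 2 ∣ disA a}.ncard * nm P ^ 2) *
      nm (W * P ^ 2) ^ (2 * g + 1) ≤
      (K * (BxA g N r W A).ncard) * nm (W * P ^ 2) ^ (2 * g + 1) := by
    calc _ = ({a ∈ BxA g N r W A | P ^ 2 ∣ disA a}.ncard * nm (W * P ^ 2) ^ (2 * g + 1)) *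
          nm P ^ 2 := by ring
      _ ≤ (Rs.ncard * Nat.card k ^ (2 * N * ddA g)) * nm P ^ 2 := Nat.mul_le_mul_right _ h2
      _ = (Rs.ncard * nm P ^ 2) * Nat.card k ^ (2 * N * ddA g) := by ring
      _ ≤ (K * nm P ^ (4 * g + 2)) * Nat.card k ^ (2 * N * ddA g) := Nat.mul_le_mul_right _ h3
      _ = (K * nm P ^ (4 * g + 2)) * ((BxA g N r W A).ncard * nm W ^ (2 * g + 1)) := by rw [hB0]
      _ = (K * (BxA g N r W A).ncard) * nm (W * P ^ 2) ^ (2 * g + 1) := by
          rw [hnm, mul_pow, ← pow_mul]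
          ring
  exact Nat.le_of_mul_le_mul_right h4 hbig

/-- all the primes of degree between `D` and `N / 2` -/
theorem mid_primesA {K : ℕ} (hLD : ∀ P : k[X], Irreducible P →
    {a : Fin (2 * g + 1) → k[X] | (∀ j, (a j).degree < 2 * P.natDegree) ∧ P ^ 2 ∣ disA a}.ncard *
      nm P ^ 2 ≤ K * nm P ^ (4 * g + 2)) (hBX : S_BXA)
    {N D : ℕ} {r W : k[X]} (A : Fin (2 * g + 1) → k[X]) (hW : W ≠ 0) (hdeg : W.natDegree ≤ N)
    (hD : 4 * K ≤ Nat.card k ^ D) :
    ({a ∈ BxA g N r W A | ∃ P : k[X], P.Monic ∧ Irreducible P ∧ D < P.natDegree ∧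
      P.natDegree ≤ N / 2 ∧ ¬ P ∣ W ∧ P ^ 2 ∣ disA a}.ncard : ℝ) ≤
      1 / 4 * ((BxA g N r W A).ncard : ℝ) := by
  have hBfin := (hBX g k N r W A hW (by omega)).1
  set B0 := (BxA g N r W A).ncard with hB0
  have hq := q_pos (k := k)
  have hq1 : (1 : ℝ) < Nat.card k := by exact_mod_cast hq
  have hq2 : (2 : ℝ) ≤ Nat.card k := by exact_mod_cast hq
  set J : ℕ → Finset k[X] := fun d => (Irr_finite (k := k) d).toFinset.filter fun P => ¬ P ∣ W with hJ
  have hsub : {a ∈ BxA g N r W A | ∃ P : k[X], P.Monic ∧ Irreducible P ∧ D < P.natDegree ∧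
      P.natDegree ≤ N / 2 ∧ ¬ P ∣ W ∧ P ^ 2 ∣ disA a} ⊆
      ⋃ d ∈ Finset.Ioc D (N / 2), ⋃ P ∈ J d, {a ∈ BxA g N r W A | P ^ 2 ∣ disA a} := by
    rintro a ⟨ha, P, h1, h2, h3, h4, h5, h6⟩
    rw [Set.mem_iUnion₂]
    refine ⟨P.natDegree, Finset.mem_Ioc.2 ⟨h3, h4⟩, ?_⟩
    rw [Set.mem_iUnion₂]
    refine ⟨P, ?_, ha, h6⟩
    rw [hJ, Finset.mem_filter, Set.Finite.mem_toFinset]
    exact ⟨⟨h1, h2, rfl⟩, h5⟩
  have hfin : (⋃ d ∈ Finset.Ioc D (N / 2), ⋃ P ∈ J d,
      {a ∈ BxA g N r W A | P ^ 2 ∣ disA a}).Finite := by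
    refine hBfin.subset ?_
    intro a ha
    rw [Set.mem_iUnion₂] at ha
    obtain ⟨d, _, ha⟩ := ha
    rw [Set.mem_iUnion₂] at ha
    obtain ⟨P, _, ha⟩ := ha
    exact ha.1
  have h1 : {a ∈ BxA g N r W A | ∃ P : k[X], P.Monic ∧ Irreducible P ∧ D < P.natDegree ∧
      P.natDegree ≤ N / 2 ∧ ¬ P ∣ W ∧ P ^ 2 ∣ disA a}.ncard ≤
      ∑ d ∈ Finset.Ioc D (N / 2), ∑ P ∈ J d, {a ∈ BxA g N r W A | P ^ 2 ∣ disA a}.ncard :=
    (Set.ncard_le_ncard hsub hfin).trans ((Finset.set_ncard_biUnion_le _ _).trans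
      (Finset.sum_le_sum fun d _ => Finset.set_ncard_biUnion_le _ _))
  have h2 : ∀ d ∈ Finset.Ioc D (N / 2),
      (∑ P ∈ J d, ({a ∈ BxA g N r W A | P ^ 2 ∣ disA a}.ncard : ℝ)) ≤
      K * B0 * (1 / (Nat.card k : ℝ)) ^ d := by
    intro d hd
    rw [Finset.mem_Ioc] at hd
    have h3 : ∀ P ∈ J d, ({a ∈ BxA g N r W A | P ^ 2 ∣ disA a}.ncard : ℝ) ≤
        K * B0 / ((Nat.card k : ℝ) ^ d) ^ 2 := by
      intro P hP
      rw [hJ, Finset.mem_filter, Set.Finite.mem_toFinset] at hP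
      obtain ⟨⟨h4, h5, h6⟩, h7⟩ := hP
      rw [le_div_iff₀ (by positivity)]
      have h8 := one_primeA hLD hBX (r := r) (N := N) A hW h5 h7 (by rw [h6]; omega)
      have h9 : nm P = Nat.card k ^ d := by unfold nm; rw [h6]
      rw [h9] at h8
      exact_mod_cast h8
    have h4 : ((J d).card : ℝ) ≤ (Nat.card k : ℝ) ^ d := by
      have h5 : (J d).card ≤ (Irr k d).ncard := by
        rw [Set.ncard_eq_toFinset_card _ (Irr_finite (k := k) d)]
        exact Finset.card_filter_le _ _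
      exact_mod_cast h5.trans (Irr_le d)
    calc (∑ P ∈ J d, ({a ∈ BxA g N r W A | P ^ 2 ∣ disA a}.ncard : ℝ)) ≤
          ∑ P ∈ J d, K * B0 / ((Nat.card k : ℝ) ^ d) ^ 2 := Finset.sum_le_sum h3
      _ = (J d).card * (K * B0 / ((Nat.card k : ℝ) ^ d) ^ 2) := by
          rw [Finset.sum_const, nsmul_eq_mul]
      _ ≤ (Nat.card k : ℝ) ^ d * (K * B0 / ((Nat.card k : ℝ) ^ d) ^ 2) :=
          mul_le_mul_of_nonneg_right h4 (by positivity)
      _ = K * B0 * (1 / (Nat.card k : ℝ)) ^ d := by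
          have : (Nat.card k : ℝ) ^ d ≠ 0 := by positivity
          rw [one_div, inv_pow]
          field_simp
  have h3 : (∑ d ∈ Finset.Ioc D (N / 2),
      ∑ P ∈ J d, ({a ∈ BxA g N r W A | P ^ 2 ∣ disA a}.ncard : ℝ)) ≤
      K * B0 * (1 / (Nat.card k : ℝ)) ^ D := by
    calc _ ≤ ∑ d ∈ Finset.Ioc D (N / 2), K * B0 * (1 / (Nat.card k : ℝ)) ^ d :=
          Finset.sum_le_sum h2
      _ = K * B0 * ∑ d ∈ Finset.Ioc D (N / 2), (1 / (Nat.card k : ℝ)) ^ d := by
          rw [Finset.mul_sum]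
      _ ≤ K * B0 * (1 / (Nat.card k : ℝ)) ^ D := by
          apply mul_le_mul_of_nonneg_left _ (by positivity)
          apply geom (by positivity)
          rw [div_le_div_iff₀ (by positivity) (by norm_num)]
          linarith
  have h4 : (4 * K : ℝ) ≤ (Nat.card k : ℝ) ^ D := by exact_mod_cast hD
  have h5 : (K : ℝ) * B0 * (1 / (Nat.card k : ℝ)) ^ D ≤ 1 / 4 * B0 := by
    have h6 : (K : ℝ) * (1 / (Nat.card k : ℝ)) ^ D ≤ 1 / 4 := by
      rw [one_div, inv_pow, ← div_eq_mul_inv, div_le_iff₀ (by positivity)]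
      linarith
    calc (K : ℝ) * B0 * (1 / (Nat.card k : ℝ)) ^ D =
          ((K : ℝ) * (1 / (Nat.card k : ℝ)) ^ D) * B0 := by ring
      _ ≤ 1 / 4 * B0 := mul_le_mul_of_nonneg_right h6 (Nat.cast_nonneg _)
  refine le_trans ?_ (h3.trans h5)
  exact_mod_cast h1

/-- the family is finite -/
theorem famTA_fin (hBX : S_BXA) {N : ℕ} {r : k[X]} {S : Finset k[X]} {h : k[X] → k[X][X]}
    {T : Finset k[X]} {A : k[X] → k[X][X]} : {f : k[X][X] | FamTA g N r S h T A f}.Finite := by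
  refine (((hBX g k N r 1 (fun _ => 0) one_ne_zero (by simp)).1).image polA).subset ?_
  intro f hf
  refine ⟨fun j => f.coeff j, fun j => ⟨?_, ?_, one_dvd _⟩, ?_⟩
  · exact hf.fam.ht.ht j (by have := j.2; omega)
  · exact hf.fam.inf j (by have := j.2; omega)
  · exact polA_eq hf.fam.ht.mon hf.fam.ht.deg

/-- the core: all the small primes are in `S ∪ T` -/
theorem coreA {K : ℕ} (hLD : ∀ P : k[X], Irreducible P →
    {a : Fin (2 * g + 1) → k[X] | (∀ j, (a j).degree < 2 * P.natDegree) ∧ P ^ 2 ∣ disA a}.ncard *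
      nm P ^ 2 ≤ K * nm P ^ (4 * g + 2)) (hBX : S_BXA) (hLP : S_LPA) (hg : 1 ≤ g)
    (h2 : (2 : k) ≠ 0) {D : ℕ} (hD : 4 * K ≤ Nat.card k ^ D) {r : k[X]}
    (hr : GoodRA g r) (S : Finset k[X]) (h : k[X] → k[X][X]) (hS : GoodSA g S h)
    (T : Finset k[X]) (A : k[X] → k[X][X]) (hT : GoodTA g T A) (hdis : Disjoint S T)
    (hsm : ∀ P : k[X], P.Monic → Irreducible P → P.natDegree ≤ D → P ∈ S ∪ T) :
    ∃ N₀ : ℕ, ∀ N ≥ N₀, (Nat.card k : ℝ) ^ (2 * N * ddA g) ≤
      2 * ((∏ Q ∈ S ∪ T, nm Q ^ (2 * g + 1) : ℕ) : ℝ) *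
        ({f : k[X][X] | FamTA g N r S h T A f}.ncard : ℝ) := by
  have hU : ∀ Q ∈ S ∪ T, Q.Monic ∧ Irreducible Q := by
    intro Q hQ
    rcases Finset.mem_union.1 hQ with hQ | hQ
    · exact ⟨(hS Q hQ).1, (hS Q hQ).2.1⟩
    · exact ⟨(hT Q hQ).1, (hT Q hQ).2.1⟩
  set W : k[X] := ∏ Q ∈ S ∪ T, Q with hWdef
  have hWsq : Squarefree W := prod_sqf _ hU
  have hWm : W.Monic := monic_prod_of_monic _ _ fun Q hQ => (hU Q hQ).1
  have hW0 : W ≠ 0 := hWm.ne_zero
  have hnW : nm W ^ (2 * g + 1) = ∏ Q ∈ S ∪ T, nm Q ^ (2 * g + 1) := by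
    rw [hWdef, nm_prod _ fun Q hQ => (hU Q hQ).1, Finset.prod_pow]
  -- the polynomial prescribed at `Q`
  set F : k[X] → k[X][X] := fun Q => if Q ∈ S then X * h Q else A Q with hF
  have hFS : ∀ Q ∈ S, F Q = X * h Q := fun Q hQ => if_pos hQ
  have hFT : ∀ Q ∈ T, F Q = A Q := fun Q hQ =>
    if_neg (fun h' => (Finset.disjoint_left.1 hdis h') hQ)
  have hFp : ∀ Q ∈ S ∪ T, (F Q).Monic ∧ (F Q).natDegree = 2 * g + 1 ∧
      ((F Q).map (Ideal.Quotient.mk (Ideal.span {Q}))).Separable := by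
    intro Q hQ
    rcases Finset.mem_union.1 hQ with hQ | hQ
    · obtain ⟨h1, h2, h3, h4, h5, h6⟩ := hS Q hQ
      rw [hFS Q hQ]
      refine ⟨monic_X.mul h3, ?_, sepSA h2 hg h3 h4 h6⟩
      rw [monic_X.natDegree_mul h3, natDegree_X, h4]; ring
    · obtain ⟨h1, h2, h3, h4, h5, h6⟩ := hT Q hQ
      rw [hFT Q hQ]
      exact ⟨h3, h4, sepTA h2 h6⟩
  obtain ⟨A', hA'⟩ := crtU (ι := Fin (2 * g + 1)) (S ∪ T) hU fun Q j => (F Q).coeff j
  obtain ⟨N₁, hN₁⟩ := hLP g k hg h2 r W A' hWsq (1 / 4) (by norm_num)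
  refine ⟨max N₁ (W.natDegree), fun N hN => ?_⟩
  have hNa : N₁ ≤ N := (le_max_left _ _).trans hN
  have hNb : W.natDegree ≤ N := (le_max_right _ _).trans hN
  have hBfin := (hBX g k N r W A' hW0 (by omega)).1
  have hBcard := (hBX g k N r W A' hW0 (by omega)).2
  have hbig := hN₁ N hNa
  have hmid := mid_primesA hLD hBX (r := r) (N := N) A' hW0 hNb hD
  set B := BxA g N r W A' with hB
  set X1 : Set (Fin (2 * g + 1) → k[X]) := {a ∈ B | ∃ P : k[X], P.Monic ∧ Irreducible P ∧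
    D < P.natDegree ∧ P.natDegree ≤ N / 2 ∧ ¬ P ∣ W ∧ P ^ 2 ∣ disA a} with hX1
  set X2 : Set (Fin (2 * g + 1) → k[X]) := {a ∈ B | ∃ P : k[X], Irreducible P ∧
    N / 2 < P.natDegree ∧ ¬ P ∣ W ∧ P ^ 2 ∣ disA a} with hX2
  have hcg : ∀ a ∈ B, ∀ Q ∈ S ∪ T, Cg Q (polA a) (F Q) := by
    intro a ha Q hQ
    obtain ⟨h1, h2, _⟩ := hFp Q hQ
    apply cgA_of h1 h2
    intro j
    have h4 : Q ∣ a j - A' j := (Finset.dvd_prod_of_mem (fun Q => Q) hQ).trans (ha j).2.2
    have h5 := dvd_add h4 (hA' Q hQ j)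
    rwa [sub_add_sub_cancel] at h5
  have hgood : ∀ a ∈ B, a ∉ X1 → a ∉ X2 → FamTA g N r S h T A (polA a) := by
    intro a ha hx1 hx2
    refine ⟨⟨⟨polA_monic a, polA_deg a, ?_⟩, ?_, ?_, ?_⟩, ?_⟩
    · intro j hj
      have h1 : j < 2 * g + 1 := by omega
      have := (ha ⟨j, h1⟩).1
      rw [polA_coeff, if_neg (by omega), dif_pos h1]
      exact this
    · intro j hj
      have h1 : j < 2 * g + 1 := by omega
      have := (ha ⟨j, h1⟩).2.1
      rw [polA_coeff, if_neg (by omega), dif_pos h1]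
      exact this
    · intro Q hQ
      rw [← hFS Q hQ]
      exact hcg a ha Q (Finset.mem_union_left _ hQ)
    · have hno : ∀ P : k[X], Irreducible P → ¬ P * P ∣ disA a := by
        intro P hP hd
        obtain ⟨π, h1, h2, h3⟩ := exists_monic hP
        have hd2 : π ^ 2 ∣ disA a := by
          rw [pow_two]
          exact (mul_dvd_mul h3.dvd h3.dvd).trans hd
        have hnW' : ¬ π ∣ W := by
          intro hπ
          have hmem := mem_of_dvd _ hU h1 h2 hπ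
          have h4 := hcg a ha π hmem
          have h5 := (hFp π hmem).2.2
          rw [← map_cg h4] at h5
          exact not_dvdA h2 h5 ((dvd_pow_self π two_ne_zero).trans hd2)
        have hD' : D < π.natDegree := by
          by_contra hc
          exact hnW' (Finset.dvd_prod_of_mem (fun Q => Q) (hsm π h1 h2 (not_lt.1 hc)))
        rcases Nat.lt_or_ge (N / 2) π.natDegree with h4 | h4
        · exact hx2 ⟨ha, π, h2, h4, hnW', hd2⟩
        · exact hx1 ⟨ha, π, h1, h2, hD', h4, hnW', hd2⟩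
      show Squarefree (disA a)
      rcases (irreducible_sq_not_dvd_iff_eq_zero_and_no_irreducibles_or_squarefree (disA a)).1 hno
        with h1 | h1
      · exact absurd irreducible_X (h1.2 X)
      · exact h1
    · intro Q hQ
      rw [← hFT Q hQ]
      exact hcg a ha Q (Finset.mem_union_right _ hQ)
  have hc1 : (B \ (X1 ∪ X2)).ncard ≤ {f : k[X][X] | FamTA g N r S h T A f}.ncard := by
    apply Set.ncard_le_ncard_of_injOn polA _ _ (famTA_fin hBX)
    · intro a ha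
      exact hgood a ha.1 (fun h' => ha.2 (Or.inl h')) (fun h' => ha.2 (Or.inr h'))
    · intro a _ b _ hab
      exact polA_inj hab
  have hX1f : X1.Finite := hBfin.subset fun _ h' => h'.1
  have hX2f : X2.Finite := hBfin.subset fun _ h' => h'.1
  have hc2 : B.ncard ≤ (B \ (X1 ∪ X2)).ncard + (X1.ncard + X2.ncard) := by
    have h1 := Set.ncard_le_ncard_sdiff_add_ncard B (X1 ∪ X2) (hX1f.union hX2f)
    have h2 := Set.ncard_union_le X1 X2
    omega
  have hc3 : (B.ncard : ℝ) ≤ 2 * ({f : k[X][X] | FamTA g N r S h T A f}.ncard : ℝ) := by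
    have h1 : (B.ncard : ℝ) ≤ ((B \ (X1 ∪ X2)).ncard : ℝ) + (X1.ncard + X2.ncard) := by
      exact_mod_cast hc2
    have h2 : ((B \ (X1 ∪ X2)).ncard : ℝ) ≤
        ({f : k[X][X] | FamTA g N r S h T A f}.ncard : ℝ) := by exact_mod_cast hc1
    linarith
  have hc4 : (Nat.card k : ℝ) ^ (2 * N * ddA g) =
      (B.ncard : ℝ) * ((∏ Q ∈ S ∪ T, nm Q ^ (2 * g + 1) : ℕ) : ℝ) := by
    rw [← hnW]
    exact_mod_cast hBcard.symm
  rw [hc4]
  have hpos : (0 : ℝ) ≤ ((∏ Q ∈ S ∪ T, nm Q ^ (2 * g + 1) : ℕ) : ℝ) := Nat.cast_nonneg _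
  nlinarith [mul_le_mul_of_nonneg_right hc3 hpos]

end poly

/-- **JM/FAMT, from the parts of PJ.** -/
theorem famt_ofA (hLD : S_LDA) (hBX : S_BXA) (hLP : S_LPA) : S_FAMTA := by
  intro g k _ _ hg h2 r hr T A hT
  obtain ⟨K, hK⟩ := hLD g k hg h2
  obtain ⟨D, hD⟩ : ∃ D : ℕ, 4 * K ≤ Nat.card k ^ D :=
    ⟨4 * K, (Nat.lt_pow_self (q_pos (k := k))).le⟩
  -- the small primes
  have hfin : {P : k[X] | P.Monic ∧ Irreducible P ∧ P.natDegree ≤ D}.Finite := by
    have h1 : {P : k[X] | P.Monic ∧ Irreducible P ∧ P.natDegree ≤ D} ⊆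
        ⋃ d ∈ Finset.range (D + 1), Irr k d := by
      rintro P ⟨h1, h2, h3⟩
      rw [Set.mem_iUnion₂]
      exact ⟨P.natDegree, Finset.mem_range.2 (by omega), h1, h2, rfl⟩
    exact (Set.Finite.biUnion (Finset.finite_toSet _) fun d _ => Irr_finite d).subset h1
  set Sm : Finset k[X] := hfin.toFinset with hSm
  have hSmp : ∀ P ∈ Sm, P.Monic ∧ Irreducible P := by
    intro P hP
    have := hfin.mem_toFinset.1 hP
    exact ⟨this.1, this.2.1⟩
  obtain ⟨A0, hA0⟩ := (Pool.Agent.H859.Tch.tch g k hg Sm hSmp).1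
  set A' : k[X] → k[X][X] := fun P => if P ∈ T then A P else A0 P with hA'
  set cc : ℕ := ∏ P ∈ T ∪ Sm, nm P ^ (2 * g + 1) with hcc
  have hccpos : 0 < cc := Finset.prod_pos fun P _ => pow_pos (nm_pos P) _
  refine ⟨1 / (2 * cc), by positivity, fun S h hS hdis => ?_⟩
  set T' : Finset k[X] := T ∪ (Sm \ S) with hT'
  have hGT : GoodTA g T' A' := by
    intro P hP
    by_cases hPT : P ∈ T
    · rw [hA']
      simp only [if_pos hPT]
      exact hT P hPT
    · have hPS : P ∈ Sm \ S := by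
        rcases Finset.mem_union.1 hP with h1 | h1
        · exact absurd h1 hPT
        · exact h1
      rw [hA']
      simp only [if_neg hPT]
      exact hA0 P (Finset.mem_sdiff.1 hPS).1
  have hdis' : Disjoint S T' := by
    rw [hT', Finset.disjoint_union_right]
    exact ⟨hdis, Finset.disjoint_sdiff⟩
  have hsm : ∀ P : k[X], P.Monic → Irreducible P → P.natDegree ≤ D → P ∈ S ∪ T' := by
    intro P h1 h2 h3
    by_cases hPS : P ∈ S
    · exact Finset.mem_union_left _ hPS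
    · apply Finset.mem_union_right
      apply Finset.mem_union_right
      exact Finset.mem_sdiff.2 ⟨hfin.mem_toFinset.2 ⟨h1, h2, h3⟩, hPS⟩
  obtain ⟨N₀, hN₀⟩ := coreA hK hBX hLP hg h2 hD hr S h hS T' A' hGT hdis' hsm
  refine ⟨N₀, fun N hN => ?_⟩
  have h1 := hN₀ N hN
  have hsub : {f : k[X][X] | FamTA g N r S h T' A' f} ⊆ {f : k[X][X] | FamTA g N r S h T A f} := by
    intro f hf
    refine ⟨hf.fam, fun P hP => ?_⟩
    have h2 := hf.con P (Finset.mem_union_left _ hP)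
    rw [hA'] at h2
    simp only [if_pos hP] at h2
    exact h2
  have h2 : {f : k[X][X] | FamTA g N r S h T' A' f}.ncard ≤
      {f : k[X][X] | FamTA g N r S h T A f}.ncard := Set.ncard_le_ncard hsub (famTA_fin hBX)
  have h3 : ∏ Q ∈ S ∪ T', nm Q ^ (2 * g + 1) ≤ (∏ Q ∈ S, nm Q ^ (2 * g + 1)) * cc := by
    rw [Finset.prod_union hdis']
    apply Nat.mul_le_mul_left
    apply Finset.prod_le_prod_of_subset_of_one_le'
    · apply Finset.union_subset_union_right
      exact Finset.sdiff_subset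
    · intro P _ _
      exact Nat.one_le_pow _ _ (nm_pos P)
  have h4 : (Nat.card k : ℝ) ^ (2 * N * ddA g) ≤
      2 * (((∏ Q ∈ S, nm Q ^ (2 * g + 1) : ℕ) : ℝ) * cc) *
      ({f : k[X][X] | FamTA g N r S h T A f}.ncard : ℝ) := by
    refine h1.trans ?_
    have h5 : ((∏ Q ∈ S ∪ T', nm Q ^ (2 * g + 1) : ℕ) : ℝ) ≤
        ((∏ Q ∈ S, nm Q ^ (2 * g + 1) : ℕ) : ℝ) * cc := by exact_mod_cast h3
    have h6 : ({f : k[X][X] | FamTA g N r S h T' A' f}.ncard : ℝ) ≤
        ({f : k[X][X] | FamTA g N r S h T A f}.ncard : ℝ) := by exact_mod_cast h2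
    have h7 : (0 : ℝ) ≤ ((∏ Q ∈ S ∪ T', nm Q ^ (2 * g + 1) : ℕ) : ℝ) := Nat.cast_nonneg _
    have h8 : (0 : ℝ) ≤ ({f : k[X][X] | FamTA g N r S h T' A' f}.ncard : ℝ) := Nat.cast_nonneg _
    apply mul_le_mul (by linarith) h6 h8
    positivity
  have hccR : (0 : ℝ) < cc := by exact_mod_cast hccpos
  rw [div_mul_eq_mul_div, one_mul, div_le_iff₀ (by positivity)]
  calc (Nat.card k : ℝ) ^ (2 * N * ddA g) ≤ _ := h4
    _ = _ := by ring

/-- **JM/FAMT.** -/
theorem famt : S_FAMTA := famt_ofA ldA bxA lpA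

end Pool.Agent.H859.DA
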