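import Pool.Agent.H859.SC.Final
import Pool.Graph.R_pool_sql_team_seeded_63374d34.N55.PM.SigLie
import Pool.Graph.R_pool_sql_team_seeded_63374d34.N814.JM.Cpl

/-!
# The Selmer group over a subfield

If the explicit 2-Selmer group of an odd hyperelliptic curve over a Galois extension `M'` of `M` is
trivial then it is trivial over `M`.
-/

set_option autoImplicit false
set_option linter.all false

open Polynomial IsDedekindDomain
open scoped Classical

namespace Pool.Agent.H859.SC

open Pool.Agent.N874.JM (SelF LocF)
open Pool.Agent.N874.PM (Lies)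

section norm

variable {M : Type} [Field M]

/-- The norm of a polynomial is a resultant. -/
theorem norm_mk {F : M[X]} (hm : F.Monic) (hi : Irreducible F) (hs : F.Separable) (p : M[X])
    {n : ℕ} (hp : p.natDegree ≤ n) :
    Algebra.norm M (AdjoinRoot.mk F p) = resultant F p F.natDegree n := by
  haveI : Fact (Irreducible F) := ⟨hi⟩
  haveI : FiniteDimensional M (AdjoinRoot F) := hm.finite_adjoinRoot
  have hmin : minpoly M (AdjoinRoot.root F) = F := AdjoinRoot.minpoly_root hm.ne_zero |>.trans (by
    rw [hm.leadingCoeff, inv_one, C_1, mul_one])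
  haveI : Algebra.IsSeparable M (AdjoinRoot F) := by
    have hsep' : IsSeparable M (AdjoinRoot.root F) := by
      unfold IsSeparable
      rw [hmin]
      exact hs
    haveI := (IntermediateField.isSeparable_adjoin_simple_iff_isSeparable M (AdjoinRoot F)).2 hsep'
    have htop : IntermediateField.adjoin M {AdjoinRoot.root F} = ⊤ := by
      rw [eq_top_iff]
      intro x _
      obtain ⟨q, rfl⟩ := AdjoinRoot.mk_surjective x
      rw [← AdjoinRoot.aeval_eq]
      exact IntermediateField.algebra_adjoin_le_adjoin M {AdjoinRoot.root F}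
        (aeval_mem_adjoin_singleton M (AdjoinRoot.root F))
    rw [htop] at this
    exact AlgEquiv.Algebra.isSeparable (IntermediateField.topEquiv (F := M) (E := AdjoinRoot F))
  set pb := AdjoinRoot.powerBasis hm.ne_zero with hpb
  have hgen : pb.gen = AdjoinRoot.root F := AdjoinRoot.powerBasis_gen hm.ne_zero
  set E := AlgebraicClosure (AdjoinRoot F)
  apply (algebraMap M E).injective
  rw [Algebra.norm_eq_prod_embeddings]
  have hsp : (F.map (algebraMap M E)).Splits := IsAlgClosed.splits _
  have hm' : (F.map (algebraMap M E)).Monic := hm.map _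
  have hdeg' : (F.map (algebraMap M E)).natDegree = F.natDegree := hm.natDegree_map _
  rw [← resultant_map_map, ← hdeg', resultant_eq_prod_eval _ _ _ (natDegree_map_le.trans hp) hsp,
    hm'.leadingCoeff, one_pow, one_mul]
  have hmp : minpoly M pb.gen = F := by rw [hgen, hmin]
  have hnd : ((minpoly M pb.gen).aroots E).Nodup := by
    rw [hmp]
    exact nodup_roots hs.map
  have key : ∏ σ : AdjoinRoot F →ₐ[M] E, σ (AdjoinRoot.mk F p) =
      ∏ x : {y : E // y ∈ (minpoly M pb.gen).aroots E}, (p.map (algebraMap M E)).eval (x : E) :=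
    Fintype.prod_equiv pb.liftEquiv' _ _ fun σ => by
      rw [PowerBasis.liftEquiv'_apply_coe, ← AdjoinRoot.aeval_eq, ← aeval_algHom_apply,
        eval_map_algebraMap, hgen]
  rw [key, Finset.prod_mem_multiset _ _ (fun x => (p.map (algebraMap M E)).eval x)
    (fun _ => rfl), Finset.prod_eq_multiset_prod, Multiset.toFinset_val,
    Multiset.dedup_eq_self.mpr hnd, hmp]

end norm

/-- Local conditions under an extension. -/
theorem locF_up {M M' : Type} [Field M] [Field M'] [Algebra M M'] {F F' : Type} [Field F]
    [Field F'] [Algebra M F] [Algebra M' F'] (ι : F →+* F')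
    (hι : ∀ x : M, ι (algebraMap M F x) = algebraMap M' F' (algebraMap M M' x)) {f h : M[X]}
    (hl : LocF F f h) : LocF F' (f.map (algebraMap M M')) (h.map (algebraMap M M')) := by
  obtain ⟨l, s, h1, h2⟩ := hl
  have hcomp : (algebraMap M' F').comp (algebraMap M M') = ι.comp (algebraMap M F) := by
    ext x
    exact (hι x).symm
  have hmap : ∀ p : M[X], (p.map (algebraMap M M')).map (algebraMap M' F') =
      (p.map (algebraMap M F)).map ι := by
    intro p
    rw [Polynomial.map_map, Polynomial.map_map, hcomp]
  refine ⟨l.map fun p => (p.1.map ι, p.2.map ι), s.map ι, ?_, ?_⟩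
  · intro p hp
    rw [List.mem_map] at hp
    obtain ⟨q, hq, rfl⟩ := hp
    obtain ⟨a1, a2, a3⟩ := h1 q hq
    refine ⟨a1.map ι, ?_, ?_⟩
    · rw [hmap]
      exact a2.map (mapRingHom ι)
    · rw [hmap]
      have := Polynomial.map_dvd ι a3
      rwa [Polynomial.map_sub, Polynomial.map_pow] at this
  · rw [hmap, hmap]
    have h3 := Polynomial.map_dvd ι h2
    rw [Polynomial.map_sub, Polynomial.map_mul, Polynomial.map_pow] at h3
    have h4 : ((l.map fun p : F[X] × F[X] => (-1) ^ p.1.natDegree * p.1).prod).map ι =
        ((l.map fun p : F[X] × F[X] => (p.1.map ι, p.2.map ι)).map fun p : F'[X] × F'[X] =>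
          (-1) ^ p.1.natDegree * p.1).prod := by
      rw [← coe_mapRingHom, map_list_prod, List.map_map, List.map_map]
      congr 1
      refine List.map_congr_left fun p hp => ?_
      simp only [Function.comp_apply, map_mul, map_pow, map_neg, map_one, coe_mapRingHom]
      rw [(h1 p hp).1.natDegree_map]
      simp
    rw [← h4]
    exact h3

/-- A polynomial which is a square over a Galois extension. -/
theorem sq_down {M M' : Type} [Field M] [Field M'] [Algebra M M'] [FiniteDimensional M M']
    [IsGalois M M'] (h2 : (2 : M) ≠ 0) {F : M[X]} (hm : F.Monic) (ho : Odd F.natDegree)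
    (hs : F.Separable) (hi : Irreducible F) (hi' : Irreducible (F.map (algebraMap M M')))
    {h : M[X]} (hc : IsCoprime h F) (hn : IsSquare (Algebra.norm M (AdjoinRoot.mk F h)))
    (hex : ∃ s : M'[X], F.map (algebraMap M M') ∣ h.map (algebraMap M M') - s ^ 2) :
    ∃ s : M[X], F ∣ h - s ^ 2 := by
  set F' := F.map (algebraMap M M') with hF'
  set h' := h.map (algebraMap M M') with hh'
  have hm' : F'.Monic := hm.map _
  have hs' : F'.Separable := hs.map
  have hd' : F'.natDegree = F.natDegree := hm.natDegree_map _
  have h2' : (2 : M') ≠ 0 := by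
    intro h0
    apply h2
    apply (algebraMap M M').injective
    rw [map_ofNat, h0, map_zero]
  haveI : Fact (Irreducible F') := ⟨hi'⟩
  obtain ⟨s₀, hs₀⟩ := hex
  set s : M'[X] := s₀ %ₘ F' with hsdef
  have hsd : s.degree < F'.degree := degree_modByMonic_lt _ hm'
  have hss : F' ∣ h' - s ^ 2 := by
    have h1 : F' ∣ s₀ - s := by
      rw [hsdef]
      have h0 := modByMonic_add_div s₀ F'
      exact ⟨s₀ /ₘ F', by linear_combination -h0⟩
    have h3 : h' - s ^ 2 = (h' - s₀ ^ 2) + (s₀ - s) * (s₀ + s) := by ring
    rw [h3]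
    exact dvd_add hs₀ (h1.mul_right _)
  -- the norm
  obtain ⟨c, hc'⟩ := hn
  have hN : Algebra.norm M' (AdjoinRoot.mk F' h') = algebraMap M M' (c * c) := by
    rw [← hc', norm_mk hm hi hs h le_rfl, norm_mk hm' hi' hs' h' natDegree_map_le, hd',
      resultant_map_map]
  have hNs : Algebra.norm M' (AdjoinRoot.mk F' s) * Algebra.norm M' (AdjoinRoot.mk F' s) =
      algebraMap M M' c * algebraMap M M' c := by
    rw [← map_mul, ← map_mul, ← map_mul, ← hN]
    congr 1
    rw [← sub_eq_zero, ← map_sub, AdjoinRoot.mk_eq_zero]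
    have : s * s - h' = -(h' - s ^ 2) := by ring
    rw [this]
    exact (dvd_neg).2 hss
  have hN0 : Algebra.norm M' (AdjoinRoot.mk F' s) ≠ 0 := by
    intro h0
    rw [h0, mul_zero] at hNs
    have h3 : algebraMap M M' c = 0 := mul_self_eq_zero.1 hNs.symm
    rw [map_mul, h3, mul_zero] at hN
    haveI : FiniteDimensional M' (AdjoinRoot F') := hm'.finite_adjoinRoot
    rw [Algebra.norm_eq_zero_iff, AdjoinRoot.mk_eq_zero] at hN
    obtain ⟨u, v, huv⟩ := hc
    have h4 : u.map (algebraMap M M') * h' + v.map (algebraMap M M') * F' = 1 := by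
      rw [hh', hF', ← Polynomial.map_mul, ← Polynomial.map_mul, ← Polynomial.map_add, huv,
        Polynomial.map_one]
    have h5 : F' ∣ 1 := by
      rw [← h4]
      exact dvd_add (hN.mul_left _) (dvd_mul_left _ _)
    exact hi'.not_isUnit (isUnit_of_dvd_one h5)
  have hfix : ∀ σ : M' ≃ₐ[M] M', s.map (σ : M' →+* M') = s := by
    intro σ
    have hFσ : F'.map (σ : M' →+* M') = F' := by
      rw [hF', Polynomial.map_map]
      congr 1
      ext x
      simp
    have hhσ : h'.map (σ : M' →+* M') = h' := by
      rw [hh', Polynomial.map_map]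
      congr 1
      ext x
      simp
    have hss' : F' ∣ h' - (s.map (σ : M' →+* M')) ^ 2 := by
      have h3 := Polynomial.map_dvd (σ : M' →+* M') hss
      rwa [Polynomial.map_sub, Polynomial.map_pow, hFσ, hhσ] at h3
    have h3 : F' ∣ (s - s.map (σ : M' →+* M')) * (s + s.map (σ : M' →+* M')) := by
      have h4 := dvd_sub hss' hss
      have e : h' - (s.map (σ : M' →+* M')) ^ 2 - (h' - s ^ 2) =
        (s - s.map (σ : M' →+* M')) * (s + s.map (σ : M' →+* M')) := by ring
      rwa [e] at h4
    have hdσ : (s.map (σ : M' →+* M')).degree < F'.degree :=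
      lt_of_le_of_lt degree_map_le hsd
    rcases hi'.prime.dvd_or_dvd h3 with h4 | h4
    · have h5 : s - s.map (σ : M' →+* M') = 0 :=
        eq_zero_of_dvd_of_degree_lt h4 ((degree_sub_le _ _).trans_lt (max_lt hsd hdσ))
      exact (sub_eq_zero.1 h5).symm
    · exfalso
      have h5 : s + s.map (σ : M' →+* M') = 0 :=
        eq_zero_of_dvd_of_degree_lt h4 ((degree_add_le _ _).trans_lt (max_lt hsd hdσ))
      have h6 : s.map (σ : M' →+* M') = -s := by linear_combination h5
      have h7 : σ (Algebra.norm M' (AdjoinRoot.mk F' s)) = Algebra.norm M' (AdjoinRoot.mk F' s) := by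
        rcases mul_self_eq_mul_self_iff.1 hNs with h8 | h8
        · rw [h8, AlgEquiv.commutes]
        · rw [h8, map_neg, AlgEquiv.commutes]
      have h8 : Algebra.norm M' (AdjoinRoot.mk F' (s.map (σ : M' →+* M'))) =
          σ (Algebra.norm M' (AdjoinRoot.mk F' s)) := by
        rw [norm_mk hm' hi' hs' _ natDegree_map_le, norm_mk hm' hi' hs' s le_rfl]
        conv_lhs => rw [← hFσ]
        rw [hFσ]
        have := resultant_map_map F' s F'.natDegree s.natDegree (σ : M' →+* M')
        rw [hFσ] at this
        exact this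
      have h9 : Algebra.norm M' (AdjoinRoot.mk F' (-s)) = -Algebra.norm M' (AdjoinRoot.mk F' s) := by
        have e : AdjoinRoot.mk F' (-s) = algebraMap M' (AdjoinRoot F') (-1) * AdjoinRoot.mk F' s := by
          rw [map_neg, map_neg, map_one, neg_one_mul]
        haveI : FiniteDimensional M' (AdjoinRoot F') := hm'.finite_adjoinRoot
        rw [e, map_mul, Algebra.norm_algebraMap, (AdjoinRoot.powerBasis hm'.ne_zero).finrank,
          AdjoinRoot.powerBasis_dim, hd', ho.neg_one_pow, neg_one_mul]
      rw [h6, h9, h7] at h8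
      have h10 : (2 : M') * Algebra.norm M' (AdjoinRoot.mk F' s) = 0 := by linear_combination -h8
      rcases mul_eq_zero.1 h10 with h11 | h11
      · exact h2' h11
      · exact hN0 h11
  have hrange : ∀ j, ∃ y : M, algebraMap M M' y = s.coeff j := by
    intro j
    have h3 : s.coeff j ∈ Set.range (algebraMap M M') := by
      rw [IsGalois.mem_range_algebraMap_iff_fixed]
      intro σ
      have h4 := congrArg (fun p : M'[X] => p.coeff j) (hfix σ)
      simp only [coeff_map] at h4
      exact h4
    exact h3
  obtain ⟨t, ht⟩ : s ∈ lifts (algebraMap M M') := by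
    rw [lifts_iff_coeff_lifts]
    intro j
    exact hrange j
  rw [coe_mapRingHom] at ht
  refine ⟨t, ?_⟩
  rw [← ht, hF', hh', ← Polynomial.map_pow, ← Polynomial.map_sub] at hss
  exact (Polynomial.map_dvd_map _ (algebraMap M M').injective hm).1 hss

end Pool.Agent.H859.SC
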