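import Pool.Agent.H859.SC.Down

/-!
# All the intermediate fields at once
-/

set_option autoImplicit false
set_option linter.all false

open Polynomial IsDedekindDomain
open scoped Classical

namespace Pool.Agent.H859.SC

open Pool.Agent.N874.JM (SelF LocF irr_up)
open Pool.Agent.N874.PM (Lies)
open Pool.Agent.H859.PJ

theorem sel_down {k : Type} [Field k] {M M' : Type} [Field M] [Field M'] [Algebra M M']
    [Algebra k[X] M] [Algebra k[X] M'] [IsScalarTower k[X] M M'] [FiniteDimensional M M']
    [IsGalois M M'] (R : Type) [CommRing R] [IsDedekindDomain R] [Algebra R M]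
    [IsFractionRing R M] [Algebra k[X] R] [IsScalarTower k[X] R M] [IsIntegralClosure R k[X] M]
    (R' : Type) [CommRing R'] [IsDedekindDomain R'] [Algebra R' M']
    [IsFractionRing R' M'] [Algebra k[X] R'] [IsScalarTower k[X] R' M']
    [IsIntegralClosure R' k[X] M'] (h2 : (2 : M) ≠ 0) {F : M[X]} (hm : F.Monic)
    (ho : Odd F.natDegree) (hs : F.Separable) (hi : Irreducible F)
    (hi' : Irreducible (F.map (algebraMap M M')))
    (hsel : SelF R' (F.map (algebraMap M M'))) : SelF R F := by
  intro h hc hn hloc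
  refine sq_down h2 hm ho hs hi hi' hc hn ?_
  apply hsel
  · exact hc.map (mapRingHom (algebraMap M M'))
  · obtain ⟨c, hc'⟩ := hn
    refine ⟨algebraMap M M' c, ?_⟩
    rw [← map_mul, ← hc', norm_mk hm hi hs h le_rfl, norm_mk (hm.map _) hi' hs.map _ natDegree_map_le,
      hm.natDegree_map, resultant_map_map]
  · intro w'
    obtain ⟨w, hl, -⟩ := Pool.Agent.N55.PM.lie k M M' R R' w'
    obtain ⟨ι, hι, -, -⟩ := Pool.Agent.N814.JM.cpl M M' R R' w w' hl
    exact locF_up ι hι (hloc w)

/-- Over all the fields between `K` and `M`. -/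
theorem final_all {g : ℕ}
    (k : Type) [Field k] [Finite k] (hg : 1 ≤ g) (h2 : (2 : k) ≠ 0)
    (K M : Type) [Field K] [Algebra k[X] K]
    [IsFractionRing k[X] K] [Field M] [Algebra K M] [Algebra k[X] M] [IsScalarTower k[X] K M]
    [FiniteDimensional K M] [IsGalois K M] {n : ℕ} (hM : Module.finrank K M = 2 ^ n) :
    ∃ c : ℝ, 0 < c ∧ ∃ N₀ : ℕ, ∀ N ≥ N₀, {f : k[X][X] | HtA g N f}.Finite ∧
    c * ({f : k[X][X] | HtA g N f}.ncard : ℝ) ≤
      ({f : k[X][X] | HtA g N f ∧ MiniA g f ∧ (f.map (algebraMap k[X] K)).Separable ∧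
        Irreducible (f.map (algebraMap k[X] K)) ∧
        ∀ (E : IntermediateField K M) (R : Type) [CommRing R] [IsDedekindDomain R] [Algebra R E]
          [IsFractionRing R E] [Algebra k[X] R] [IsScalarTower k[X] R E]
          [IsIntegralClosure R k[X] E], SelF R (f.map (algebraMap k[X] E))}.ncard : ℝ) := by
  haveI : IsDedekindDomain (integralClosure k[X] M) := integralClosure.isDedekindDomain k[X] K M
  haveI : IsFractionRing (integralClosure k[X] M) M :=
    integralClosure.isFractionRing_of_finite_extension K M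
  obtain ⟨c, hc, N₀, hN₀⟩ := final k hg h2 K M (integralClosure k[X] M) hM
  refine ⟨c, hc, N₀, fun N hN => ?_⟩
  obtain ⟨hfin, hle⟩ := hN₀ N hN
  refine ⟨hfin, hle.trans ?_⟩
  have hsub : {f : k[X][X] | HtA g N f ∧ MiniA g f ∧ (f.map (algebraMap k[X] K)).Separable ∧
        Irreducible (f.map (algebraMap k[X] K)) ∧
        SelF (integralClosure k[X] M) (f.map (algebraMap k[X] M))} ⊆
      {f : k[X][X] | HtA g N f ∧ MiniA g f ∧ (f.map (algebraMap k[X] K)).Separable ∧
        Irreducible (f.map (algebraMap k[X] K)) ∧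
        ∀ (E : IntermediateField K M) (R : Type) [CommRing R] [IsDedekindDomain R] [Algebra R E]
          [IsFractionRing R E] [Algebra k[X] R] [IsScalarTower k[X] R E]
          [IsIntegralClosure R k[X] E], SelF R (f.map (algebraMap k[X] E))} := by
    rintro f ⟨h1, h3, h4, h5, h6⟩
    refine ⟨h1, h3, h4, h5, fun E R _ _ _ _ _ _ _ => ?_⟩
    haveI : IsScalarTower k[X] K E := IntermediateField.isScalarTower _
    haveI : IsScalarTower k[X] E M := by
      refine IsScalarTower.of_algebraMap_eq fun x => ?_
      rfl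
    have hmapE : f.map (algebraMap k[X] E) =
        (f.map (algebraMap k[X] K)).map (algebraMap K E) := by
      rw [Polynomial.map_map, ← IsScalarTower.algebraMap_eq k[X] K E]
    have hmapM : f.map (algebraMap k[X] M) =
        (f.map (algebraMap k[X] E)).map (algebraMap E M) := by
      rw [Polynomial.map_map, ← IsScalarTower.algebraMap_eq k[X] E M]
    have hmapM' : f.map (algebraMap k[X] M) =
        (f.map (algebraMap k[X] K)).map (algebraMap K M) := by
      rw [Polynomial.map_map, ← IsScalarTower.algebraMap_eq k[X] K M]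
    have hmK : (f.map (algebraMap k[X] K)).Monic := h1.mon.map _
    have hdK : (f.map (algebraMap k[X] K)).natDegree = 2 * g + 1 := by
      rw [h1.mon.natDegree_map, h1.deg]
    have hodd : Odd (f.map (algebraMap k[X] K)).natDegree := by
      rw [hdK]; exact odd_two_mul_add_one g
    have hfE : Module.finrank K E ∣ 2 ^ n := by
      rw [← hM, ← Module.finrank_mul_finrank K E M]
      exact dvd_mul_right _ _
    obtain ⟨m, -, hm⟩ := (Nat.dvd_prime_pow Nat.prime_two).1 hfE
    have h2E : (2 : E) ≠ 0 := by
      letI : Algebra k E := ((algebraMap k[X] E).comp C).toAlgebra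
      have h3 : algebraMap k E 2 ≠ 0 := by
        rw [Ne, map_eq_zero_iff _ (algebraMap k E).injective]
        exact h2
      rwa [map_ofNat] at h3
    have hiE : Irreducible (f.map (algebraMap k[X] E)) := by
      rw [hmapE]
      exact irr_up hm h5 hmK hodd
    have hiM : Irreducible ((f.map (algebraMap k[X] E)).map (algebraMap E M)) := by
      rw [← hmapM, hmapM']
      exact irr_up hM h5 hmK hodd
    refine sel_down (k := k) (M := E) (M' := M) R (integralClosure k[X] M) h2E (h1.mon.map _) ?_ ?_ hiE hiM ?_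
    · rw [h1.mon.natDegree_map, h1.deg]
      exact odd_two_mul_add_one g
    · rw [hmapE]
      exact h4.map
    · rw [← hmapM]
      exact h6
  exact_mod_cast Set.ncard_le_ncard hsub (hfin.subset fun f hf => hf.1)

end Pool.Agent.H859.SC
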