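import Pool.Agent.H859.SC.N874JMCnt
import Pool.Agent.H859.SC.N874JMPar
import Pool.Agent.H859.SC.DA8
import Pool.Graph.R_pool_sql_team_seeded_63374d34.N874.PM.Final

/-!
# A positive proportion of all odd hyperelliptic Jacobians over a Galois 2-extension, in every odd
# characteristic: the theorem
-/

set_option autoImplicit false
set_option linter.all false

open Polynomial IsDedekindDomain
open Pool.Agent.H859.PJ
open scoped Classical IntermediateField

namespace Pool.Agent.H859.SC

open Pool.Agent.N874.JM (SelF)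

theorem final {g : ℕ}
    (k : Type) [Field k] [Finite k] (hg : 1 ≤ g) (h2 : (2 : k) ≠ 0)
    (K M : Type) [Field K] [Algebra k[X] K]
    [IsFractionRing k[X] K] [Field M] [Algebra K M] [Algebra k[X] M] [IsScalarTower k[X] K M]
    [FiniteDimensional K M] [IsGalois K M] (R : Type) [CommRing R] [IsDedekindDomain R]
    [Algebra R M] [IsFractionRing R M] [Algebra k[X] R] [IsScalarTower k[X] R M]
    [IsIntegralClosure R k[X] M] {n : ℕ} (hM : Module.finrank K M = 2 ^ n) :
    ∃ c : ℝ, 0 < c ∧ ∃ N₀ : ℕ, ∀ N ≥ N₀, {f : k[X][X] | HtA g N f}.Finite ∧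
    c * ({f : k[X][X] | HtA g N f}.ncard : ℝ) ≤
      ({f : k[X][X] | HtA g N f ∧ MiniA g f ∧ (f.map (algebraMap k[X] K)).Separable ∧
        Irreducible (f.map (algebraMap k[X] K)) ∧
        SelF R (f.map (algebraMap k[X] M))}.ncard : ℝ) :=
  Pool.Agent.H859.N874.JM.mainF Pool.Agent.H859.N874.JM.parts Pool.Agent.H859.DA.famt
    Pool.Agent.H859.N874.JM.bad Pool.Agent.H859.Tch.gr Pool.Agent.H859.Tch.tch
    Pool.Agent.N169.PM.gen Pool.Agent.H859.PJ.spl k hg h2 K M R hM

end Pool.Agent.H859.SC
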