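import Pool.Agent.H859.SC.N352PJIdx
import Pool.Graph.R_pool_sql_team_seeded_63374d34.N415.PJ.MAIN
import Pool.Graph.R_pool_sql_team_seeded_63374d34.N160.PP.BOX

/-!
# The number of polynomials of bounded height (after `N415/PJ/MAIN.lean` of helper415)
-/

set_option autoImplicit false
set_option linter.all false

open Polynomial IsDedekindDomain
open scoped Classical

namespace Pool.Agent.H859.N415.PJMAIN
open Pool.Agent.N415.PJMAIN Pool.Agent.H859.PJ
open Pool.Agent.N874.PP (nm)
open Pool.Agent.N352.PJ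
open Pool.Agent.N160.PP (card_degreeLT mem_degreeLT')

section basic

variable {k : Type} [Field k] {g : ℕ}

/-- the exponent -/
lemma sum_ddA (g M : ℕ) :
    ∑ j : Fin (2 * g + 1), (M * (2 * g + 1 - (j : ℕ)) + 1) = M * ddA g + (2 * g + 1) := by
  rw [Finset.sum_add_distrib, ← Finset.mul_sum, Finset.sum_const, Finset.card_univ,
    Fintype.card_fin, smul_eq_mul, mul_one]
  congr 2
  have h1 : ∀ n : ℕ, 2 * ∑ j ∈ Finset.range (n + 1), (n + 1 - j) = (n + 1) * (n + 2) := by
    intro n
    induction n with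
    | zero => rfl
    | succ n ih =>
      rw [Finset.sum_range_succ']
      have h2 : ∀ j ∈ Finset.range (n + 1), n + 1 + 1 - (j + 1) = n + 1 - j :=
        fun j _ => by omega
      rw [Finset.sum_congr rfl h2, mul_add, ih]
      rw [Nat.sub_zero]
      ring
  have h2 := h1 (2 * g)
  rw [Finset.sum_range] at h2
  unfold ddA
  have h3 : 2 * ∑ j : Fin (2 * g + 1), (2 * g + 1 - (j : ℕ)) = 2 * (2 * g ^ 2 + 3 * g + 1) := by
    rw [h2]; ring
  omega

variable [Finite k]

theorem ht_card (g M : ℕ) : {f : k[X][X] | HtA g M f}.Finite ∧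
    {f : k[X][X] | HtA g M f}.ncard ≤ Nat.card k ^ (M * ddA g + (2 * g + 1)) := by
  set T := ∀ j : Fin (2 * g + 1), degreeLT k (M * (2 * g + 1 - (j : ℕ)) + 1) with hT
  let Φ : {f : k[X][X] | HtA g M f} → T := fun f j => ⟨f.1.coeff j, by
    have h1 := f.2.ht j (by have := j.2; omega)
    exact mem_degreeLT' (by omega)⟩
  have hΦ : Function.Injective Φ := by
    rintro ⟨f, hf⟩ ⟨f', hf'⟩ h
    apply Subtype.ext
    show f = f'
    ext1 j
    rcases Nat.lt_or_ge j (2 * g + 1) with hj | hj
    · exact congrArg (fun t : T => ((t ⟨j, hj⟩ : degreeLT k _) : k[X])) h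
    rcases Nat.eq_or_lt_of_le hj with hj | hj
    · have e1 : f.coeff j = 1 := by
        rw [← hj, ← hf.deg]; exact hf.mon
      have e2 : f'.coeff j = 1 := by
        rw [← hj, ← hf'.deg]; exact hf'.mon
      rw [e1, e2]
    · rw [coeff_eq_zero_of_natDegree_lt (by rw [hf.deg]; exact hj),
        coeff_eq_zero_of_natDegree_lt (by rw [hf'.deg]; exact hj)]
  have hfin : Finite {f : k[X][X] | HtA g M f} := Finite.of_injective Φ hΦ
  refine ⟨Set.toFinite _, ?_⟩
  have h1 := Nat.card_le_card_of_injective Φ hΦ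
  rw [Nat.card_coe_set_eq] at h1
  refine h1.trans (le_of_eq ?_)
  rw [hT, Nat.card_pi]
  simp only [card_degreeLT]
  rw [Finset.prod_pow_eq_pow_sum, sum_ddA]

omit [Finite k] in
/-- twisting and the height -/
theorem ht_scale {M N : ℕ} {f : k[X][X]} (hf : HtA g N f) {D : k[X]} (hM : N + D.natDegree ≤ M) :
    HtA g M (f.scaleRoots D) where
  mon := by
    rw [monic_scaleRoots_iff]; exact hf.mon
  deg := by rw [natDegree_scaleRoots, hf.deg]
  ht := by
    intro j hj
    rw [coeff_scaleRoots, hf.deg]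
    refine natDegree_mul_le.trans ?_
    have h1 := hf.ht j hj
    have h2 : (D ^ (2 * g + 1 - j)).natDegree ≤ (2 * g + 1 - j) * D.natDegree := natDegree_pow_le
    calc (f.coeff j).natDegree + (D ^ (2 * g + 1 - j)).natDegree
        ≤ N * (2 * g + 1 - j) + (2 * g + 1 - j) * D.natDegree := add_le_add h1 h2
      _ = (N + D.natDegree) * (2 * g + 1 - j) := by ring
      _ ≤ _ := Nat.mul_le_mul_right _ hM

end basic

end Pool.Agent.H859.N415.PJMAIN
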