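import Pool.Graph.R_pool_sql_team_seeded_63374d34.N2.PM.Spl

/-!
# Primes of `k[X]` modulo which `g` splits, in every characteristic (after helper2)
-/

set_option autoImplicit false

open Polynomial
open Pool.Agent.N874.PM Pool.Agent.N874.PP
open scoped IntermediateField

namespace Pool.Agent.H859.PJ

/-- Arbitrarily many primes modulo which `g` splits. -/
def S_SPLA : Prop := ∀ (k K M : Type) [Field k] [Finite k] [Field K] [Algebra k[X] K]
  [IsFractionRing k[X] K] [Field M] [Algebra K M] [Algebra k[X] M] [IsScalarTower k[X] K M]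
  [FiniteDimensional K M] [IsGalois K M] (γ : M) (g : k[X][X]) (δ : k[X]),
  Gen K γ g δ → g.natDegree = Module.finrank K M → ∀ (T : Finset k[X]) (r : ℕ),
  ∃ (S : Finset k[X]), (∀ Q ∈ S, Q.Monic ∧ Irreducible Q) ∧ S.card = r ∧ Disjoint S T ∧
    ∀ Q ∈ S, SplitMod Q g

theorem spl : S_SPLA := by
  classical
  intro k K M _ _ _ _ _ _ _ _ _ _ _ γ g δ hG hd T r
  obtain ⟨Δ, hΔ0, hΔ⟩ := Pool.Agent.N2.PM.claim1 γ g δ hG hd
  have hg0 : g.natDegree ≠ 0 := by
    rw [hd]; exact Module.finrank_pos.ne'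
  have hinf : {Q : k[X] | Q.Monic ∧ Irreducible Q ∧ SplitMod Q g}.Infinite := by
    intro hfin
    set P₀ : k[X] := Δ * ∏ Q ∈ hfin.toFinset, Q with hPi
    have hPi0 : P₀ ≠ 0 := by
      refine mul_ne_zero hΔ0 (Finset.prod_ne_zero_iff.2 fun Q hQ => ?_)
      exact (hfin.mem_toFinset.1 hQ).1.ne_zero
    obtain ⟨Q, c, h1, h2, h3, h4⟩ := Pool.Agent.N2.PM.claim2 g hG.monic hg0 P₀ hPi0
    have h5 : SplitMod Q g := hΔ Q h2 (fun h => h3 (h.mul_right _)) c h4
    apply h3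
    exact (Finset.dvd_prod_of_mem _ (hfin.mem_toFinset.2 ⟨h1, h2, h5⟩)).mul_left _
  obtain ⟨S, hS1, hS2⟩ := (hinf.sdiff T.finite_toSet).exists_subset_card_eq r
  refine ⟨S, ?_, hS2, ?_, ?_⟩
  · intro Q hQ
    have h := (hS1 hQ).1
    exact ⟨h.1, h.2.1⟩
  · rw [Finset.disjoint_left]
    intro Q hQ hQT
    exact (hS1 hQ).2 hQT
  · intro Q hQ
    exact (hS1 hQ).1.2.2

end Pool.Agent.H859.PJ
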