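import Pool.Agent.H859.SC.N352PJIdx
import Pool.Graph.R_pool_sql_team_seeded_63374d34.N874.JM.Cnt
import Pool.Agent.H859.SC.N874JMFld
import Pool.Agent.H859.SC.MiniA
import Pool.Agent.H859.SC.N415PJMAIN
import Pool.Agent.H859.SC.Spl
import Pool.Graph.R_pool_sql_team_seeded_63374d34.N530.PP.Orb

/-!
# A positive proportion of all odd hyperelliptic Jacobians over a Galois 2-extension: counting

Project JM (helper874), after `N415/PJ/MAIN.lean` of helper415 and `N352/PJ/Mini.lean` of helper352.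
-/

set_option autoImplicit false
set_option linter.all false

open Polynomial IsDedekindDomain
open Pool.Agent.N352.PJ
open Pool.Agent.N415.PJMAIN hiding ht_card ht_scale
open Pool.Agent.H859.N415.PJMAIN
open Pool.Agent.N874.PP (nm Ov Ev Sq1 U0)
open Pool.Agent.N874.PM (Gen SplitMod S_GEN S_SPL)
open scoped Classical IntermediateField

namespace Pool.Agent.H859.N874.JM
open Pool.Agent.N874.JM Pool.Agent.H859.PJ
/-- Many polynomials of the family are not bad. -/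
theorem good_cardT {g : ℕ} {k : Type} [Field k] [Finite k] (hFAMT : S_FAMTA) (hBAD : S_BADA)
    (hg : 1 ≤ g) (h2 : (2 : k) ≠ 0) {r : k[X]}
    (hr : GoodRA g r) {T : Finset k[X]} {A : k[X] → k[X][X]} (hT : GoodTA g T A)
    (Φ : k[X] → Prop)
    (hEX : ∀ m : ℕ, ∃ (S : Finset k[X]) (s : k[X] → k[X][X]), GoodSA g S s ∧ S.card = m ∧
      Disjoint S T ∧ ∀ Q ∈ S, Φ Q) :
    ∃ (S : Finset k[X]) (s : k[X] → k[X][X]) (c : ℝ), GoodSA g S s ∧ Disjoint S T ∧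
      (∀ Q ∈ S, Φ Q) ∧ 0 < c ∧ ∃ N₀ : ℕ, ∀ N ≥ N₀,
      c * (Nat.card k : ℝ) ^ (2 * N * ddA g) ≤
        ({f : k[X][X] | FamTA g N r S s T A f ∧ ¬ LBadA g N S s f}.ncard : ℝ) := by
  obtain ⟨c, hc, hfam⟩ := hFAMT g k hg h2 r hr T A hT
  obtain ⟨m, hm⟩ : ∃ m : ℕ, 2 ^ (g + 2) * (Nat.card k : ℝ) ^ ddA g / c < 2 ^ m :=
    pow_unbounded_of_one_lt _ (by norm_num)
  obtain ⟨S, s, hS, hcard, hdis, hΦ⟩ := hEX m
  obtain ⟨N₁, h1⟩ := hfam S s hS hdis
  obtain ⟨N₂, h2⟩ := hBAD g k hg h2 S s hS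
  have hq : (0 : ℝ) < Nat.card k := by exact_mod_cast Nat.card_pos
  set P : ℕ := ∏ Q ∈ S, nm Q ^ (2 * g + 1) with hP
  have hP0 : (0 : ℝ) < P := by
    have : 0 < P := Finset.prod_pos fun Q _ => pow_pos (pow_pos Nat.card_pos _) _
    exact_mod_cast this
  refine ⟨S, s, c / (2 * P), hS, hdis, hΦ, by positivity, max N₁ N₂, fun N hN => ?_⟩
  have hF := h1 N ((le_max_left _ _).trans hN)
  obtain ⟨hfin, hB⟩ := h2 N ((le_max_right _ _).trans hN)
  have hd := Set.le_ncard_diff {f : k[X][X] | LBadA g N S s f}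
    {f : k[X][X] | FamTA g N r S s T A f} hfin
  have e : {f : k[X][X] | FamTA g N r S s T A f} \ {f : k[X][X] | LBadA g N S s f} =
      {f : k[X][X] | FamTA g N r S s T A f ∧ ¬ LBadA g N S s f} := rfl
  rw [e] at hd
  set F : ℕ := {f : k[X][X] | FamTA g N r S s T A f}.ncard
  set Bd : ℕ := {f : k[X][X] | LBadA g N S s f}.ncard
  set G : ℕ := {f : k[X][X] | FamTA g N r S s T A f ∧ ¬ LBadA g N S s f}.ncard
  have hd' : (F : ℝ) ≤ Bd + G := by
    have : F ≤ Bd + G := by omega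
    exact_mod_cast this
  have hB' : (2 : ℝ) ^ m * P * Bd ≤ 2 ^ (g + 1) * (Nat.card k : ℝ) ^ ((2 * N + 1) * ddA g) := by
    rw [hcard] at hB
    exact_mod_cast hB
  have hF' : c * (Nat.card k : ℝ) ^ (2 * N * ddA g) ≤ P * F := hF
  rw [div_lt_iff₀ hc] at hm
  have hPB : P * (Bd : ℝ) ≤ c / 2 * (Nat.card k : ℝ) ^ (2 * N * ddA g) := by
    have h2r : (0 : ℝ) < 2 ^ m := by positivity
    rw [← mul_le_mul_iff_right₀ h2r]
    calc 2 ^ m * (P * (Bd : ℝ)) = 2 ^ m * P * Bd := by ring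
      _ ≤ 2 ^ (g + 1) * (Nat.card k : ℝ) ^ ((2 * N + 1) * ddA g) := hB'
      _ = (2 ^ (g + 2) * (Nat.card k : ℝ) ^ ddA g) * ((Nat.card k : ℝ) ^ (2 * N * ddA g) / 2) := by
        rw [show (2 * N + 1) * ddA g = 2 * N * ddA g + ddA g by ring, pow_add]
        ring
      _ ≤ (2 ^ m * c) * ((Nat.card k : ℝ) ^ (2 * N * ddA g) / 2) := by gcongr
      _ = 2 ^ m * (c / 2 * (Nat.card k : ℝ) ^ (2 * N * ddA g)) := by ring
  have hPG : c / 2 * (Nat.card k : ℝ) ^ (2 * N * ddA g) ≤ P * G := by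
    have : (P : ℝ) * F ≤ P * Bd + P * G := by
      rw [← mul_add]
      exact mul_le_mul_of_nonneg_left hd' hP0.le
    linarith
  calc c / (2 * P) * (Nat.card k : ℝ) ^ (2 * N * ddA g)
      = c / 2 * (Nat.card k : ℝ) ^ (2 * N * ddA g) / P := by field_simp
    _ ≤ P * G / P := by gcongr
    _ = G := by field_simp

/-- A positive proportion of all curves, over `M`. -/
theorem mainF (H : PartsA) (hFAMT : S_FAMTA) (hBAD : S_BADA) (hGR : S_GRA)
    (hTCH : S_TCHA) (hGEN : S_GEN) (hSPL : S_SPLA) {g : ℕ}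
    (k : Type) [Field k] [Finite k] (hg : 1 ≤ g) (h2 : (2 : k) ≠ 0)
    (K M : Type) [Field K] [Algebra k[X] K]
    [IsFractionRing k[X] K] [Field M] [Algebra K M] [Algebra k[X] M] [IsScalarTower k[X] K M]
    [FiniteDimensional K M] [IsGalois K M] (R : Type) [CommRing R] [IsDedekindDomain R]
    [Algebra R M] [IsFractionRing R M] [Algebra k[X] R] [IsScalarTower k[X] R M]
    [IsIntegralClosure R k[X] M] {n : ℕ} (hM : Module.finrank K M = 2 ^ n) :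
    ∃ c : ℝ, 0 < c ∧ ∃ N₀ : ℕ, ∀ N ≥ N₀, {f : k[X][X] | HtA g N f}.Finite ∧
    c * ({f : k[X][X] | HtA g N f}.ncard : ℝ) ≤
      ({f : k[X][X] | HtA g N f ∧ MiniA g f ∧ (f.map (algebraMap k[X] K)).Separable ∧
        Irreducible (f.map (algebraMap k[X] K)) ∧
        SelF R (f.map (algebraMap k[X] M))}.ncard : ℝ) := by
  obtain ⟨r, hr⟩ := hGR g k hg
  obtain ⟨γ, m, δ, hG, hdeg⟩ := hGEN k K M
  -- the prime divisors of `δ`
  obtain ⟨T, hT', hδ⟩ : ∃ T : Finset k[X], (∀ P ∈ T, P.Monic ∧ Irreducible P) ∧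
      ∀ P : k[X], P.Monic → Irreducible P → P ∣ δ → P ∈ T := by
    have hf : {P : k[X] | P.Monic ∧ Irreducible P ∧ P ∣ δ}.Finite := by
      refine (N530.PP.fin_nd δ.natDegree).subset ?_
      rintro P ⟨-, -, h⟩
      exact natDegree_le_of_dvd h hG.ne
    refine ⟨hf.toFinset, fun P hP => ?_, fun P h1 h2 h3 => ?_⟩
    · have := hf.mem_toFinset.1 hP
      exact ⟨this.1, this.2.1⟩
    · exact hf.mem_toFinset.2 ⟨h1, h2, h3⟩
  obtain ⟨A, hT⟩ := (hTCH g k hg T hT').1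
  obtain ⟨S, s, c, hS, hdis, hsp, hc, N₀, hN₀⟩ := good_cardT hFAMT hBAD hg h2 hr hT
    (fun Q => SplitMod Q m) (by
      intro a
      obtain ⟨S, hS, hcard, hdis, hsp⟩ := hSPL k K M γ m δ hG hdeg T a
      obtain ⟨h, hh⟩ := (hTCH g k hg S (fun Q hQ => ⟨(hS Q hQ).1, (hS Q hQ).2⟩)).2
      exact ⟨S, h, hh, hcard, hdis, hsp⟩)
  set e : ℕ := (∏ Q ∈ S, Q).natDegree with he
  have hq : (0 : ℝ) < Nat.card k := by exact_mod_cast Nat.card_pos
  have hq1 : (1 : ℝ) ≤ Nat.card k := by exact_mod_cast Nat.card_pos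
  have hS0 : (∏ Q ∈ S, Q) ≠ 0 := by
    rw [Finset.prod_ne_zero_iff]
    exact fun Q hQ => (hS Q hQ).2.1.ne_zero
  refine ⟨c / (2 ^ S.card * (Nat.card k : ℝ) ^ ((e + 1) * ddA g + (2 * g + 1))), by positivity,
    2 * N₀ + e, fun M' hM' => ⟨(ht_card g M').1, ?_⟩⟩
  obtain ⟨N, hN, hN1, hN2⟩ : ∃ N, N₀ ≤ N ∧ 2 * N + e ≤ M' ∧ M' ≤ 2 * N + e + 1 :=
    ⟨(M' - e) / 2, by omega, by omega, by omega⟩
  have hG' := hN₀ N hN
  set Hs := {f : k[X][X] | HtA g M' f ∧ MiniA g f ∧ (f.map (algebraMap k[X] K)).Separable ∧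
        Irreducible (f.map (algebraMap k[X] K)) ∧ SelF R (f.map (algebraMap k[X] M))} with hH
  set G := {f : k[X][X] | FamTA g N r S s T A f ∧ ¬ LBadA g N S s f} with hGdef
  have hHf : Hs.Finite := (ht_card g M').1.subset fun f hf => hf.1
  have hGf : G.Finite := (ht_card g (2 * N)).1.subset fun f hf => hf.1.fam.ht
  have hJ0 : ∀ J ⊆ S, (∏ Q ∈ J, Q) ≠ 0 := by
    intro J hJ
    rw [Finset.prod_ne_zero_iff]
    exact fun Q hQ => (hS Q (hJ hQ)).2.1.ne_zero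
  have hJs : ∀ J ⊆ S, Squarefree (∏ Q ∈ J, Q) := by
    intro J hJ
    refine Finset.squarefree_prod_of_pairwise_isCoprime ?_ fun Q hQ => (hS Q (hJ hQ)).2.1.squarefree
    intro Q hQ Q' hQ' hne
    show IsRelPrime Q Q'
    refine IsCoprime.isRelPrime ?_
    rw [(hS Q (hJ hQ)).2.1.coprime_iff_not_dvd]
    intro hd
    exact hne (eq_of_monic_of_associated (hS Q (hJ hQ)).1 (hS Q' (hJ hQ')).1
      ((hS Q (hJ hQ)).2.1.associated_of_dvd (hS Q' (hJ hQ')).2.1 hd))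
  have hcard := card_fib hGf hHf S (fun J f => f.scaleRoots (∏ Q ∈ J, Q)) (by
      intro f hf
      obtain ⟨J, hJ, hsel⟩ := selF H K M R hM h2 hg hr hS hf.1 hf.2 hT hG hsp hδ hdis
      have hDle : (∏ Q ∈ J, Q).natDegree ≤ e :=
        natDegree_le_of_dvd (Finset.prod_dvd_prod_of_subset _ _ _ hJ) hS0
      obtain ⟨-, i2, i3⟩ := H.irk g k K f N r (∏ Q ∈ J, Q) hf.1.fam.ht hr hf.1.fam.inf (hJ0 J hJ)
      exact ⟨J, hJ, ht_scale hf.1.fam.ht (by omega),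
        mini_scale hg hf.1.fam.ht.mon hf.1.fam.ht.deg hf.1.fam.sq (hJs J hJ),
        (i3 hf.1.fam.sq.ne_zero).2, i2, hsel⟩) (by
      intro J hJ x hx y hy hxy
      exact scale_inj (hJ0 J hJ) (by rw [hx.1.fam.ht.deg, hy.1.fam.ht.deg]) hxy)
  have hcard' : (G.ncard : ℝ) ≤ 2 ^ S.card * Hs.ncard := by exact_mod_cast hcard
  have hM'' : ({f : k[X][X] | HtA g M' f}.ncard : ℝ) ≤
      (Nat.card k : ℝ) ^ (2 * N * ddA g) * (Nat.card k : ℝ) ^ ((e + 1) * ddA g + (2 * g + 1)) := by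
    have h3 : ({f : k[X][X] | HtA g M' f}.ncard : ℝ) ≤
        (Nat.card k : ℝ) ^ (M' * ddA g + (2 * g + 1)) := by
      exact_mod_cast (ht_card (k := k) g M').2
    refine h3.trans ?_
    rw [← pow_add]
    refine pow_le_pow_right₀ hq1 ?_
    have h4 : M' * ddA g ≤ (2 * N + e + 1) * ddA g := Nat.mul_le_mul_right _ hN2
    calc M' * ddA g + (2 * g + 1) ≤ (2 * N + e + 1) * ddA g + (2 * g + 1) := by omega
      _ = _ := by ring
  have hpow : (0 : ℝ) < (Nat.card k : ℝ) ^ ((e + 1) * ddA g + (2 * g + 1)) := by positivity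
  calc c / (2 ^ S.card * (Nat.card k : ℝ) ^ ((e + 1) * ddA g + (2 * g + 1))) *
        ({f : k[X][X] | HtA g M' f}.ncard : ℝ)
      ≤ c / (2 ^ S.card * (Nat.card k : ℝ) ^ ((e + 1) * ddA g + (2 * g + 1))) *
        ((Nat.card k : ℝ) ^ (2 * N * ddA g) * (Nat.card k : ℝ) ^ ((e + 1) * ddA g + (2 * g + 1))) :=
        mul_le_mul_of_nonneg_left hM'' (by positivity)
    _ = c * (Nat.card k : ℝ) ^ (2 * N * ddA g) / 2 ^ S.card := by
        field_simp
    _ ≤ (G.ncard : ℝ) / 2 ^ S.card := by gcongr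
    _ ≤ (2 ^ S.card * Hs.ncard) / 2 ^ S.card := by gcongr
    _ = Hs.ncard := by field_simp

end Pool.Agent.H859.N874.JM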